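import Mathlib

/-!
# Judicious bisections: admissible constants
-/

namespace Pool.Agent.Bis

/-- The number of edges of `G` with both endpoints in `S`. -/
noncomputable def edgesIn {V : Type} (G : SimpleGraph V) (S : Set V) : ℕ :=
  {e ∈ G.edgeSet | ∀ v ∈ e, v ∈ S}.ncard

/-- `S` and its complement form a bisection: their sizes differ by at most one. -/
def IsBisection {V : Type} (S : Set V) : Prop :=
  S.ncard ≤ Sᶜ.ncard + 1 ∧ Sᶜ.ncard ≤ S.ncard + 1

/-- `Admissible k c`: every finite graph with minimum degree at least `k` has a bisection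
with at most `c * e(G)` edges inside each class. -/
def Admissible (k : ℕ) (c : ℝ) : Prop :=
  ∀ (V : Type) [Finite V] (G : SimpleGraph V), (∀ v, k ≤ (G.neighborSet v).ncard) →
    ∃ S : Set V, IsBisection S ∧
      max (edgesIn G S : ℝ) (edgesIn G Sᶜ) ≤ c * G.edgeSet.ncard

end Pool.Agent.Bis
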