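import Mathlib

/-!
# Judicious bisections for all minimum degrees: common definitions
-/

namespace Pool.Agent.Bis

open Finset

/-- the sign of a Boolean -/
def sg (b : Bool) : ℝ := if b then 1 else -1

/-- the Rademacher average `E |∑ ± b i|` -/
noncomputable def rad {ι : Type} [Fintype ι] [DecidableEq ι] (b : ι → ℝ) : ℝ :=
  (∑ η : ι → Bool, |∑ i, sg (η i) * b i|) / 2 ^ Fintype.card ι

section
variable {V : Type} [Fintype V] [DecidableEq V] (G : SimpleGraph V) [DecidableRel G.Adj]

/-- the degree as a real number -/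
def dg (v : V) : ℝ := (G.degree v : ℝ)

/-- the adjacency form; every edge is counted twice in `BF G x x` -/
def BF (x y : V → ℝ) : ℝ := ∑ u, ∑ v, if G.Adj u v then x u * y v else 0

/-- the degree weighted sum of `x` -/
def SF (x : V → ℝ) : ℝ := ∑ v, dg G v * x v

/-- there is a bisection which is good for the constant `1 / K`:
with `Q = ∑_{uv ∈ E} x u x v` and `S = ∑ d v x v`, it says `Q + |S| ≤ m / K`. -/
def GoodB (K : ℝ) : Prop :=
  ∃ x : V → ℝ, (∀ v, x v = 1 ∨ x v = -1) ∧ |∑ v, x v| ≤ 1 ∧
    K * (BF G x x + 2 * |SF G x|) ≤ ∑ v, dg G v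

/-- `π` is a perfect pairing of the set `U` -/
def IsPairing (U : Finset V) (π : V → V) : Prop :=
  ∀ v ∈ U, π v ∈ U ∧ π v ≠ v ∧ π (π v) = v

/-- number of vertices of `U` adjacent to their partner -/
def adjc (U : Finset V) (π : V → V) : ℕ := (U.filter fun v => G.Adj v (π v)).card

/-- the sum of the squared degree gaps over the pairs of the pairing -/
noncomputable def gap2 (U : Finset V) (π : V → V) : ℝ :=
  (∑ v ∈ U, (dg G v - dg G (π v)) ^ 2) / 2

/-- number of neighbours inside `W` -/
def degIn (W : Finset V) (v : V) : ℕ := (W.filter fun u => G.Adj v u).card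

end

end Pool.Agent.Bis
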