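import Mathlib
import Pool.Agent.Bis.Defs

/-!
# Bounds for the Rademacher average `rad`
-/

namespace Pool.Agent.Bis
open Finset

section
variable {ι : Type} [Fintype ι] [DecidableEq ι]

/-- the signed sum -/
def Rad_L (η : ι → Bool) (b : ι → ℝ) : ℝ := ∑ i, sg (η i) * b i

/-- flip one coordinate -/
def Rad_flip (j : ι) (η : ι → Bool) : ι → Bool := Function.update η j (!(η j))

/-- replace the sign of `j` by the relative sign of `i` and `j` -/
def Rad_tw (i j : ι) (η : ι → Bool) : ι → Bool := Function.update η j (η j == η i)

lemma Rad_sg_not (b : Bool) : sg (!b) = - sg b := by cases b <;> simp [sg]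

lemma Rad_sg_beq (a b : Bool) : sg (a == b) = sg a * sg b := by cases a <;> cases b <;> simp [sg]

lemma Rad_sg_cases (b : Bool) : sg b = 1 ∨ sg b = -1 := by cases b <;> simp [sg]

lemma Rad_sg_sq (b : Bool) : sg b * sg b = 1 := by cases b <;> simp [sg]

lemma Rad_flip_inv (j : ι) : Function.Involutive (Rad_flip j) := by
  intro η
  unfold Rad_flip
  simp

lemma Rad_tw_inv (i j : ι) (hij : i ≠ j) : Function.Involutive (Rad_tw i j) := by
  intro η
  unfold Rad_tw
  rw [Function.update_of_ne hij]
  simp only [Function.update_self, Function.update_idem]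
  have h : (((η j == η i) == η i) : Bool) = η j := by cases η j <;> cases η i <;> rfl
  rw [h]
  exact Function.update_eq_self j η

lemma Rad_sum_flip (j : ι) (F : (ι → Bool) → ℝ) : ∑ η, F (Rad_flip j η) = ∑ η, F η :=
  Equiv.sum_comp (Rad_flip_inv j).toPerm F

lemma Rad_sum_tw (i j : ι) (hij : i ≠ j) (F : (ι → Bool) → ℝ) :
    ∑ η, F (Rad_tw i j η) = ∑ η, F η :=
  Equiv.sum_comp (Rad_tw_inv i j hij).toPerm F

lemma Rad_L_update (η : ι → Bool) (b : ι → ℝ) (j : ι) (v : Bool) :
    Rad_L (Function.update η j v) b = Rad_L η b + (sg v - sg (η j)) * b j := by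
  unfold Rad_L
  rw [← Finset.add_sum_erase _ _ (Finset.mem_univ j),
    ← Finset.add_sum_erase (Finset.univ) (fun i => sg (η i) * b i) (Finset.mem_univ j)]
  have : ∑ x ∈ Finset.univ.erase j, sg (Function.update η j v x) * b x =
      ∑ x ∈ Finset.univ.erase j, sg (η x) * b x := by
    refine Finset.sum_congr rfl fun x hx => ?_
    rw [Function.update_of_ne (Finset.ne_of_mem_erase hx)]
  rw [this, Function.update_self]
  ring

lemma Rad_L_update_b (η : ι → Bool) (b : ι → ℝ) (j : ι) (c : ℝ) :
    Rad_L η (Function.update b j c) = Rad_L η b + sg (η j) * (c - b j) := by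
  unfold Rad_L
  rw [← Finset.add_sum_erase _ _ (Finset.mem_univ j),
    ← Finset.add_sum_erase (Finset.univ) (fun i => sg (η i) * b i) (Finset.mem_univ j)]
  have : ∑ x ∈ Finset.univ.erase j, sg (η x) * (Function.update b j c x) =
      ∑ x ∈ Finset.univ.erase j, sg (η x) * b x := by
    refine Finset.sum_congr rfl fun x hx => ?_
    rw [Function.update_of_ne (Finset.ne_of_mem_erase hx)]
  rw [this, Function.update_self]
  ring

lemma Rad_L_flip (η : ι → Bool) (b : ι → ℝ) (j : ι) :
    Rad_L (Rad_flip j η) b = Rad_L η b - 2 * (sg (η j) * b j) := by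
  unfold Rad_flip
  rw [Rad_L_update, Rad_sg_not]
  ring

lemma Rad_eq (b : ι → ℝ) : rad b = (∑ η : ι → Bool, |Rad_L η b|) / 2 ^ Fintype.card ι := rfl

lemma Rad_card : ((Finset.univ : Finset (ι → Bool)).card : ℝ) = 2 ^ Fintype.card ι := by
  rw [Finset.card_univ, Fintype.card_fun, Fintype.card_bool]
  push_cast
  rfl

/-- the second moment -/
lemma Rad_second (b : ι → ℝ) :
    ∑ η : ι → Bool, (Rad_L η b) ^ 2 = 2 ^ Fintype.card ι * ∑ i, b i ^ 2 := by
  have h1 : ∀ η : ι → Bool, (Rad_L η b) ^ 2 = ∑ i, ∑ j, (sg (η i) * sg (η j)) * (b i * b j) := by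
    intro η
    unfold Rad_L
    rw [sq, Finset.sum_mul_sum]
    exact Finset.sum_congr rfl fun i _ => Finset.sum_congr rfl fun j _ => by ring
  have h2 : ∀ i j : ι, ∑ η : ι → Bool, (sg (η i) * sg (η j)) =
      if i = j then (2 : ℝ) ^ Fintype.card ι else 0 := by
    intro i j
    split_ifs with hij
    · subst hij
      rw [Finset.sum_congr rfl fun η _ => Rad_sg_sq (η i), Finset.sum_const, nsmul_eq_mul,
        mul_one, Rad_card]
    · have h3 := Rad_sum_flip i (fun η => sg (η i) * sg (η j))
      have h4 : ∀ η : ι → Bool, sg (Rad_flip i η i) * sg (Rad_flip i η j) =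
          -(sg (η i) * sg (η j)) := by
        intro η
        unfold Rad_flip
        rw [Function.update_self, Function.update_of_ne (Ne.symm hij), Rad_sg_not]
        ring
      simp only [h4, Finset.sum_neg_distrib] at h3
      linarith
  rw [Finset.sum_congr rfl fun η _ => h1 η, Finset.sum_comm]
  have h5 : ∀ i : ι, ∑ η : ι → Bool, ∑ j, (sg (η i) * sg (η j)) * (b i * b j) =
      2 ^ Fintype.card ι * b i ^ 2 := by
    intro i
    rw [Finset.sum_comm]
    have h6 : ∀ j, ∑ η : ι → Bool, (sg (η i) * sg (η j)) * (b i * b j) =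
        if i = j then (2 : ℝ) ^ Fintype.card ι * (b i * b j) else 0 := by
      intro j
      rw [← Finset.sum_mul, h2]
      split_ifs <;> simp
    rw [Finset.sum_congr rfl fun j _ => h6 j]
    simp [sq]
  rw [Finset.sum_congr rfl fun i _ => h5 i, ← Finset.mul_sum]

lemma Rad_pow_pos : (0 : ℝ) < 2 ^ Fintype.card ι := by positivity

theorem rad_le_sqrt (b : ι → ℝ) : rad b ≤ √(∑ i, b i ^ 2) := by
  apply Real.le_sqrt_of_sq_le
  rw [Rad_eq, div_pow, div_le_iff₀ (by positivity)]
  have h1 := sq_sum_le_card_mul_sum_sq (s := (Finset.univ : Finset (ι → Bool)))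
    (f := fun η => |Rad_L η b|)
  simp only [sq_abs] at h1
  rw [Rad_second, Rad_card] at h1
  calc _ ≤ _ := h1
    _ = _ := by ring

lemma Rad_max (a y c : ℝ) (hc : 0 < c) (ha : |a| ≤ c) :
    |a + y| + |a - y| ≤ 2 * (c + y ^ 2 / (4 * c)) := by
  have h1 : |a + y| + |a - y| ≤ 2 * max |a| |y| := by
    rcases le_total |a| |y| with h | h
    · rw [max_eq_right h]
      rw [abs_le] at h
      rcases abs_cases (a + y) with h1 | h1 <;> rcases abs_cases (a - y) with h2 | h2 <;>
        rcases abs_cases y with h3 | h3 <;> linarith [h.1, h.2]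
    · rw [max_eq_left h]
      rw [abs_le] at h
      rcases abs_cases (a + y) with h1 | h1 <;> rcases abs_cases (a - y) with h2 | h2 <;>
        rcases abs_cases a with h3 | h3 <;> linarith [h.1, h.2]
  have h2 : |a| ≤ c + y ^ 2 / (4 * c) := by
    have : 0 ≤ y ^ 2 / (4 * c) := by positivity
    linarith
  have h3 : |y| ≤ c + y ^ 2 / (4 * c) := by
    have h4 : c + y ^ 2 / (4 * c) - |y| = (|y| - 2 * c) ^ 2 / (4 * c) := by
      field_simp
      rw [← sq_abs y]
      ring
    have : 0 ≤ (|y| - 2 * c) ^ 2 / (4 * c) := by positivity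
    linarith
  have := max_le h2 h3
  linarith

theorem rad_le_center (b : ι → ℝ) (i0 : ι) (c : ℝ) (hc : 0 < c) (h : |b i0| ≤ c) :
    rad b ≤ c + (∑ i ∈ univ.erase i0, b i ^ 2) / (4 * c) := by
  rw [Rad_eq, div_le_iff₀ Rad_pow_pos]
  set b' := Function.update b i0 0 with hb'
  have hL : ∀ η : ι → Bool, Rad_L η b = sg (η i0) * b i0 + Rad_L η b' := by
    intro η
    rw [hb', Rad_L_update_b]
    ring
  have h1 : 2 * ∑ η : ι → Bool, |Rad_L η b| =
      ∑ η : ι → Bool, (|Rad_L η b| + |Rad_L (Rad_flip i0 η) b|) := by
    rw [Finset.sum_add_distrib, Rad_sum_flip i0 (fun η => |Rad_L η b|)]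
    ring
  have h2 : ∀ η : ι → Bool, |Rad_L η b| + |Rad_L (Rad_flip i0 η) b| ≤
      2 * (c + (Rad_L η b') ^ 2 / (4 * c)) := by
    intro η
    have e1 : Rad_L (Rad_flip i0 η) b = -(sg (η i0) * b i0 - Rad_L η b') := by
      rw [Rad_L_flip, hL]; ring
    rw [e1, abs_neg, hL]
    apply Rad_max _ _ _ hc
    rw [abs_mul]
    have : |sg (η i0)| = 1 := by rcases Rad_sg_cases (η i0) with h | h <;> rw [h] <;> simp
    rw [this, one_mul]; exact h
  have h3 := Finset.sum_le_sum fun η (_ : η ∈ (Finset.univ : Finset (ι → Bool))) => h2 η
  rw [← h1, ← Finset.mul_sum, Finset.sum_add_distrib, Finset.sum_const, nsmul_eq_mul, Rad_card,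
    ← Finset.sum_div, Rad_second] at h3
  have h4 : ∑ i, b' i ^ 2 = ∑ i ∈ univ.erase i0, b i ^ 2 := by
    rw [← Finset.add_sum_erase _ _ (Finset.mem_univ i0)]
    have : ∑ x ∈ univ.erase i0, b' x ^ 2 = ∑ x ∈ univ.erase i0, b x ^ 2 := by
      refine Finset.sum_congr rfl fun x hx => ?_
      rw [hb', Function.update_of_ne (Finset.ne_of_mem_erase hx)]
    rw [this, hb', Function.update_self]
    ring
  rw [h4] at h3
  have h5 : 2 ^ Fintype.card ι * c + 2 ^ Fintype.card ι *
      (∑ i ∈ univ.erase i0, b i ^ 2) / (4 * c) =
      (c + (∑ i ∈ univ.erase i0, b i ^ 2) / (4 * c)) * 2 ^ Fintype.card ι := by ring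
  rw [h5] at h3
  linarith

/-- merging two coordinates -/
lemma Rad_merge (b : ι → ℝ) (i j : ι) (hij : i ≠ j) :
    rad b = (rad (Function.update (Function.update b i (b i + b j)) j 0) +
      rad (Function.update (Function.update b i (b i - b j)) j 0)) / 2 := by
  have hp : ∀ (η : ι → Bool) (c : ℝ), Rad_L η (Function.update (Function.update b i c) j 0) =
      Rad_L η b + sg (η i) * (c - b i) - sg (η j) * b j := by
    intro η c
    rw [Rad_L_update_b, Rad_L_update_b, Function.update_of_ne (Ne.symm hij)]
    ring
  have h1 : ∑ η : ι → Bool, |Rad_L η b| = ∑ η : ι → Bool, |Rad_L (Rad_tw i j η) b| :=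
    (Rad_sum_tw i j hij (fun η => |Rad_L η b|)).symm
  have h2 : ∑ η : ι → Bool, |Rad_L (Rad_tw i j η) b| =
      ∑ η : ι → Bool, |Rad_L (Rad_tw i j (Rad_flip j η)) b| :=
    (Rad_sum_flip j (fun η => |Rad_L (Rad_tw i j η) b|)).symm
  have h3 : ∀ η : ι → Bool, Rad_L (Rad_tw i j η) b =
      Rad_L η b + (sg (η j) * sg (η i) - sg (η j)) * b j := by
    intro η
    unfold Rad_tw
    rw [Rad_L_update, Rad_sg_beq]
  have h4 : ∀ η : ι → Bool, |Rad_L (Rad_tw i j η) b| + |Rad_L (Rad_tw i j (Rad_flip j η)) b| =
      |Rad_L η (Function.update (Function.update b i (b i + b j)) j 0)| +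
      |Rad_L η (Function.update (Function.update b i (b i - b j)) j 0)| := by
    intro η
    rw [h3, h3, hp, hp, Rad_L_flip]
    have e1 : sg (Rad_flip j η j) = - sg (η j) := by
      unfold Rad_flip; rw [Function.update_self, Rad_sg_not]
    have e2 : sg (Rad_flip j η i) = sg (η i) := by
      unfold Rad_flip; rw [Function.update_of_ne hij]
    rw [e1, e2]
    rcases Rad_sg_cases (η j) with h | h
    · rw [h]
      congr 1
      · congr 1; ring
      · congr 1; ring
    · rw [h, add_comm]
      congr 1
      · congr 1; ring
      · congr 1; ring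
  have h5 : 2 * ∑ η : ι → Bool, |Rad_L η b| =
      ∑ η : ι → Bool, |Rad_L η (Function.update (Function.update b i (b i + b j)) j 0)| +
      ∑ η : ι → Bool, |Rad_L η (Function.update (Function.update b i (b i - b j)) j 0)| := by
    rw [← Finset.sum_add_distrib, ← Finset.sum_congr rfl fun η _ => h4 η, Finset.sum_add_distrib,
      ← h2, ← h1]
    ring
  rw [Rad_eq, Rad_eq, Rad_eq]
  have := (Rad_pow_pos (ι := ι)).ne'
  field_simp
  linarith

lemma Rad_le_l1 (b : ι → ℝ) : rad b ≤ ∑ i, |b i| := by
  rw [Rad_eq, div_le_iff₀ Rad_pow_pos]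
  have h1 : ∀ η : ι → Bool, |Rad_L η b| ≤ ∑ i, |b i| := by
    intro η
    unfold Rad_L
    refine (Finset.abs_sum_le_sum_abs _ _).trans (Finset.sum_le_sum fun i _ => ?_)
    rw [abs_mul]
    have : |sg (η i)| = 1 := by rcases Rad_sg_cases (η i) with h | h <;> rw [h] <;> simp
    rw [this, one_mul]
  calc _ ≤ ∑ η : ι → Bool, ∑ i, |b i| := Finset.sum_le_sum fun η _ => h1 η
    _ = _ := by rw [Finset.sum_const, nsmul_eq_mul, Rad_card]; ring

lemma Rad_supp_one (b : ι → ℝ) (i : ι) (h : ∀ k, k ≠ i → b k = 0) : rad b ≤ |b i| := by
  refine (Rad_le_l1 b).trans (le_of_eq ?_)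
  rw [Finset.sum_eq_single i]
  · intro k _ hk; rw [h k hk, abs_zero]
  · intro h'; exact absurd (Finset.mem_univ i) h'

lemma Rad_supp_two (b : ι → ℝ) (i j : ι) (hij : i ≠ j) (h : ∀ k, k ≠ i → k ≠ j → b k = 0) :
    rad b ≤ max |b i| |b j| := by
  rw [Rad_merge b i j hij]
  have h1 : ∀ c : ℝ, rad (Function.update (Function.update b i c) j 0) ≤ |c| := by
    intro c
    have h2 := Rad_supp_one (Function.update (Function.update b i c) j 0) i (by
      intro k hk
      by_cases hkj : k = j
      · rw [hkj, Function.update_self]
      · rw [Function.update_of_ne hkj, Function.update_of_ne hk]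
        exact h k hk hkj)
    rw [Function.update_of_ne hij, Function.update_self] at h2
    exact h2
  have h2 := h1 (b i + b j)
  have h3 := h1 (b i - b j)
  have h4 : |b i + b j| + |b i - b j| ≤ 2 * max |b i| |b j| := by
    rcases le_total |b i| |b j| with h | h
    · rw [max_eq_right h]
      rw [abs_le] at h
      rcases abs_cases (b i + b j) with h1 | h1 <;> rcases abs_cases (b i - b j) with h2 | h2 <;>
        rcases abs_cases (b j) with h3 | h3 <;> linarith [h.1, h.2]
    · rw [max_eq_left h]
      rw [abs_le] at h
      rcases abs_cases (b i + b j) with h1 | h1 <;> rcases abs_cases (b i - b j) with h2 | h2 <;>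
        rcases abs_cases (b i) with h3 | h3 <;> linarith [h.1, h.2]
  linarith

lemma Rad_supp_three (b : ι → ℝ) (i j k : ι) (hij : i ≠ j) (hik : i ≠ k) (hjk : j ≠ k)
    (h : ∀ l, l ≠ i → l ≠ j → l ≠ k → b l = 0) :
    rad b ≤ (max |b i| |b j + b k| + max |b i| |b j - b k|) / 2 := by
  rw [Rad_merge b j k hjk]
  have h1 : ∀ c : ℝ, rad (Function.update (Function.update b j c) k 0) ≤ max |b i| |c| := by
    intro c
    have h2 := Rad_supp_two (Function.update (Function.update b j c) k 0) i j hij (by
      intro l hli hlj
      by_cases hlk : l = k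
      · rw [hlk, Function.update_self]
      · rw [Function.update_of_ne hlk, Function.update_of_ne hlj]
        exact h l hli hlj hlk)
    rw [Function.update_of_ne hik, Function.update_of_ne hij, Function.update_of_ne hjk,
      Function.update_self] at h2
    exact h2
  have h2 := h1 (b j + b k)
  have h3 := h1 (b j - b k)
  linarith

theorem rad_le_max (b : ι → ℝ) (M : ℝ) (h : ∀ i, |b i| ≤ M) (hs : ∑ i, |b i| ≤ 2 * M) :
    rad b ≤ M := by
  have key : ∀ (n : ℕ) (b : ι → ℝ), (Finset.univ.filter (fun i => b i ≠ 0)).card = n →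
      (∀ i, |b i| ≤ M) → ∑ i, |b i| ≤ 2 * M → rad b ≤ M := by
    intro n
    induction n using Nat.strong_induction_on with
    | _ n ih =>
      intro b hn h hs
      have hM : 0 ≤ M := by
        have : 0 ≤ ∑ i, |b i| := Finset.sum_nonneg fun i _ => abs_nonneg _
        linarith
      set S := Finset.univ.filter (fun i => b i ≠ 0) with hS
      have hmem : ∀ i, i ∈ S ↔ b i ≠ 0 := by intro i; simp [hS]
      by_cases hpair : ∃ i ∈ S, ∃ j ∈ S, i ≠ j ∧ |b i| + |b j| ≤ M
      · obtain ⟨i, hi, j, hj, hij, hle⟩ := hpair
        have hgen : ∀ c : ℝ, |c| ≤ |b i| + |b j| →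
            rad (Function.update (Function.update b i c) j 0) ≤ M := by
          intro c hc
          set b' := Function.update (Function.update b i c) j 0 with hb'
          have e1 : b' j = 0 := by rw [hb', Function.update_self]
          have e2 : b' i = c := by rw [hb', Function.update_of_ne hij, Function.update_self]
          have e3 : ∀ k, k ≠ i → k ≠ j → b' k = b k := by
            intro k hki hkj
            rw [hb', Function.update_of_ne hkj, Function.update_of_ne hki]
          have hsub : Finset.univ.filter (fun i => b' i ≠ 0) ⊆ S.erase j := by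
            intro k hk
            rw [Finset.mem_filter] at hk
            have hkj : k ≠ j := by rintro rfl; exact hk.2 e1
            rw [Finset.mem_erase, hmem]
            refine ⟨hkj, ?_⟩
            by_cases hki : k = i
            · rw [hki]; exact (hmem i).mp hi
            · rw [← e3 k hki hkj]; exact hk.2
          have hlt : (Finset.univ.filter (fun i => b' i ≠ 0)).card < n := by
            have h1 := Finset.card_le_card hsub
            rw [Finset.card_erase_of_mem hj, hn] at h1
            have h2 : 0 < S.card := Finset.card_pos.mpr ⟨j, hj⟩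
            omega
          refine ih _ hlt b' rfl ?_ ?_
          · intro k
            by_cases hkj : k = j
            · rw [hkj, e1, abs_zero]; exact hM
            · by_cases hki : k = i
              · rw [hki, e2]; linarith
              · rw [e3 k hki hkj]; exact h k
          · have s1 : ∀ f : ι → ℝ, ∑ k, f k = f i + (f j + ∑ k ∈ (Finset.univ.erase i).erase j, f k) := by
              intro f
              rw [Finset.add_sum_erase _ _ (by simp [Ne.symm hij]),
                Finset.add_sum_erase _ _ (Finset.mem_univ i)]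
            rw [s1 (fun k => |b' k|)]
            rw [s1 (fun k => |b k|)] at hs
            have s2 : ∑ k ∈ (Finset.univ.erase i).erase j, |b' k| =
                ∑ k ∈ (Finset.univ.erase i).erase j, |b k| := by
              refine Finset.sum_congr rfl fun k hk => ?_
              rw [Finset.mem_erase, Finset.mem_erase] at hk
              rw [e3 k hk.2.1 hk.1]
            simp only [s2, e1, e2, abs_zero]
            linarith
        rw [Rad_merge b i j hij]
        have h1 := hgen (b i + b j) (abs_add_le _ _)
        have h2 := hgen (b i - b j) (by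
          have := abs_sub (b i) (b j)
          exact this)
        linarith
      · push Not at hpair
        by_cases h4 : 4 ≤ S.card
        · exfalso
          obtain ⟨T, hT, hTc⟩ := Finset.exists_subset_card_eq h4
          obtain ⟨x, y, z, w, hxy, hxz, hxw, hyz, hyw, hzw, rfl⟩ := Finset.card_eq_four.mp hTc
          have hx := hT (show x ∈ ({x, y, z, w} : Finset ι) by simp)
          have hy := hT (show y ∈ ({x, y, z, w} : Finset ι) by simp)
          have hz := hT (show z ∈ ({x, y, z, w} : Finset ι) by simp)
          have hw := hT (show w ∈ ({x, y, z, w} : Finset ι) by simp)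
          have h1 := hpair x hx y hy hxy
          have h2 := hpair z hz w hw hzw
          have h3 : ∑ i ∈ ({x, y, z, w} : Finset ι), |b i| ≤ ∑ i, |b i| :=
            Finset.sum_le_sum_of_subset_of_nonneg (Finset.subset_univ _)
              fun i _ _ => abs_nonneg _
          rw [Finset.sum_insert (by simp [hxy, hxz, hxw]), Finset.sum_insert (by simp [hyz, hyw]),
            Finset.sum_insert (by simp [hzw]), Finset.sum_singleton] at h3
          linarith
        · have hcases : S.card = 0 ∨ S.card = 1 ∨ S.card = 2 ∨ S.card = 3 := by omega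
          rcases hcases with h0 | h0 | h0 | h0
          · have hall : ∀ i, b i = 0 := by
              intro i
              by_contra hne
              have := (hmem i).mpr hne
              rw [Finset.card_eq_zero] at h0
              rw [h0] at this
              simp at this
            refine (Rad_le_l1 b).trans ?_
            have : ∑ i, |b i| = 0 := Finset.sum_eq_zero fun i _ => by rw [hall i, abs_zero]
            rw [this]; exact hM
          · obtain ⟨x, hx⟩ := Finset.card_eq_one.mp h0
            refine (Rad_supp_one b x ?_).trans (h x)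
            intro k hk
            by_contra hne
            have := (hmem k).mpr hne
            rw [hx, Finset.mem_singleton] at this
            exact hk this
          · obtain ⟨x, y, hxy, hx⟩ := Finset.card_eq_two.mp h0
            refine (Rad_supp_two b x y hxy ?_).trans (max_le (h x) (h y))
            intro k hk hk'
            by_contra hne
            have := (hmem k).mpr hne
            rw [hx] at this
            simp only [Finset.mem_insert, Finset.mem_singleton] at this
            tauto
          · obtain ⟨x, y, z, hxy, hxz, hyz, hx⟩ := Finset.card_eq_three.mp h0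
            have mx : x ∈ S := by rw [hx]; simp
            have my : y ∈ S := by rw [hx]; simp
            have mz : z ∈ S := by rw [hx]; simp
            refine (Rad_supp_three b x y z hxy hxz hyz ?_).trans ?_
            · intro k hk hk' hk''
              by_contra hne
              have := (hmem k).mpr hne
              rw [hx] at this
              simp only [Finset.mem_insert, Finset.mem_singleton] at this
              tauto
            · have p1 := hpair x mx y my hxy
              have p2 := hpair x mx z mz hxz
              have h3 : ∑ i ∈ ({x, y, z} : Finset ι), |b i| ≤ ∑ i, |b i| :=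
                Finset.sum_le_sum_of_subset_of_nonneg (Finset.subset_univ _)
                  fun i _ _ => abs_nonneg _
              rw [Finset.sum_insert (by simp [hxy, hxz]), Finset.sum_insert (by simp [hyz]),
                Finset.sum_singleton] at h3
              have q1 := h x
              have q2 := h y
              have q3 := h z
              rcases max_cases |b x| |b y + b z| with m1 | m1 <;>
              rcases max_cases |b x| |b y - b z| with m2 | m2 <;>
              rw [m1.1, m2.1] <;>
              rcases abs_cases (b y + b z) with a1 | a1 <;>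
              rcases abs_cases (b y - b z) with a2 | a2 <;>
              rcases abs_cases (b y) with a3 | a3 <;>
              rcases abs_cases (b z) with a4 | a4 <;> linarith [m1.2, m2.2]
  exact key _ b rfl h hs

end

end Pool.Agent.Bis
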