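import Mathlib
import Pool.Agent.Bis.Defs
import Pool.Agent.Bis.Rad

/-!
# Averaging over block signs
-/

namespace Pool.Agent.Bis
open Finset

section
variable {V : Type} [Fintype V] [DecidableEq V] (G : SimpleGraph V) [DecidableRel G.Adj]

theorem block_lemma {ι : Type} [Fintype ι] [DecidableEq ι] (c : V → ι) (s : V → ℝ)
    (hs : ∀ v, s v = 1 ∨ s v = -1) (i0 : ι)
    (h0 : ∀ i, i ≠ i0 → ∑ v with c v = i, s v = 0) (h1 : |∑ v with c v = i0, s v| ≤ 1)
    (K : ℝ) (hK : 0 ≤ K)
    (h : K * ((∑ u, ∑ v, if G.Adj u v ∧ c u = c v then s u * s v else 0) +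
      2 * rad (fun i => ∑ v with c v = i, dg G v * s v)) ≤ ∑ v, dg G v) : GoodB G K := by
  set x : (ι → Bool) → V → ℝ := fun η v => sg (η (c v)) * s v with hx
  by_contra hno
  have hbad : ∀ η : ι → Bool, ∑ v, dg G v < K * (BF G (x η) (x η) + 2 * |SF G (x η)|) := by
    intro η
    by_contra hcon
    push Not at hcon
    apply hno
    refine ⟨x η, ?_, ?_, hcon⟩
    · intro v
      rw [hx]
      simp only
      rcases Rad_sg_cases (η (c v)) with h2 | h2 <;> rcases hs v with h3 | h3 <;>
        rw [h2, h3] <;> simp
    · have e1 : ∑ v, x η v = ∑ i, sg (η i) * ∑ v with c v = i, s v := by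
        rw [← Finset.sum_fiberwise (s := (Finset.univ : Finset V)) (g := c) (f := x η)]
        refine Finset.sum_congr rfl fun i _ => ?_
        rw [Finset.mul_sum]
        refine Finset.sum_congr rfl fun v hv => ?_
        rw [Finset.mem_filter] at hv
        rw [hx, ← hv.2]
      rw [e1, Finset.sum_eq_single i0]
      · rw [abs_mul]
        have : |sg (η i0)| = 1 := by
          rcases Rad_sg_cases (η i0) with h | h <;> rw [h] <;> simp
        rw [this, one_mul]; exact h1
      · intro i _ hi; rw [h0 i hi, mul_zero]
      · intro h'; exact absurd (Finset.mem_univ i0) h'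
  have hsum := Finset.sum_lt_sum_of_nonempty (s := (Finset.univ : Finset (ι → Bool)))
    ⟨fun _ => true, Finset.mem_univ _⟩ (fun η _ => hbad η)
  rw [Finset.sum_const, nsmul_eq_mul, Rad_card, ← Finset.mul_sum, Finset.sum_add_distrib,
    ← Finset.mul_sum] at hsum
  have hS : ∑ η : ι → Bool, |SF G (x η)| =
      2 ^ Fintype.card ι * rad (fun i => ∑ v with c v = i, dg G v * s v) := by
    rw [Rad_eq]
    have : (2 : ℝ) ^ Fintype.card ι ≠ 0 := by positivity
    field_simp
    refine Finset.sum_congr rfl fun η _ => ?_
    congr 1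
    unfold SF Rad_L
    rw [← Finset.sum_fiberwise (s := (Finset.univ : Finset V)) (g := c)
      (f := fun v => dg G v * x η v)]
    refine Finset.sum_congr rfl fun i _ => ?_
    rw [Finset.mul_sum]
    refine Finset.sum_congr rfl fun v hv => ?_
    rw [Finset.mem_filter] at hv
    rw [hx, ← hv.2]
    ring
  have hB : ∑ η : ι → Bool, BF G (x η) (x η) =
      2 ^ Fintype.card ι * ∑ u, ∑ v, if G.Adj u v ∧ c u = c v then s u * s v else 0 := by
    unfold BF
    rw [Finset.sum_comm, Finset.mul_sum]
    refine Finset.sum_congr rfl fun u _ => ?_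
    rw [Finset.sum_comm, Finset.mul_sum]
    refine Finset.sum_congr rfl fun v _ => ?_
    by_cases hadj : G.Adj u v
    · by_cases hc : c u = c v
      · rw [if_pos ⟨hadj, hc⟩]
        have : ∀ η : ι → Bool, (if G.Adj u v then x η u * x η v else 0) = s u * s v := by
          intro η
          rw [if_pos hadj, hx]
          simp only
          rw [hc]
          have := Rad_sg_sq (η (c v))
          linear_combination (s u * s v) * this
        rw [Finset.sum_congr rfl fun η _ => this η, Finset.sum_const, nsmul_eq_mul, Rad_card]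
      · rw [if_neg (fun h' => hc h'.2), mul_zero]
        have h3 := Rad_sum_flip (c u) (fun η => if G.Adj u v then x η u * x η v else 0)
        have h4 : ∀ η : ι → Bool,
            (if G.Adj u v then x (Rad_flip (c u) η) u * x (Rad_flip (c u) η) v else 0) =
            -(if G.Adj u v then x η u * x η v else 0) := by
          intro η
          rw [if_pos hadj, if_pos hadj, hx]
          simp only
          unfold Rad_flip
          rw [Function.update_self, Function.update_of_ne (Ne.symm hc), Rad_sg_not]
          ring
        simp only [h4, Finset.sum_neg_distrib] at h3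
        linarith
    · rw [if_neg (fun h' => hadj h'.1), mul_zero]
      refine Finset.sum_eq_zero fun η _ => ?_
      rw [if_neg hadj]
  rw [hS, hB] at hsum
  have hpos : (0 : ℝ) < 2 ^ Fintype.card ι := by positivity
  have h2 := mul_le_mul_of_nonneg_left h hpos.le
  have h3 : (2 : ℝ) ^ Fintype.card ι * (K * ((∑ u, ∑ v, if G.Adj u v ∧ c u = c v then s u * s v else 0) +
      2 * rad (fun i => ∑ v with c v = i, dg G v * s v))) =
      K * (2 ^ Fintype.card ι * (∑ u, ∑ v, if G.Adj u v ∧ c u = c v then s u * s v else 0) +
      2 * (2 ^ Fintype.card ι * rad (fun i => ∑ v with c v = i, dg G v * s v))) := by ring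
  rw [h3] at h2
  linarith

end

end Pool.Agent.Bis
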