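import Pool.Agent.Bis.Defs

/-!
# Judicious bisections: the hub case
-/

namespace Pool.Agent.Bis
open Finset

section
variable {V : Type} [Fintype V] [DecidableEq V] (G : SimpleGraph V) [DecidableRel G.Adj]

/-- The hub case: `Hb` is an odd set of at most `K - 2` vertices, `p` has the smallest degree in
`Hb`, `w1` the largest degree outside `Hb`, and the gap `d(p) - d(w1)` exceeds `m / K`. -/
structure HubCase (K : ℕ) (Hb : Finset V) (p w1 : V) : Prop where
  Kodd : Odd K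
  K5 : 5 ≤ K
  hdeg : ∀ v, K ≤ G.degree v + 1
  hodd : Odd Hb.card
  hsmall : Hb.card + 2 ≤ K
  hp : p ∈ Hb
  hpmin : ∀ v ∈ Hb, G.degree p ≤ G.degree v
  hw1 : w1 ∉ Hb
  hw1max : ∀ w, w ∉ Hb → G.degree w ≤ G.degree w1
  htr : ∑ v, dg G v < 2 * K * (dg G p - dg G w1)

/-- total excess outside the hubs -/
noncomputable def EE (K : ℕ) (Hb : Finset V) : ℝ := ∑ w ∈ Hbᶜ, (dg G w - ((K : ℝ) - 1))

/-- total excess of the hubs over `d(p)` -/
noncomputable def XX (Hb : Finset V) (p : V) : ℝ := ∑ v ∈ Hb, (dg G v - dg G p)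

/-- the number of non-neighbours of `p` -/
noncomputable def ZZ (p : V) : ℝ := (Fintype.card V : ℝ) - 1 - dg G p

/-- the number of vertices of `insert w1 U` which are not adjacent to `p` -/
def NU (p w1 : V) (U : Finset V) : ℕ := ((insert w1 U).filter fun v => ¬ G.Adj p v).card

namespace HubCase
variable {G} {K : ℕ} {Hb : Finset V} {p w1 : V} (hc : HubCase G K Hb p w1)
include hc

/-- the degree sum in the notation of the proof -/
theorem sum_dg : ∑ v, dg G v = ((K : ℝ) - 1 + Hb.card) * (dg G p - ((K : ℝ) - 1)) +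
    K * ((K : ℝ) - 1) + ((K : ℝ) - 1) * ZZ G p + XX G Hb p + EE G K Hb := by
  classical
  have h1 : ∑ v, dg G v = ∑ v ∈ Hb, dg G v + ∑ v ∈ Hbᶜ, dg G v := by
    rw [Finset.sum_add_sum_compl]
  have h2 : ∑ v ∈ Hb, dg G v = XX G Hb p + Hb.card * dg G p := by
    unfold XX
    rw [Finset.sum_sub_distrib, Finset.sum_const, nsmul_eq_mul]; ring
  have h3 : ∑ v ∈ Hbᶜ, dg G v = EE G K Hb + Hbᶜ.card * ((K : ℝ) - 1) := by
    unfold EE
    rw [Finset.sum_sub_distrib, Finset.sum_const, nsmul_eq_mul]; ring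
  have h4 : (Hbᶜ.card : ℝ) = Fintype.card V - Hb.card := by
    rw [Finset.card_compl, Nat.cast_sub (Finset.card_le_univ _)]
  rw [h1, h2, h3, h4]
  unfold ZZ
  ring

theorem card_compl : (Hbᶜ.card : ℝ) = K + (dg G p - ((K : ℝ) - 1)) + ZZ G p - Hb.card := by
  have h4 : (Hbᶜ.card : ℝ) = Fintype.card V - Hb.card := by
    rw [Finset.card_compl, Nat.cast_sub (Finset.card_le_univ _)]
  rw [h4]; unfold ZZ; ring

theorem dg_ge (v : V) : (K : ℝ) - 1 ≤ dg G v := by
  have := hc.hdeg v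
  unfold dg
  have h : (K : ℝ) ≤ (G.degree v : ℝ) + 1 := by exact_mod_cast this
  linarith

theorem ZZ_nonneg : 0 ≤ ZZ G p := by
  have h := G.degree_lt_card_verts p
  unfold ZZ dg
  have : (G.degree p : ℝ) + 1 ≤ Fintype.card V := by exact_mod_cast h
  linarith

theorem EE_nonneg : 0 ≤ EE G K Hb := by
  unfold EE
  exact Finset.sum_nonneg fun v _ => by linarith [hc.dg_ge v]

theorem XX_nonneg : 0 ≤ XX G Hb p := by
  unfold XX
  refine Finset.sum_nonneg fun v hv => ?_
  have := hc.hpmin v hv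
  unfold dg
  have h : (G.degree p : ℝ) ≤ G.degree v := by exact_mod_cast this
  linarith

/-- the basic consequence of the trouble inequality:
`q a > 2 K e + K κ + κ ζ + X + E` with `q = K + 1 - h` -/
theorem trouble : 2 * K * (dg G w1 - ((K : ℝ) - 1)) + K * ((K : ℝ) - 1) + ((K : ℝ) - 1) * ZZ G p +
    XX G Hb p + EE G K Hb < ((K : ℝ) + 1 - Hb.card) * (dg G p - ((K : ℝ) - 1)) := by
  have h1 := hc.htr
  rw [hc.sum_dg] at h1
  linarith

theorem one_le_h : (1 : ℝ) ≤ Hb.card := by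
  have := Finset.card_pos.mpr ⟨p, hc.hp⟩
  exact_mod_cast this

theorem K5' : (5 : ℝ) ≤ K := by exact_mod_cast hc.K5

/-- `d(p) - d(w1) > d(w1)` -/
theorem D_gt : dg G w1 < dg G p - dg G w1 := by
  have h0 := hc.trouble
  have h1 := hc.one_le_h
  have h2 := hc.K5'
  have h3 := hc.ZZ_nonneg
  have h4 := hc.EE_nonneg
  have h5 := hc.XX_nonneg
  have h6 := hc.dg_ge p
  have h7 := hc.dg_ge w1
  have h8 : ((K : ℝ) + 1 - Hb.card) * (dg G p - ((K : ℝ) - 1)) ≤ K * (dg G p - ((K : ℝ) - 1)) := by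
    apply mul_le_mul_of_nonneg_right _ (by linarith)
    linarith
  have h9 : 0 ≤ ((K : ℝ) - 1) * ZZ G p := mul_nonneg (by linarith) h3
  have h10 : 2 * K * (dg G w1 - ((K : ℝ) - 1)) + K * ((K : ℝ) - 1) < K * (dg G p - ((K : ℝ) - 1)) := by
    linarith
  have h11 : (2 * (dg G w1 - ((K : ℝ) - 1)) + ((K : ℝ) - 1)) * K < (dg G p - ((K : ℝ) - 1)) * K := by
    linarith
  have h12 := lt_of_mul_lt_mul_right h11 (by linarith)
  linarith

theorem dg_le_w1 {w : V} (hw : w ∉ Hb) : dg G w ≤ dg G w1 := by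
  unfold dg; exact_mod_cast hc.hw1max w hw

end HubCase

end
end Pool.Agent.Bis
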