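import Pool.Agent.Bis.Frac
import Pool.Agent.Bis.HubDefs

/-!
# Judicious bisections: the fractional strategy in the hub case
-/

namespace Pool.Agent.Bis
open Finset

set_option linter.unusedSectionVars false

/-! ### Real inequalities -/

theorem F1_pair_aux (a b γ κ f c : ℝ) (hκ : 0 < κ) (ha : κ ≤ a) (ha' : a ≤ κ + f)
    (hb : κ ≤ b) (hb' : b ≤ κ + f) (hγ1 : κ ≤ γ) (hγ2 : γ ≤ κ + c) (hab : b ≤ a) :
    (a - b) ^ 2 ≤ (2 * κ + f + c) * ((a - γ) ^ 2 / a + (b - γ) ^ 2 / b) := by
  have ha0 : 0 < a := by linarith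
  have hb0 : 0 < b := by linarith
  have hA : 0 ≤ (a - γ) ^ 2 / a := by positivity
  have hB : 0 ≤ (b - γ) ^ 2 / b := by positivity
  have e1 : a * ((a - γ) ^ 2 / a) = (a - γ) ^ 2 := by field_simp
  have e2 : b * ((b - γ) ^ 2 / b) = (b - γ) ^ 2 := by field_simp
  have h3 : a * ((a - γ) ^ 2 / a) ≤ (2 * κ + f + c) * ((a - γ) ^ 2 / a) :=
    mul_le_mul_of_nonneg_right (by linarith) hA
  have h4 : b * ((b - γ) ^ 2 / b) ≤ (2 * κ + f + c) * ((b - γ) ^ 2 / b) :=
    mul_le_mul_of_nonneg_right (by linarith) hB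
  rw [mul_add]
  by_cases h1 : γ ≤ b
  · have h2 : (a - b) ^ 2 ≤ (a - γ) ^ 2 := by nlinarith
    have h5 : 0 ≤ b * ((b - γ) ^ 2 / b) := by rw [e2]; positivity
    linarith
  · push Not at h1
    by_cases h6 : a ≤ γ
    · have h2 : (a - b) ^ 2 ≤ (b - γ) ^ 2 := by nlinarith
      have h5 : 0 ≤ a * ((a - γ) ^ 2 / a) := by rw [e1]; positivity
      linarith
    · push Not at h6
      have h7 : (a - b) ^ 2 ≤ (a + b) * ((a - γ) ^ 2 / a + (b - γ) ^ 2 / b) := by
        rw [div_add_div _ _ ha0.ne' hb0.ne', mul_div_assoc', le_div_iff₀ (by positivity)]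
        nlinarith [sq_nonneg (b * (a - γ) - a * (γ - b))]
      have h8 : (a + b) * ((a - γ) ^ 2 / a + (b - γ) ^ 2 / b) ≤
          (2 * κ + f + c) * ((a - γ) ^ 2 / a + (b - γ) ^ 2 / b) :=
        mul_le_mul_of_nonneg_right (by linarith) (by linarith)
      rw [mul_add (2 * κ + f + c)] at h8
      linarith

theorem F1_pair (a b γ κ f c : ℝ) (hκ : 0 < κ) (ha : κ ≤ a) (ha' : a ≤ κ + f)
    (hb : κ ≤ b) (hb' : b ≤ κ + f) (hγ1 : κ ≤ γ) (hγ2 : γ ≤ κ + c) :
    (a - b) ^ 2 ≤ (2 * κ + f + c) * ((a - γ) ^ 2 / a + (b - γ) ^ 2 / b) := by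
  rcases le_total b a with h | h
  · exact F1_pair_aux a b γ κ f c hκ ha ha' hb hb' hγ1 hγ2 h
  · have := F1_pair_aux b a γ κ f c hκ hb hb' ha ha' hγ1 hγ2 h
    nlinarith

theorem F1_arith (D d X : ℝ) (hd : 0 ≤ d) (hX : 0 ≤ X) :
    (D - d) * (D + d + X) ≤ D * (D + X) := by
  nlinarith [mul_nonneg hd hX, sq_nonneg d]

theorem F1_arith2 (D d V z m : ℝ) :
    (D - d) / V * (D - d) + 2 * ((D - d) / V * (z + m + d)) =
      (D - d) * (D + d + (2 * m + 2 * z)) / V := by ring

/-! ### The harmonic mean -/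

section
variable {V : Type} [DecidableEq V]

theorem F1_sum_pi {W : Finset V} {π : V → V} (hπ : IsPairing W π) (g : V → ℝ) :
    ∑ v ∈ W, g (π v) = ∑ v ∈ W, g v := by
  refine Finset.sum_nbij' π π ?_ ?_ ?_ ?_ ?_
  · intro v hv; exact (hπ v hv).1
  · intro v hv; exact (hπ v hv).1
  · intro v hv; exact (hπ v hv).2.2
  · intro v hv; exact (hπ v hv).2.2
  · intro v hv; rfl

theorem F1_even {W : Finset V} {π : V → V} (hπ : IsPairing W π) : Even W.card := by
  have h : ∑ v ∈ W, (1 : ZMod 2) = 0 := by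
    refine Finset.sum_involution (fun v _ => π v) ?_ ?_ ?_ ?_
    · intro v hv; decide
    · intro v hv _; exact (hπ v hv).2.1
    · intro v hv; exact (hπ v hv).1
    · intro v hv; exact (hπ v hv).2.2
  rw [Finset.sum_const, nsmul_eq_mul, mul_one, ZMod.natCast_eq_zero_iff] at h
  exact even_iff_two_dvd.mpr h

theorem F1_stats {W : Finset V} (hW : W.Nonempty) (d : V → ℝ) (κ f c : ℝ) (hκ : 0 < κ)
    (hlo : ∀ v ∈ W, κ ≤ d v) (hhi : ∀ v ∈ W, d v ≤ κ + f)
    (hc1 : ∑ v ∈ W, (d v - κ) ≤ c * (W.card : ℝ)) {π : V → V} (hπ : IsPairing W π) :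
    ∃ γ, κ ≤ γ ∧ γ ≤ κ + c ∧ ∑ v ∈ W, (1 - γ / d v) = 0 ∧
      (∑ v ∈ W, (d v - d (π v)) ^ 2) / 2 ≤ (2 * κ + f + c) * ∑ v ∈ W, (d v - γ) ∧
      ∑ v ∈ W, d v * (1 - γ / d v) ^ 2 = ∑ v ∈ W, (d v - γ) := by
  have hd0 : ∀ v ∈ W, 0 < d v := fun v hv => lt_of_lt_of_le hκ (hlo v hv)
  have hn : (0 : ℝ) < W.card := by exact_mod_cast hW.card_pos
  set R : ℝ := ∑ v ∈ W, 1 / d v with hR
  have hR0 : 0 < R := Finset.sum_pos (fun v hv => one_div_pos.mpr (hd0 v hv)) hW
  set γ : ℝ := W.card / R with hγ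
  have hγR : γ * R = W.card := by rw [hγ]; field_simp
  have h1 : κ ≤ γ := by
    rw [hγ, le_div_iff₀ hR0, hR, Finset.mul_sum]
    calc ∑ v ∈ W, κ * (1 / d v) ≤ ∑ v ∈ W, (1 : ℝ) := by
          refine Finset.sum_le_sum fun v hv => ?_
          rw [mul_one_div, div_le_one (hd0 v hv)]; exact hlo v hv
      _ = W.card := by simp
  have h2 : γ ≤ κ + c := by
    set m : ℝ := (∑ v ∈ W, d v) / W.card with hm
    have hm0 : 0 < m := div_pos (Finset.sum_pos hd0 hW) hn
    have hm1 : m ≤ κ + c := by
      rw [hm, div_le_iff₀ hn]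
      rw [Finset.sum_sub_distrib, Finset.sum_const, nsmul_eq_mul] at hc1
      linarith
    have hm2 : (W.card : ℝ) / m ≤ R := by
      have e1 : (W.card : ℝ) / m = ∑ v ∈ W, (2 / m - d v / m ^ 2) := by
        rw [Finset.sum_sub_distrib, Finset.sum_const, nsmul_eq_mul, ← Finset.sum_div]
        have h8 : ∑ v ∈ W, d v = m * W.card := by rw [hm, div_mul_cancel₀ _ hn.ne']
        have h9 : m * (W.card : ℝ) / m ^ 2 = W.card / m := by
          rw [pow_two, mul_div_mul_left _ _ hm0.ne']
        rw [h8, h9]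
        ring
      rw [e1, hR]
      refine Finset.sum_le_sum fun v hv => ?_
      have hdv := hd0 v hv
      rw [div_sub_div _ _ hm0.ne' (by positivity), div_le_div_iff₀ (by positivity) hdv]
      nlinarith [mul_nonneg hm0.le (sq_nonneg (d v - m))]
    have hm3 : γ ≤ m := by
      rw [hγ, div_le_iff₀ hR0]
      rw [div_le_iff₀ hm0] at hm2
      linarith
    linarith
  have h3 : ∑ v ∈ W, (1 - γ / d v) = 0 := by
    rw [Finset.sum_sub_distrib]
    have : ∑ v ∈ W, γ / d v = γ * R := by
      rw [hR, Finset.mul_sum]; refine Finset.sum_congr rfl fun v _ => ?_; ring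
    rw [this, hγR]; simp
  have h5 : ∑ v ∈ W, d v * (1 - γ / d v) ^ 2 = ∑ v ∈ W, (d v - γ) := by
    have : ∀ v ∈ W, d v * (1 - γ / d v) ^ 2 = (d v - γ) - γ * (1 - γ / d v) := by
      intro v hv
      have := (hd0 v hv).ne'
      field_simp
      try ring
    rw [Finset.sum_congr rfl this, Finset.sum_sub_distrib, ← Finset.mul_sum, h3]
    simp
  have h6 : ∀ v ∈ W, d v * (1 - γ / d v) ^ 2 = (d v - γ) ^ 2 / d v := by
    intro v hv
    have := (hd0 v hv).ne'
    field_simp
  refine ⟨γ, h1, h2, h3, ?_, h5⟩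
  have h7 : ∑ v ∈ W, (d v - d (π v)) ^ 2 ≤ ∑ v ∈ W, (2 * κ + f + c) *
      ((d v - γ) ^ 2 / d v + (d (π v) - γ) ^ 2 / d (π v)) := by
    refine Finset.sum_le_sum fun v hv => ?_
    have hv' := (hπ v hv).1
    exact F1_pair _ _ _ _ _ _ hκ (hlo v hv) (hhi v hv) (hlo _ hv') (hhi _ hv') h1 h2
  rw [← Finset.mul_sum, Finset.sum_add_distrib,
    F1_sum_pi hπ (fun v => (d v - γ) ^ 2 / d v), ← Finset.sum_congr rfl h6, h5] at h7
  linarith

end

/-! ### The adjacency form -/

section
variable {V : Type} [Fintype V] [DecidableEq V] (G : SimpleGraph V) [DecidableRel G.Adj]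

theorem F1_BF_symm (s t : V → ℝ) : BF G s t = BF G t s := by
  unfold BF
  rw [Finset.sum_comm]
  refine Finset.sum_congr rfl fun u _ => Finset.sum_congr rfl fun v _ => ?_
  by_cases h : G.Adj v u
  · rw [if_pos h, if_pos h.symm]; ring
  · rw [if_neg h, if_neg fun h' => h h'.symm]

theorem F1_BF_add (s t : V → ℝ) : BF G (fun v => s v + t v) (fun v => s v + t v) =
    BF G s s + 2 * BF G s t + BF G t t := by
  have h : BF G (fun v => s v + t v) (fun v => s v + t v) =
      BF G s s + BF G s t + (BF G t s + BF G t t) := by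
    unfold BF
    simp only [← Finset.sum_add_distrib]
    refine Finset.sum_congr rfl fun u _ => Finset.sum_congr rfl fun v _ => ?_
    split_ifs <;> ring
  rw [h, F1_BF_symm G t s]; ring

theorem F1_sum_adj (u : V) : ∑ v, (if G.Adj u v then (1 : ℝ) else 0) = dg G u := by
  unfold dg
  rw [Finset.sum_ite, Finset.sum_const_zero, add_zero, Finset.sum_const, nsmul_eq_mul, mul_one]
  congr 1
  rw [← G.card_neighborFinset_eq_degree u]
  congr 1
  ext v
  simp

theorem F1_BF_diag (t : V → ℝ) : BF G t t ≤ ∑ v, dg G v * t v ^ 2 := by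
  have h1 : BF G t t ≤ ∑ u, ∑ v, ((if G.Adj u v then (1 : ℝ) else 0) * t u ^ 2 / 2 +
      (if G.Adj u v then (1 : ℝ) else 0) * t v ^ 2 / 2) := by
    unfold BF
    refine Finset.sum_le_sum fun u _ => Finset.sum_le_sum fun v _ => ?_
    split_ifs
    · nlinarith [sq_nonneg (t u - t v)]
    · simp
  have h2 : ∑ u, ∑ v, ((if G.Adj u v then (1 : ℝ) else 0) * t u ^ 2 / 2) =
      (∑ v, dg G v * t v ^ 2) / 2 := by
    rw [Finset.sum_div]
    refine Finset.sum_congr rfl fun u _ => ?_
    rw [← F1_sum_adj G u, ← Finset.sum_div, ← Finset.sum_mul]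
  have h3 : ∑ u, ∑ v, ((if G.Adj u v then (1 : ℝ) else 0) * t v ^ 2 / 2) =
      (∑ v, dg G v * t v ^ 2) / 2 := by
    rw [Finset.sum_comm, Finset.sum_div]
    refine Finset.sum_congr rfl fun u _ => ?_
    rw [← F1_sum_adj G u, ← Finset.sum_div, ← Finset.sum_mul]
    congr 2
    refine Finset.sum_congr rfl fun v _ => ?_
    simp only [G.adj_comm]
  simp only [Finset.sum_add_distrib] at h1
  rw [h2, h3] at h1
  linarith

/-- sum of `t` over the neighbours -/
noncomputable def F1_nb (t : V → ℝ) (u : V) : ℝ := ∑ v, if G.Adj u v then t v else 0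

theorem F1_BF_nb (s t : V → ℝ) : BF G s t = ∑ u, s u * F1_nb G t u := by
  unfold BF F1_nb
  refine Finset.sum_congr rfl fun u _ => ?_
  rw [Finset.mul_sum]
  refine Finset.sum_congr rfl fun v _ => ?_
  split_ifs <;> ring

/-! ### The main argument -/

/-- the signs of the special vertices -/
noncomputable def F1_s (p w1 : V) (U : Finset V) (v : V) : ℝ :=
  (if v = p then 1 else 0) - (if v = w1 then 1 else 0) - (if v ∈ U then 1 else 0)

theorem F1_s_sum (p w1 : V) (U : Finset V) (g : V → ℝ) :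
    ∑ v, F1_s p w1 U v * g v = g p - g w1 - ∑ u ∈ U, g u := by
  unfold F1_s
  simp only [sub_mul, ite_mul, one_mul, zero_mul, Finset.sum_sub_distrib]
  rw [Finset.sum_ite_eq' univ p, Finset.sum_ite_eq' univ w1]
  simp

theorem F1_card_adj (u : V) : ((univ.filter fun v => G.Adj u v).card : ℝ) = dg G u := by
  rw [← F1_sum_adj G u]
  simp

theorem F1_ss (p w1 : V) (U : Finset V) (hU1 : U.card ≤ 1) (hwU : w1 ∉ U) :
    BF G (F1_s p w1 U) (F1_s p w1 U) ≤ -2 + 2 * (NU G p w1 U : ℝ) := by
  classical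
  set a : V → V → ℝ := fun u v => if G.Adj u v then (1 : ℝ) else 0 with ha
  have hsym : ∀ u v, a u v = a v u := by intro u v; simp only [ha, G.adj_comm]
  have hself : ∀ u, a u u = 0 := by intro u; simp [ha]
  have hle : ∀ u v, a u v ≤ 1 := by intro u v; simp only [ha]; split_ifs <;> norm_num
  have hnb : ∀ u, F1_nb G (F1_s p w1 U) u = a u p - a u w1 - ∑ x ∈ U, a u x := by
    intro u
    rw [← F1_s_sum p w1 U (a u)]
    unfold F1_nb
    refine Finset.sum_congr rfl fun v _ => ?_
    simp only [ha]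
    split_ifs <;> ring
  have hUU : ∑ u ∈ U, ∑ x ∈ U, a u x = 0 := by
    refine Finset.sum_eq_zero fun u hu => Finset.sum_eq_zero fun x hx => ?_
    rw [Finset.card_le_one.mp hU1 u hu x hx]; exact hself x
  have hNU : (NU G p w1 U : ℝ) = (1 - a p w1) + ∑ u ∈ U, (1 - a p u) := by
    unfold NU
    rw [Finset.card_filter, Finset.sum_insert hwU]
    push_cast
    congr 1
    · simp only [ha]; split_ifs <;> simp_all
    · refine Finset.sum_congr rfl fun u _ => ?_
      simp only [ha]; split_ifs <;> simp_all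
  have h1 : ∑ u ∈ U, a w1 u ≤ (U.card : ℝ) := by
    calc ∑ u ∈ U, a w1 u ≤ ∑ u ∈ U, (1 : ℝ) := Finset.sum_le_sum fun u _ => hle _ _
      _ = U.card := by simp
  rw [F1_BF_nb, F1_s_sum]
  simp only [hnb]
  rw [Finset.sum_sub_distrib, Finset.sum_sub_distrib, hUU, hNU, Finset.sum_sub_distrib,
    hself p, hself w1, hsym w1 p]
  have e1 : ∑ u ∈ U, a u p = ∑ u ∈ U, a p u := Finset.sum_congr rfl fun u _ => hsym _ _
  have e2 : ∑ u ∈ U, a u w1 = ∑ u ∈ U, a w1 u := Finset.sum_congr rfl fun u _ => hsym _ _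
  rw [e1, e2]
  simp only [Finset.sum_const, nsmul_eq_mul, mul_one]
  linarith

/-- F1: the fractional strategy -/
theorem F1 (K : ℕ) (Hb : Finset V) (p w1 : V) (hc : HubCase G K Hb p w1) (πh : V → V)
    (hπh : IsPairing (Hb.erase p) πh) (U : Finset V) (hU : U ⊆ Hbᶜ.erase w1) (hU1 : U.card ≤ 1)
    (hev : Even (Fintype.card V + U.card)) (π : V → V)
    (hπ : IsPairing (Hbᶜ.erase w1 \ U) π) (f c V0 : ℝ)
    (hf : ∀ w ∈ Hbᶜ.erase w1 \ U, dg G w ≤ (K : ℝ) - 1 + f) (hf0 : 0 ≤ f)
    (hfe : f ≤ dg G w1 - ((K : ℝ) - 1))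
    (hc1 : ∑ w ∈ Hbᶜ.erase w1 \ U, (dg G w - ((K : ℝ) - 1)) ≤
      c * ((Hbᶜ.erase w1 \ U).card : ℝ)) (hcK : c ≤ K) (hV0 : 0 < V0)
    (h1 : V0 * (2 * ((K : ℝ) - 1) + f + c) ≤ gap2 G (Hbᶜ.erase w1 \ U) π)
    (h2 : (dg G p - dg G w1) * K ≤ ((K : ℝ) - 1) * V0)
    (hfin : K * (-2 + 2 * (NU G p w1 U : ℝ) + (dg G p - dg G w1) / V0 *
        ((dg G p - dg G w1) + 2 * min ((EE G K Hb - (dg G w1 - ((K : ℝ) - 1))) / K)
          (dg G w1 - ((K : ℝ) - 1)) + 2 * f * ZZ G p / ((K : ℝ) - 1 + f)) +
        2 * √(gap2 G (Hb.erase p) πh + f ^ 2)) ≤ ∑ v, dg G v) : GoodB G K := by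
  classical
  set W : Finset V := Hbᶜ.erase w1 \ U with hW
  set κ : ℝ := (K : ℝ) - 1 with hκ
  have hK5 := hc.K5'
  have hκ0 : 0 < κ := by rw [hκ]; linarith
  have hK0 : (0 : ℝ) < K := by linarith
  have hge := hc.dg_ge
  have hDgt := hc.D_gt
  have hζ := hc.ZZ_nonneg
  have hpHb := hc.hp
  have hw1Hb := hc.hw1
  -- membership facts
  have hUmem : ∀ u ∈ U, u ≠ w1 ∧ u ∉ Hb := by
    intro u hu
    have := hU hu
    rw [Finset.mem_erase, Finset.mem_compl] at this
    exact this
  have hwU : w1 ∉ U := fun h => (hUmem _ h).1 rfl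
  have hpU : p ∉ U := fun h => (hUmem _ h).2 hpHb
  have hpw : p ≠ w1 := fun h => hw1Hb (h ▸ hpHb)
  have hWmem : ∀ v, v ∈ W ↔ v ≠ w1 ∧ v ∉ Hb ∧ v ∉ U := by
    intro v
    rw [hW, Finset.mem_sdiff, Finset.mem_erase, Finset.mem_compl]
    tauto
  -- `W` is nonempty
  have hWne : W.Nonempty := by
    rw [← Finset.card_pos]
    by_contra hcon
    have h0 : W.card = 0 := by omega
    have h3 : Hbᶜ.card ≤ 2 := by
      have e1 : (Hbᶜ.erase w1).card ≤ W.card + U.card := by
        rw [hW]
        calc (Hbᶜ.erase w1).card ≤ ((Hbᶜ.erase w1 \ U) ∪ U).card :=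
              Finset.card_le_card (fun x hx => by
                by_cases hxU : x ∈ U
                · exact Finset.mem_union_right _ hxU
                · exact Finset.mem_union_left _ (Finset.mem_sdiff.mpr ⟨hx, hxU⟩))
          _ ≤ _ := Finset.card_union_le _ _
      have e2 : (Hbᶜ.erase w1).card = Hbᶜ.card - 1 :=
        Finset.card_erase_of_mem (Finset.mem_compl.mpr hw1Hb)
      omega
    have h4 := hc.card_compl
    have h5 : (Hbᶜ.card : ℝ) ≤ 2 := by exact_mod_cast h3
    have h6 : (Hb.card : ℝ) + 2 ≤ K := by exact_mod_cast hc.hsmall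
    have h7 := hge w1
    linarith
  have hloW : ∀ v ∈ W, κ ≤ dg G v := fun v _ => hge v
  obtain ⟨γ, hγ1, hγ2, hs0, hgap, hs2⟩ := F1_stats hWne (dg G) κ f c hκ0 hloW hf hc1 hπ
  set Vr : ℝ := ∑ v ∈ W, (dg G v - γ) with hVr
  have hc0 : 0 ≤ c := by linarith
  have hγ0 : 0 < γ := by linarith
  have hG0 : 0 < 2 * κ + f + c := by linarith
  have hV : V0 ≤ Vr := by
    have e1 : gap2 G W π ≤ (2 * κ + f + c) * Vr := hgap
    have e2 : (2 * κ + f + c) * V0 ≤ (2 * κ + f + c) * Vr := by linarith
    exact le_of_mul_le_mul_left e2 hG0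
  have hVr0 : 0 < Vr := lt_of_lt_of_le hV0 hV
  set D : ℝ := dg G p - dg G w1 with hD
  have hw1ge := hge w1
  have hD0 : 0 < D := by linarith
  set dU : ℝ := ∑ u ∈ U, dg G u with hdU
  have hdU0 : 0 ≤ dU := Finset.sum_nonneg fun u _ => by linarith [hge u]
  have hdUD : dU ≤ D := by
    have e1 : dU ≤ U.card * dg G w1 := by
      rw [hdU, ← nsmul_eq_mul]
      exact Finset.sum_le_card_nsmul _ _ _ fun u hu => hc.dg_le_w1 (hUmem u hu).2
    have e2 : (U.card : ℝ) ≤ 1 := by exact_mod_cast hU1
    nlinarith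
  set lam : ℝ := (D - dU) / Vr with hlam
  have hlam0 : 0 ≤ lam := div_nonneg (by linarith) hVr0.le
  have hlamV : lam * Vr = D - dU := by rw [hlam, div_mul_cancel₀ _ hVr0.ne']
  have hlamK : lam * K ≤ κ := by
    rw [hlam, div_mul_eq_mul_div, div_le_iff₀ hVr0]
    nlinarith
  -- the numbers `q v = 1 - γ / d v`
  have hd0 : ∀ v, 0 < dg G v := fun v => by linarith [hge v]
  have hq1 : ∀ v, 1 - γ / dg G v ≤ 1 := fun v => by
    have := div_pos hγ0 (hd0 v); linarith
  have hq2 : ∀ v, - (K / κ) ≤ 1 - γ / dg G v := fun v => by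
    have e1 : γ / dg G v ≤ (κ + c) / κ := by
      apply div_le_div₀ (by linarith) hγ2 hκ0 (hge v)
    have e2 : (κ + c) / κ = 1 + c / κ := by field_simp
    have e3 : c / κ ≤ K / κ := by gcongr
    linarith
  have hKκ : 1 ≤ K / κ := by rw [le_div_iff₀ hκ0]; linarith
  -- the fractional assignment
  set t : V → ℝ := fun v => if v ∈ W then -(lam * (1 - γ / dg G v)) else 0 with ht
  have htW : ∀ v ∈ W, t v = -(lam * (1 - γ / dg G v)) := fun v hv => by simp only [ht, if_pos hv]
  have htN : ∀ v, v ∉ W → t v = 0 := fun v hv => by simp only [ht, if_neg hv]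
  set s : V → ℝ := F1_s p w1 U with hs
  set y : V → ℝ := fun v => s v + t v with hy
  have hpW : p ∉ W := fun h => ((hWmem p).mp h).2.1 hpHb
  have hw1W : w1 ∉ W := fun h => ((hWmem w1).mp h).1 rfl
  have hUW : ∀ u ∈ U, u ∉ W := fun u hu h => ((hWmem u).mp h).2.2 hu
  have hsp : s p = 1 := by simp [hs, F1_s, hpw, hpU]
  have hsw : s w1 = -1 := by simp [hs, F1_s, hpw.symm, hwU]
  have hsU : ∀ u ∈ U, s u = -1 := by
    intro u hu
    have e1 : u ≠ p := fun h => hpU (h ▸ hu)
    have e2 : u ≠ w1 := (hUmem u hu).1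
    simp [hs, F1_s, e1, e2, hu]
  have hsN : ∀ v, v ≠ p → v ≠ w1 → v ∉ U → s v = 0 := by
    intro v h3 h4 h5
    simp [hs, F1_s, h3, h4, h5]
  have hsumt : ∀ g : V → ℝ, ∑ v, t v * g v = - (lam * ∑ v ∈ W, (1 - γ / dg G v) * g v) := by
    intro g
    rw [Finset.mul_sum, ← Finset.sum_neg_distrib]
    rw [← Finset.sum_subset (Finset.subset_univ W) (fun v _ hv => by rw [htN v hv, zero_mul])]
    refine Finset.sum_congr rfl fun v hv => ?_
    rw [htW v hv]; ring
  have htsum : ∑ v, t v = 0 := by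
    have := hsumt (fun _ => 1)
    simp only [mul_one] at this
    rw [this, hs0]; simp
  refine frac_lemma G (insert p (insert w1 U)) (Hb.erase p) ?_ πh hπh y ?_ ?_ ?_ κ (κ + f) ?_ ?_ ?_
    K hK0.le ?_
  · -- disjoint
    rw [Finset.disjoint_left]
    intro v hv hv'
    rw [Finset.mem_erase] at hv'
    rw [Finset.mem_insert, Finset.mem_insert] at hv
    rcases hv with h | h | h
    · exact hv'.1 h
    · exact hw1Hb (h ▸ hv'.2)
    · exact (hUmem v h).2 hv'.2
  · -- values on the special vertices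
    intro v hv
    rw [Finset.mem_insert, Finset.mem_insert] at hv
    rcases hv with h | h | h
    · left; subst h; simp only [hy]; rw [hsp, htN _ hpW]; ring
    · right; subst h; simp only [hy]; rw [hsw, htN _ hw1W]; ring
    · right; simp only [hy]; rw [hsU v h, htN _ (hUW v h)]; ring
  · -- values on the hubs
    intro v hv
    rw [Finset.mem_erase] at hv
    have e1 : v ≠ w1 := fun h => hw1Hb (h ▸ hv.2)
    have e2 : v ∉ U := fun h => (hUmem v h).2 hv.2
    have e3 : v ∉ W := fun h => ((hWmem v).mp h).2.1 hv.2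
    simp only [hy]; rw [hsN v hv.1 e1 e2, htN v e3]; ring
  · -- `|y v| ≤ 1`
    intro v
    by_cases hvW : v ∈ W
    · have e := (hWmem v).mp hvW
      have e1 : v ≠ p := fun h => e.2.1 (h ▸ hpHb)
      simp only [hy]
      rw [hsN v e1 e.1 e.2.2, htW v hvW, zero_add, abs_neg, abs_mul, abs_of_nonneg hlam0]
      have e2 : |1 - γ / dg G v| ≤ K / κ := abs_le.mpr ⟨hq2 v, (hq1 v).trans hKκ⟩
      calc lam * |1 - γ / dg G v| ≤ lam * (K / κ) := mul_le_mul_of_nonneg_left e2 hlam0
        _ = (lam * K) / κ := by ring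
        _ ≤ 1 := by rw [div_le_one hκ0]; exact hlamK
    · simp only [hy]
      rw [htN v hvW, add_zero]
      by_cases h3 : v = p
      · rw [h3, hsp]; simp
      · by_cases h4 : v = w1
        · rw [h4, hsw]; simp
        · by_cases h5 : v ∈ U
          · rw [hsU v h5]; simp
          · rw [hsN v h3 h4 h5]; simp
  · -- degrees
    intro v h3 h4
    have hvW : v ∈ W := by
      rw [hWmem]
      rw [Finset.mem_insert, Finset.mem_insert] at h3
      rw [Finset.mem_erase] at h4
      push Not at h3 h4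
      exact ⟨h3.2.1, h4 h3.1, h3.2.2⟩
    exact ⟨hge v, hf v hvW⟩
  · -- parity
    have hfil : (univ.filter fun v => v ∉ insert p (insert w1 U) ∧ v ∉ Hb.erase p) = W := by
      ext v
      simp only [Finset.mem_filter, Finset.mem_univ, true_and]
      rw [hWmem, Finset.mem_insert, Finset.mem_insert, Finset.mem_erase]
      constructor
      · rintro ⟨h3, h4⟩
        push Not at h3 h4
        exact ⟨h3.2.1, h4 h3.1, h3.2.2⟩
      · rintro ⟨h3, h4, h5⟩
        refine ⟨?_, fun h => h4 h.2⟩
        rintro (h | h | h)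
        · exact h4 (h ▸ hpHb)
        · exact h3 h
        · exact h5 h
    rw [hfil]
    obtain ⟨r, hr⟩ := F1_even hπ
    refine ⟨-(r : ℤ), ?_⟩
    have e1 : ∑ v ∈ W, y v = 0 := by
      have e2 : ∑ v ∈ W, y v = ∑ v ∈ W, -(lam * (1 - γ / dg G v)) := by
        refine Finset.sum_congr rfl fun v hv => ?_
        have e := (hWmem v).mp hv
        simp only [hy]
        rw [hsN v (fun h => e.2.1 (h ▸ hpHb)) e.1 e.2.2, htW v hv, zero_add]
      rw [e2, Finset.sum_neg_distrib, ← Finset.mul_sum, hs0]; simp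
    rw [e1, hr]
    push_cast
    ring
  · -- sum
    have e1 : ∑ v, y v = - (U.card : ℝ) := by
      simp only [hy]
      rw [Finset.sum_add_distrib, htsum]
      have := F1_s_sum p w1 U (fun _ => (1 : ℝ))
      simp only [mul_one] at this
      rw [hs, this]
      simp
    rw [e1, abs_neg, abs_of_nonneg (Nat.cast_nonneg _)]
    exact_mod_cast hU1
  · -- the main estimate
    have hSF : SF G y = 0 := by
      unfold SF
      have e1 : ∑ v, dg G v * y v = ∑ v, s v * dg G v + ∑ v, t v * dg G v := by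
        rw [← Finset.sum_add_distrib]
        refine Finset.sum_congr rfl fun v _ => ?_
        simp only [hy]; ring
      have e2 : ∑ v ∈ W, (1 - γ / dg G v) * dg G v = Vr := by
        rw [hVr]
        refine Finset.sum_congr rfl fun v _ => ?_
        have := (hd0 v).ne'
        field_simp
      rw [e1, hs, F1_s_sum, hsumt, e2, hlamV]
      ring
    have hBF : BF G y y ≤ -2 + 2 * (NU G p w1 U : ℝ) + D / V0 *
        (D + 2 * min ((EE G K Hb - (dg G w1 - κ)) / K) (dg G w1 - κ) +
          2 * f * ZZ G p / (κ + f)) := by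
      have hκf : 0 < κ + f := by linarith
      set φ : ℝ := f / (κ + f) with hφ
      have hφ0 : 0 ≤ φ := div_nonneg hf0 hκf.le
      set e : ℝ := dg G w1 - κ with he
      have he0 : 0 ≤ e := by rw [he]; linarith
      have hqφ : ∀ v ∈ W, 1 - γ / dg G v ≤ φ := by
        intro v hv
        have e1 : κ / (κ + f) ≤ γ / dg G v := div_le_div₀ hγ0.le hγ1 (hd0 v) (hf v hv)
        have e2 : κ / (κ + f) = 1 - φ := by
          rw [hφ, eq_sub_iff_add_eq, ← add_div, div_self hκf.ne']
        linarith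
      have hqK : ∀ v, 1 - γ / dg G v ≤ (dg G v - κ) / K := by
        intro v
        have hdv := hd0 v
        by_cases h : G.degree v + 1 = K
        · have e1 : dg G v = κ := by
            unfold dg; rw [hκ, ← h]; push_cast; ring
          rw [e1, sub_self, zero_div]
          have : 1 ≤ γ / κ := by rw [le_div_iff₀ hκ0]; linarith
          linarith
        · have e1 : (K : ℝ) ≤ dg G v := by
            have := hc.hdeg v
            have h' : K ≤ G.degree v := by omega
            unfold dg; exact_mod_cast h'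
          have e2 : κ / dg G v ≤ γ / dg G v := by gcongr
          have e3 : 1 - κ / dg G v = (dg G v - κ) / dg G v := by
            rw [sub_div (dg G v) κ, div_self hdv.ne']
          have e4 : (dg G v - κ) / dg G v ≤ (dg G v - κ) / K := by
            apply div_le_div_of_nonneg_left (by linarith [hge v]) hK0 e1
          linarith
      have hnbt : ∀ u, F1_nb G t u =
          -(lam * ∑ v ∈ W.filter (fun v => G.Adj u v), (1 - γ / dg G v)) := by
        intro u
        have e0 := hsumt (fun v => if G.Adj u v then (1:ℝ) else 0)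
        unfold F1_nb
        rw [Finset.sum_filter]
        have e1 : ∑ v, (if G.Adj u v then t v else 0) =
            ∑ v, t v * (if G.Adj u v then (1:ℝ) else 0) :=
          Finset.sum_congr rfl fun v _ => by split_ifs <;> ring
        rw [e1, e0]
        congr 2
        exact Finset.sum_congr rfl fun v _ => by split_ifs <;> ring
      have hcardadj : ∀ u, ((W.filter (fun v => G.Adj u v)).card : ℝ) ≤ dg G u := by
        intro u
        rw [← F1_card_adj G u]
        exact_mod_cast Finset.card_le_card (Finset.filter_subset_filter _ (Finset.subset_univ W))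
      -- the vertex `p`
      have hcardp : ((W.filter (fun v => ¬ G.Adj p v)).card : ℝ) ≤ ZZ G p := by
        have e1 : (W.filter (fun v => ¬ G.Adj p v)) ⊆
            (univ.filter (fun v => ¬ G.Adj p v)).erase p := by
          intro v hv
          rw [Finset.mem_filter] at hv
          rw [Finset.mem_erase, Finset.mem_filter]
          exact ⟨fun h => hpW (h ▸ hv.1), Finset.mem_univ _, hv.2⟩
        have e2 := Finset.card_le_card e1
        rw [Finset.card_erase_of_mem (by simp)] at e2
        have e3 : (univ.filter fun v => G.Adj p v).card + (univ.filter fun v => ¬ G.Adj p v).card =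
            Fintype.card V := by
          rw [Finset.card_filter_add_card_filter_not, Finset.card_univ]
        have e4 : 0 < (univ.filter fun v => ¬ G.Adj p v).card :=
          Finset.card_pos.mpr ⟨p, by simp⟩
        have e5 : (W.filter (fun v => ¬ G.Adj p v)).card + 1 +
            (univ.filter fun v => G.Adj p v).card ≤ Fintype.card V := by omega
        have e6 : ((W.filter (fun v => ¬ G.Adj p v)).card : ℝ) + 1 +
            ((univ.filter fun v => G.Adj p v).card : ℝ) ≤ Fintype.card V := by exact_mod_cast e5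
        rw [F1_card_adj] at e6
        unfold ZZ
        linarith
      have hAp : F1_nb G t p ≤ lam * (φ * ZZ G p) := by
        rw [hnbt p]
        have e1 := Finset.sum_filter_add_sum_filter_not W (fun v => G.Adj p v)
          (fun v => 1 - γ / dg G v)
        rw [hs0] at e1
        have e2 : ∑ v ∈ W.filter (fun v => ¬ G.Adj p v), (1 - γ / dg G v) ≤ φ * ZZ G p := by
          calc _ ≤ ((W.filter (fun v => ¬ G.Adj p v)).card : ℝ) * φ := by
                rw [← nsmul_eq_mul]
                exact Finset.sum_le_card_nsmul _ _ _ fun v hv =>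
                  hqφ v (Finset.mem_filter.mp hv).1
            _ ≤ ZZ G p * φ := mul_le_mul_of_nonneg_right hcardp hφ0
            _ = φ * ZZ G p := mul_comm _ _
        have e3 : -(lam * ∑ v ∈ W.filter (fun v => G.Adj p v), (1 - γ / dg G v)) =
            lam * ∑ v ∈ W.filter (fun v => ¬ G.Adj p v), (1 - γ / dg G v) := by
          have : ∑ v ∈ W.filter (fun v => G.Adj p v), (1 - γ / dg G v) =
            - ∑ v ∈ W.filter (fun v => ¬ G.Adj p v), (1 - γ / dg G v) := by linarith
          rw [this]; ring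
        rw [e3]
        exact mul_le_mul_of_nonneg_left e2 hlam0
      -- the vertex `w1`
      have hAw : ∑ v ∈ W.filter (fun v => G.Adj w1 v), (1 - γ / dg G v) ≤
          min ((EE G K Hb - e) / K) e := by
        apply le_min
        · have e1 : ∑ v ∈ W.filter (fun v => G.Adj w1 v), (1 - γ / dg G v) ≤
              ∑ v ∈ W.filter (fun v => G.Adj w1 v), (dg G v - κ) / K :=
            Finset.sum_le_sum fun v _ => hqK v
          have e2 : ∑ v ∈ W.filter (fun v => G.Adj w1 v), (dg G v - κ) / K ≤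
              ∑ v ∈ Hbᶜ.erase w1, (dg G v - κ) / K := by
            apply Finset.sum_le_sum_of_subset_of_nonneg
            · intro v hv
              have hv' := (Finset.mem_filter.mp hv).1
              rw [hW] at hv'
              exact (Finset.mem_sdiff.mp hv').1
            · intro v _ _
              exact div_nonneg (by linarith [hge v]) hK0.le
          have e3 : ∑ v ∈ Hbᶜ.erase w1, (dg G v - κ) / K = (EE G K Hb - e) / K := by
            rw [← Finset.sum_div]
            congr 1
            unfold EE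
            rw [← Finset.add_sum_erase Hbᶜ _ (Finset.mem_compl.mpr hw1Hb), he]
            ring
          linarith
        · calc _ ≤ ((W.filter (fun v => G.Adj w1 v)).card : ℝ) * φ := by
                rw [← nsmul_eq_mul]
                exact Finset.sum_le_card_nsmul _ _ _ fun v hv =>
                  hqφ v (Finset.mem_filter.mp hv).1
            _ ≤ dg G w1 * φ := mul_le_mul_of_nonneg_right (hcardadj w1) hφ0
            _ ≤ e := by
                have e1 : dg G w1 = κ + e := by rw [he]; ring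
                rw [e1, hφ, mul_div_assoc', div_le_iff₀ hκf]
                have : κ * f ≤ κ * e := mul_le_mul_of_nonneg_left hfe hκ0.le
                nlinarith
      -- the set `U`
      have hAU : ∀ u, ∑ v ∈ W.filter (fun v => G.Adj u v), (1 - γ / dg G v) ≤ dg G u := by
        intro u
        calc _ ≤ ((W.filter (fun v => G.Adj u v)).card : ℝ) * 1 := by
              rw [← nsmul_eq_mul]
              exact Finset.sum_le_card_nsmul _ _ _ fun v hv => hq1 v
          _ ≤ dg G u := by rw [mul_one]; exact hcardadj u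
      have hst : BF G s t ≤ lam * (φ * ZZ G p + min ((EE G K Hb - e) / K) e + dU) := by
        rw [F1_BF_nb, hs, F1_s_sum]
        have e1 : F1_nb G t w1 ≥ -(lam * min ((EE G K Hb - e) / K) e) := by
          rw [hnbt w1]
          have := mul_le_mul_of_nonneg_left hAw hlam0
          linarith
        have e2 : -(lam * dU) ≤ ∑ u ∈ U, F1_nb G t u := by
          rw [hdU, Finset.mul_sum, ← Finset.sum_neg_distrib]
          refine Finset.sum_le_sum fun u _ => ?_
          rw [hnbt u]
          have := mul_le_mul_of_nonneg_left (hAU u) hlam0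
          linarith
        have e3 : lam * (φ * ZZ G p + min ((EE G K Hb - e) / K) e + dU) =
            lam * (φ * ZZ G p) + lam * min ((EE G K Hb - e) / K) e + lam * dU := by ring
        rw [e3]
        linarith
      have htt : BF G t t ≤ lam * (D - dU) := by
        refine (F1_BF_diag G t).trans ?_
        have e1 : ∑ v, dg G v * t v ^ 2 = ∑ v ∈ W, lam ^ 2 * (dg G v * (1 - γ / dg G v) ^ 2) := by
          rw [← Finset.sum_subset (Finset.subset_univ W)
            (fun v _ hv => by rw [htN v hv]; ring)]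
          refine Finset.sum_congr rfl fun v hv => ?_
          rw [htW v hv]; ring
        rw [e1, ← Finset.mul_sum, hs2, ← hlamV, pow_two, mul_assoc]
      have hss := F1_ss G p w1 U hU1 hwU
      have hyy : BF G y y = BF G s s + 2 * BF G s t + BF G t t := F1_BF_add G s t
      set mn : ℝ := min ((EE G K Hb - e) / K) e with hmn
      have hmn0 : 0 ≤ mn := by
        have := Finset.sum_nonneg (s := W) (f := fun v => dg G v - κ)
          (fun v _ => by linarith [hge v])
        apply le_min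
        · apply div_nonneg _ hK0.le
          unfold EE
          rw [← Finset.add_sum_erase Hbᶜ _ (Finset.mem_compl.mpr hw1Hb), he]
          have : 0 ≤ ∑ x ∈ Hbᶜ.erase w1, (dg G x - ((K : ℝ) - 1)) :=
            Finset.sum_nonneg fun v _ => by linarith [hge v]
          linarith
        · exact he0
      have hζφ : 2 * f * ZZ G p / (κ + f) = 2 * (φ * ZZ G p) := by rw [hφ]; ring
      rw [hζφ]
      set X : ℝ := 2 * mn + 2 * (φ * ZZ G p) with hX
      have hX0 : 0 ≤ X := by
        have := mul_nonneg hφ0 hζ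
        linarith
      have h5 : lam * (D - dU) + 2 * (lam * (φ * ZZ G p + mn + dU)) ≤ D / V0 * (D + X) := by
        have e1 : lam * (D - dU) + 2 * (lam * (φ * ZZ G p + mn + dU)) =
            (D - dU) * (D + dU + X) / Vr := F1_arith2 _ _ _ _ _
        have e2 : (D - dU) * (D + dU + X) ≤ D * (D + X) := F1_arith _ _ _ hdU0 hX0
        have e3 : D / V0 * (D + X) = D * (D + X) / V0 := div_mul_eq_mul_div _ _ _
        rw [e1, e3]
        have e4 : 0 ≤ D * (D + X) := mul_nonneg hD0.le (by linarith)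
        exact (div_le_div_of_nonneg_right e2 hVr0.le).trans
          (div_le_div_of_nonneg_left e4 hV0 hV)
      rw [hyy]
      have e6 : D + 2 * mn + 2 * (φ * ZZ G p) = D + X := by rw [hX]; ring
      rw [e6]
      linarith
    have e3 : κ + f - κ = f := by ring
    rw [hSF, e3]
    refine le_trans ?_ hfin
    have e4 : (0 : ℝ) ^ 2 + gap2 G (Hb.erase p) πh + f ^ 2 = gap2 G (Hb.erase p) πh + f ^ 2 := by
      ring
    rw [e4]
    apply mul_le_mul_of_nonneg_left _ hK0.le
    linarith

end

end Pool.Agent.Bis
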