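import Pool.Agent.Bis.Defs

/-! Ordered pivotal sampling. -/

namespace Pool.Agent.Bis
open Finset

namespace Piv

/-- a random sign vector (on the coordinates `i < m`) with mean `x`, constant sum, nonpositive
correlations and partial sums of variance at most `1`. -/
def Good (m : ℕ) (x : ℕ → ℝ) : Prop :=
  ∃ (Ω : Type) (_ : Fintype Ω) (μ : Ω → ℝ) (X : Ω → ℕ → ℝ),
    (∀ ω, 0 ≤ μ ω) ∧ ∑ ω, μ ω = 1 ∧ (∀ ω, ∀ i < m, X ω i = 1 ∨ X ω i = -1) ∧
    (∀ ω, ∑ i ∈ range m, X ω i = ∑ i ∈ range m, x i) ∧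
    (∀ i < m, ∑ ω, μ ω * X ω i = x i) ∧
    (∀ i < m, ∀ j < m, i ≠ j → ∑ ω, μ ω * (X ω i * X ω j) ≤ x i * x j) ∧
    (∀ k ≤ m, ∑ ω, μ ω * (∑ i ∈ range k, (X ω i - x i)) ^ 2 ≤ 1)

lemma good_zero (x : ℕ → ℝ) : Good 0 x := by
  refine ⟨Unit, inferInstance, fun _ => 1, fun _ _ => 1, ?_, ?_, ?_, ?_, ?_, ?_, ?_⟩
  · intro _; exact zero_le_one
  · simp
  · intro _ i hi; omega
  · intro _; simp
  · intro i hi; omega
  · intro i hi; omega
  · intro k hk
    obtain rfl : k = 0 := by omega
    simp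

/-- put `c` in front -/
def cons0 (c : ℝ) (y : ℕ → ℝ) (i : ℕ) : ℝ := Nat.casesOn i c (fun j => y j)

lemma cons0_zero (c : ℝ) (y : ℕ → ℝ) : cons0 c y 0 = c := rfl
lemma cons0_add (c : ℝ) (y : ℕ → ℝ) (l : ℕ) : cons0 c y (l + 1) = y l := rfl

lemma freeze0 {m : ℕ} {x : ℕ → ℝ} (h0 : x 0 = 1 ∨ x 0 = -1)
    (h : Good m (fun i => x (i + 1))) : Good (m + 1) x := by
  obtain ⟨Ω, _, μ, X, h1, h2, h3, h4, h5, h6, h7⟩ := h
  refine ⟨Ω, inferInstance, μ, fun ω => cons0 (x 0) (X ω),
    h1, h2, ?_, ?_, ?_, ?_, ?_⟩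
  · intro ω i hi
    cases i with
    | zero => exact h0
    | succ i => exact h3 ω i (by omega)
  · intro ω
    rw [sum_range_succ', sum_range_succ']
    simp only [cons0_zero, cons0_add]
    rw [h4 ω]
  · intro i hi
    cases i with
    | zero => simp only [cons0_zero]; rw [← sum_mul, h2, one_mul]
    | succ i => exact h5 i (by omega)
  · intro i hi j hj hij
    cases i with
    | zero =>
      cases j with
      | zero => exact absurd rfl hij
      | succ j =>
        simp only [cons0_zero, cons0_add]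
        have := h5 j (by omega)
        have e : ∀ ω, μ ω * (x 0 * X ω j) = x 0 * (μ ω * X ω j) := fun ω => by ring
        simp only [e]
        rw [← mul_sum, this]
    | succ i =>
      cases j with
      | zero =>
        simp only [cons0_zero, cons0_add]
        have := h5 i (by omega)
        have e : ∀ ω, μ ω * (X ω i * x 0) = (μ ω * X ω i) * x 0 := fun ω => by ring
        simp only [e]
        rw [← sum_mul, this]
      | succ j => exact h6 i (by omega) j (by omega) (by omega)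
  · intro k hk
    cases k with
    | zero => simp
    | succ k =>
      have e : ∀ ω, ∑ i ∈ range (k + 1), (cons0 (x 0) (X ω) i - x i) =
          ∑ i ∈ range k, (X ω i - x (i + 1)) := by
        intro ω
        rw [sum_range_succ']
        simp only [cons0_zero, cons0_add, sub_self, add_zero]
      simp only [e]
      exact h7 k (by omega)

/-- remove coordinate `1` -/
def drop1 (x : ℕ → ℝ) (i : ℕ) : ℝ := Nat.casesOn i (x 0) (fun j => x (j + 2))

/-- insert `c` at position `1` -/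
def ins1 (c : ℝ) (y : ℕ → ℝ) (i : ℕ) : ℝ :=
  Nat.casesOn i (y 0) (fun j => Nat.casesOn j c (fun l => y (l + 1)))

lemma ins1_zero (c : ℝ) (y : ℕ → ℝ) : ins1 c y 0 = y 0 := rfl
lemma ins1_one (c : ℝ) (y : ℕ → ℝ) : ins1 c y 1 = c := rfl
lemma ins1_add (c : ℝ) (y : ℕ → ℝ) (l : ℕ) : ins1 c y (l + 2) = y (l + 1) := rfl
lemma drop1_zero (x : ℕ → ℝ) : drop1 x 0 = x 0 := rfl
lemma drop1_add (x : ℕ → ℝ) (l : ℕ) : drop1 x (l + 1) = x (l + 2) := rfl

lemma sum_ins1 (c : ℝ) (y : ℕ → ℝ) (k : ℕ) :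
    ∑ i ∈ range (k + 2), ins1 c y i = c + ∑ i ∈ range (k + 1), y i := by
  rw [sum_range_succ', sum_range_succ', sum_range_succ']
  simp only [ins1_zero, ins1_add, zero_add, ins1_one]
  ring

lemma ins1_drop1 (x : ℕ → ℝ) : ∀ i, ins1 (x 1) (drop1 x) i = x i := by
  intro i
  match i with
  | 0 => rfl
  | 1 => rfl
  | i + 2 => rfl

lemma freeze1 {m : ℕ} {x : ℕ → ℝ} (h0 : x 1 = 1 ∨ x 1 = -1)
    (h : Good (m + 1) (drop1 x)) : Good (m + 2) x := by
  obtain ⟨Ω, _, μ, X, h1, h2, h3, h4, h5, h6, h7⟩ := h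
  refine ⟨Ω, inferInstance, μ, fun ω => ins1 (x 1) (X ω), h1, h2, ?_, ?_, ?_, ?_, ?_⟩
  · intro ω i hi
    match i with
    | 0 => exact h3 ω 0 (by omega)
    | 1 => exact h0
    | i + 2 => exact h3 ω (i + 1) (by omega)
  · intro ω
    rw [sum_ins1, h4 ω, ← sum_ins1]
    exact sum_congr rfl fun i _ => ins1_drop1 x i
  · intro i hi
    match i with
    | 0 => exact h5 0 (by omega)
    | 1 => simp only [ins1_one]; rw [← sum_mul, h2, one_mul]
    | i + 2 => exact h5 (i + 1) (by omega)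
  · have key : ∀ i < m + 1, ∑ ω, μ ω * (x 1 * X ω i) = x 1 * drop1 x i := by
      intro i hi
      have e : ∀ ω, μ ω * (x 1 * X ω i) = x 1 * (μ ω * X ω i) := fun ω => by ring
      simp only [e]
      rw [← mul_sum, h5 i hi]
    have key' : ∀ i < m + 1, ∑ ω, μ ω * (X ω i * x 1) = drop1 x i * x 1 := by
      intro i hi
      have e : ∀ ω, μ ω * (X ω i * x 1) = (μ ω * X ω i) * x 1 := fun ω => by ring
      simp only [e]
      rw [← sum_mul, h5 i hi]
    intro i hi j hj hij
    match i, j with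
    | 0, 0 => exact absurd rfl hij
    | 0, 1 => exact (key' 0 (by omega)).le
    | 0, j + 2 => exact h6 0 (by omega) (j + 1) (by omega) (by omega)
    | 1, 0 => exact (key 0 (by omega)).le
    | 1, 1 => exact absurd rfl hij
    | 1, j + 2 => exact (key (j + 1) (by omega)).le
    | i + 2, 0 => exact h6 (i + 1) (by omega) 0 (by omega) (by omega)
    | i + 2, 1 => exact (key' (i + 1) (by omega)).le
    | i + 2, j + 2 => exact h6 (i + 1) (by omega) (j + 1) (by omega) (by omega)
  · intro k hk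
    match k with
    | 0 => simp
    | 1 =>
      have := h7 1 (by omega)
      simpa [ins1_zero, drop1_zero] using this
    | k + 2 =>
      have e : ∀ ω, ∑ i ∈ range (k + 2), (ins1 (x 1) (X ω) i - x i) =
          ∑ i ∈ range (k + 1), (X ω i - drop1 x i) := by
        intro ω
        have e1 : ∑ i ∈ range (k + 2), x i = x 1 + ∑ i ∈ range (k + 1), drop1 x i := by
          rw [← sum_ins1]
          exact sum_congr rfl fun i _ => (ins1_drop1 x i).symm
        rw [sum_sub_distrib, sum_ins1, e1, sum_sub_distrib]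
        ring
      simp only [e]
      exact h7 (k + 1) (by omega)

lemma mix {m : ℕ} {x x1 x2 : ℕ → ℝ} {θ : ℝ} (hθ0 : 0 ≤ θ) (hθ1 : θ ≤ 1)
    (hm0 : θ * x1 0 + (1 - θ) * x2 0 = x 0) (hm1 : θ * x1 1 + (1 - θ) * x2 1 = x 1)
    (ht1 : ∀ i, x1 (i + 2) = x (i + 2)) (ht2 : ∀ i, x2 (i + 2) = x (i + 2))
    (hs1 : x1 0 + x1 1 = x 0 + x 1) (hs2 : x2 0 + x2 1 = x 0 + x 1)
    (hp : θ * (x1 0 * x1 1) + (1 - θ) * (x2 0 * x2 1) ≤ x 0 * x 1)
    (h1 : Good (m + 2) x1) (h2 : Good (m + 2) x2) : Good (m + 2) x := by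
  obtain ⟨Ω, _, μ, X, a1, a2, a3, a4, a5, a6, a7⟩ := h1
  obtain ⟨Ω', _, μ', X', b1, b2, b3, b4, b5, b6, b7⟩ := h2
  have hmean : ∀ i, θ * x1 i + (1 - θ) * x2 i = x i := by
    intro i
    match i with
    | 0 => exact hm0
    | 1 => exact hm1
    | i + 2 => rw [ht1, ht2]; ring
  have hsum1 : ∀ k, ∑ i ∈ range (k + 2), x1 i = ∑ i ∈ range (k + 2), x i := by
    intro k
    rw [sum_range_succ', sum_range_succ', sum_range_succ', sum_range_succ']
    simp only [ht1, zero_add]
    linarith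
  have hsum2 : ∀ k, ∑ i ∈ range (k + 2), x2 i = ∑ i ∈ range (k + 2), x i := by
    intro k
    rw [sum_range_succ', sum_range_succ', sum_range_succ', sum_range_succ']
    simp only [ht2, zero_add]
    linarith
  -- integrals
  have hE : ∀ F : (ℕ → ℝ) → ℝ, ∑ ω : Ω ⊕ Ω', (Sum.elim (fun ω => θ * μ ω)
      (fun ω => (1 - θ) * μ' ω) ω) * F (Sum.elim X X' ω) =
      θ * (∑ ω, μ ω * F (X ω)) + (1 - θ) * ∑ ω, μ' ω * F (X' ω) := by
    intro F
    rw [Fintype.sum_sum_type]
    simp only [Sum.elim_inl, Sum.elim_inr]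
    rw [mul_sum, mul_sum]
    congr 1 <;> exact sum_congr rfl fun _ _ => by ring
  have hprob : ∑ ω : Ω ⊕ Ω', (Sum.elim (fun ω => θ * μ ω)
      (fun ω => (1 - θ) * μ' ω) ω) = 1 := by
    have := hE (fun _ => 1)
    simp only [mul_one, a2, b2] at this
    rw [this]; ring
  have hsgn : ∀ ω : Ω ⊕ Ω', ∀ i < m + 2, Sum.elim X X' ω i = 1 ∨ Sum.elim X X' ω i = -1 := by
    rintro (ω | ω) i hi
    · exact a3 ω i hi
    · exact b3 ω i hi
  have hmean' : ∀ i < m + 2, ∑ ω : Ω ⊕ Ω', (Sum.elim (fun ω => θ * μ ω)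
      (fun ω => (1 - θ) * μ' ω) ω) * Sum.elim X X' ω i = x i := by
    intro i hi
    rw [hE (fun y => y i), a5 i hi, b5 i hi, hmean]
  refine ⟨Ω ⊕ Ω', inferInstance, Sum.elim (fun ω => θ * μ ω) (fun ω => (1 - θ) * μ' ω),
    Sum.elim X X', ?_, hprob, hsgn, ?_, hmean', ?_, ?_⟩
  · rintro (ω | ω)
    · exact mul_nonneg hθ0 (a1 ω)
    · exact mul_nonneg (by linarith) (b1 ω)
  · rintro (ω | ω)
    · simp only [Sum.elim_inl]; rw [a4 ω, hsum1]
    · simp only [Sum.elim_inr]; rw [b4 ω, hsum2]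
  · intro i hi j hj hij
    rw [hE (fun y => y i * y j)]
    have hA := a6 i hi j hj hij
    have hB := b6 i hi j hj hij
    have h3 : θ * (∑ ω, μ ω * (X ω i * X ω j)) + (1 - θ) * ∑ ω, μ' ω * (X' ω i * X' ω j) ≤
        θ * (x1 i * x1 j) + (1 - θ) * (x2 i * x2 j) :=
      add_le_add (mul_le_mul_of_nonneg_left hA hθ0)
        (mul_le_mul_of_nonneg_left hB (by linarith))
    refine h3.trans ?_
    clear h3 hA hB
    match i, j with
    | 0, 0 => exact absurd rfl hij
    | 1, 1 => exact absurd rfl hij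
    | 0, 1 => exact hp
    | 1, 0 => linarith
    | i, j + 2 =>
      rw [ht1, ht2, ← hmean i]; exact le_of_eq (by ring)
    | i + 2, j =>
      rw [ht1, ht2, ← hmean j]; exact le_of_eq (by ring)
  · intro k hk
    match k with
    | 0 => simp
    | 1 =>
      have e : ∀ ω : Ω ⊕ Ω', (Sum.elim (fun ω => θ * μ ω)
          (fun ω => (1 - θ) * μ' ω) ω) * (∑ i ∈ range 1, (Sum.elim X X' ω i - x i)) ^ 2 =
          (Sum.elim (fun ω => θ * μ ω) (fun ω => (1 - θ) * μ' ω) ω) * (1 + x 0 ^ 2) -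
          2 * x 0 * ((Sum.elim (fun ω => θ * μ ω)
            (fun ω => (1 - θ) * μ' ω) ω) * Sum.elim X X' ω 0) := by
        intro ω
        rw [sum_range_one]
        have : (Sum.elim X X' ω 0) ^ 2 = 1 := by
          rcases hsgn ω 0 (by omega) with h | h <;> rw [h] <;> norm_num
        linear_combination (Sum.elim (fun ω => θ * μ ω) (fun ω => (1 - θ) * μ' ω) ω) * this
      simp only [e]
      rw [sum_sub_distrib, ← sum_mul, ← mul_sum, hprob, hmean' 0 (by omega)]
      nlinarith [sq_nonneg (x 0)]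
    | k + 2 =>
      rw [hE (fun y => (∑ i ∈ range (k + 2), (y i - x i)) ^ 2)]
      have e1 : ∀ y : ℕ → ℝ, ∑ i ∈ range (k + 2), (y i - x i) =
          ∑ i ∈ range (k + 2), (y i - x1 i) := by
        intro y; rw [sum_sub_distrib, sum_sub_distrib, hsum1]
      have e2 : ∀ y : ℕ → ℝ, ∑ i ∈ range (k + 2), (y i - x i) =
          ∑ i ∈ range (k + 2), (y i - x2 i) := by
        intro y; rw [sum_sub_distrib, sum_sub_distrib, hsum2]
      have hA := a7 (k + 2) hk
      have hB := b7 (k + 2) hk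
      have hA' : ∑ ω, μ ω * (∑ i ∈ range (k + 2), (X ω i - x i)) ^ 2 ≤ 1 := by
        simpa only [e1] using hA
      have hB' : ∑ ω, μ' ω * (∑ i ∈ range (k + 2), (X' ω i - x i)) ^ 2 ≤ 1 := by
        simpa only [e2] using hB
      nlinarith

lemma parity_drop {m : ℕ} {S c : ℝ} (hc : c = 1 ∨ c = -1)
    (h : ∃ k : ℤ, S = ((m + 1 : ℕ) : ℝ) + 2 * k) : ∃ k : ℤ, S - c = (m : ℝ) + 2 * k := by
  obtain ⟨k, hk⟩ := h
  rcases hc with hc | hc
  · exact ⟨k, by rw [hk, hc]; push_cast; ring⟩
  · exact ⟨k + 1, by rw [hk, hc]; push_cast; ring⟩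

/-- one coordinate among the first two is a sign -/
lemma good_frozen {m : ℕ}
    (ih : ∀ x : ℕ → ℝ, (∀ i < m + 1, |x i| ≤ 1) →
      (∃ k : ℤ, ∑ i ∈ range (m + 1), x i = ((m + 1 : ℕ) : ℝ) + 2 * k) → Good (m + 1) x)
    {x : ℕ → ℝ} (hx : ∀ i < m + 2, |x i| ≤ 1)
    (hpar : ∃ k : ℤ, ∑ i ∈ range (m + 2), x i = ((m + 2 : ℕ) : ℝ) + 2 * k)
    (h : (x 0 = 1 ∨ x 0 = -1) ∨ (x 1 = 1 ∨ x 1 = -1)) : Good (m + 2) x := by
  rcases h with h | h
  · refine freeze0 h (ih _ (fun i hi => hx _ (by omega)) ?_)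
    have := parity_drop h hpar
    rw [sum_range_succ'] at this
    simpa using this
  · refine freeze1 h (ih _ (fun i hi => ?_) ?_)
    · match i with
      | 0 => exact hx 0 (by omega)
      | i + 1 => exact hx (i + 2) (by omega)
    · have := parity_drop h hpar
      have e1 : ∑ i ∈ range (m + 2), x i = x 1 + ∑ i ∈ range (m + 1), drop1 x i := by
        rw [← sum_ins1]
        exact sum_congr rfl fun i _ => (ins1_drop1 x i).symm
      rw [e1, add_sub_cancel_left] at this
      exact this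

/-- change the first two coordinates -/
def chg (x : ℕ → ℝ) (a b : ℝ) (i : ℕ) : ℝ :=
  Nat.casesOn i a (fun j => Nat.casesOn j b (fun l => x (l + 2)))

lemma good_all : ∀ (m : ℕ) (x : ℕ → ℝ), (∀ i < m, |x i| ≤ 1) →
    (∃ k : ℤ, ∑ i ∈ range m, x i = (m : ℝ) + 2 * k) → Good m x := by
  intro m
  induction m with
  | zero => intro x _ _; exact good_zero x
  | succ m ihm =>
    match m, ihm with
    | 0, ihm =>
      intro x hx hpar
      refine freeze0 ?_ (good_zero _)
      obtain ⟨k, hk⟩ := hpar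
      have h1 := abs_le.1 (hx 0 (by omega))
      simp only [zero_add, sum_range_one, Nat.cast_one] at hk
      have h2 : (-2 : ℝ) < k := by linarith [h1.1]
      have h3 : (k : ℝ) < 1 := by linarith [h1.2]
      have h2' : (-2 : ℤ) < k := by exact_mod_cast h2
      have h3' : k < 1 := by exact_mod_cast h3
      have : k = 0 ∨ k = -1 := by omega
      rcases this with rfl | rfl
      · left; rw [hk]; norm_num
      · right; rw [hk]; norm_num
    | m + 1, ih =>
      intro x hx hpar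
      by_cases hfr : (x 0 = 1 ∨ x 0 = -1) ∨ (x 1 = 1 ∨ x 1 = -1)
      · exact good_frozen ih hx hpar hfr
      · push Not at hfr
        obtain ⟨⟨ha1, ha2⟩, ⟨hb1, hb2⟩⟩ := hfr
        have hA := abs_le.1 (hx 0 (by omega))
        have hB := abs_le.1 (hx 1 (by omega))
        set a := x 0 with ha
        set b := x 1 with hb
        have hA1 : a < 1 := lt_of_le_of_ne hA.2 ha1
        have hA2 : -1 < a := lt_of_le_of_ne hA.1 (Ne.symm ha2)
        have hB1 : b < 1 := lt_of_le_of_ne hB.2 hb1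
        have hB2 : -1 < b := lt_of_le_of_ne hB.1 (Ne.symm hb2)
        set t1 := min (1 - a) (1 + b) with ht1
        set t2 := min (1 + a) (1 - b) with ht2
        have ht1p : 0 < t1 := lt_min (by linarith) (by linarith)
        have ht2p : 0 < t2 := lt_min (by linarith) (by linarith)
        have ht1a : t1 ≤ 1 - a := min_le_left _ _
        have ht1b : t1 ≤ 1 + b := min_le_right _ _
        have ht2a : t2 ≤ 1 + a := min_le_left _ _
        have ht2b : t2 ≤ 1 - b := min_le_right _ _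
        have hT : 0 < t1 + t2 := by linarith
        have hsumc : ∀ a' b' : ℝ, a' + b' = a + b →
            ∑ i ∈ range (m + 1 + 1), chg x a' b' i = ∑ i ∈ range (m + 1 + 1), x i := by
          intro a' b' hab
          rw [sum_range_succ', sum_range_succ', sum_range_succ', sum_range_succ']
          have e0 : chg x a' b' 0 = a' := rfl
          have e1 : chg x a' b' (0 + 1) = b' := rfl
          have e2 : ∀ i, chg x a' b' (i + 1 + 1) = x (i + 1 + 1) := fun i => rfl
          simp only [e2]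
          rw [e0, e1]
          have : x (0 + 1) = b := rfl
          rw [this]
          linarith
        have hg1 : Good (m + 1 + 1) (chg x (a + t1) (b - t1)) := by
          refine good_frozen ih ?_ ?_ ?_
          · intro i hi
            match i with
            | 0 => show |a + t1| ≤ 1; rw [abs_le]; constructor <;> linarith
            | 1 => show |b - t1| ≤ 1; rw [abs_le]; constructor <;> linarith
            | i + 2 => exact hx (i + 2) (by omega)
          · rw [hsumc _ _ (by ring)]; exact hpar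
          · show (a + t1 = 1 ∨ a + t1 = -1) ∨ (b - t1 = 1 ∨ b - t1 = -1)
            rcases min_choice (1 - a) (1 + b) with h | h
            · left; left; rw [ht1, h]; ring
            · right; right; rw [ht1, h]; ring
        have hg2 : Good (m + 1 + 1) (chg x (a - t2) (b + t2)) := by
          refine good_frozen ih ?_ ?_ ?_
          · intro i hi
            match i with
            | 0 => show |a - t2| ≤ 1; rw [abs_le]; constructor <;> linarith
            | 1 => show |b + t2| ≤ 1; rw [abs_le]; constructor <;> linarith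
            | i + 2 => exact hx (i + 2) (by omega)
          · rw [hsumc _ _ (by ring)]; exact hpar
          · show (a - t2 = 1 ∨ a - t2 = -1) ∨ (b + t2 = 1 ∨ b + t2 = -1)
            rcases min_choice (1 + a) (1 - b) with h | h
            · left; right; rw [ht2, h]; ring
            · right; left; rw [ht2, h]; ring
        have hq : t2 / (t1 + t2) * (t1 + t2) = t2 := div_mul_cancel₀ _ hT.ne'
        have hθ0 : 0 ≤ t2 / (t1 + t2) := by positivity
        have hθ1 : t2 / (t1 + t2) ≤ 1 := (div_le_one hT).2 (by linarith)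
        set θ := t2 / (t1 + t2) with hθ
        refine mix (x1 := chg x (a + t1) (b - t1)) (x2 := chg x (a - t2) (b + t2)) (θ := θ)
          hθ0 hθ1 ?_ ?_ (fun i => rfl) (fun i => rfl) ?_ ?_ ?_ hg1 hg2
        · show θ * (a + t1) + (1 - θ) * (a - t2) = a
          linear_combination hq
        · show θ * (b - t1) + (1 - θ) * (b + t2) = b
          linear_combination (-1) * hq
        · show (a + t1) + (b - t1) = a + b
          ring
        · show (a - t2) + (b + t2) = a + b
          ring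
        · show θ * ((a + t1) * (b - t1)) + (1 - θ) * ((a - t2) * (b + t2)) ≤ a * b
          have e : θ * ((a + t1) * (b - t1)) + (1 - θ) * ((a - t2) * (b + t2)) =
              a * b - θ * t1 ^ 2 - (1 - θ) * t2 ^ 2 := by
            linear_combination (b - a) * hq
          rw [e]
          have : 0 ≤ θ * t1 ^ 2 := by positivity
          have : 0 ≤ (1 - θ) * t2 ^ 2 := mul_nonneg (by linarith) (sq_nonneg _)
          linarith

lemma abel (D z : ℕ → ℝ) (n : ℕ) : ∑ i ∈ range (n + 1), D i * z i =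
    D n * (∑ i ∈ range (n + 1), z i) -
      ∑ i ∈ range n, (D (i + 1) - D i) * ∑ j ∈ range (i + 1), z j := by
  induction n with
  | zero => simp
  | succ n ih =>
    rw [sum_range_succ _ (n + 1), ih, sum_range_succ (fun i => z i) (n + 1),
      sum_range_succ (fun i => (D (i + 1) - D i) * ∑ j ∈ range (i + 1), z j) n]
    ring

lemma weighted {Ω : Type} [Fintype Ω] {μ : Ω → ℝ} (hμ : ∀ ω, 0 ≤ μ ω) {m : ℕ}
    {D : ℕ → ℝ} {z : Ω → ℕ → ℝ} {lo hi : ℝ} (hlo : ∀ i < m, lo ≤ D i) (hhi : ∀ i < m, D i ≤ hi)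
    (hmono : ∀ i, i + 1 < m → D i ≤ D (i + 1)) (hz : ∀ ω, ∑ i ∈ range m, z ω i = 0)
    (hk : ∀ k ≤ m, ∑ ω, μ ω * (∑ i ∈ range k, z ω i) ^ 2 ≤ 1) :
    ∑ ω, μ ω * (∑ i ∈ range m, D i * z ω i) ^ 2 ≤ (hi - lo) ^ 2 := by
  match m with
  | 0 => simp; exact sq_nonneg _
  | n + 1 =>
    have h1 : ∀ ω, (∑ i ∈ range (n + 1), D i * z ω i) ^ 2 ≤
        (∑ i ∈ range n, (D (i + 1) - D i)) *
          ∑ i ∈ range n, (D (i + 1) - D i) * (∑ j ∈ range (i + 1), z ω j) ^ 2 := by
      intro ω
      rw [abel, hz ω, mul_zero, zero_sub, neg_sq]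
      have hnn : ∀ i ∈ range n, 0 ≤ D (i + 1) - D i := by
        intro i hi
        have := hmono i (by have := mem_range.1 hi; omega)
        linarith
      have := Finset.sum_mul_sq_le_sq_mul_sq (range n) (fun i => √(D (i + 1) - D i))
        (fun i => √(D (i + 1) - D i) * ∑ j ∈ range (i + 1), z ω j)
      have e1 : ∑ i ∈ range n, √(D (i + 1) - D i) *
          (√(D (i + 1) - D i) * ∑ j ∈ range (i + 1), z ω j) =
          ∑ i ∈ range n, (D (i + 1) - D i) * ∑ j ∈ range (i + 1), z ω j := by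
        refine sum_congr rfl fun i hi => ?_
        rw [← mul_assoc, Real.mul_self_sqrt (hnn i hi)]
      have e2 : ∑ i ∈ range n, √(D (i + 1) - D i) ^ 2 = ∑ i ∈ range n, (D (i + 1) - D i) :=
        sum_congr rfl fun i hi => Real.sq_sqrt (hnn i hi)
      have e3 : ∑ i ∈ range n, (√(D (i + 1) - D i) * ∑ j ∈ range (i + 1), z ω j) ^ 2 =
          ∑ i ∈ range n, (D (i + 1) - D i) * (∑ j ∈ range (i + 1), z ω j) ^ 2 := by
        refine sum_congr rfl fun i hi => ?_
        rw [mul_pow, Real.sq_sqrt (hnn i hi)]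
      rw [e1, e2, e3] at this
      exact this
    have hW : ∑ i ∈ range n, (D (i + 1) - D i) = D n - D 0 := sum_range_sub D n
    have hW0 : 0 ≤ D n - D 0 := by
      rw [← hW]
      refine sum_nonneg fun i hi => ?_
      have := hmono i (by have := mem_range.1 hi; omega)
      linarith
    have hWh : D n - D 0 ≤ hi - lo := by
      have := hlo 0 (by omega)
      have := hhi n (by omega)
      linarith
    calc ∑ ω, μ ω * (∑ i ∈ range (n + 1), D i * z ω i) ^ 2
        ≤ ∑ ω, μ ω * ((∑ i ∈ range n, (D (i + 1) - D i)) *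
          ∑ i ∈ range n, (D (i + 1) - D i) * (∑ j ∈ range (i + 1), z ω j) ^ 2) :=
          sum_le_sum fun ω _ => mul_le_mul_of_nonneg_left (h1 ω) (hμ ω)
      _ = (D n - D 0) * ∑ i ∈ range n, (D (i + 1) - D i) *
          ∑ ω, μ ω * (∑ j ∈ range (i + 1), z ω j) ^ 2 := by
          rw [hW, mul_sum]
          simp only [mul_sum]
          rw [sum_comm]
          refine sum_congr rfl fun i _ => sum_congr rfl fun ω _ => ?_
          ring
      _ ≤ (D n - D 0) * ∑ i ∈ range n, (D (i + 1) - D i) * 1 := by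
          refine mul_le_mul_of_nonneg_left (sum_le_sum fun i hi => ?_) hW0
          have h2 := hmono i (by have := mem_range.1 hi; omega)
          exact mul_le_mul_of_nonneg_left (hk (i + 1) (by have := mem_range.1 hi; omega))
            (by linarith)
      _ = (D n - D 0) * (D n - D 0) := by simp only [mul_one]; rw [hW]
      _ ≤ (hi - lo) ^ 2 := by nlinarith

lemma sg_decide (y : ℝ) (h : y = 1 ∨ y = -1) [Decidable (y = 1)] : sg (decide (y = 1)) = y := by
  unfold sg
  rcases h with h | h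
  · simp [h]
  · have : ¬ ((-1 : ℝ) = 1) := by norm_num
    simp [h, this]

end Piv

open Piv in
theorem pivotal_sampling {W : Type} [Fintype W] [DecidableEq W] (d xb : W → ℝ) (lo hi : ℝ)
    (hd : ∀ w, lo ≤ d w ∧ d w ≤ hi) (hx : ∀ w, |xb w| ≤ 1)
    (hpar : ∃ k : ℤ, ∑ w, xb w = (Fintype.card W : ℝ) + 2 * k) :
    ∃ p : (W → Bool) → ℝ, (∀ s, 0 ≤ p s) ∧ ∑ s, p s = 1 ∧
      (∀ s, p s ≠ 0 → ∑ w, sg (s w) = ∑ w, xb w) ∧
      (∀ w, ∑ s, p s * sg (s w) = xb w) ∧
      (∀ v w, v ≠ w → ∑ s, p s * (sg (s v) * sg (s w)) ≤ xb v * xb w) ∧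
      ∑ s, p s * (∑ w, d w * (sg (s w) - xb w)) ^ 2 ≤ (hi - lo) ^ 2 := by
  classical
  set m := Fintype.card W with hm
  -- a monotone enumeration
  obtain ⟨e, he⟩ : ∃ e : Fin m ≃ W, Monotone (d ∘ e) := by
    let e0 := (Fintype.equivFin W).symm
    exact ⟨(Tuple.sort (d ∘ e0)).trans e0, Tuple.monotone_sort (d ∘ e0)⟩
  let ext : (W → ℝ) → ℕ → ℝ := fun f i => if h : i < m then f (e ⟨i, h⟩) else 0
  have hsum : ∀ f : W → ℝ, ∑ i ∈ range m, ext f i = ∑ w, f w := by
    intro f
    rw [← Equiv.sum_comp e f, ← Fin.sum_univ_eq_sum_range]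
    refine sum_congr rfl fun i _ => ?_
    simp only [ext, i.2, dif_pos, Fin.eta]
  have hext : ∀ (f : W → ℝ) (w : W), ext f (e.symm w) = f w := by
    intro f w
    simp only [ext, (e.symm w).2, dif_pos, Fin.eta, Equiv.apply_symm_apply]
  have hgood : Good m (ext xb) := by
    apply good_all
    · intro i hi
      simp only [ext, hi, dif_pos]
      exact hx _
    · rw [hsum]; exact hpar
  obtain ⟨Ω, _, μ, X, h1, h2, h3, h4, h5, h6, h7⟩ := hgood
  -- the random element of `W → Bool`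
  let S : Ω → (W → Bool) := fun ω w => decide (X ω (e.symm w) = 1)
  have hS : ∀ ω w, sg (S ω w) = X ω (e.symm w) := fun ω w =>
    sg_decide _ (h3 ω _ (e.symm w).2)
  have hXsum : ∀ (ω : Ω) (F : W → ℝ → ℝ), ∑ w, F w (sg (S ω w)) =
      ∑ i ∈ range m, if h : i < m then F (e ⟨i, h⟩) (X ω i) else 0 := by
    intro ω F
    rw [← Equiv.sum_comp e, ← Fin.sum_univ_eq_sum_range
      (fun i => if h : i < m then F (e ⟨i, h⟩) (X ω i) else 0)]
    refine sum_congr rfl fun i _ => ?_
    simp only [hS, i.2, dif_pos, Fin.eta, Equiv.symm_apply_apply]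
  let p : (W → Bool) → ℝ := fun s => ∑ ω with S ω = s, μ ω
  have hE : ∀ F : (W → Bool) → ℝ, ∑ s, p s * F s = ∑ ω, μ ω * F (S ω) := by
    intro F
    rw [← sum_fiberwise (s := univ) (g := S) (f := fun ω => μ ω * F (S ω))]
    refine sum_congr rfl fun s _ => ?_
    rw [sum_mul]
    refine sum_congr rfl fun ω hω => ?_
    rw [(mem_filter.1 hω).2]
  refine ⟨p, fun s => sum_nonneg fun ω _ => h1 ω, ?_, ?_, ?_, ?_, ?_⟩
  · have := hE (fun _ => 1)
    simpa [h2] using this
  · intro s hs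
    obtain ⟨ω, hω, -⟩ := exists_ne_zero_of_sum_ne_zero hs
    have hω' := (mem_filter.1 hω).2
    rw [← hω', hXsum ω (fun _ y => y), ← hsum xb, ← h4 ω]
    refine sum_congr rfl fun i hi => ?_
    rw [dif_pos (mem_range.1 hi)]
  · intro w
    rw [hE (fun s => sg (s w))]
    simp only [hS]
    rw [h5 _ (e.symm w).2, hext]
  · intro v w hvw
    rw [hE (fun s => sg (s v) * sg (s w))]
    simp only [hS]
    have := h6 _ (e.symm v).2 _ (e.symm w).2 (fun h => hvw (e.symm.injective (Fin.ext h)))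
    rwa [hext, hext] at this
  · rw [hE (fun s => (∑ w, d w * (sg (s w) - xb w)) ^ 2)]
    have hD : ∀ ω, ∑ w, d w * (sg (S ω w) - xb w) =
        ∑ i ∈ range m, ext d i * (X ω i - ext xb i) := by
      intro ω
      rw [hXsum ω (fun w y => d w * (y - xb w))]
      refine sum_congr rfl fun i hi => ?_
      have hi' := mem_range.1 hi
      simp only [ext, hi', dif_pos]
    simp only [hD]
    refine weighted h1 ?_ ?_ ?_ ?_ h7
    · intro i hi'
      simp only [ext, hi', dif_pos]
      exact (hd _).1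
    · intro i hi'
      simp only [ext, hi', dif_pos]
      exact (hd _).2
    · intro i hi'
      have hi'' : i < m := by omega
      simp only [ext, hi', hi'', dif_pos]
      exact he (by simp [Fin.le_def])
    · intro ω
      rw [sum_sub_distrib, h4 ω, sub_self]

end Pool.Agent.Bis
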