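import Pool.Agent.Bis.Defs
import Pool.Agent.Bis.Piv

/-!
# Judicious bisections: rounding a fractional solution
-/

namespace Pool.Agent.Bis

open Finset

set_option linter.unusedSectionVars false

/-! ### fair coins -/

theorem frac_sg_sq (b : Bool) : sg b * sg b = 1 := by cases b <;> simp [sg]

theorem frac_sg_not (b : Bool) : sg (!b) = - sg b := by cases b <;> simp [sg]

theorem frac_sg_cases (b : Bool) : sg b = 1 ∨ sg b = -1 := by cases b <;> simp [sg]

section coins
variable {V : Type} [Fintype V] [DecidableEq V]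

/-- flip the coin of `a` -/
def fracFlip (a : V) (η : V → Bool) : V → Bool := Function.update η a (!η a)

theorem fracFlip_invol (a : V) : Function.Involutive (fracFlip a) := by
  intro η
  unfold fracFlip
  funext v
  by_cases h : v = a
  · subst h; simp
  · simp [h]

theorem frac_sum_flip (a : V) (F : (V → Bool) → ℝ) (hF : ∀ η, F (fracFlip a η) = - F η) :
    ∑ η, F η = 0 := by
  have h1 : ∑ η, F (fracFlip a η) = ∑ η, F η :=
    Equiv.sum_comp (Function.Involutive.toPerm _ (fracFlip_invol a)) F
  simp only [hF, Finset.sum_neg_distrib] at h1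
  linarith

theorem frac_sum_sg (a : V) : ∑ η : V → Bool, sg (η a) = 0 := by
  refine frac_sum_flip a _ fun η => ?_
  unfold fracFlip
  rw [Function.update_self, frac_sg_not]

theorem frac_sum_sg_sg (a b : V) :
    ∑ η : V → Bool, sg (η a) * sg (η b) = if a = b then 2 ^ Fintype.card V else 0 := by
  split_ifs with h
  · subst h
    simp only [frac_sg_sq, Finset.sum_const, Finset.card_univ, Fintype.card_fun, Fintype.card_bool]
    simp
  · refine frac_sum_flip a _ fun η => ?_
    unfold fracFlip
    rw [Function.update_self, Function.update_of_ne (Ne.symm h), frac_sg_not]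
    ring

end coins

/-! ### the averaging argument -/

theorem frac_inner {Η : Type} [Fintype Η] (c : ℝ) (g g' : Η → ℝ) (hc : c * (Fintype.card Η : ℝ) = 1)
    (hg : ∑ η, g η = 0) (hg' : ∑ η, g' η = 0) (A B : ℝ) :
    ∑ η, c * ((A + g η) * (B + g' η)) = A * B + c * ∑ η, g η * g' η := by
  have e : ∀ η, c * ((A + g η) * (B + g' η)) =
      c * (A * B) + (c * A) * g' η + (c * B) * g η + c * (g η * g' η) := fun η => by ring
  simp only [e, Finset.sum_add_distrib, ← Finset.mul_sum, hg, hg', Finset.sum_const,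
    Finset.card_univ, nsmul_eq_mul]
  linear_combination (A * B) * hc

section
variable {V : Type} [Fintype V] [DecidableEq V] (G : SimpleGraph V) [DecidableRel G.Adj]

theorem frac_avg {Ω : Type} [Fintype Ω] (q : Ω → ℝ) (hq0 : ∀ ω, 0 ≤ q ω) (hq1 : ∑ ω, q ω = 1)
    (x : Ω → V → ℝ) (y : V → ℝ)
    (hx : ∀ ω, q ω ≠ 0 → (∀ v, x ω v = 1 ∨ x ω v = -1) ∧ |∑ v, x ω v| ≤ 1)
    (hcov : ∀ u v, u ≠ v → ∑ ω, q ω * (x ω u * x ω v) ≤ y u * y v) (T : ℝ)
    (hSF : ∑ ω, q ω * (SF G (x ω)) ^ 2 ≤ T) (K : ℝ) (hK : 0 ≤ K)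
    (h : K * (BF G y y + 2 * √T) ≤ ∑ v, dg G v) : GoodB G K := by
  by_contra hbad
  have hb : ∀ ω, q ω ≠ 0 → ∑ v, dg G v < K * (BF G (x ω) (x ω) + 2 * |SF G (x ω)|) := by
    intro ω hω
    by_contra hle
    exact hbad ⟨x ω, (hx ω hω).1, (hx ω hω).2, not_lt.1 hle⟩
  set M := ∑ v, dg G v with hM
  have h1 : M < ∑ ω, q ω * (K * (BF G (x ω) (x ω) + 2 * |SF G (x ω)|)) := by
    have e : M = ∑ ω, q ω * M := by rw [← Finset.sum_mul, hq1, one_mul]
    rw [e]
    obtain ⟨ω0, hω0⟩ : ∃ ω, q ω ≠ 0 := by
      by_contra hne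
      rw [Finset.sum_eq_zero (fun ω _ => not_not.1 (fun h => hne ⟨ω, h⟩))] at hq1
      exact zero_ne_one hq1
    refine Finset.sum_lt_sum ?_ ⟨ω0, Finset.mem_univ _, ?_⟩
    · intro ω _
      rcases eq_or_ne (q ω) 0 with h0 | h0
      · rw [h0]; simp
      · exact mul_le_mul_of_nonneg_left (hb ω h0).le (hq0 ω)
    · exact mul_lt_mul_of_pos_left (hb ω0 hω0) (lt_of_le_of_ne (hq0 ω0) (Ne.symm hω0))
  have h2 : ∑ ω, q ω * (K * (BF G (x ω) (x ω) + 2 * |SF G (x ω)|)) =
      K * (∑ ω, q ω * BF G (x ω) (x ω) + 2 * ∑ ω, q ω * |SF G (x ω)|) := by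
    rw [Finset.mul_sum, ← Finset.sum_add_distrib, Finset.mul_sum]
    refine Finset.sum_congr rfl fun ω _ => ?_
    ring
  have h3 : ∑ ω, q ω * BF G (x ω) (x ω) ≤ BF G y y := by
    unfold BF
    have e : ∑ ω, q ω * (∑ u, ∑ v, if G.Adj u v then x ω u * x ω v else 0) =
        ∑ u, ∑ v, if G.Adj u v then ∑ ω, q ω * (x ω u * x ω v) else 0 := by
      simp only [Finset.mul_sum]
      rw [Finset.sum_comm]
      refine Finset.sum_congr rfl fun u _ => ?_
      rw [Finset.sum_comm]
      refine Finset.sum_congr rfl fun v _ => ?_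
      split_ifs
      · rfl
      · simp
    rw [e]
    refine Finset.sum_le_sum fun u _ => Finset.sum_le_sum fun v _ => ?_
    split_ifs with hadj
    · exact hcov u v hadj.ne
    · exact le_rfl
  have h4 : ∑ ω, q ω * |SF G (x ω)| ≤ √T := by
    refine Real.le_sqrt_of_sq_le ?_
    set m := ∑ ω, q ω * |SF G (x ω)| with hm
    have h5 : 0 ≤ ∑ ω, q ω * (|SF G (x ω)| - m) ^ 2 :=
      Finset.sum_nonneg fun ω _ => mul_nonneg (hq0 ω) (sq_nonneg _)
    have h6 : ∑ ω, q ω * (|SF G (x ω)| - m) ^ 2 = ∑ ω, q ω * (SF G (x ω)) ^ 2 - m ^ 2 := by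
      have e : ∀ ω, q ω * (|SF G (x ω)| - m) ^ 2 = q ω * (SF G (x ω)) ^ 2 -
          2 * m * (q ω * |SF G (x ω)|) + m ^ 2 * q ω := fun ω => by
        rw [← sq_abs (SF G (x ω))]; ring
      simp only [e, Finset.sum_add_distrib, Finset.sum_sub_distrib, ← Finset.mul_sum, hq1, ← hm]
      ring
    linarith
  have h7 : K * (∑ ω, q ω * BF G (x ω) (x ω) + 2 * ∑ ω, q ω * |SF G (x ω)|) ≤
      K * (BF G y y + 2 * √T) := mul_le_mul_of_nonneg_left (by linarith) hK
  linarith

end

/-! ### representatives of the pairs -/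

section rep
variable {V : Type} [Fintype V] [DecidableEq V] (e : V → ℕ) (π : V → V)

/-- the representative of a pair -/
def fracRep (v : V) : V := if e v < e (π v) then v else π v

/-- the sign of a vertex in its pair -/
def fracSgn (v : V) : ℝ := if e v < e (π v) then 1 else -1

variable {e π}

theorem fracRep_pi (he : Function.Injective e) {HP : Finset V} (hπ : IsPairing HP π) {v : V}
    (hv : v ∈ HP) : fracRep e π (π v) = fracRep e π v := by
  obtain ⟨h1, h2, h3⟩ := hπ v hv
  unfold fracRep
  rw [h3]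
  have h4 : e (π v) ≠ e v := fun h => h2 (he h)
  split_ifs <;> first | rfl | omega

theorem fracSgn_pi (he : Function.Injective e) {HP : Finset V} (hπ : IsPairing HP π) {v : V}
    (hv : v ∈ HP) : fracSgn e π (π v) = - fracSgn e π v := by
  obtain ⟨h1, h2, h3⟩ := hπ v hv
  unfold fracSgn
  rw [h3]
  have h4 : e (π v) ≠ e v := fun h => h2 (he h)
  split_ifs <;> first | omega | norm_num

theorem fracSgn_sq (v : V) : fracSgn e π v * fracSgn e π v = 1 := by
  unfold fracSgn; split_ifs <;> norm_num

theorem fracRep_eq {HP : Finset V} (hπ : IsPairing HP π) {u v : V}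
    (hu : u ∈ HP) (hv : v ∈ HP) (h : fracRep e π u = fracRep e π v) : v = u ∨ v = π u := by
  obtain ⟨u1, u2, u3⟩ := hπ u hu
  obtain ⟨v1, v2, v3⟩ := hπ v hv
  unfold fracRep at h
  split_ifs at h
  · exact Or.inl h.symm
  · right; rw [h, v3]
  · exact Or.inr h.symm
  · left; rw [← u3, h, v3]

end rep

section
variable {V : Type} [Fintype V] [DecidableEq V] (G : SimpleGraph V) [DecidableRel G.Adj]

theorem frac_pair_sum {HP : Finset V} {π : V → V} (hπ : IsPairing HP π) (f : V → ℝ) :
    ∑ v ∈ HP, f (π v) = ∑ v ∈ HP, f v := by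
  refine Finset.sum_nbij' π π (fun v hv => (hπ v hv).1) (fun v hv => (hπ v hv).1)
    (fun v hv => (hπ v hv).2.2) (fun v hv => (hπ v hv).2.2) (fun v _ => rfl)

theorem frac_SF_sub (f g : V → ℝ) : SF G (fun v => f v + g v) = SF G f + SF G g := by
  unfold SF
  rw [← Finset.sum_add_distrib]
  exact Finset.sum_congr rfl fun v _ => by ring

theorem frac_lemma (SP HP : Finset V) (hdis : Disjoint SP HP) (π : V → V) (hπ : IsPairing HP π)
    (y : V → ℝ) (hySP : ∀ v ∈ SP, y v = 1 ∨ y v = -1) (hyHP : ∀ v ∈ HP, y v = 0)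
    (hy : ∀ v, |y v| ≤ 1) (lo hi : ℝ)
    (hdeg : ∀ v, v ∉ SP → v ∉ HP → lo ≤ dg G v ∧ dg G v ≤ hi)
    (hpar : ∃ k : ℤ, ∑ v with v ∉ SP ∧ v ∉ HP, y v =
      ((univ.filter fun v => v ∉ SP ∧ v ∉ HP).card : ℝ) + 2 * k)
    (hsum : |∑ v, y v| ≤ 1) (K : ℝ) (hK : 0 ≤ K)
    (h : K * (BF G y y + 2 * √((SF G y) ^ 2 + gap2 G HP π + (hi - lo) ^ 2)) ≤ ∑ v, dg G v) :
    GoodB G K := by
  classical
  -- the pivotal distribution on the remaining vertices
  set P : V → Prop := fun v => v ∉ SP ∧ v ∉ HP with hP
  have hsumW : ∀ f : V → ℝ, ∑ w : {v // P v}, f w = ∑ v with P v, f v := fun f =>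
    (Finset.sum_subtype (univ.filter P) (fun v => by simp) f).symm
  obtain ⟨p, hp0, hp1, hp2, hp3, hp4, hp5⟩ := pivotal_sampling (W := {v // P v})
    (fun w => dg G w) (fun w => y w) lo hi (fun w => hdeg w w.2.1 w.2.2) (fun w => hy w) (by
      obtain ⟨k, hk⟩ := hpar
      refine ⟨k, ?_⟩
      rw [hsumW y, hk, Fintype.card_subtype])
  -- the coins
  set e : V → ℕ := fun v => (Fintype.equivFin V v : ℕ) with he
  have hinj : Function.Injective e := fun a b hab => (Fintype.equivFin V).injective (Fin.ext hab)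
  set ρ := fracRep e π with hρ
  set σ := fracSgn e π with hσ
  set A : V → ℝ := fun v => if v ∈ SP then y v else 0 with hA
  set f : ({v // P v} → Bool) → V → ℝ := fun s v => if h : P v then sg (s ⟨v, h⟩) else 0 with hf
  set fb : V → ℝ := fun v => if P v then y v else 0 with hfb
  set g : (V → Bool) → V → ℝ := fun η v => if v ∈ HP then σ v * sg (η (ρ v)) else 0 with hg
  set c : ℝ := ((2 : ℝ) ^ Fintype.card V)⁻¹ with hc
  have hc0 : 0 < c := by positivity
  have hc1 : c * (Fintype.card (V → Bool) : ℝ) = 1 := by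
    rw [Fintype.card_fun, Fintype.card_bool, hc]
    push_cast
    exact inv_mul_cancel₀ (by positivity)
  have hc2 : c * 2 ^ Fintype.card V = 1 := inv_mul_cancel₀ (by positivity)
  have hyA : ∀ v, y v = A v + fb v := by
    intro v
    simp only [hA, hfb, hP]
    by_cases h1 : v ∈ SP
    · simp [h1]
    · by_cases h2 : v ∈ HP
      · simp [h1, h2, hyHP v h2]
      · simp [h1, h2]
  -- expectations of `f`
  have Ef : ∀ v, ∑ s, p s * f s v = fb v := by
    intro v
    simp only [hf, hfb]
    by_cases h1 : P v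
    · simp only [h1, dite_true, if_true]
      exact hp3 ⟨v, h1⟩
    · simp [h1]
  have Eff : ∀ u v, u ≠ v → ∑ s, p s * (f s u * f s v) ≤ fb u * fb v := by
    intro u v huv
    simp only [hf, hfb]
    by_cases h1 : P u
    · by_cases h2 : P v
      · simp only [h1, h2, dite_true, if_true]
        exact hp4 ⟨u, h1⟩ ⟨v, h2⟩ (fun h => huv (congrArg Subtype.val h))
      · simp [h2]
    · simp [h1]
  -- expectations of `g`
  have Eg : ∀ v, ∑ η, g η v = 0 := by
    intro v
    simp only [hg]
    by_cases h1 : v ∈ HP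
    · simp only [h1, if_true, ← Finset.mul_sum, frac_sum_sg, mul_zero]
    · simp [h1]
  have Egg : ∀ u v, c * ∑ η, g η u * g η v =
      if u ∈ HP ∧ v ∈ HP ∧ ρ u = ρ v then σ u * σ v else 0 := by
    intro u v
    simp only [hg]
    by_cases h1 : u ∈ HP
    · by_cases h2 : v ∈ HP
      · simp only [h1, h2, if_true, true_and]
        have e1 : ∀ η : V → Bool, σ u * sg (η (ρ u)) * (σ v * sg (η (ρ v))) =
          (σ u * σ v) * (sg (η (ρ u)) * sg (η (ρ v))) := fun η => by ring
        simp only [e1, ← Finset.mul_sum, frac_sum_sg_sg]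
        split_ifs
        · rw [mul_comm (σ u * σ v), ← mul_assoc, hc2, one_mul]
        · simp
      · simp [h2]
    · simp [h1]
  have Egg' : ∀ u v, u ≠ v → c * ∑ η, g η u * g η v ≤ 0 := by
    intro u v huv
    rw [Egg]
    split_ifs with h1
    · obtain ⟨a1, a2, a3⟩ := h1
      rcases fracRep_eq hπ a1 a2 a3 with h2 | h2
      · exact absurd h2.symm huv
      · rw [h2, hσ, fracSgn_pi hinj hπ a1, mul_neg, fracSgn_sq]
        norm_num
    · exact le_rfl
  -- the random vector
  set x : ({v // P v} → Bool) × (V → Bool) → V → ℝ := fun ω v => A v + f ω.1 v + g ω.2 v with hx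
  set q : ({v // P v} → Bool) × (V → Bool) → ℝ := fun ω => p ω.1 * c with hq
  have hprod : ∀ (F : ({v // P v} → Bool) → (V → Bool) → ℝ),
      ∑ ω, q ω * F ω.1 ω.2 = ∑ s, p s * ∑ η, c * F s η := by
    intro F
    rw [Fintype.sum_prod_type]
    refine Finset.sum_congr rfl fun s _ => ?_
    rw [Finset.mul_sum]
    refine Finset.sum_congr rfl fun η _ => ?_
    simp only [hq]
    ring
  refine frac_avg G q (fun ω => mul_nonneg (hp0 _) hc0.le) ?_ x y ?_ ?_ _ ?_ K hK h
  · have h1 := hprod (fun _ _ => 1)
    simp only [mul_one, Finset.sum_const, Finset.card_univ, nsmul_eq_mul] at h1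
    rw [h1]
    have h2 : (Fintype.card (V → Bool) : ℝ) * c = 1 := by rw [mul_comm]; exact hc1
    simp only [h2, mul_one]
    exact hp1
  · rintro ⟨s, η⟩ hω
    have hps : p s ≠ 0 := by
      intro h0
      apply hω
      simp [hq, h0]
    constructor
    · intro v
      simp only [hx, hA, hf, hg]
      by_cases h1 : v ∈ SP
      · have h2 : v ∉ HP := Finset.disjoint_left.1 hdis h1
        have h3 : ¬ P v := fun h => h.1 h1
        simp only [h1, h2, h3, if_true, if_false, dite_false, add_zero]
        exact hySP v h1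
      · by_cases h2 : v ∈ HP
        · have h3 : ¬ P v := fun h => h.2 h2
          simp only [h1, h2, h3, if_true, if_false, dite_false, zero_add]
          rcases frac_sg_cases (η (ρ v)) with h4 | h4 <;> rw [h4] <;>
            simp only [hσ, fracSgn] <;> split_ifs <;> norm_num
        · have h3 : P v := ⟨h1, h2⟩
          simp only [h1, h2, h3, if_false, dite_true, zero_add, add_zero]
          exact frac_sg_cases _
    · have s1 : ∑ v, f s v = ∑ v, fb v := by
        have e1 : ∑ v, f s v = ∑ w : {v // P v}, sg (s w) := by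
          rw [← Finset.sum_filter_add_sum_filter_not univ P (fun v => f s v)]
          have e2 : ∑ v with ¬ P v, f s v = 0 := by
            refine Finset.sum_eq_zero fun v hv => ?_
            simp only [Finset.mem_filter, Finset.mem_univ, true_and] at hv
            simp [hf, hv]
          rw [e2, add_zero, ← hsumW]
          refine Finset.sum_congr rfl fun w _ => ?_
          simp only [hf, w.2, dite_true]
        have e3 : ∑ v, fb v = ∑ w : {v // P v}, y w := by
          rw [hsumW y, Finset.sum_filter]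
        rw [e1, e3]
        exact hp2 s hps
      have s2 : ∑ v, g η v = 0 := by
        have e1 : ∑ v, g η v = ∑ v ∈ HP, σ v * sg (η (ρ v)) := by
          simp only [hg]
          rw [← Finset.sum_filter]
          congr 1
          ext v; simp
        have e2 := frac_pair_sum hπ (fun v => σ v * sg (η (ρ v)))
        have e3 : ∑ v ∈ HP, σ (π v) * sg (η (ρ (π v))) = - ∑ v ∈ HP, σ v * sg (η (ρ v)) := by
          rw [← Finset.sum_neg_distrib]
          refine Finset.sum_congr rfl fun v hv => ?_
          rw [hσ, hρ, fracSgn_pi hinj hπ hv, fracRep_pi hinj hπ hv]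
          ring
        rw [e1]
        linarith
      have s3 : ∑ v, x (s, η) v = ∑ v, y v := by
        simp only [hx, hyA, Finset.sum_add_distrib]
        rw [s1, s2, add_zero]
      rw [s3]
      exact hsum
  · intro u v huv
    have h1 := hprod (fun s η => (A u + f s u + g η u) * (A v + f s v + g η v))
    have h2 : ∀ s, ∑ η, c * ((A u + f s u + g η u) * (A v + f s v + g η v)) =
        (A u + f s u) * (A v + f s v) + c * ∑ η, g η u * g η v := fun s =>
      frac_inner c (fun η => g η u) (fun η => g η v) hc1 (Eg u) (Eg v) _ _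
    have h3 : ∑ ω, q ω * (x ω u * x ω v) =
        ∑ s, p s * ((A u + f s u) * (A v + f s v) + c * ∑ η, g η u * g η v) := by
      simp only [hx]
      rw [h1]
      simp only [h2]
    rw [h3]
    have h4 : ∑ s, p s * ((A u + f s u) * (A v + f s v) + c * ∑ η, g η u * g η v) =
        A u * A v + A u * fb v + A v * fb u + ∑ s, p s * (f s u * f s v) +
          c * ∑ η, g η u * g η v := by
      have e1 : ∀ s, p s * ((A u + f s u) * (A v + f s v) + c * ∑ η, g η u * g η v) =
        (A u * A v + c * ∑ η, g η u * g η v) * p s + A u * (p s * f s v) + A v * (p s * f s u) +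
          p s * (f s u * f s v) := fun s => by ring
      simp only [e1, Finset.sum_add_distrib, ← Finset.mul_sum, hp1, Ef]
      ring
    rw [h4, hyA u, hyA v]
    have h5 := Eff u v huv
    have h6 := Egg' u v huv
    linarith
  · have hSF : ∀ ω, SF G (x ω) = (SF G A + SF G (f ω.1)) + SF G (g ω.2) := by
      intro ω
      have e1 : x ω = fun v => (A v + f ω.1 v) + g ω.2 v := rfl
      rw [e1, frac_SF_sub G (fun v => A v + f ω.1 v) (g ω.2), frac_SF_sub G A (f ω.1)]
    have Esg : ∑ η, SF G (g η) = 0 := by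
      unfold SF
      rw [Finset.sum_comm]
      simp only [← Finset.mul_sum, Eg, mul_zero, Finset.sum_const_zero]
    have h1 := hprod (fun s η => ((SF G A + SF G (f s)) + SF G (g η)) * ((SF G A + SF G (f s)) + SF G (g η)))
    have h2 : ∀ s, ∑ η, c * (((SF G A + SF G (f s)) + SF G (g η)) * ((SF G A + SF G (f s)) + SF G (g η))) =
        (SF G A + SF G (f s)) * (SF G A + SF G (f s)) + c * ∑ η, SF G (g η) * SF G (g η) := fun s =>
      frac_inner c (fun η => SF G (g η)) (fun η => SF G (g η)) hc1 Esg Esg _ _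
    have h3 : ∑ ω, q ω * (SF G (x ω)) ^ 2 =
        ∑ s, p s * ((SF G A + SF G (f s)) * (SF G A + SF G (f s)) + c * ∑ η, SF G (g η) * SF G (g η)) := by
      simp only [hSF, sq]
      rw [h1]
      simp only [h2]
    -- the coin part
    have h4 : c * ∑ η, SF G (g η) * SF G (g η) = gap2 G HP π := by
      have e1 : ∀ η, SF G (g η) * SF G (g η) =
          ∑ u, ∑ v, (dg G u * dg G v) * (g η u * g η v) := by
        intro η
        unfold SF
        rw [Finset.sum_mul_sum]
        refine Finset.sum_congr rfl fun u _ => Finset.sum_congr rfl fun v _ => ?_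
        ring
      have e2 : c * ∑ η, SF G (g η) * SF G (g η) =
          ∑ u, ∑ v, (dg G u * dg G v) * (c * ∑ η, g η u * g η v) := by
        simp only [e1]
        rw [Finset.sum_comm, Finset.mul_sum]
        refine Finset.sum_congr rfl fun u _ => ?_
        rw [Finset.sum_comm, Finset.mul_sum]
        refine Finset.sum_congr rfl fun v _ => ?_
        rw [← Finset.mul_sum]
        ring
      rw [e2]
      simp only [Egg]
      have e3 : ∀ u, ∑ v, dg G u * dg G v * (if u ∈ HP ∧ v ∈ HP ∧ ρ u = ρ v then σ u * σ v else 0) =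
          if u ∈ HP then dg G u ^ 2 - dg G u * dg G (π u) else 0 := by
        intro u
        by_cases hu : u ∈ HP
        · obtain ⟨u1, u2, u3⟩ := hπ u hu
          simp only [hu, true_and, if_true]
          rw [← Finset.sum_subset (Finset.subset_univ {u, π u})]
          · rw [Finset.sum_pair (Ne.symm u2)]
            have r1 : ρ (π u) = ρ u := fracRep_pi hinj hπ hu
            have r2 : σ (π u) = - σ u := fracSgn_pi hinj hπ hu
            have r3 : σ u * σ u = 1 := fracSgn_sq u
            simp only [hu, u1, r1, r2, and_self, if_true, mul_neg, r3]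
            ring
          · intro v _ hv
            rw [if_neg, mul_zero]
            rintro ⟨k1, k2⟩
            apply hv
            rw [Finset.mem_insert, Finset.mem_singleton]
            exact fracRep_eq hπ hu k1 k2
        · simp [hu]
      simp only [e3]
      rw [← Finset.sum_filter]
      have e4 : univ.filter (fun v => v ∈ HP) = HP := by ext v; simp
      rw [e4]
      unfold gap2
      have e5 : ∑ v ∈ HP, (dg G v - dg G (π v)) ^ 2 =
          ∑ v ∈ HP, dg G v ^ 2 - 2 * ∑ v ∈ HP, dg G v * dg G (π v) + ∑ v ∈ HP, dg G (π v) ^ 2 := by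
        rw [Finset.mul_sum, ← Finset.sum_sub_distrib, ← Finset.sum_add_distrib]
        exact Finset.sum_congr rfl fun v _ => by ring
      rw [e5, frac_pair_sum hπ (fun v => dg G v ^ 2), Finset.sum_sub_distrib]
      ring
    -- the pivotal part
    have h5 : ∑ s, p s * SF G (f s) = SF G fb := by
      unfold SF
      simp only [Finset.mul_sum]
      rw [Finset.sum_comm]
      refine Finset.sum_congr rfl fun v _ => ?_
      rw [← Ef v, Finset.mul_sum]
      exact Finset.sum_congr rfl fun s _ => by ring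
    have h6 : ∑ s, p s * (SF G (f s) - SF G fb) ^ 2 ≤ (hi - lo) ^ 2 := by
      refine le_trans (le_of_eq ?_) hp5
      refine Finset.sum_congr rfl fun s _ => ?_
      congr 2
      unfold SF
      rw [← Finset.sum_sub_distrib]
      have e1 : ∀ v, dg G v * f s v - dg G v * fb v =
          if h : P v then dg G v * (sg (s ⟨v, h⟩) - y v) else 0 := by
        intro v
        simp only [hf, hfb]
        by_cases h : P v
        · simp only [h, dite_true, if_true]; ring
        · simp [h]
      simp only [e1]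
      rw [← Finset.sum_filter_add_sum_filter_not univ P]
      have e2 : ∑ v with ¬ P v, (if h : P v then dg G v * (sg (s ⟨v, h⟩) - y v) else 0) = 0 := by
        refine Finset.sum_eq_zero fun v hv => ?_
        simp only [Finset.mem_filter, Finset.mem_univ, true_and] at hv
        simp [hv]
      rw [e2, add_zero, ← hsumW (fun v => if h : P v then dg G v * (sg (s ⟨v, h⟩) - y v) else 0)]
      refine Finset.sum_congr rfl fun w _ => ?_
      simp only [w.2, dite_true]
    have h7 : SF G y = SF G A + SF G fb := by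
      rw [← frac_SF_sub]
      congr 1
      funext v
      exact hyA v
    rw [h3, h4]
    have h8 : ∑ s, p s * ((SF G A + SF G (f s)) * (SF G A + SF G (f s)) + gap2 G HP π) =
        (SF G y) ^ 2 + gap2 G HP π + ∑ s, p s * (SF G (f s) - SF G fb) ^ 2 := by
      have e1 : ∀ s, p s * ((SF G A + SF G (f s)) * (SF G A + SF G (f s)) + gap2 G HP π) =
        ((SF G A) ^ 2 + gap2 G HP π - SF G fb ^ 2) * p s + (2 * SF G A + 2 * SF G fb) * (p s * SF G (f s)) +
          p s * (SF G (f s) - SF G fb) ^ 2 := fun s => by ring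
      simp only [e1, Finset.sum_add_distrib, ← Finset.mul_sum, hp1, h5, h7]
      ring
    rw [h8]
    linarith

end

end Pool.Agent.Bis
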