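import Mathlib
import Pool.Agent.Bis.Defs

/-!
# The sorted pairing
-/

set_option linter.unusedSectionVars false

namespace Pool.Agent.Bis
open Finset

section
variable {V : Type} [Fintype V] [DecidableEq V] (G : SimpleGraph V) [DecidableRel G.Adj]

/-- extend a pairing by one pair -/
def Sort_ext (a b : V) (π : V → V) (v : V) : V := if v = a then b else if v = b then a else π v

lemma Sort_ext_pairing {U : Finset V} {a b : V} (hab : a ≠ b) (ha : a ∈ U) (hb : b ∈ U)
    {π : V → V} (hπ : IsPairing ((U.erase a).erase b) π) : IsPairing U (Sort_ext a b π) := by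
  intro v hv
  unfold Sort_ext
  by_cases h1 : v = a
  · rw [if_pos h1, if_neg (Ne.symm hab), if_pos rfl, h1]
    exact ⟨hb, Ne.symm hab, rfl⟩
  · rw [if_neg h1]
    by_cases h2 : v = b
    · rw [if_pos h2, if_pos rfl, h2]
      exact ⟨ha, hab, rfl⟩
    · rw [if_neg h2]
      obtain ⟨h3, h4, h5⟩ := hπ v (by simp [h1, h2, hv])
      rw [Finset.mem_erase, Finset.mem_erase] at h3
      rw [if_neg h3.2.1, if_neg h3.1]
      exact ⟨h3.2.2, h4, h5⟩

theorem sorted_pairing (U : Finset V) (hU : Even U.card) (d : V → ℝ) (lo hi : ℝ)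
    (hd : ∀ v ∈ U, lo ≤ d v ∧ d v ≤ hi) (hlh : lo ≤ hi) :
    ∃ π : V → V, IsPairing U π ∧ ∑ v ∈ U, |d v - d (π v)| ≤ 2 * (hi - lo) := by
  have key : ∀ (n : ℕ) (U : Finset V) (hi : ℝ), U.card = 2 * n →
      (∀ v ∈ U, lo ≤ d v ∧ d v ≤ hi) → lo ≤ hi →
      ∃ π : V → V, IsPairing U π ∧ ∑ v ∈ U, |d v - d (π v)| ≤ 2 * (hi - lo) := by
    intro n
    induction n with
    | zero =>
      intro U hi hc _ hlh
      have hU0 : U = ∅ := Finset.card_eq_zero.mp (by omega)
      refine ⟨id, ?_, ?_⟩
      · intro v hv; rw [hU0] at hv; simp at hv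
      · rw [hU0, Finset.sum_empty]; linarith
    | succ n ih =>
      intro U hi hc hd hlh
      obtain ⟨a, ha, hamax⟩ := Finset.exists_max_image U d (Finset.card_pos.mp (by omega))
      have hc1 : (U.erase a).card = 2 * n + 1 := by
        rw [Finset.card_erase_of_mem ha]; omega
      obtain ⟨b, hb, hbmax⟩ := Finset.exists_max_image (U.erase a) d
        (Finset.card_pos.mp (by omega))
      have hb' := Finset.mem_erase.mp hb
      have hc2 : ((U.erase a).erase b).card = 2 * n := by
        rw [Finset.card_erase_of_mem hb]; omega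
      obtain ⟨π, hπ, hsum⟩ := ih ((U.erase a).erase b) (d b) hc2 (by
        intro v hv
        have hv' := Finset.mem_of_mem_erase hv
        exact ⟨(hd v (Finset.mem_of_mem_erase hv')).1, hbmax v hv'⟩) (hd b hb'.2).1
      have hab : a ≠ b := Ne.symm hb'.1
      refine ⟨Sort_ext a b π, Sort_ext_pairing hab ha hb'.2 hπ, ?_⟩
      rw [← Finset.add_sum_erase _ _ ha, ← Finset.add_sum_erase _ _ hb]
      have e1 : Sort_ext a b π a = b := by unfold Sort_ext; rw [if_pos rfl]
      have e2 : Sort_ext a b π b = a := by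
        unfold Sort_ext; rw [if_neg hb'.1, if_pos rfl]
      have e3 : ∑ v ∈ (U.erase a).erase b, |d v - d (Sort_ext a b π v)| =
          ∑ v ∈ (U.erase a).erase b, |d v - d (π v)| := by
        refine Finset.sum_congr rfl fun v hv => ?_
        rw [Finset.mem_erase, Finset.mem_erase] at hv
        unfold Sort_ext
        rw [if_neg hv.2.1, if_neg hv.1]
      rw [e1, e2, e3]
      have h1 := hamax b hb'.2
      have h2 := (hd a ha).2
      rw [abs_of_nonneg (by linarith), abs_of_nonpos (by linarith)]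
      linarith
  obtain ⟨n, hn⟩ := hU
  exact key n U hi (by omega) hd hlh

end

end Pool.Agent.Bis
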