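import Mathlib
import Pool.Agent.Bis.Defs
import Pool.Agent.Bis.Sort

/-!
# The greedy pairing of vertices with different colours
-/

set_option linter.unusedSectionVars false

namespace Pool.Agent.Bis
open Finset

section
variable {V : Type} [Fintype V] [DecidableEq V] (G : SimpleGraph V) [DecidableRel G.Adj]

theorem greedy_pairing {S : Type} [DecidableEq S] (L : Finset V) (σ : V → S) :
    ∃ (Lt : Finset V) (π : V → V), Lt ⊆ L ∧ IsPairing Lt π ∧ (∀ v ∈ Lt, σ (π v) ≠ σ v) ∧
      ∀ u ∈ L \ Lt, ∀ v ∈ L \ Lt, σ u = σ v := by
  have key : ∀ (n : ℕ) (L : Finset V), L.card = n →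
      ∃ (Lt : Finset V) (π : V → V), Lt ⊆ L ∧ IsPairing Lt π ∧ (∀ v ∈ Lt, σ (π v) ≠ σ v) ∧
      ∀ u ∈ L \ Lt, ∀ v ∈ L \ Lt, σ u = σ v := by
    intro n
    induction n using Nat.strong_induction_on with
    | _ n ih =>
      intro L hL
      by_cases hall : ∀ u ∈ L, ∀ v ∈ L, σ u = σ v
      · refine ⟨∅, id, Finset.empty_subset _, ?_, ?_, ?_⟩
        · intro v hv; simp at hv
        · intro v hv; simp at hv
        · intro u hu v hv
          rw [Finset.sdiff_empty] at hu hv
          exact hall u hu v hv
      · push Not at hall
        obtain ⟨a, ha, b, hb, hne⟩ := hall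
        have hab : a ≠ b := by rintro rfl; exact hne rfl
        have hb' : b ∈ L.erase a := Finset.mem_erase.mpr ⟨Ne.symm hab, hb⟩
        have hc : ((L.erase a).erase b).card < n := by
          rw [Finset.card_erase_of_mem hb', Finset.card_erase_of_mem ha]
          have : 0 < L.card := Finset.card_pos.mpr ⟨a, ha⟩
          omega
        obtain ⟨Lt, π, h1, h2, h3, h4⟩ := ih _ hc ((L.erase a).erase b) rfl
        have haL : a ∉ Lt := by
          intro h
          have := h1 h
          simp at this
        have hbL : b ∉ Lt := by
          intro h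
          have := h1 h
          simp at this
        have herase : ((insert a (insert b Lt)).erase a).erase b = Lt := by
          rw [Finset.erase_insert (by simp [hab, haL]), Finset.erase_insert hbL]
        refine ⟨insert a (insert b Lt), Sort_ext a b π, ?_, ?_, ?_, ?_⟩
        · intro v hv
          rw [Finset.mem_insert, Finset.mem_insert] at hv
          rcases hv with rfl | rfl | hv
          · exact ha
          · exact hb
          · exact Finset.mem_of_mem_erase (Finset.mem_of_mem_erase (h1 hv))
        · apply Sort_ext_pairing hab (by simp) (by simp)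
          rw [herase]
          exact h2
        · intro v hv
          rw [Finset.mem_insert, Finset.mem_insert] at hv
          unfold Sort_ext
          by_cases e1 : v = a
          · rw [if_pos e1, e1]; exact Ne.symm hne
          · rw [if_neg e1]
            by_cases e2 : v = b
            · rw [if_pos e2, e2]; exact hne
            · rw [if_neg e2]
              exact h3 v (by tauto)
        · intro u hu v hv
          rw [Finset.mem_sdiff, Finset.mem_insert, Finset.mem_insert] at hu hv
          push Not at hu hv
          refine h4 u ?_ v ?_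
          · rw [Finset.mem_sdiff, Finset.mem_erase, Finset.mem_erase]
            exact ⟨⟨hu.2.2.1, hu.2.1, hu.1⟩, hu.2.2.2⟩
          · rw [Finset.mem_sdiff, Finset.mem_erase, Finset.mem_erase]
            exact ⟨⟨hv.2.2.1, hv.2.1, hv.1⟩, hv.2.2.2⟩
  exact key _ L rfl

end

end Pool.Agent.Bis
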