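import Pool.Agent.Bis.Defs

/-!
# Judicious bisections: the set of hubs is small
-/

namespace Pool.Agent.Bis
open Finset

section
variable {V : Type} [Fintype V] [DecidableEq V] (G : SimpleGraph V) [DecidableRel G.Adj]

/-- the degrees outside `S` sum to at least the number of edges leaving `S` -/
private lemma hub_cut (S : Finset V) (K : ℕ) (hS : S.card = K) (hK : 1 ≤ K) :
    ∑ v ∈ S, G.degree v ≤ ∑ v ∈ Sᶜ, G.degree v + K * (K - 1) := by
  have h1 : ∀ v ∈ S, G.degree v ≤ (Sᶜ.filter fun w => G.Adj v w).card + (K - 1) := by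
    intro v hv
    have hsub : G.neighborFinset v ⊆ (Sᶜ.filter fun w => G.Adj v w) ∪ S.erase v := by
      intro w hw
      rw [SimpleGraph.mem_neighborFinset] at hw
      by_cases hwS : w ∈ S
      · exact mem_union_right _ (mem_erase.2 ⟨hw.ne', hwS⟩)
      · exact mem_union_left _ (mem_filter.2 ⟨mem_compl.2 hwS, hw⟩)
    calc G.degree v = (G.neighborFinset v).card := rfl
      _ ≤ ((Sᶜ.filter fun w => G.Adj v w) ∪ S.erase v).card := card_le_card hsub
      _ ≤ (Sᶜ.filter fun w => G.Adj v w).card + (S.erase v).card := card_union_le _ _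
      _ = (Sᶜ.filter fun w => G.Adj v w).card + (K - 1) := by
          rw [card_erase_of_mem hv, hS]
  have h2 : ∑ v ∈ S, (Sᶜ.filter fun w => G.Adj v w).card =
      ∑ w ∈ Sᶜ, (S.filter fun v => G.Adj v w).card :=
    sum_card_bipartiteAbove_eq_sum_card_bipartiteBelow (s := S) (t := Sᶜ) (fun v w => G.Adj v w)
  have h3 : ∀ w ∈ Sᶜ, (S.filter fun v => G.Adj v w).card ≤ G.degree w := by
    intro w _
    apply card_le_card
    intro v hv
    rw [SimpleGraph.mem_neighborFinset]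
    exact (mem_filter.1 hv).2.symm
  calc ∑ v ∈ S, G.degree v
      ≤ ∑ v ∈ S, ((Sᶜ.filter fun w => G.Adj v w).card + (K - 1)) := sum_le_sum h1
    _ = ∑ w ∈ Sᶜ, (S.filter fun v => G.Adj v w).card + K * (K - 1) := by
        rw [sum_add_distrib, h2, sum_const, hS, smul_eq_mul]
    _ ≤ ∑ v ∈ Sᶜ, G.degree v + K * (K - 1) := Nat.add_le_add_right (sum_le_sum h3) _

theorem hub_small (K : ℕ) (hK : Odd K) (hdeg : ∀ v, K ≤ G.degree v + 1)
    (Hb : Finset V) (p w1 : V) (hodd : Odd Hb.card) (hp : p ∈ Hb)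
    (hpmin : ∀ v ∈ Hb, G.degree p ≤ G.degree v)
    (htr : ∑ v, dg G v < 2 * K * (dg G p - dg G w1)) : Hb.card + 2 ≤ K := by
  by_contra hcon
  have hK1 : 1 ≤ K := hK.pos
  have hge : K ≤ Hb.card := by
    obtain ⟨a, ha⟩ := hK
    obtain ⟨b, hb⟩ := hodd
    omega
  obtain ⟨S, hSH, hS⟩ := exists_subset_card_eq hge
  have hcut := hub_cut G S K hS hK1
  have hlow : K * G.degree p ≤ ∑ v ∈ S, G.degree v := by
    have : ∑ _v ∈ S, G.degree p ≤ ∑ v ∈ S, G.degree v :=
      sum_le_sum fun v hv => hpmin v (hSH hv)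
    rwa [sum_const, hS, smul_eq_mul] at this
  have hsplit : ∑ v, G.degree v = ∑ v ∈ S, G.degree v + ∑ v ∈ Sᶜ, G.degree v :=
    (sum_add_sum_compl S _).symm
  have hsum : ∑ v, dg G v = ((∑ v, G.degree v : ℕ) : ℝ) := by
    simp [dg]
  have hR : (2 * K * G.degree p : ℝ) ≤ ((∑ v, G.degree v : ℕ) : ℝ) + K * (K - 1) := by
    have : 2 * (K * G.degree p) ≤ ∑ v, G.degree v + K * (K - 1) := by omega
    have h := (Nat.cast_le (α := ℝ)).2 this
    push_cast [Nat.cast_sub hK1] at h ⊢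
    linarith
  have hw : (K : ℝ) ≤ dg G w1 + 1 := by
    have := hdeg w1
    unfold dg
    exact_mod_cast this
  rw [hsum] at htr
  have hK1' : (1 : ℝ) ≤ K := by exact_mod_cast hK1
  have hp' : dg G p = (G.degree p : ℝ) := rfl
  rw [hp'] at htr
  nlinarith

end

end Pool.Agent.Bis
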