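import Mathlib
import Pool.Agent.Bis.Defs
import Pool.Agent.Bis.Adm

/-!
# From good sign vectors to bisections
-/

set_option linter.unusedSectionVars false

namespace Pool.Agent.Bis
open Finset

section
variable {V : Type} [Fintype V] [DecidableEq V] (G : SimpleGraph V) [DecidableRel G.Adj]

/-- the graph of the edges inside a set -/
def Link_inside (T : Finset V) : SimpleGraph V where
  Adj a b := G.Adj a b ∧ a ∈ T ∧ b ∈ T
  symm := ⟨fun _ _ h => ⟨h.1.symm, h.2.2, h.2.1⟩⟩
  loopless := ⟨fun a h => G.loopless.irrefl a h.1⟩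

instance Link_inst (T : Finset V) : DecidableRel (Link_inside G T).Adj := fun a b =>
  inferInstanceAs (Decidable (G.Adj a b ∧ a ∈ T ∧ b ∈ T))

theorem Link_edgeSet (T : Finset V) :
    (Link_inside G T).edgeSet = {e ∈ G.edgeSet | ∀ v ∈ e, v ∈ (T : Set V)} := by
  ext e
  induction e with
  | h a b =>
    simp only [SimpleGraph.mem_edgeSet, Link_inside, Set.mem_ofPred_eq, Sym2.mem_iff,
      Finset.mem_coe]
    constructor
    · rintro ⟨h1, h2, h3⟩
      exact ⟨h1, by rintro v (rfl | rfl) <;> assumption⟩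
    · rintro ⟨h1, h2⟩
      exact ⟨h1, h2 a (Or.inl rfl), h2 b (Or.inr rfl)⟩

theorem Link_two_edgesIn (T : Finset V) : 2 * edgesIn G (T : Set V) =
    ∑ u, ∑ v, if G.Adj u v ∧ u ∈ T ∧ v ∈ T then 1 else 0 := by
  have h1 : edgesIn G (T : Set V) = (Link_inside G T).edgeFinset.card := by
    rw [edgesIn, ← Link_edgeSet, Set.ncard_eq_toFinset_card']
    rfl
  rw [h1, ← (Link_inside G T).sum_degrees_eq_twice_card_edges]
  refine Finset.sum_congr rfl fun u _ => ?_
  rw [← SimpleGraph.card_neighborFinset_eq_degree, ← Finset.card_filter]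
  congr 1
  ext v
  rw [SimpleGraph.mem_neighborFinset, Finset.mem_filter]
  simp [Link_inside]

theorem Link_two_edges : 2 * G.edgeSet.ncard = ∑ u, ∑ v, if G.Adj u v then 1 else 0 := by
  have h := Link_two_edgesIn G Finset.univ
  have h1 : edgesIn G ((Finset.univ : Finset V) : Set V) = G.edgeSet.ncard := by
    unfold edgesIn; simp
  rw [h1] at h
  rw [h]
  simp

theorem Link_dg (u : V) : dg G u = ∑ v, if G.Adj u v then (1 : ℝ) else 0 := by
  unfold dg
  rw [← SimpleGraph.card_neighborFinset_eq_degree, Finset.sum_boole]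
  congr 2
  ext v; simp

theorem Link_identity (x : V → ℝ) (hx : ∀ v, x v = 1 ∨ x v = -1) (T : Finset V)
    (hT : ∀ v, v ∈ T ↔ x v = 1) :
    8 * (edgesIn G (T : Set V) : ℝ) = ∑ v, dg G v + 2 * SF G x + BF G x x := by
  have h1 : (2 * edgesIn G (T : Set V) : ℝ) =
      ∑ u, ∑ v, if G.Adj u v ∧ u ∈ T ∧ v ∈ T then (1 : ℝ) else 0 := by
    exact_mod_cast Link_two_edgesIn G T
  have h2 : ∀ u v, (if G.Adj u v ∧ u ∈ T ∧ v ∈ T then (1 : ℝ) else 0) * 4 =
      (if G.Adj u v then (1 : ℝ) else 0) + x u * (if G.Adj u v then (1 : ℝ) else 0) +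
      x v * (if G.Adj v u then (1 : ℝ) else 0) + (if G.Adj u v then x u * x v else 0) := by
    intro u v
    by_cases hadj : G.Adj u v
    · have hadj' := hadj.symm
      simp only [hadj, hadj', true_and, if_true, mul_one]
      have hu := hT u
      have hv := hT v
      rcases hx u with h3 | h3 <;> rcases hx v with h4 | h4 <;> simp [hu, hv, h3, h4] <;> norm_num
    · have hadj' : ¬ G.Adj v u := fun h => hadj h.symm
      simp [hadj, hadj']
  have h3 : (∑ u, ∑ v, if G.Adj u v ∧ u ∈ T ∧ v ∈ T then (1 : ℝ) else 0) * 4 =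
      ∑ v, dg G v + 2 * SF G x + BF G x x := by
    rw [Finset.sum_mul]
    have h4 : ∀ u, (∑ v, if G.Adj u v ∧ u ∈ T ∧ v ∈ T then (1 : ℝ) else 0) * 4 =
        dg G u + x u * dg G u + (∑ v, x v * (if G.Adj v u then (1 : ℝ) else 0)) +
        ∑ v, (if G.Adj u v then x u * x v else 0) := by
      intro u
      rw [Finset.sum_mul, Finset.sum_congr rfl fun v _ => h2 u v, Finset.sum_add_distrib,
        Finset.sum_add_distrib, Finset.sum_add_distrib, ← Finset.mul_sum, ← Link_dg]
    rw [Finset.sum_congr rfl fun u _ => h4 u, Finset.sum_add_distrib, Finset.sum_add_distrib,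
      Finset.sum_add_distrib]
    have h5 : ∑ u, ∑ v, x v * (if G.Adj v u then (1 : ℝ) else 0) = SF G x := by
      rw [Finset.sum_comm]
      unfold SF
      refine Finset.sum_congr rfl fun v _ => ?_
      rw [← Finset.mul_sum, ← Link_dg]
      ring
    have h6 : ∑ u, x u * dg G u = SF G x := by
      unfold SF
      exact Finset.sum_congr rfl fun v _ => by ring
    rw [h5, h6]
    unfold BF
    ring
  rw [← h3, ← h1]
  ring

end

/-! ## LINK -/
theorem link {V : Type} [Fintype V] [DecidableEq V] (G : SimpleGraph V) [DecidableRel G.Adj]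
    (K : ℕ) (hK : 1 ≤ K) (h : GoodB G K) :
    ∃ S : Set V, IsBisection S ∧
      max (edgesIn G S : ℝ) (edgesIn G Sᶜ) ≤ ((K : ℝ) + 1) / (4 * K) * G.edgeSet.ncard := by
  obtain ⟨x, hx, hsum, hle⟩ := h
  set T : Finset V := Finset.univ.filter (fun v => x v = 1) with hTdef
  have hT : ∀ v, v ∈ T ↔ x v = 1 := by intro v; simp [hTdef]
  have hTc : ∀ v, v ∈ Tᶜ ↔ (-x v) = 1 := by
    intro v
    rw [Finset.mem_compl, hT]
    rcases hx v with h | h <;> rw [h] <;> norm_num
  have hc : (T : Set V)ᶜ = ((Tᶜ : Finset V) : Set V) := by simp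
  have hK0 : (0 : ℝ) < K := by exact_mod_cast hK
  have hm : ∑ v, dg G v = 2 * (G.edgeSet.ncard : ℝ) := by
    have h1 : (2 * G.edgeSet.ncard : ℝ) = ∑ u, ∑ v, if G.Adj u v then (1 : ℝ) else 0 := by
      exact_mod_cast Link_two_edges G
    rw [h1]
    exact Finset.sum_congr rfl fun u _ => Link_dg G u
  have e1 := Link_identity G x hx T hT
  have e2 := Link_identity G (fun v => - x v) (fun v => by
    rcases hx v with h | h
    · right; rw [h]
    · left; rw [h]; ring) Tᶜ hTc
  have e3 : SF G (fun v => - x v) = - SF G x := by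
    unfold SF
    rw [← Finset.sum_neg_distrib]
    exact Finset.sum_congr rfl fun v _ => by ring
  have e4 : BF G (fun v => - x v) (fun v => - x v) = BF G x x := by
    unfold BF
    refine Finset.sum_congr rfl fun u _ => Finset.sum_congr rfl fun v _ => ?_
    split_ifs
    · ring
    · rfl
  rw [e3, e4] at e2
  rw [hm] at e1 e2 hle
  have a1 := le_abs_self (SF G x)
  have a2 := neg_abs_le (SF G x)
  have hB : BF G x x + 2 * |SF G x| ≤ 2 * (G.edgeSet.ncard : ℝ) / K := by
    rw [le_div_iff₀ hK0]; linarith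
  have hfin : ((K : ℝ) + 1) / (4 * K) * G.edgeSet.ncard =
      (2 * (G.edgeSet.ncard : ℝ) + 2 * (G.edgeSet.ncard : ℝ) / K) / 8 := by
    field_simp
    ring
  refine ⟨T, ?_, ?_⟩
  · rw [IsBisection, hc, Set.ncard_coe_finset, Set.ncard_coe_finset]
    have h1 : ∑ v, x v = (T.card : ℝ) - (Tᶜ).card := by
      rw [← Finset.sum_add_sum_compl T]
      have h2 : ∑ v ∈ T, x v = ∑ v ∈ T, (1 : ℝ) :=
        Finset.sum_congr rfl fun v hv => (hT v).mp hv
      have h3 : ∑ v ∈ Tᶜ, x v = ∑ v ∈ Tᶜ, (-1 : ℝ) :=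
        Finset.sum_congr rfl fun v hv => by have := (hTc v).mp hv; linarith
      rw [h2, h3, Finset.sum_const, Finset.sum_const, nsmul_eq_mul, nsmul_eq_mul]
      ring
    rw [h1, abs_le] at hsum
    constructor
    · have : (T.card : ℝ) ≤ (Tᶜ).card + 1 := by linarith [hsum.2]
      exact_mod_cast this
    · have : ((Tᶜ).card : ℝ) ≤ T.card + 1 := by linarith [hsum.1]
      exact_mod_cast this
  · rw [hc, hfin, max_le_iff]
    constructor <;> linarith

end Pool.Agent.Bis
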