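import Mathlib
import Pool.Agent.Bis.Defs
import Pool.Agent.Bis.Adm
import Pool.Agent.Bis.Link

/-!
# The lower bound from complete bipartite graphs
-/

set_option linter.unusedSectionVars false

namespace Pool.Agent.Bis
open Finset

section Lower

/-- the complete bipartite graph with `K` hubs and `N` leaves -/
abbrev Low_G (K N : ℕ) : SimpleGraph (Fin K ⊕ Fin N) :=
  completeBipartiteGraph (Fin K) (Fin N)

/-- the number of hubs in a set -/
def Low_hub {K N : ℕ} (T : Finset (Fin K ⊕ Fin N)) : ℕ :=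
  ∑ i : Fin K, if Sum.inl i ∈ T then 1 else 0

/-- the number of leaves in a set -/
def Low_lf {K N : ℕ} (T : Finset (Fin K ⊕ Fin N)) : ℕ :=
  ∑ j : Fin N, if Sum.inr j ∈ T then 1 else 0

theorem Low_edgesIn {K N : ℕ} (T : Finset (Fin K ⊕ Fin N)) :
    edgesIn (Low_G K N) (T : Set (Fin K ⊕ Fin N)) = Low_hub T * Low_lf T := by
  classical
  have h := Link_two_edgesIn (Low_G K N) T
  simp only [Fintype.sum_sum_type] at h
  have h1 : ∀ i j, ¬ (Low_G K N).Adj (Sum.inl i) (Sum.inl j) := by intro i j; simp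
  have h2 : ∀ i j, ¬ (Low_G K N).Adj (Sum.inr i) (Sum.inr j) := by intro i j; simp
  have h3 : ∀ i j, (Low_G K N).Adj (Sum.inl i) (Sum.inr j) := by intro i j; simp
  have h4 : ∀ i j, (Low_G K N).Adj (Sum.inr i) (Sum.inl j) := by intro i j; simp
  simp only [h1, h2, h3, h4, false_and, if_false, Finset.sum_const_zero, zero_add, add_zero,
    true_and] at h
  have e1 : ∑ i : Fin K, ∑ j : Fin N,
      (if (Sum.inl i : Fin K ⊕ Fin N) ∈ T ∧ (Sum.inr j : Fin K ⊕ Fin N) ∈ T then 1 else 0) =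
      Low_hub T * Low_lf T := by
    unfold Low_hub Low_lf
    rw [Finset.sum_mul_sum]
    refine Finset.sum_congr rfl fun i _ => Finset.sum_congr rfl fun j _ => ?_
    by_cases a : (Sum.inl i : Fin K ⊕ Fin N) ∈ T <;> by_cases b : (Sum.inr j : Fin K ⊕ Fin N) ∈ T
      <;> simp [a, b]
  have e2 : ∑ j : Fin N, ∑ i : Fin K,
      (if (Sum.inr j : Fin K ⊕ Fin N) ∈ T ∧ (Sum.inl i : Fin K ⊕ Fin N) ∈ T then 1 else 0) =
      Low_hub T * Low_lf T := by
    rw [Finset.sum_comm, ← e1]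
    refine Finset.sum_congr rfl fun i _ => Finset.sum_congr rfl fun j _ => ?_
    simp only [and_comm]
  rw [e1, e2] at h
  omega

theorem Low_card {K N : ℕ} (T : Finset (Fin K ⊕ Fin N)) : T.card = Low_hub T + Low_lf T := by
  have h : T.card = ∑ x : Fin K ⊕ Fin N, if x ∈ T then 1 else 0 := by
    simp
  rw [h, Fintype.sum_sum_type]; rfl

theorem Low_hub_compl {K N : ℕ} (T : Finset (Fin K ⊕ Fin N)) : Low_hub T + Low_hub Tᶜ = K := by
  unfold Low_hub
  rw [← Finset.sum_add_distrib]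
  have : ∀ i : Fin K, ((if Sum.inl i ∈ T then 1 else 0) +
      if Sum.inl i ∈ Tᶜ then 1 else 0) = 1 := by
    intro i; by_cases h : Sum.inl i ∈ T <;> simp [h]
  rw [Finset.sum_congr rfl fun i _ => this i]
  simp

theorem Low_edges (K N : ℕ) : (Low_G K N).edgeSet.ncard = K * N := by
  have h := Low_edgesIn (K := K) (N := N) Finset.univ
  have h1 : edgesIn (Low_G K N) ((Finset.univ : Finset (Fin K ⊕ Fin N)) : Set _) =
      (Low_G K N).edgeSet.ncard := by
    unfold edgesIn; simp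
  rw [h1] at h
  rw [h]
  simp [Low_hub, Low_lf]

theorem Low_degree (K N : ℕ) (hKN : K ≤ N) (v : Fin K ⊕ Fin N) :
    K ≤ ((Low_G K N).neighborSet v).ncard := by
  classical
  rcases v with i | j
  · have h1 : (Low_G K N).neighborSet (Sum.inl i) = Set.range Sum.inr := by
      ext w
      rcases w with w | w <;> simp
    rw [h1, ← Set.image_univ, Set.ncard_image_of_injective _ Sum.inr_injective]
    simpa using hKN
  · have h1 : (Low_G K N).neighborSet (Sum.inr j) = Set.range Sum.inl := by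
      ext w
      rcases w with w | w <;> simp
    rw [h1, ← Set.image_univ, Set.ncard_image_of_injective _ Sum.inl_injective]
    simp

/-- a class with more than half of the hubs contains many edges -/
theorem Low_many {a t : ℕ} (ht : 2 * a + 1 ≤ t) (T : Finset (Fin (2 * a + 1) ⊕ Fin (2 * t + 1)))
    (hT : T.card = a + t + 1) (h2 : a + 1 ≤ Low_hub T) :
    (a + 1) * t ≤ edgesIn (Low_G (2 * a + 1) (2 * t + 1))
      (T : Set (Fin (2 * a + 1) ⊕ Fin (2 * t + 1))) := by
  rw [Low_edgesIn]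
  have h1 := Low_card T
  have h3 := Low_hub_compl T
  rw [hT] at h1
  obtain ⟨i, hi⟩ := Nat.exists_eq_add_of_le h2
  have hia : i ≤ a := by omega
  obtain ⟨b, hb⟩ := Nat.exists_eq_add_of_le hia
  have h5 : Low_lf T + i = t := by omega
  obtain ⟨s, hs⟩ := Nat.exists_eq_add_of_le ht
  have h6 : Low_lf T = a + 1 + b + s := by omega
  rw [hi, h6, hs, hb]
  have h7 : (i + b + 1 + i) * (i + b + 1 + b + s) = (i + b + 1) * (2 * (i + b) + 1 + s) +
      i * (b + s) := by ring
  rw [h7]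
  exact Nat.le_add_right _ _

end Lower

/-! ## LOW -/
theorem lower_bound (K k : ℕ) (hK : Odd K) (hk : k ≤ K) (c : ℝ) (h : Admissible k c) :
    ((K : ℝ) + 1) / (4 * K) ≤ c := by
  obtain ⟨a, rfl⟩ := hK
  by_contra hlt
  push Not at hlt
  have hKpos : (0 : ℝ) < 4 * ((2 * a + 1 : ℕ) : ℝ) := by positivity
  rw [lt_div_iff₀ hKpos] at hlt
  push_cast at hlt
  set δ : ℝ := ((a : ℝ) + 1) - 2 * c * (2 * a + 1) with hδ
  have hδpos : 0 < δ := by rw [hδ]; linarith
  obtain ⟨t₀, ht₀⟩ := exists_nat_gt (c * (2 * a + 1) / δ)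
  set t := t₀ + (2 * a + 1) with ht
  have htge : 2 * a + 1 ≤ t := by omega
  have hkey : c * ((2 * a + 1) * (2 * t + 1)) < (a + 1) * t := by
    rw [div_lt_iff₀ hδpos] at ht₀
    have h1 : (t₀ : ℝ) ≤ t := by rw [ht]; push_cast; linarith [(Nat.cast_nonneg a : (0 : ℝ) ≤ a)]
    have h2 : (t₀ : ℝ) * δ ≤ t * δ := mul_le_mul_of_nonneg_right h1 hδpos.le
    rw [hδ] at h2 ht₀
    nlinarith
  obtain ⟨S, hS, hle⟩ := h _ (Low_G (2 * a + 1) (2 * t + 1))
    (fun v => hk.trans (Low_degree _ _ (by omega) v))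
  classical
  set T : Finset (Fin (2 * a + 1) ⊕ Fin (2 * t + 1)) := S.toFinset with hT
  have hST : S = (T : Set _) := by simp [hT]
  have hSc : Sᶜ = ((Tᶜ : Finset _) : Set _) := by rw [hST]; simp
  rw [IsBisection, hSc, hST, Set.ncard_coe_finset, Set.ncard_coe_finset] at hS
  rw [hSc, hST, max_le_iff] at hle
  have hcard : T.card + (Tᶜ).card = 2 * a + 2 * t + 2 := by
    rw [Finset.card_add_card_compl T]; simp; ring
  have hm' : ((Low_G (2 * a + 1) (2 * t + 1)).edgeSet.ncard : ℝ) =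
      (2 * a + 1) * (2 * t + 1) := by
    rw [Low_edges]; push_cast; ring
  rw [hm'] at hle
  have h3 := Low_hub_compl T
  have hT1 : T.card = a + t + 1 := by omega
  have hT2 : (Tᶜ).card = a + t + 1 := by omega
  rcases (show a + 1 ≤ Low_hub T ∨ a + 1 ≤ Low_hub Tᶜ by omega) with h | h
  · have h1 := Low_many htge T hT1 h
    have h2 : ((a : ℝ) + 1) * t ≤ edgesIn (Low_G (2 * a + 1) (2 * t + 1))
        (T : Set (Fin (2 * a + 1) ⊕ Fin (2 * t + 1))) := by
      exact_mod_cast h1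
    linarith [hle.1]
  · have h1 := Low_many htge Tᶜ hT2 h
    have h2 : ((a : ℝ) + 1) * t ≤ edgesIn (Low_G (2 * a + 1) (2 * t + 1))
        ((Tᶜ : Finset _) : Set (Fin (2 * a + 1) ⊕ Fin (2 * t + 1))) := by
      exact_mod_cast h1
    linarith [hle.2]

end Pool.Agent.Bis
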