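import Pool.Agent.Bis.MatchCount

/-!
# The matching structure theorem
-/

namespace Pool.Agent.Bis
open Finset

set_option linter.unusedSectionVars false

section
variable {V : Type} [Fintype V] [DecidableEq V] (G : SimpleGraph V) [DecidableRel G.Adj]

/-! ## MATCH -/

theorem matching_structure (W : Finset V) (r : ℕ) (hr : Odd r)
    (hdeg : ∀ w ∈ W, r ≤ degIn G W w) (w1 : V) (hw1 : w1 ∈ W) :
    ∃ (M : V → V) (X Xg Xt Xo : Finset V),
      (∀ v ∈ W, M v ∈ W ∧ M (M v) = v) ∧ (∀ v ∈ W, M v ≠ v → G.Adj v (M v)) ∧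
      X = W.filter (fun v => M v = v) ∧ X = Xg ∪ Xt ∪ Xo ∧
      Disjoint Xg Xt ∧ Disjoint Xg Xo ∧ Disjoint Xt Xo ∧
      (∀ u ∈ X, ∀ v ∈ X, ¬ G.Adj u v) ∧
      (∀ u ∈ X, ∀ v ∈ X, u ≠ v → ∀ y ∈ W, G.Adj u y → ¬ G.Adj v (M y)) ∧
      (∀ v ∈ Xg, v ≠ w1 → degIn G W v = r ∧
        ∀ u ∈ X, u ≠ v → ∀ y ∈ W, G.Adj v y → ¬ G.Adj u y) ∧
      (∀ v ∈ Xt, v ≠ w1 → degIn G W v = r) ∧
      r * Xt.card + (r + 2) * Xo.card ≤ ∑ w ∈ W, (degIn G W w - r) := by
  classical
  obtain ⟨A, hBar⟩ := exists_barrier G W (fun U' _ => mtutte U')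
  have hAW := hBar.1
  set cs := mcomps G (W \ A) with hcs
  let gn : Finset V → Prop := fun C => ∃ v ∈ C, degIn G W v = r ∧ ∀ a ∈ A, ¬ G.Adj v a
  let N : Finset (Finset V) → Finset V := fun R =>
    A.filter (fun a => ∃ C ∈ R, ∃ x ∈ C, G.Adj x a)
  have hNA : ∀ R, N R ⊆ A := fun R => Finset.filter_subset _ _
  have hNadj : ∀ R, ∀ C ∈ R, ∀ x ∈ C, ∀ a ∈ A, G.Adj x a → a ∈ N R :=
    fun R C hC x hx a ha hadj => mem_filter.2 ⟨ha, C, hC, x, hx, hadj⟩
  have hHallq : ∀ R ⊆ cs, R.card + A.card ≤ (N R).card + cs.card := fun R hR =>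
    hBar.hall R hR (N R) (hNA R) (hNadj R)
  have hAq : A.card ≤ cs.card := by
    have := hHallq ∅ (by simp)
    have h2 : N ∅ = ∅ := by simp [N]
    rw [h2] at this
    simpa using this
  -- the deficiency of the nongainable components
  obtain ⟨Rs, hRs, hRmax⟩ := Finset.exists_max_image (cs.filter (fun C => ¬ gn C)).powerset
    (fun R => (R.card : ℤ) - (N R).card) ⟨∅, by simp⟩
  rw [mem_powerset] at hRs
  have hRs0 : (N Rs).card ≤ Rs.card := by
    have := hRmax ∅ (by simp)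
    have h2 : N ∅ = ∅ := by simp [N]
    simp only [h2, Finset.card_empty] at this
    omega
  obtain ⟨δ, hδ⟩ : ∃ δ, Rs.card = (N Rs).card + δ := ⟨Rs.card - (N Rs).card, by omega⟩
  have hRbar : ∀ R ⊆ cs.filter (fun C => ¬ gn C), R.card ≤ (N R).card + δ := by
    intro R hR
    have := hRmax R (mem_powerset.2 hR)
    omega
  obtain ⟨ρ, hρ⟩ : ∃ ρ, cs.card = A.card + ρ := ⟨cs.card - A.card, by omega⟩
  have hδρ : δ ≤ ρ := by
    have := hHallq Rs (hRs.trans (Finset.filter_subset _ _))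
    omega
  -- Hall's theorem
  let ι := {C : Finset V // C ∈ cs}
  let t : ι → Finset (V ⊕ ℕ) := fun C => (N {C.1}).disjSum (range (if gn C.1 then ρ else δ))
  have hHall : ∀ s : Finset ι, s.card ≤ (s.biUnion t).card := by
    intro s
    rcases s.eq_empty_or_nonempty with hs | hs
    · subst hs; simp
    have himg : (s.image Subtype.val).card = s.card :=
      Finset.card_image_of_injective _ Subtype.val_injective
    have himgs : s.image Subtype.val ⊆ cs := by
      intro C hC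
      obtain ⟨D, _, rfl⟩ := mem_image.1 hC
      exact D.2
    have hinl : ∀ a ∈ N (s.image Subtype.val), Sum.inl a ∈ s.biUnion t := by
      intro a ha
      obtain ⟨haA, C, hC, x, hx, hadj⟩ := mem_filter.1 ha
      obtain ⟨D, hD, rfl⟩ := mem_image.1 hC
      refine mem_biUnion.2 ⟨D, hD, ?_⟩
      rw [Finset.inl_mem_disjSum]
      exact hNadj _ _ (mem_singleton_self _) x hx a haA hadj
    by_cases hg : ∃ C ∈ s, gn C.1
    · obtain ⟨C, hC, hCg⟩ := hg
      have h1 : (N (s.image Subtype.val)).disjSum (range ρ) ⊆ s.biUnion t := by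
        intro y hy
        rw [Finset.mem_disjSum] at hy
        rcases hy with ⟨a, ha, rfl⟩ | ⟨i, hi, rfl⟩
        · exact hinl a ha
        · refine mem_biUnion.2 ⟨C, hC, ?_⟩
          rw [Finset.inr_mem_disjSum, if_pos hCg]
          exact hi
      have h2 := Finset.card_le_card h1
      rw [Finset.card_disjSum, card_range] at h2
      have h3 := hHallq _ himgs
      omega
    · push Not at hg
      obtain ⟨C, hC⟩ := hs
      have h1 : (N (s.image Subtype.val)).disjSum (range δ) ⊆ s.biUnion t := by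
        intro y hy
        rw [Finset.mem_disjSum] at hy
        rcases hy with ⟨a, ha, rfl⟩ | ⟨i, hi, rfl⟩
        · exact hinl a ha
        · refine mem_biUnion.2 ⟨C, hC, ?_⟩
          rw [Finset.inr_mem_disjSum, if_neg (hg C hC)]
          exact hi
      have h2 := Finset.card_le_card h1
      rw [Finset.card_disjSum, card_range] at h2
      have h3 := hRbar (s.image Subtype.val) (by
        intro D hD
        refine mem_filter.2 ⟨himgs hD, ?_⟩
        obtain ⟨E, hE, rfl⟩ := mem_image.1 hD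
        exact hg E hE)
      omega
  obtain ⟨f, hf, hft⟩ := (Finset.all_card_le_biUnion_card_iff_exists_injective t).1 hHall
  have hfl : ∀ (C : ι) (a : V), f C = Sum.inl a → a ∈ A ∧ ∃ x ∈ C.1, G.Adj x a := by
    intro C a h
    have h1 := hft C
    rw [h, Finset.inl_mem_disjSum] at h1
    obtain ⟨h2, D, hD, x, hx, hadj⟩ := mem_filter.1 h1
    rw [mem_singleton] at hD
    subst hD
    exact ⟨h2, x, hx, hadj⟩
  have hfr : ∀ (C : ι) (i : ℕ), f C = Sum.inr i → i < ρ ∧ (¬ gn C.1 → i < δ) := by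
    intro C i h
    have h1 := hft C
    rw [h, Finset.inr_mem_disjSum, mem_range] at h1
    by_cases hg : gn C.1
    · rw [if_pos hg] at h1
      exact ⟨h1, fun h => absurd hg h⟩
    · rw [if_neg hg] at h1
      exact ⟨by omega, fun _ => h1⟩
  have hsurj : ∀ a ∈ A, ∃ C : ι, f C = Sum.inl a := by
    have himg : (univ : Finset ι).image f = A.disjSum (range ρ) := by
      apply Finset.eq_of_subset_of_card_le
      · intro y hy
        obtain ⟨C, _, rfl⟩ := mem_image.1 hy
        rcases hfC : f C with a | i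
        · rw [Finset.inl_mem_disjSum]
          exact (hfl C a hfC).1
        · rw [Finset.inr_mem_disjSum, mem_range]
          exact (hfr C i hfC).1
      · rw [Finset.card_image_of_injective _ hf, Finset.card_univ, Finset.card_disjSum,
          card_range]
        simp only [ι, Fintype.card_coe]
        omega
    intro a ha
    have h1 : (Sum.inl a : V ⊕ ℕ) ∈ A.disjSum (range ρ) := Finset.inl_mem_disjSum.2 ha
    rw [← himg] at h1
    obtain ⟨C, _, h⟩ := mem_image.1 h1
    exact ⟨C, h⟩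
  -- the exceptional vertices
  have hzk : ∀ C : Finset V, ∃ z k : V, ∀ hC : MCmp G (W \ A) C,
      z ∈ C ∧ ((f ⟨C, mem_mcomps.2 hC⟩ = Sum.inl k ∧ G.Adj z k ∧ k ∈ A) ∨
        ((∃ i, f ⟨C, mem_mcomps.2 hC⟩ = Sum.inr i) ∧ k = z ∧ (w1 ∈ C → z = w1) ∧
          (gn C → w1 ∉ C → degIn G W z = r ∧ ∀ a ∈ A, ¬ G.Adj z a))) := by
    intro C
    by_cases hC : C ∈ cs
    · rcases hfC : f ⟨C, hC⟩ with a | i
      · obtain ⟨haA, x, hx, hadj⟩ := hfl _ _ hfC
        exact ⟨x, a, fun _ => ⟨hx, Or.inl ⟨hfC, hadj, haA⟩⟩⟩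
      · by_cases hw : w1 ∈ C
        · exact ⟨w1, w1, fun _ => ⟨hw, Or.inr ⟨⟨i, hfC⟩, rfl, fun _ => rfl,
            fun _ h => absurd hw h⟩⟩⟩
        · by_cases hg : gn C
          · obtain ⟨v, hv, hv1, hv2⟩ := hg
            exact ⟨v, v, fun _ => ⟨hv, Or.inr ⟨⟨i, hfC⟩, rfl, fun h => absurd h hw,
              fun _ _ => ⟨hv1, hv2⟩⟩⟩⟩
          · obtain ⟨v, hv⟩ := (mem_mcomps.1 hC).2.1
            exact ⟨v, v, fun _ => ⟨hv, Or.inr ⟨⟨i, hfC⟩, rfl, fun h => absurd h hw,
              fun h => absurd h hg⟩⟩⟩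
    · exact ⟨w1, w1, fun h => absurd (mem_mcomps.2 h) hC⟩
  choose z k hzk using hzk
  have hgg : ∀ a : V, ∃ C : Finset V, a ∈ A → MCmp G (W \ A) C ∧ k C = a := by
    intro a
    by_cases ha : a ∈ A
    · obtain ⟨C, hC⟩ := hsurj a ha
      refine ⟨C.1, fun _ => ⟨mem_mcomps.1 C.2, ?_⟩⟩
      rcases (hzk C.1 (mem_mcomps.1 C.2)).2 with h | h
      · have h1 := h.1
        rw [show (⟨C.1, mem_mcomps.2 (mem_mcomps.1 C.2)⟩ : ι) = C from rfl, hC] at h1
        exact (Sum.inl.inj h1).symm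
      · obtain ⟨⟨i, hi⟩, _⟩ := h
        rw [show (⟨C.1, mem_mcomps.2 (mem_mcomps.1 C.2)⟩ : ι) = C from rfl, hC] at hi
        exact absurd hi (by simp)
    · exact ⟨∅, fun h => absurd h ha⟩
  choose g hg using hgg
  have hCA : ∀ C, MCmp G (W \ A) C → ∀ v ∈ C, v ∉ A := fun C hC v hv =>
    (mem_sdiff.1 (hC.1.1 hv)).2
  have hCW : ∀ C, MCmp G (W \ A) C → ∀ v ∈ C, v ∈ W := fun C hC v hv =>
    (mem_sdiff.1 (hC.1.1 hv)).1
  have hkA : ∀ C (hC : MCmp G (W \ A) C), k C ∈ A → f ⟨C, mem_mcomps.2 hC⟩ = Sum.inl (k C) := by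
    intro C hC hk
    rcases (hzk C hC).2 with h | h
    · exact h.1
    · rw [h.2.1] at hk
      exact absurd hk (hCA C hC _ (hzk C hC).1)
  obtain ⟨M, h1, h2, h3, h4, h5⟩ := hBar.glue z k g (fun C hC => (hzk C hC).1) (by
    intro C hC
    rcases (hzk C hC).2 with h | h
    · right
      refine ⟨h.2.2, h.2.1, ?_⟩
      obtain ⟨e5, e6⟩ := hg _ h.2.2
      have e7 := hkA _ e5 (by rw [e6]; exact h.2.2)
      exact congrArg Subtype.val (hf (e7.trans ((congrArg Sum.inl e6).trans h.1.symm)))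
    · exact Or.inl h.2.1) hg
  -- characterisation of exposed vertices
  have hex : ∀ v ∈ W, M v = v → ∃ C, MCmp G (W \ A) C ∧ v ∈ C ∧ v = z C ∧ k C = z C := by
    intro v hv hMv
    have hvA : v ∉ A := by
      intro hvA
      obtain ⟨e5, e6⟩ := hg _ hvA
      have e7 := (hzk _ e5).1
      rw [← h3 v hvA, hMv] at e7
      exact hCA _ e5 _ e7 hvA
    obtain ⟨C, hC, hvC⟩ := exists_mcmp (G := G) (mem_sdiff.2 ⟨hv, hvA⟩)
    have hvz : v = z C := by
      by_contra hvz
      exact (h2 C hC v hvC hvz).2 hMv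
    refine ⟨C, hC, hvC, hvz, ?_⟩
    have := h1 C hC
    rw [← hvz, hMv] at this
    rw [← this, ← hvz]
  -- components of exposed vertices are disjoint
  have hMC : ∀ C, MCmp G (W \ A) C → k C = z C → ∀ y ∈ C, M y ∈ C := by
    intro C hC hk y hy
    by_cases hyz : y = z C
    · rw [hyz, h1 C hC, hk]
      exact (hzk C hC).1
    · exact (h2 C hC y hy hyz).1
  have hnadj : ∀ C, MCmp G (W \ A) C → ∀ D, MCmp G (W \ A) D → ∀ u ∈ C, ∀ v ∈ D, u ∈ D ∨
      ¬ G.Adj u v := by
    intro C hC D hD u hu v hv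
    by_cases hadj : G.Adj u v
    · left
      exact hD.1.2 v hv u (hC.1.1 hu) hadj.symm
    · exact Or.inr hadj
  have hXne : ∀ u ∈ W, M u = u → ∀ v ∈ W, M v = v → u ≠ v → ∀ C, MCmp G (W \ A) C → u ∈ C →
      v ∉ C := by
    intro u hu hMu v hv hMv hne C hC huC hvC
    obtain ⟨C1, hC1, huC1, huz, _⟩ := hex u hu hMu
    obtain ⟨C2, hC2, hvC2, hvz, _⟩ := hex v hv hMv
    have e1 := hC1.eq_of_mem hC huC1 huC
    have e2 := hC2.eq_of_mem hC hvC2 hvC
    rw [e1] at huz
    rw [e2] at hvz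
    exact hne (huz.trans hvz.symm)
  let tight : Finset V → Prop := fun C => mec G A C + meps G W r C = r
  set X := W.filter (fun v => M v = v) with hX
  set Xg := X.filter (fun v => ∃ C, MCmp G (W \ A) C ∧ v ∈ C ∧ gn C) with hXg
  set Xt := X.filter (fun v => ∃ C, MCmp G (W \ A) C ∧ v ∈ C ∧ ¬ gn C ∧ tight C) with hXt
  set Xo := X.filter (fun v => ∃ C, MCmp G (W \ A) C ∧ v ∈ C ∧ ¬ gn C ∧ ¬ tight C) with hXo
  have hcount : ∀ C, MCmp G (W \ A) C → ¬ gn C → r ≤ mec G A C + meps G W r C ∧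
      Odd (mec G A C + meps G W r C) ∧ (mec G A C + meps G W r C = r → meps G W r C = 0) := by
    intro C hC hgn
    refine mcount hr hdeg hAW hC (hBar.2.1 C hC).1 ?_
    intro v hv hdv
    by_contra hcon
    push Not at hcon
    exact hgn ⟨v, hv, hdv, hcon⟩
  refine ⟨M, X, Xg, Xt, Xo, h4, h5, rfl, ?_, ?_, ?_, ?_, ?_, ?_, ?_, ?_, ?_⟩
  · -- union
    ext v
    simp only [mem_union]
    constructor
    · intro hv
      have hv' := mem_filter.1 hv
      obtain ⟨C, hC, hvC, _, _⟩ := hex v hv'.1 hv'.2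
      by_cases hgn : gn C
      · exact Or.inl (Or.inl (mem_filter.2 ⟨hv, C, hC, hvC, hgn⟩))
      · by_cases ht : tight C
        · exact Or.inl (Or.inr (mem_filter.2 ⟨hv, C, hC, hvC, hgn, ht⟩))
        · exact Or.inr (mem_filter.2 ⟨hv, C, hC, hvC, hgn, ht⟩)
    · rintro ((h | h) | h) <;> exact (mem_filter.1 h).1
  · rw [Finset.disjoint_left]
    intro v hv hv'
    obtain ⟨_, C, hC, hvC, hgn⟩ := mem_filter.1 hv
    obtain ⟨_, D, hD, hvD, hgn', _⟩ := mem_filter.1 hv'
    rw [hC.eq_of_mem hD hvC hvD] at hgn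
    exact hgn' hgn
  · rw [Finset.disjoint_left]
    intro v hv hv'
    obtain ⟨_, C, hC, hvC, hgn⟩ := mem_filter.1 hv
    obtain ⟨_, D, hD, hvD, hgn', _⟩ := mem_filter.1 hv'
    rw [hC.eq_of_mem hD hvC hvD] at hgn
    exact hgn' hgn
  · rw [Finset.disjoint_left]
    intro v hv hv'
    obtain ⟨_, C, hC, hvC, _, ht⟩ := mem_filter.1 hv
    obtain ⟨_, D, hD, hvD, _, ht'⟩ := mem_filter.1 hv'
    rw [hC.eq_of_mem hD hvC hvD] at ht
    exact ht' ht
  · -- independent
    intro u hu v hv hadj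
    have hu' := mem_filter.1 hu
    have hv' := mem_filter.1 hv
    obtain ⟨C, hC, huC, _, _⟩ := hex u hu'.1 hu'.2
    obtain ⟨D, hD, hvD, _, _⟩ := hex v hv'.1 hv'.2
    rcases hnadj C hC D hD u huC v hvD with h | h
    · exact hXne u hu'.1 hu'.2 v hv'.1 hv'.2 hadj.ne D hD h hvD
    · exact h hadj
  · -- (iv)
    intro u hu v hv hne y hy hadj hadj'
    have hu' := mem_filter.1 hu
    have hv' := mem_filter.1 hv
    obtain ⟨C, hC, huC, huz, huk⟩ := hex u hu'.1 hu'.2
    obtain ⟨D, hD, hvD, hvz, hvk⟩ := hex v hv'.1 hv'.2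
    have hMy := (h4 y hy).1
    by_cases hyA : y ∈ A
    · rw [h3 y hyA] at hadj'
      obtain ⟨e5, e6⟩ := hg _ hyA
      have e7 := (hzk _ e5).1
      rcases hnadj _ e5 D hD _ e7 v hvD with h | h
      · have e8 := e5.eq_of_mem hD e7 h
        rw [e8] at e6
        rw [hvk] at e6
        exact hCA D hD _ (hzk D hD).1 (e6 ▸ hyA)
      · exact h hadj'.symm
    · have hyC : y ∈ C := hC.1.2 u huC y (mem_sdiff.2 ⟨hy, hyA⟩) hadj
      have hMyC := hMC C hC huk y hyC
      rcases hnadj C hC D hD _ hMyC v hvD with h | h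
      · have e8 := hC.eq_of_mem hD hMyC h
        exact hXne u hu'.1 hu'.2 v hv'.1 hv'.2 hne D hD (e8 ▸ huC) hvD
      · exact h hadj'.symm
  · -- gainable
    intro v hv hvw
    obtain ⟨hvX, C, hC, hvC, hgn⟩ := mem_filter.1 hv
    have hv' := mem_filter.1 hvX
    obtain ⟨C', hC', hvC', hvz, hvk⟩ := hex v hv'.1 hv'.2
    have hCC := hC'.eq_of_mem hC hvC' hvC
    subst hCC
    rcases (hzk C' hC').2 with h | h
    · exfalso
      rw [hvk] at h
      exact hCA _ hC' _ (hzk C' hC').1 h.2.2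
    · have hw : w1 ∉ C' := fun hw => hvw (hvz.trans (h.2.2.1 hw))
      have h6 := h.2.2.2 hgn hw
      rw [← hvz] at h6
      refine ⟨h6.1, ?_⟩
      intro u hu hne y hy hadj hadj'
      have hyA : y ∉ A := fun hyA => h6.2 y hyA hadj
      have hyC : y ∈ C' := hC'.1.2 v hvC' y (mem_sdiff.2 ⟨hy, hyA⟩) hadj
      have hu' := mem_filter.1 hu
      obtain ⟨D, hD, huD, _, _⟩ := hex u hu'.1 hu'.2
      rcases hnadj D hD C' hC' u huD y hyC with h | h
      · exact hXne v hv'.1 hv'.2 u hu'.1 hu'.2 hne.symm C' hC' hvC' h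
      · exact h hadj'
  · -- tight
    intro v hv _
    obtain ⟨hvX, C, hC, hvC, hgn, ht⟩ := mem_filter.1 hv
    have h6 := (hcount C hC hgn).2.2 ht
    have h7 := (Finset.sum_eq_zero_iff.1 h6) v hvC
    have h8 := hdeg v (mem_filter.1 hvX).1
    omega
  · -- counting
    -- exposed nongainable components inject into `range δ`
    have hRscs : Rs ⊆ cs := hRs.trans (Finset.filter_subset _ _)
    have hcm : ∀ v : V, ∃ C, v ∈ X → (MCmp G (W \ A) C ∧ v ∈ C ∧ v = z C ∧ k C = z C) := by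
      intro v
      by_cases hv : v ∈ X
      · have hv' := mem_filter.1 hv
        obtain ⟨C, hC⟩ := hex v hv'.1 hv'.2
        exact ⟨C, fun _ => hC⟩
      · exact ⟨∅, fun h => absurd h hv⟩
    choose cm hcm using hcm
    have hfi : ∀ v : V, ∃ i, ∀ hv : v ∈ X, f ⟨cm v, mem_mcomps.2 (hcm v hv).1⟩ = Sum.inr i := by
      intro v
      by_cases hv : v ∈ X
      · obtain ⟨hC, hvC, hvz, hvk⟩ := hcm v hv
        rcases (hzk (cm v) hC).2 with h | h
        · exfalso
          rw [hvk] at h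
          exact hCA _ hC _ (hzk _ hC).1 h.2.2
        · obtain ⟨i, hi⟩ := h.1
          exact ⟨i, fun _ => hi⟩
      · exact ⟨0, fun h => absurd h hv⟩
    choose fi hfi using hfi
    have hgnv : ∀ v ∈ Xt ∪ Xo, v ∈ X ∧ ¬ gn (cm v) := by
      intro v hv
      rw [mem_union] at hv
      rcases hv with hv | hv
      · obtain ⟨hvX, C, hC, hvC, hgn, ht⟩ := mem_filter.1 hv
        refine ⟨hvX, ?_⟩
        rw [(hcm v hvX).1.eq_of_mem hC (hcm v hvX).2.1 hvC]
        exact hgn
      · obtain ⟨hvX, C, hC, hvC, hgn, ht⟩ := mem_filter.1 hv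
        refine ⟨hvX, ?_⟩
        rw [(hcm v hvX).1.eq_of_mem hC (hcm v hvX).2.1 hvC]
        exact hgn
    have hdisto : Disjoint Xt Xo := by
      rw [Finset.disjoint_left]
      intro v hv hv'
      obtain ⟨_, C, hC, hvC, _, ht⟩ := mem_filter.1 hv
      obtain ⟨_, D, hD, hvD, _, ht'⟩ := mem_filter.1 hv'
      rw [hC.eq_of_mem hD hvC hvD] at ht
      exact ht' ht
    have hle : Xt.card + Xo.card ≤ δ := by
      rw [← Finset.card_union_of_disjoint hdisto, ← Finset.card_range δ]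
      apply Finset.card_le_card_of_injOn fi
      · intro v hv
        have h6 := hgnv v hv
        have h7 := (hfr _ _ (hfi v h6.1)).2 h6.2
        simpa using h7
      · intro u hu v hv huv
        have hu' := hgnv u hu
        have hv' := hgnv v hv
        have e1 := hfi u hu'.1
        have e2 := hfi v hv'.1
        rw [huv] at e1
        have e3 : cm u = cm v := congrArg Subtype.val (hf (e1.trans e2.symm))
        rw [(hcm u hu'.1).2.2.1, (hcm v hv'.1).2.2.1, e3]
    -- number of tight components in `Rs`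
    have ht : (Rs.filter tight).card ≤ (N Rs).card + Xt.card := by
      rw [← Finset.card_disjSum]
      have hmap : ∀ C : Finset V, ∃ y : V ⊕ V, ∀ hC : C ∈ Rs.filter tight,
          (k C ∈ A ∧ y = Sum.inl (k C) ∧ k C ∈ N Rs) ∨ (k C = z C ∧ y = Sum.inr (z C) ∧ z C ∈ Xt) := by
        intro C
        by_cases hC : C ∈ Rs.filter tight
        · obtain ⟨hCR, hCt⟩ := mem_filter.1 hC
          have hCc := mem_mcomps.1 (hRscs hCR)
          rcases (hzk C hCc).2 with h | h
          · exact ⟨Sum.inl (k C), fun _ => Or.inl ⟨h.2.2, rfl,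
              hNadj Rs C hCR (z C) (hzk C hCc).1 (k C) h.2.2 h.2.1⟩⟩
          · refine ⟨Sum.inr (z C), fun _ => Or.inr ⟨h.2.1, rfl, ?_⟩⟩
            refine mem_filter.2 ⟨mem_filter.2 ⟨hCW C hCc _ (hzk C hCc).1, ?_⟩, C, hCc,
              (hzk C hCc).1, (mem_filter.1 (hRs hCR)).2, hCt⟩
            rw [h1 C hCc, h.2.1]
        · exact ⟨Sum.inl w1, fun h => absurd h hC⟩
      choose y hy using hmap
      apply Finset.card_le_card_of_injOn y
      · intro C hC
        rcases hy C hC with h | h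
        · rw [h.2.1]
          exact_mod_cast Finset.inl_mem_disjSum.2 h.2.2
        · rw [h.2.1]
          exact_mod_cast Finset.inr_mem_disjSum.2 h.2.2
      · intro C hC D hD hCD
        have hCc := mem_mcomps.1 (hRscs (mem_filter.1 hC).1)
        have hDc := mem_mcomps.1 (hRscs (mem_filter.1 hD).1)
        rcases hy C hC with h | h <;> rcases hy D hD with h' | h'
        · rw [h.2.1, h'.2.1] at hCD
          have e1 := hkA C hCc h.1
          have e2 := hkA D hDc h'.1
          have e3 : k C = k D := Sum.inl.inj hCD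
          rw [e3] at e1
          exact congrArg Subtype.val (hf (e1.trans e2.symm))
        · rw [h.2.1, h'.2.1] at hCD
          exact absurd hCD (by simp)
        · rw [h.2.1, h'.2.1] at hCD
          exact absurd hCD (by simp)
        · rw [h.2.1, h'.2.1] at hCD
          have e1 := Sum.inr.inj hCD
          exact hCc.eq_of_mem hDc (hzk C hCc).1 (e1 ▸ (hzk D hDc).1)
    have hsum : (r + 2) * Rs.card ≤ ∑ C ∈ Rs, (mec G A C + meps G W r C) +
        2 * (Rs.filter tight).card := by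
      rw [Finset.card_filter, Finset.mul_sum, ← Finset.sum_add_distrib, mul_comm,
        ← smul_eq_mul, ← Finset.sum_const]
      refine Finset.sum_le_sum fun C hC => ?_
      have hCc := mem_mcomps.1 (hRscs hC)
      obtain ⟨c1, c2, _⟩ := hcount C hCc (mem_filter.1 (hRs hC)).2
      by_cases htC : tight C
      · rw [if_pos htC]
        omega
      · rw [if_neg htC]
        have : mec G A C + meps G W r C ≠ r := htC
        rw [Nat.odd_iff] at c2 hr
        omega
    have hfin := sum_excess_ge (G := G) r hAW Rs hRscs (N Rs) (hNA Rs) hdeg (hNadj Rs)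
    have e1 : (r + 2) * Rs.card = r * (N Rs).card + 2 * (N Rs).card + r * δ + 2 * δ := by
      rw [hδ]; ring
    have e2 : r * Xt.card + r * Xo.card ≤ r * δ := by
      rw [← mul_add]; exact Nat.mul_le_mul_left r hle
    have e3 : (r + 2) * Xo.card = r * Xo.card + 2 * Xo.card := by ring
    omega

end

end Pool.Agent.Bis
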