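import Pool.Agent.Bis.Defs

/-!
# Judicious bisections: from a Gallai-Edmonds type decomposition to the matching structure
-/

namespace Pool.Agent.Bis
open Finset

section
variable {V : Type} [Fintype V] [DecidableEq V] (G : SimpleGraph V) [DecidableRel G.Adj]

/-- the vertices of `A` adjacent to a member of the family `R` -/
def nbA (A : Finset V) (R : Finset (Finset V)) : Finset V :=
  A.filter fun a => ∃ C ∈ R, ∃ v ∈ C, G.Adj a v

/-- the output of the Gallai-Edmonds type decomposition -/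
structure MatchDecomp (W A : Finset V) (comps : Finset (Finset V)) : Prop where
  hA : A ⊆ W
  hsub : ∀ C ∈ comps, C ⊆ W \ A
  hodd : ∀ C ∈ comps, Odd C.card
  hcover : ∀ v ∈ W \ A, ∃ C ∈ comps, v ∈ C
  hsep : ∀ C ∈ comps, ∀ C' ∈ comps, C ≠ C' → Disjoint C C' ∧ ∀ u ∈ C, ∀ v ∈ C', ¬ G.Adj u v
  hfc : ∀ C ∈ comps, ∀ v ∈ C, ∃ π : V → V, IsPairing (C.erase v) π ∧
      ∀ u ∈ C.erase v, G.Adj u (π u)
  hdef : ∀ R ⊆ comps, R.card + A.card ≤ (nbA G A R).card + comps.card

variable {G} {W A : Finset V} {comps : Finset (Finset V)}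

/-- Hall's theorem for the components -/
theorem match_hall (D : MatchDecomp G W A comps) (gain : Finset V → Prop) :
    ∃ (δ : ℕ) (Rs : Finset (Finset V)) (g : V → Finset V),
      Rs ⊆ comps ∧ (∀ C ∈ Rs, ¬ gain C) ∧ Rs.card = (nbA G A Rs).card + δ ∧
      (∀ a ∈ A, g a ∈ comps ∧ ∃ v ∈ g a, G.Adj a v) ∧
      (∀ a ∈ A, ∀ b ∈ A, g a = g b → a = b) ∧
      (∀ F ⊆ comps, (∀ C ∈ F, ¬ gain C) → (∀ C ∈ F, C ∉ A.image g) → F.card ≤ δ) := by
  classical
  -- the deficiency of the non gainable components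
  obtain ⟨R0, hR0, hmax⟩ := Finset.exists_max_image ((comps.filter fun C => ¬ gain C).powerset)
    (fun R => R.card - (nbA G A R).card) ⟨∅, by simp⟩
  obtain ⟨δ, hδ⟩ : ∃ δ, δ = R0.card - (nbA G A R0).card := ⟨_, rfl⟩
  obtain ⟨Rs, hRs, hRsc⟩ : ∃ Rs ∈ (comps.filter fun C => ¬ gain C).powerset,
      Rs.card = (nbA G A Rs).card + δ := by
    by_cases h : δ = 0
    · refine ⟨∅, by simp, ?_⟩
      rw [h]; simp [nbA]
    · exact ⟨R0, hR0, by omega⟩
  rw [Finset.mem_powerset] at hRs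
  have hRsub : Rs ⊆ comps := hRs.trans (Finset.filter_subset _ _)
  have hq := D.hdef Rs hRsub
  obtain ⟨ρ, hρ⟩ : ∃ ρ, A.card + (δ + ρ) = comps.card := ⟨comps.card - A.card - δ, by omega⟩
  let t : {C // C ∈ comps} → Finset (V ⊕ (Fin δ ⊕ Fin ρ)) := fun C =>
    univ.filter fun x => match x with
      | Sum.inl a => a ∈ A ∧ ∃ v ∈ C.1, G.Adj a v
      | Sum.inr (Sum.inl _) => True
      | Sum.inr (Sum.inr _) => gain C.1
  have hall : ∀ s : Finset {C // C ∈ comps}, s.card ≤ (s.biUnion t).card := by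
    intro s
    let R : Finset (Finset V) := s.image Subtype.val
    have hRc : R.card = s.card := Finset.card_image_of_injective _ Subtype.val_injective
    have hRs' : R ⊆ comps := by
      intro C hC
      obtain ⟨C', _, rfl⟩ := Finset.mem_image.1 hC
      exact C'.2
    have hinl : ∀ a ∈ nbA G A R, (Sum.inl a : V ⊕ (Fin δ ⊕ Fin ρ)) ∈ s.biUnion t := by
      intro a ha
      obtain ⟨haA, C, hC, v, hv, hav⟩ := Finset.mem_filter.1 ha
      obtain ⟨C', hC', rfl⟩ := Finset.mem_image.1 hC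
      exact Finset.mem_biUnion.2 ⟨C', hC', by simp only [t, mem_filter, mem_univ, true_and]; exact ⟨haA, v, hv, hav⟩⟩
    by_cases hg : ∃ C ∈ s, gain C.1
    · obtain ⟨C, hC, hgC⟩ := hg
      have hsub : (nbA G A R).disjSum (univ : Finset (Fin δ ⊕ Fin ρ)) ⊆ s.biUnion t := by
        intro x hx
        rcases Finset.mem_disjSum.1 hx with ⟨a, ha, rfl⟩ | ⟨y, _, rfl⟩
        · exact hinl a ha
        · refine Finset.mem_biUnion.2 ⟨C, hC, ?_⟩
          rcases y with y | y <;> simp [t, hgC]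
      have := Finset.card_le_card hsub
      rw [Finset.card_disjSum, Finset.card_univ, Fintype.card_sum, Fintype.card_fin,
        Fintype.card_fin] at this
      have h2 := D.hdef R hRs'
      omega
    · push Not at hg
      rcases s.eq_empty_or_nonempty with rfl | ⟨C, hC⟩
      · simp
      have hsub : (nbA G A R).disjSum ((univ : Finset (Fin δ)).map
          (Function.Embedding.inl (β := Fin ρ))) ⊆ s.biUnion t := by
        intro x hx
        rcases Finset.mem_disjSum.1 hx with ⟨a, ha, rfl⟩ | ⟨y, hy, rfl⟩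
        · exact hinl a ha
        · refine Finset.mem_biUnion.2 ⟨C, hC, ?_⟩
          obtain ⟨z, _, rfl⟩ := Finset.mem_map.1 hy
          simp [t]
      have := Finset.card_le_card hsub
      rw [Finset.card_disjSum, Finset.card_map, Finset.card_univ, Fintype.card_fin] at this
      have h2 := hmax R (by
        rw [Finset.mem_powerset]
        intro C' hC'
        obtain ⟨C'', hC'', rfl⟩ := Finset.mem_image.1 hC'
        exact Finset.mem_filter.2 ⟨C''.2, hg C'' hC''⟩)
      omega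
  obtain ⟨f, hf, hft⟩ := (Finset.all_card_le_biUnion_card_iff_exists_injective t).1 hall
  -- surjectivity
  have himg : (univ.image f) = A.disjSum (univ : Finset (Fin δ ⊕ Fin ρ)) := by
    apply Finset.eq_of_subset_of_card_le
    · intro x hx
      obtain ⟨C, _, rfl⟩ := Finset.mem_image.1 hx
      have := hft C
      rw [Finset.mem_disjSum]
      generalize f C = y at this
      rcases y with y | y
      · left
        simp only [t, mem_filter, mem_univ, true_and] at this
        exact ⟨y, this.1, rfl⟩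
      · right; exact ⟨y, mem_univ _, rfl⟩
    · rw [Finset.card_disjSum, Finset.card_univ, Fintype.card_sum, Fintype.card_fin,
        Fintype.card_fin, Finset.card_image_of_injective _ hf, Finset.card_univ,
        Fintype.card_coe]
      omega
  have hsurj : ∀ a ∈ A, ∃ C : Finset V, C ∈ comps ∧
      ∀ h : C ∈ comps, f ⟨C, h⟩ = Sum.inl a := by
    intro a ha
    have : (Sum.inl a : V ⊕ (Fin δ ⊕ Fin ρ)) ∈ univ.image f := by
      rw [himg]; simp [ha]
    obtain ⟨C, _, hC⟩ := Finset.mem_image.1 this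
    exact ⟨C.1, C.2, fun h => hC⟩
  choose! g hgc hg' using hsurj
  refine ⟨δ, Rs, g, hRsub, fun C hC => (Finset.mem_filter.1 (hRs hC)).2, hRsc,
    ?_, ?_, ?_⟩
  · intro a ha
    have h1 := hft ⟨g a, hgc a ha⟩
    rw [hg' a ha] at h1
    simp only [t, mem_filter, mem_univ, true_and] at h1
    exact ⟨hgc a ha, h1.2⟩
  · intro a ha b hb hab
    have h2 := hg' a ha (hgc a ha)
    have h3 := hg' b hb (hgc b hb)
    have h4 : (⟨g a, hgc a ha⟩ : {C // C ∈ comps}) = ⟨g b, hgc b hb⟩ := Subtype.ext hab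
    rw [h4, h3] at h2
    exact (Sum.inl.inj h2).symm
  · intro F hF hFg hFi
    have hx : ∀ C : {C // C ∈ F}, ∃ i : Fin δ, f ⟨C.1, hF C.2⟩ = Sum.inr (Sum.inl i) := by
      intro C
      have h1 := hft ⟨C.1, hF C.2⟩
      generalize hy : f ⟨C.1, hF C.2⟩ = y at h1
      rcases y with y | y | y
      · exfalso
        simp only [t, mem_filter, mem_univ, true_and] at h1
        have h2 := hg' y h1.1 (hgc y h1.1)
        have h3 := hf (h2.trans hy.symm)
        exact hFi C.1 C.2 (Finset.mem_image.2 ⟨y, h1.1, congrArg Subtype.val h3⟩)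
      · exact ⟨y, rfl⟩
      · exfalso
        simp only [t, mem_filter, mem_univ, true_and] at h1
        exact hFg C.1 C.2 h1
    choose k hk using hx
    have hkinj : Function.Injective k := by
      intro C C' h
      have h1 := hk C
      rw [h, ← hk C'] at h1
      have h2 := hf h1
      simpa using congrArg Subtype.val h2 |> Subtype.ext
    have := Fintype.card_le_of_injective k hkinj
    simpa using this

omit [Fintype V] in
/-- in a component, the number of neighbours splits -/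
theorem match_degIn (D : MatchDecomp G W A comps) {C : Finset V} (hC : C ∈ comps) {v : V}
    (hv : v ∈ C) : degIn G W v = (A.filter fun a => G.Adj v a).card +
      (C.filter fun u => G.Adj v u).card := by
  rw [degIn, ← Finset.card_union_of_disjoint]
  · congr 1
    ext u
    simp only [mem_filter, mem_union]
    constructor
    · rintro ⟨hu, huv⟩
      by_cases huA : u ∈ A
      · exact Or.inl ⟨huA, huv⟩
      · obtain ⟨C', hC', hu'⟩ := D.hcover u (Finset.mem_sdiff.2 ⟨hu, huA⟩)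
        by_cases hCC : C = C'
        · subst hCC; exact Or.inr ⟨hu', huv⟩
        · exact absurd huv ((D.hsep C hC C' hC' hCC).2 v hv u hu')
    · rintro (⟨hu, huv⟩ | ⟨hu, huv⟩)
      · exact ⟨D.hA hu, huv⟩
      · exact ⟨(Finset.mem_sdiff.1 (D.hsub C hC hu)).1, huv⟩
  · rw [Finset.disjoint_left]
    intro u hu hu'
    exact (Finset.mem_sdiff.1 (D.hsub C hC (Finset.mem_filter.1 hu').1)).2
      (Finset.mem_filter.1 hu).1

omit [Fintype V] [DecidableEq V] in
/-- handshake inside a set -/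
theorem match_even (C : Finset V) : Even (∑ v ∈ C, (C.filter fun u => G.Adj v u).card) := by
  have h : ((∑ v ∈ C, (C.filter fun u => G.Adj v u).card : ℕ) : ZMod 2) = 0 := by
    push_cast
    simp only [Finset.card_filter, Nat.cast_sum]
    rw [← Finset.sum_product' C C (fun v u => ((if G.Adj v u then 1 else 0 : ℕ) : ZMod 2))]
    refine Finset.sum_involution (fun p _ => (p.2, p.1)) ?_ ?_ ?_ ?_
    · rintro ⟨a, b⟩ _
      simp only [G.adj_comm b a]
      exact CharTwo.add_self_eq_zero _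
    · rintro ⟨a, b⟩ _ h hab
      simp only [Prod.mk.injEq] at hab
      rw [hab.1] at h
      simp at h
    · rintro ⟨a, b⟩ hab
      simp only [Finset.mem_product] at hab ⊢
      exact ⟨hab.2, hab.1⟩
    · rintro ⟨a, b⟩ _
      rfl
  exact (ZMod.natCast_eq_zero_iff_even).1 h

omit [Fintype V] in
theorem match_card_le (C : Finset V) :
    ∑ v ∈ C, (C.filter fun u => G.Adj v u).card ≤ C.card * (C.card - 1) := by
  rw [← smul_eq_mul]
  apply Finset.sum_le_card_nsmul
  intro v hv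
  rw [← Finset.card_erase_of_mem hv]
  apply Finset.card_le_card
  intro u hu
  rw [Finset.mem_filter] at hu
  exact Finset.mem_erase.2 ⟨hu.2.ne', hu.1⟩

/-- number of edges from `C` to `A` -/
def eCA (G : SimpleGraph V) [DecidableRel G.Adj] (A C : Finset V) : ℕ :=
  ∑ v ∈ C, (A.filter fun a => G.Adj v a).card

/-- excess of `C` -/
def epsC (G : SimpleGraph V) [DecidableRel G.Adj] (W : Finset V) (r : ℕ) (C : Finset V) : ℕ :=
  ∑ v ∈ C, (degIn G W v - r)

omit [Fintype V] in
/-- the arithmetic of a non gainable component -/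
theorem match_comp (D : MatchDecomp G W A comps) (r : ℕ) (hr : Odd r)
    (hdeg : ∀ w ∈ W, r ≤ degIn G W w) {C : Finset V} (hC : C ∈ comps)
    (hng : ∀ v ∈ C, degIn G W v = r → ∃ a ∈ A, G.Adj v a) :
    Odd (eCA G A C + epsC G W r C) ∧ r ≤ eCA G A C + epsC G W r C ∧
      (eCA G A C + epsC G W r C = r → epsC G W r C = 0) := by
  obtain ⟨c, hc⟩ : ∃ c, C.card = c := ⟨_, rfl⟩
  obtain ⟨S, hS⟩ : ∃ S, ∑ v ∈ C, (C.filter fun u => G.Adj v u).card = S := ⟨_, rfl⟩
  have hSe : Even S := hS ▸ match_even C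
  have hSle : S ≤ c * (c - 1) := by rw [← hS, ← hc]; exact match_card_le C
  have hodd : Odd c := hc ▸ D.hodd C hC
  have hsub : ∀ v ∈ C, v ∈ W := fun v hv => (Finset.mem_sdiff.1 (D.hsub C hC hv)).1
  have h1 : eCA G A C + S = r * c + epsC G W r C := by
    rw [← hS, eCA, epsC, ← Finset.sum_add_distrib, ← hc, mul_comm, ← smul_eq_mul,
      ← Finset.sum_const, ← Finset.sum_add_distrib]
    refine Finset.sum_congr rfl fun v hv => ?_
    rw [← match_degIn D hC hv]
    have := hdeg v (hsub v hv)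
    omega
  have h2 : c ≤ eCA G A C + epsC G W r C := by
    rw [eCA, epsC, ← Finset.sum_add_distrib, ← hc, Finset.card_eq_sum_ones]
    refine Finset.sum_le_sum fun v hv => ?_
    by_cases h : degIn G W v = r
    · obtain ⟨a, ha, hva⟩ := hng v hv h
      have : 0 < (A.filter fun a => G.Adj v a).card :=
        Finset.card_pos.2 ⟨a, Finset.mem_filter.2 ⟨ha, hva⟩⟩
      omega
    · have := hdeg v (hsub v hv)
      omega
  generalize eCA G A C = e at *
  generalize epsC G W r C = ε at *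
  have hpar : Odd (e + ε) := by
    have h3 : Odd (r * c + 2 * ε - S) := by
      have hrc : Odd (r * c) := hr.mul hodd
      obtain ⟨x, hx⟩ := hrc
      obtain ⟨y, hy⟩ := hSe
      exact ⟨x + ε - y, by omega⟩
    have h4 : e + ε = r * c + 2 * ε - S := by omega
    rwa [h4]
  by_cases hcr : c ≤ r
  · have hc1 : 1 ≤ c := hodd.pos
    obtain ⟨x, rfl⟩ : ∃ x, c = x + 1 := ⟨c - 1, by omega⟩
    obtain ⟨y, rfl⟩ : ∃ y, r = x + 1 + y := ⟨r - (x + 1), by omega⟩
    simp only [Nat.add_sub_cancel] at hSle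
    have h5 : x + 1 + y + ε ≤ e := by nlinarith
    exact ⟨hpar, by omega, fun h => by omega⟩
  · exact ⟨hpar, by omega, fun h => by omega⟩

/-- the counting -/
theorem match_count (D : MatchDecomp G W A comps) (r : ℕ) (hr : Odd r)
    (hdeg : ∀ w ∈ W, r ≤ degIn G W w) {Rs : Finset (Finset V)} (hRs : Rs ⊆ comps)
    (hng : ∀ C ∈ Rs, ∀ v ∈ C, degIn G W v = r → ∃ a ∈ A, G.Adj v a) {δ t : ℕ}
    (hcard : Rs.card = (nbA G A Rs).card + δ)
    (ht : (Rs.filter fun C => eCA G A C + epsC G W r C = r).card ≤ (nbA G A Rs).card + t) :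
    (r + 2) * δ ≤ ∑ w ∈ W, (degIn G W w - r) + 2 * t := by
  classical
  obtain ⟨As, hAs⟩ : ∃ As, As = nbA G A Rs := ⟨_, rfl⟩
  rw [← hAs] at hcard ht
  have hAsA : As ⊆ A := by rw [hAs]; exact Finset.filter_subset _ _
  have hdisj : ∀ C ∈ Rs, ∀ C' ∈ Rs, C ≠ C' → Disjoint C C' := fun C hC C' hC' h =>
    (D.hsep C (hRs hC) C' (hRs hC') h).1
  -- edges from the family to `As`
  have h1 : ∑ C ∈ Rs, eCA G A C ≤ ∑ a ∈ As, degIn G W a := by
    have h2 : ∀ C ∈ Rs, eCA G A C = ∑ a ∈ As, ∑ v ∈ C, if G.Adj a v then 1 else 0 := by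
      intro C hC
      unfold eCA
      rw [Finset.sum_comm]
      refine Finset.sum_congr rfl fun v hv => ?_
      rw [Finset.card_filter, ← Finset.sum_subset hAsA]
      · exact Finset.sum_congr rfl fun a _ => by simp only [G.adj_comm a v]
      · intro a ha haAs
        rw [if_neg]
        intro hva
        apply haAs
        rw [hAs]
        exact Finset.mem_filter.2 ⟨ha, C, hC, v, hv, hva.symm⟩
    rw [Finset.sum_congr rfl h2, Finset.sum_comm]
    refine Finset.sum_le_sum fun a ha => ?_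
    rw [← Finset.sum_biUnion (t := fun C => C) (fun C hC C' hC' h => hdisj C hC C' hC' h),
      ← Finset.card_filter]
    refine Finset.card_le_card ?_
    intro v hv
    rw [Finset.mem_filter, Finset.mem_biUnion] at hv
    obtain ⟨⟨C, hC, hvC⟩, hav⟩ := hv
    exact Finset.mem_filter.2 ⟨(Finset.mem_sdiff.1 (D.hsub C (hRs hC) hvC)).1, hav⟩
  have h3 : ∑ a ∈ As, degIn G W a = ∑ a ∈ As, (degIn G W a - r) + r * As.card := by
    rw [mul_comm, ← smul_eq_mul, ← Finset.sum_const, ← Finset.sum_add_distrib]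
    refine Finset.sum_congr rfl fun a ha => ?_
    have := hdeg a (D.hA (hAsA ha))
    omega
  have h4 : ∑ a ∈ As, (degIn G W a - r) + ∑ C ∈ Rs, epsC G W r C
      ≤ ∑ w ∈ W, (degIn G W w - r) := by
    unfold epsC
    rw [← Finset.sum_biUnion (t := fun C => C) (fun C hC C' hC' h => hdisj C hC C' hC' h),
      ← Finset.sum_union]
    · apply Finset.sum_le_sum_of_subset
      apply Finset.union_subset (hAsA.trans D.hA)
      intro v hv
      obtain ⟨C, hC, hvC⟩ := Finset.mem_biUnion.1 hv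
      exact (Finset.mem_sdiff.1 (D.hsub C (hRs hC) hvC)).1
    · rw [Finset.disjoint_left]
      intro v hv hv'
      obtain ⟨C, hC, hvC⟩ := Finset.mem_biUnion.1 hv'
      exact (Finset.mem_sdiff.1 (D.hsub C (hRs hC) hvC)).2 (hAsA hv)
  have h5 : (r + 2) * Rs.card ≤ ∑ C ∈ Rs, (eCA G A C + epsC G W r C) +
      2 * (Rs.filter fun C => eCA G A C + epsC G W r C = r).card := by
    rw [Finset.card_filter, Finset.mul_sum, ← Finset.sum_add_distrib, mul_comm, ← smul_eq_mul]
    apply Finset.card_nsmul_le_sum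
    intro C hC
    obtain ⟨ho, hle, -⟩ := match_comp D r hr hdeg (hRs hC) (hng C hC)
    by_cases h : eCA G A C + epsC G W r C = r
    · rw [if_pos h]; omega
    · rw [if_neg h]
      obtain ⟨x, hx⟩ := ho
      obtain ⟨y, hy⟩ := hr
      omega
  rw [Finset.sum_add_distrib] at h5
  rw [hcard] at h5
  nlinarith

omit [Fintype V] in
/-- the matching built from the Hall assignment and the roots -/
theorem match_build (D : MatchDecomp G W A comps) (g : V → Finset V)
    (hg : ∀ a ∈ A, g a ∈ comps) (hginj : ∀ a ∈ A, ∀ b ∈ A, g a = g b → a = b)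
    (root : Finset V → V) (hroot : ∀ C ∈ comps, root C ∈ C)
    (hadj : ∀ a ∈ A, G.Adj a (root (g a))) :
    ∃ M : V → V, (∀ v ∈ W, M v ∈ W ∧ M (M v) = v) ∧ (∀ v ∈ W, M v ≠ v → G.Adj v (M v)) ∧
      (∀ v ∈ W, M v = v ↔ ∃ C ∈ comps, C ∉ A.image g ∧ v = root C) ∧
      (∀ a ∈ A, M a = root (g a)) ∧ (∀ C ∈ comps, ∀ v ∈ C, v ≠ root C → M v ∈ C) := by
  classical
  have hcov := D.hcover
  choose! κ hκ hκv using hcov
  have hκu : ∀ C ∈ comps, ∀ v ∈ C, κ v = C := by
    intro C hC v hv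
    by_contra hne
    exact (Finset.disjoint_left.1 (D.hsep _ (hκ v (D.hsub C hC hv)) C hC hne).1
      (hκv v (D.hsub C hC hv))) hv
  have hfc : ∀ C ∈ comps, ∃ π : V → V, IsPairing (C.erase (root C)) π ∧
      ∀ u ∈ C.erase (root C), G.Adj u (π u) := fun C hC => D.hfc C hC _ (hroot C hC)
  have : Nonempty (V → V) := ⟨id⟩
  choose! π hπ hπadj using hfc
  let M : V → V := fun v => if v ∈ A then root (g v) else
    if v = root (κ v) then (if h : ∃ a ∈ A, g a = κ v then h.choose else v) else π (κ v) v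
  have hnA : ∀ C ∈ comps, ∀ v ∈ C, v ∉ A := fun C hC v hv =>
    (Finset.mem_sdiff.1 (D.hsub C hC hv)).2
  have hinW : ∀ C ∈ comps, ∀ v ∈ C, v ∈ W := fun C hC v hv =>
    (Finset.mem_sdiff.1 (D.hsub C hC hv)).1
  have MA : ∀ a ∈ A, M a = root (g a) := fun a ha => by simp only [M]; rw [if_pos ha]
  have Mroot : ∀ a ∈ A, M (root (g a)) = a := by
    intro a ha
    have hc := hg a ha
    have hr := hroot _ hc
    have h1 : κ (root (g a)) = g a := hκu _ hc _ hr
    have hex : ∃ b ∈ A, g b = κ (root (g a)) := ⟨a, ha, h1.symm⟩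
    have h2 : M (root (g a)) = hex.choose := by
      simp only [M]
      rw [if_neg (hnA _ hc _ hr), if_pos (by rw [h1]), dif_pos hex]
    rw [h2]
    exact hginj _ hex.choose_spec.1 _ ha (hex.choose_spec.2.trans h1)
  have Mexp : ∀ C ∈ comps, C ∉ A.image g → M (root C) = root C := by
    intro C hC hCg
    have hr := hroot _ hC
    have h1 : κ (root C) = C := hκu _ hC _ hr
    have hex : ¬ ∃ b ∈ A, g b = κ (root C) := by
      rintro ⟨b, hb, hb'⟩
      exact hCg (Finset.mem_image.2 ⟨b, hb, hb'.trans h1⟩)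
    simp only [M]
    rw [if_neg (hnA _ hC _ hr), if_pos (by rw [h1]), dif_neg hex]
  have Mπ : ∀ C ∈ comps, ∀ v ∈ C, v ≠ root C → M v = π C v := by
    intro C hC v hv hne
    have h1 : κ v = C := hκu _ hC _ hv
    simp only [M]
    rw [if_neg (hnA _ hC _ hv), h1, if_neg hne]
  have hmem : ∀ C ∈ comps, ∀ v ∈ C, v ≠ root C → π C v ∈ C ∧ π C v ≠ root C ∧ π C v ≠ v ∧
      π C (π C v) = v ∧ G.Adj v (π C v) := by
    intro C hC v hv hne
    have hv' : v ∈ C.erase (root C) := Finset.mem_erase.2 ⟨hne, hv⟩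
    obtain ⟨h1, h2, h3⟩ := hπ C hC v hv'
    exact ⟨(Finset.mem_erase.1 h1).2, (Finset.mem_erase.1 h1).1, h2, h3, hπadj C hC v hv'⟩
  refine ⟨M, ?_, ?_, ?_, MA, ?_⟩
  · intro v hv
    by_cases hvA : v ∈ A
    · rw [MA v hvA, Mroot v hvA]
      exact ⟨hinW _ (hg v hvA) _ (hroot _ (hg v hvA)), rfl⟩
    · obtain ⟨C, hC, hvC⟩ := D.hcover v (Finset.mem_sdiff.2 ⟨hv, hvA⟩)
      by_cases hvr : v = root C
      · by_cases hCg : C ∈ A.image g
        · obtain ⟨a, ha, rfl⟩ := Finset.mem_image.1 hCg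
          rw [hvr, Mroot a ha, MA a ha]
          exact ⟨D.hA ha, rfl⟩
        · rw [hvr, Mexp C hC hCg, Mexp C hC hCg]
          exact ⟨hinW _ hC _ (hroot _ hC), rfl⟩
      · obtain ⟨h1, h2, h3, h4, h5⟩ := hmem C hC v hvC hvr
        rw [Mπ C hC v hvC hvr, Mπ C hC _ h1 h2, h4]
        exact ⟨hinW _ hC _ h1, rfl⟩
  · intro v hv hne
    by_cases hvA : v ∈ A
    · rw [MA v hvA]; exact hadj v hvA
    · obtain ⟨C, hC, hvC⟩ := D.hcover v (Finset.mem_sdiff.2 ⟨hv, hvA⟩)
      by_cases hvr : v = root C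
      · by_cases hCg : C ∈ A.image g
        · obtain ⟨a, ha, rfl⟩ := Finset.mem_image.1 hCg
          rw [hvr, Mroot a ha]
          exact (hadj a ha).symm
        · rw [hvr, Mexp C hC hCg] at hne
          exact absurd rfl hne
      · rw [Mπ C hC v hvC hvr]
        exact (hmem C hC v hvC hvr).2.2.2.2
  · intro v hv
    constructor
    · intro hfix
      by_cases hvA : v ∈ A
      · rw [MA v hvA] at hfix
        exact absurd hfix (fun h => (hadj v hvA).ne (by rw [h]))
      · obtain ⟨C, hC, hvC⟩ := D.hcover v (Finset.mem_sdiff.2 ⟨hv, hvA⟩)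
        by_cases hvr : v = root C
        · refine ⟨C, hC, ?_, hvr⟩
          intro hCg
          obtain ⟨a, ha, rfl⟩ := Finset.mem_image.1 hCg
          rw [hvr, Mroot a ha] at hfix
          rw [hvr, ← hfix] at hvA
          exact hvA ha
        · rw [Mπ C hC v hvC hvr] at hfix
          exact absurd hfix (hmem C hC v hvC hvr).2.2.1
    · rintro ⟨C, hC, hCg, rfl⟩
      exact Mexp C hC hCg
  · intro C hC v hv hne
    rw [Mπ C hC v hv hne]
    exact (hmem C hC v hv hne).1

/-- the matching structure from a decomposition -/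
theorem matching_structure_of (D : MatchDecomp G W A comps) (r : ℕ) (hr : Odd r)
    (hdeg : ∀ w ∈ W, r ≤ degIn G W w) (w1 : V) :
    ∃ (M : V → V) (X Xg Xt Xo : Finset V),
      (∀ v ∈ W, M v ∈ W ∧ M (M v) = v) ∧ (∀ v ∈ W, M v ≠ v → G.Adj v (M v)) ∧
      X = W.filter (fun v => M v = v) ∧ X = Xg ∪ Xt ∪ Xo ∧
      Disjoint Xg Xt ∧ Disjoint Xg Xo ∧ Disjoint Xt Xo ∧
      (∀ u ∈ X, ∀ v ∈ X, ¬ G.Adj u v) ∧
      (∀ u ∈ X, ∀ v ∈ X, u ≠ v → ∀ y ∈ W, G.Adj u y → ¬ G.Adj v (M y)) ∧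
      (∀ v ∈ Xg, v ≠ w1 → degIn G W v = r ∧
        ∀ u ∈ X, u ≠ v → ∀ y ∈ W, G.Adj v y → ¬ G.Adj u y) ∧
      (∀ v ∈ Xt, v ≠ w1 → degIn G W v = r) ∧
      r * Xt.card + (r + 2) * Xo.card ≤ ∑ w ∈ W, (degIn G W w - r) := by
  classical
  let gv : V → Prop := fun v => degIn G W v = r ∧ ∀ a ∈ A, ¬ G.Adj v a
  let gain : Finset V → Prop := fun C => ∃ v ∈ C, gv v
  let tight : Finset V → Prop := fun C => eCA G A C + epsC G W r C = r
  obtain ⟨δ, Rs, g, hRs, hRsg, hRsc, hg, hginj, hF⟩ := match_hall D gain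
  have hrootex : ∀ C ∈ comps, ∃ y ∈ C, (∀ a ∈ A, g a = C → G.Adj a y) ∧
      (C ∉ A.image g → (w1 ∈ C → y = w1) ∧ (w1 ∉ C → gain C → gv y)) := by
    intro C hC
    by_cases hCg : C ∈ A.image g
    · obtain ⟨a, ha, rfl⟩ := Finset.mem_image.1 hCg
      obtain ⟨y, hy, hay⟩ := (hg a ha).2
      refine ⟨y, hy, ?_, fun h => absurd hCg h⟩
      intro b hb hba
      rwa [hginj b hb a ha hba]
    · have hno : ∀ y, ∀ a ∈ A, g a = C → G.Adj a y := fun y a ha haC =>
        absurd (Finset.mem_image.2 ⟨a, ha, haC⟩) hCg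
      by_cases hw1 : w1 ∈ C
      · exact ⟨w1, hw1, hno w1, fun _ => ⟨fun _ => rfl, fun h => absurd hw1 h⟩⟩
      by_cases hgC : gain C
      · obtain ⟨y, hy, hgy⟩ := hgC
        exact ⟨y, hy, hno y, fun _ => ⟨fun h => absurd h hw1, fun _ _ => hgy⟩⟩
      · obtain ⟨y, hy⟩ := Finset.card_pos.1 (D.hodd C hC).pos
        exact ⟨y, hy, hno y, fun _ => ⟨fun h => absurd h hw1, fun _ h => absurd h hgC⟩⟩
  have : Nonempty V := ⟨w1⟩
  choose! root hroot hrootadj hrootg using hrootex
  obtain ⟨M, hM1, hM2, hM3, hM4, hM5⟩ := match_build D g (fun a ha => (hg a ha).1) hginj root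
    hroot (fun a ha => hrootadj _ (hg a ha).1 a ha rfl)
  have hinW : ∀ C ∈ comps, ∀ v ∈ C, v ∈ W := fun C hC v hv =>
    (Finset.mem_sdiff.1 (D.hsub C hC hv)).1
  have hnA : ∀ C ∈ comps, ∀ v ∈ C, v ∉ A := fun C hC v hv =>
    (Finset.mem_sdiff.1 (D.hsub C hC hv)).2
  have hrinj : ∀ C ∈ comps, ∀ C' ∈ comps, root C = root C' → C = C' := by
    intro C hC C' hC' h
    by_contra hne
    exact Finset.disjoint_left.1 (D.hsep C hC C' hC' hne).1 (hroot C hC) (h ▸ hroot C' hC')
  have hX : ∀ v, v ∈ W.filter (fun v => M v = v) ↔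
      ∃ C ∈ comps, C ∉ A.image g ∧ v = root C := by
    intro v
    constructor
    · intro hv
      obtain ⟨hvW, hv⟩ := Finset.mem_filter.1 hv
      exact (hM3 v hvW).1 hv
    · rintro ⟨C, hC, hCg, rfl⟩
      have := hinW C hC _ (hroot C hC)
      exact Finset.mem_filter.2 ⟨this, (hM3 _ this).2 ⟨C, hC, hCg, rfl⟩⟩
  obtain ⟨E, hE⟩ : ∃ E : Finset (Finset V), ∀ C, C ∈ E ↔ C ∈ comps ∧ C ∉ A.image g :=
    ⟨comps.filter fun C => C ∉ A.image g, fun C => Finset.mem_filter⟩
  have hnogain : ∀ C ∈ comps, ¬ gain C → ∀ v ∈ C, degIn G W v = r → ∃ a ∈ A, G.Adj v a := by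
    intro C hC hgC v hv hdv
    by_contra hcon
    push Not at hcon
    exact hgC ⟨v, hv, hdv, hcon⟩
  -- a component vertex other than from the component of `C` is not adjacent to it
  have hadjC : ∀ C ∈ comps, ∀ v ∈ C, ∀ y ∈ W, G.Adj v y → y ∈ A ∨ y ∈ C := by
    intro C hC v hv y hy hvy
    by_cases hyA : y ∈ A
    · exact Or.inl hyA
    · obtain ⟨C', hC', hyC'⟩ := D.hcover y (Finset.mem_sdiff.2 ⟨hy, hyA⟩)
      by_cases hCC : C = C'
      · subst hCC; exact Or.inr hyC'
      · exact absurd hvy ((D.hsep C hC C' hC' hCC).2 v hv y hyC')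
  refine ⟨M, W.filter (fun v => M v = v), (E.filter gain).image root,
    (E.filter fun C => ¬ gain C ∧ tight C).image root,
    (E.filter fun C => ¬ gain C ∧ ¬ tight C).image root, hM1, hM2, rfl,
    ?_, ?_, ?_, ?_, ?_, ?_, ?_, ?_, ?_⟩
  · ext v
    rw [hX v]
    simp only [mem_union, mem_image, mem_filter, hE]
    constructor
    · rintro ⟨C, hC, hCg, rfl⟩
      by_cases h1 : gain C
      · exact Or.inl (Or.inl ⟨C, ⟨⟨hC, hCg⟩, h1⟩, rfl⟩)
      · by_cases h2 : tight C
        · exact Or.inl (Or.inr ⟨C, ⟨⟨hC, hCg⟩, h1, h2⟩, rfl⟩)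
        · exact Or.inr ⟨C, ⟨⟨hC, hCg⟩, h1, h2⟩, rfl⟩
    · rintro ((⟨C, ⟨⟨hC, hCg⟩, -⟩, rfl⟩ | ⟨C, ⟨⟨hC, hCg⟩, -⟩, rfl⟩) | ⟨C, ⟨⟨hC, hCg⟩, -⟩, rfl⟩) <;>
        exact ⟨C, hC, hCg, rfl⟩
  · rw [Finset.disjoint_left]
    intro v hv hv'
    obtain ⟨C, hC, rfl⟩ := Finset.mem_image.1 hv
    obtain ⟨C', hC', h⟩ := Finset.mem_image.1 hv'
    obtain ⟨hCE, hgC⟩ := Finset.mem_filter.1 hC
    obtain ⟨hCE', hgC', -⟩ := Finset.mem_filter.1 hC'
    rw [hrinj C' ((hE _).1 hCE').1 C ((hE _).1 hCE).1 h] at hgC'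
    exact hgC' hgC
  · rw [Finset.disjoint_left]
    intro v hv hv'
    obtain ⟨C, hC, rfl⟩ := Finset.mem_image.1 hv
    obtain ⟨C', hC', h⟩ := Finset.mem_image.1 hv'
    obtain ⟨hCE, hgC⟩ := Finset.mem_filter.1 hC
    obtain ⟨hCE', hgC', -⟩ := Finset.mem_filter.1 hC'
    rw [hrinj C' ((hE _).1 hCE').1 C ((hE _).1 hCE).1 h] at hgC'
    exact hgC' hgC
  · rw [Finset.disjoint_left]
    intro v hv hv'
    obtain ⟨C, hC, rfl⟩ := Finset.mem_image.1 hv
    obtain ⟨C', hC', h⟩ := Finset.mem_image.1 hv'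
    obtain ⟨hCE, -, htC⟩ := Finset.mem_filter.1 hC
    obtain ⟨hCE', -, htC'⟩ := Finset.mem_filter.1 hC'
    rw [hrinj C' ((hE _).1 hCE').1 C ((hE _).1 hCE).1 h] at htC'
    exact htC' htC
  · -- independent
    intro u hu v hv huv
    obtain ⟨C, hC, hCg, rfl⟩ := (hX u).1 hu
    obtain ⟨C', hC', hCg', rfl⟩ := (hX v).1 hv
    by_cases hCC : C = C'
    · subst hCC; exact huv.ne rfl
    · exact (D.hsep C hC C' hC' hCC).2 _ (hroot C hC) _ (hroot C' hC') huv
  · intro u hu v hv huv y hy huy hvy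
    obtain ⟨C, hC, hCg, rfl⟩ := (hX u).1 hu
    obtain ⟨C', hC', hCg', rfl⟩ := (hX v).1 hv
    have hCC : C ≠ C' := fun h => huv (by rw [h])
    rcases hadjC C hC _ (hroot C hC) y hy huy with hyA | hyC
    · rw [hM4 y hyA] at hvy
      have hgy := (hg y hyA).1
      have hne : C' ≠ g y := fun h => hCg' (Finset.mem_image.2 ⟨y, hyA, h.symm⟩)
      exact (D.hsep C' hC' _ hgy hne).2 _ (hroot C' hC') _ (hroot _ hgy) hvy
    · have hyr : y ≠ root C := fun h => huy.ne h.symm
      have := hM5 C hC y hyC hyr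
      exact (D.hsep C' hC' C hC (Ne.symm hCC)).2 _ (hroot C' hC') _ this hvy
  · intro v hv hvw1
    obtain ⟨C, hCE, rfl⟩ := Finset.mem_image.1 hv
    obtain ⟨hCE, hgC⟩ := Finset.mem_filter.1 hCE
    obtain ⟨hC, hCg⟩ := (hE C).1 hCE
    have hw1 : w1 ∉ C := fun h => hvw1 ((hrootg C hC hCg).1 h)
    obtain ⟨hdv, hnoA⟩ := (hrootg C hC hCg).2 hw1 hgC
    refine ⟨hdv, ?_⟩
    intro u hu huv y hy hvy huy
    obtain ⟨C', hC', hCg', rfl⟩ := (hX u).1 hu
    have hCC : C' ≠ C := fun h => huv (by rw [h])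
    rcases hadjC C hC _ (hroot C hC) y hy hvy with hyA | hyC
    · exact hnoA y hyA hvy
    · exact (D.hsep C' hC' C hC hCC).2 _ (hroot C' hC') _ hyC huy
  · intro v hv _
    obtain ⟨C, hCE, rfl⟩ := Finset.mem_image.1 hv
    obtain ⟨hCE, hgC, htC⟩ := Finset.mem_filter.1 hCE
    obtain ⟨hC, hCg⟩ := (hE C).1 hCE
    have h0 := (match_comp D r hr hdeg hC (hnogain C hC hgC)).2.2 htC
    have h1 := Finset.sum_eq_zero_iff.1 h0 (root C) (hroot C hC)
    have h2 := hdeg _ (hinW C hC _ (hroot C hC))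
    omega
  · obtain ⟨xt, hxt⟩ : ∃ x, x = (E.filter fun C => ¬ gain C ∧ tight C).card := ⟨_, rfl⟩
    obtain ⟨xo, hxo⟩ : ∃ x, x = (E.filter fun C => ¬ gain C ∧ ¬ tight C).card := ⟨_, rfl⟩
    have hδ : xt + xo ≤ δ := by
      have h1 : xt + xo = (E.filter fun C => ¬ gain C).card := by
        rw [hxt, hxo, ← Finset.card_filter_add_card_filter_not (s := E.filter fun C => ¬ gain C)
          (p := tight), Finset.filter_filter, Finset.filter_filter]
      rw [h1]
      refine hF _ ?_ ?_ ?_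
      · intro C hC
        exact ((hE C).1 (Finset.mem_filter.1 hC).1).1
      · intro C hC
        exact (Finset.mem_filter.1 hC).2
      · intro C hC
        exact ((hE C).1 (Finset.mem_filter.1 hC).1).2
    have ht : (Rs.filter fun C => eCA G A C + epsC G W r C = r).card
        ≤ (nbA G A Rs).card + xt := by
      have h1 : (Rs.filter fun C => eCA G A C + epsC G W r C = r) ⊆
          (nbA G A Rs).image g ∪ (E.filter fun C => ¬ gain C ∧ tight C) := by
        intro C hC
        obtain ⟨hCR, htC⟩ := Finset.mem_filter.1 hC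
        rw [Finset.mem_union]
        by_cases hCg : C ∈ A.image g
        · left
          obtain ⟨a, ha, rfl⟩ := Finset.mem_image.1 hCg
          refine Finset.mem_image.2 ⟨a, ?_, rfl⟩
          obtain ⟨v, hv, hav⟩ := (hg a ha).2
          exact Finset.mem_filter.2 ⟨ha, g a, hCR, v, hv, hav⟩
        · right
          exact Finset.mem_filter.2 ⟨(hE C).2 ⟨hRs hCR, hCg⟩, hRsg C hCR, htC⟩
      calc _ ≤ _ := Finset.card_le_card h1
        _ ≤ _ := Finset.card_union_le _ _
        _ ≤ _ := by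
          rw [hxt]
          exact Nat.add_le_add_right Finset.card_image_le _
    have hcount := match_count D r hr hdeg hRs
      (fun C hC => hnogain C (hRs hC) (hRsg C hC)) hRsc ht
    have hXt : ((E.filter fun C => ¬ gain C ∧ tight C).image root).card ≤ xt := by
      rw [hxt]; exact Finset.card_image_le
    have hXo : ((E.filter fun C => ¬ gain C ∧ ¬ tight C).image root).card ≤ xo := by
      rw [hxo]; exact Finset.card_image_le
    have h5 := Nat.mul_le_mul_left r hXt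
    have h6 := Nat.mul_le_mul_left (r + 2) hXo
    have h7 := Nat.mul_le_mul_left (r + 2) hδ
    nlinarith

end

end Pool.Agent.Bis
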