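import Pool.Agent.Bis.Defs

/-!
# Components, barriers, Tutte's theorem on finsets (auxiliary file for `Match.lean`)
-/

namespace Pool.Agent.Bis
open Finset

set_option linter.unusedSectionVars false

section MatchComp
variable {V : Type} [Fintype V] [DecidableEq V] (G : SimpleGraph V)

/-- `S` is a union of components of `G[U]` -/
def MCl (U S : Finset V) : Prop := S ⊆ U ∧ ∀ x ∈ S, ∀ y ∈ U, G.Adj x y → y ∈ S

/-- `C` is a component of `G[U]` -/
def MCmp (U C : Finset V) : Prop :=
  MCl G U C ∧ C.Nonempty ∧ ∀ S, MCl G U S → S.Nonempty → S ⊆ C → S = C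

open Classical in
/-- the set of components of `G[U]` -/
noncomputable def mcomps (U : Finset V) : Finset (Finset V) := univ.filter (MCmp G U)

/-- the number of odd components of `G[U]` -/
noncomputable def moddc (U : Finset V) : ℕ :=
  ((mcomps G U).filter (fun C => Odd C.card)).card

variable {G}

theorem mem_mcomps {U C : Finset V} : C ∈ mcomps G U ↔ MCmp G U C := by
  simp [mcomps]

theorem MCl.inter {U S T : Finset V} (hS : MCl G U S) (hT : MCl G U T) : MCl G U (S ∩ T) := by
  refine ⟨fun x hx => hS.1 (mem_inter.1 hx).1, ?_⟩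
  intro x hx y hy hxy
  rw [mem_inter] at hx ⊢
  exact ⟨hS.2 x hx.1 y hy hxy, hT.2 x hx.2 y hy hxy⟩

theorem MCl.sdiff {U S T : Finset V} (hS : MCl G U S) (hT : MCl G U T) : MCl G U (S \ T) := by
  refine ⟨fun x hx => hS.1 (mem_sdiff.1 hx).1, ?_⟩
  intro x hx y hy hxy
  rw [mem_sdiff] at hx ⊢
  exact ⟨hS.2 x hx.1 y hy hxy, fun h => hx.2 (hT.2 y h x (hS.1 hx.1) hxy.symm)⟩

theorem MCmp.eq_of_mem {U C D : Finset V} (hC : MCmp G U C) (hD : MCmp G U D) {x : V}
    (hxC : x ∈ C) (hxD : x ∈ D) : C = D := by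
  have h := hC.1.inter hD.1
  have hne : (C ∩ D).Nonempty := ⟨x, mem_inter.2 ⟨hxC, hxD⟩⟩
  rw [← hC.2.2 _ h hne inter_subset_left]
  exact hD.2.2 _ h hne inter_subset_right

theorem exists_mcmp {U : Finset V} {x : V} (hx : x ∈ U) : ∃ C, MCmp G U C ∧ x ∈ C := by
  classical
  obtain ⟨C, hC, hmin⟩ := Finset.exists_min_image
    ((univ : Finset (Finset V)).filter (fun S => MCl G U S ∧ x ∈ S)) Finset.card
    ⟨U, by
      simp only [mem_filter, mem_univ, true_and]
      exact ⟨⟨subset_rfl, fun _ _ y hy _ => hy⟩, hx⟩⟩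
  simp only [mem_filter, mem_univ, true_and] at hC hmin
  refine ⟨C, ⟨hC.1, ⟨x, hC.2⟩, ?_⟩, hC.2⟩
  intro S hS hne hSC
  by_cases hxS : x ∈ S
  · exact Finset.eq_of_subset_of_card_le hSC (hmin S ⟨hS, hxS⟩)
  · exfalso
    have h := hmin (C \ S) ⟨hC.1.sdiff hS, mem_sdiff.2 ⟨hC.2, hxS⟩⟩
    have h2 := Finset.card_sdiff_add_card_eq_card hSC
    have h3 := hne.card_pos
    omega

theorem biUnion_mcomps (U : Finset V) : (mcomps G U).biUnion id = U := by
  ext x
  simp only [mem_biUnion, id]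
  constructor
  · rintro ⟨C, hC, hx⟩
    exact (mem_mcomps.1 hC).1.1 hx
  · intro hx
    obtain ⟨C, hC, hxC⟩ := exists_mcmp (G := G) hx
    exact ⟨C, mem_mcomps.2 hC, hxC⟩

theorem pairwiseDisjoint_mcomps (U : Finset V) :
    ((mcomps G U : Finset (Finset V)) : Set (Finset V)).PairwiseDisjoint id := by
  intro C hC D hD hne
  rw [Function.onFun, Finset.disjoint_left]
  intro x hx hx'
  exact hne ((mem_mcomps.1 hC).eq_of_mem (mem_mcomps.1 hD) hx hx')

theorem odd_card_iff (U : Finset V) : Odd U.card ↔ Odd (moddc G U) := by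
  have h := Finset.card_biUnion (pairwiseDisjoint_mcomps (G := G) U)
  rw [biUnion_mcomps] at h
  rw [h, Finset.odd_sum_iff_odd_card_odd]
  rfl

/-- removing a subset `T` of a component `C` -/
theorem moddc_sdiff {U C T : Finset V} (hC : MCmp G U C) (hT : T ⊆ C) :
    moddc G U + moddc G (C \ T) ≤ moddc G (U \ T) + if Odd C.card then 1 else 0 := by
  classical
  set P : Finset (Finset V) := ((mcomps G U).erase C).filter (fun C => Odd C.card) with hP
  set Q : Finset (Finset V) := (mcomps G (C \ T)).filter (fun C => Odd C.card) with hQ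
  have h1 : moddc G U ≤ P.card + if Odd C.card then 1 else 0 := by
    by_cases hodd : Odd C.card
    · rw [if_pos hodd, hP, Finset.filter_erase]
      unfold moddc
      have := Finset.pred_card_le_card_erase (s := (mcomps G U).filter (fun C => Odd C.card))
        (a := C)
      omega
    · rw [if_neg hodd, add_zero]
      unfold moddc
      apply Finset.card_le_card
      intro D hD
      rw [mem_filter] at hD
      rw [hP, mem_filter, mem_erase]
      refine ⟨⟨?_, hD.1⟩, hD.2⟩
      rintro rfl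
      exact hodd hD.2
  have hdis : Disjoint P Q := by
    rw [Finset.disjoint_left]
    intro D hD hD'
    rw [hP, mem_filter, mem_erase] at hD
    rw [hQ, mem_filter] at hD'
    obtain ⟨x, hx⟩ := (mem_mcomps.1 hD'.1).2.1
    have hxC : x ∈ C := (mem_sdiff.1 ((mem_mcomps.1 hD'.1).1.1 hx)).1
    exact hD.1.1 ((mem_mcomps.1 hD.1.2).eq_of_mem hC hx hxC)
  have hsub : P ∪ Q ⊆ (mcomps G (U \ T)).filter (fun C => Odd C.card) := by
    intro D hD
    rw [mem_union] at hD
    rw [mem_filter]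
    rcases hD with hD | hD
    · rw [hP, mem_filter, mem_erase] at hD
      refine ⟨?_, hD.2⟩
      have hDc := mem_mcomps.1 hD.1.2
      rw [mem_mcomps]
      have hDT : ∀ x ∈ D, x ∉ T := fun x hx hxT =>
        hD.1.1 (hDc.eq_of_mem hC hx (hT hxT))
      refine ⟨⟨fun x hx => mem_sdiff.2 ⟨hDc.1.1 hx, hDT x hx⟩, ?_⟩, hDc.2.1, ?_⟩
      · intro x hx y hy hxy
        exact hDc.1.2 x hx y (mem_sdiff.1 hy).1 hxy
      · intro S hS hne hSD
        refine hDc.2.2 S ⟨hSD.trans hDc.1.1, ?_⟩ hne hSD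
        intro x hx y hy hxy
        have hyD : y ∈ D := hDc.1.2 x (hSD hx) y hy hxy
        exact hS.2 x hx y (mem_sdiff.2 ⟨hy, hDT y hyD⟩) hxy
    · rw [hQ, mem_filter] at hD
      refine ⟨?_, hD.2⟩
      have hDc := mem_mcomps.1 hD.1
      rw [mem_mcomps]
      have hDC : D ⊆ C := fun x hx => (mem_sdiff.1 (hDc.1.1 hx)).1
      refine ⟨⟨fun x hx => mem_sdiff.2 ⟨hC.1.1 (hDC hx), (mem_sdiff.1 (hDc.1.1 hx)).2⟩, ?_⟩,
        hDc.2.1, ?_⟩
      · intro x hx y hy hxy
        have hyC : y ∈ C := hC.1.2 x (hDC hx) y (mem_sdiff.1 hy).1 hxy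
        exact hDc.1.2 x hx y (mem_sdiff.2 ⟨hyC, (mem_sdiff.1 hy).2⟩) hxy
      · intro S hS hne hSD
        refine hDc.2.2 S ⟨hSD.trans hDc.1.1, ?_⟩ hne hSD
        intro x hx y hy hxy
        exact hS.2 x hx y (mem_sdiff.2 ⟨hC.1.1 (mem_sdiff.1 hy).1, (mem_sdiff.1 hy).2⟩) hxy
  have h2 : P.card + Q.card ≤ moddc G (U \ T) := by
    rw [← Finset.card_union_of_disjoint hdis]
    exact Finset.card_le_card hsub
  have h3 : moddc G (C \ T) = Q.card := rfl
  omega

/-- a component of `G[U ∖ A]` with no neighbour in `A ∖ B` is a component of `G[U ∖ B]` -/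
theorem MCmp.mono {U A B C : Finset V} (hBA : B ⊆ A) (hC : MCmp G (U \ A) C)
    (hN : ∀ x ∈ C, ∀ a ∈ A, G.Adj x a → a ∈ B) : MCmp G (U \ B) C := by
  refine ⟨⟨?_, ?_⟩, hC.2.1, ?_⟩
  · intro x hx
    have := mem_sdiff.1 (hC.1.1 hx)
    exact mem_sdiff.2 ⟨this.1, fun h => this.2 (hBA h)⟩
  · intro x hx y hy hxy
    rw [mem_sdiff] at hy
    by_cases hyA : y ∈ A
    · exact absurd (hN x hx y hyA hxy) hy.2
    · exact hC.1.2 x hx y (mem_sdiff.2 ⟨hy.1, hyA⟩) hxy
  · intro S hS hne hSC
    refine hC.2.2 S ⟨hSC.trans hC.1.1, ?_⟩ hne hSC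
    intro x hx y hy hxy
    rw [mem_sdiff] at hy
    exact hS.2 x hx y (mem_sdiff.2 ⟨hy.1, fun h => hy.2 (hBA h)⟩) hxy

variable (G)

/-- `M` is a perfect matching of `U` -/
def MPM (U : Finset V) (M : V → V) : Prop :=
  ∀ v ∈ U, M v ∈ U ∧ M (M v) = v ∧ G.Adj v (M v)

/-- `C` is factor critical -/
def MFC (C : Finset V) : Prop := ∀ v ∈ C, ∃ M, MPM G (C.erase v) M

/-- a maximal barrier -/
def MBarrier (U A : Finset V) : Prop :=
  A ⊆ U ∧ (∀ C, MCmp G (U \ A) C → Odd C.card ∧ MFC G C) ∧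
    ∀ T ⊆ U, moddc G (U \ T) + A.card ≤ (mcomps G (U \ A)).card + T.card

theorem exists_barrier (U : Finset V)
    (hT : ∀ U' : Finset V, U'.card < U.card → (∃ M, MPM G U' M) ∨
      ∃ T ⊆ U', T.card < moddc G (U' \ T)) : ∃ A, MBarrier G U A := by
  classical
  obtain ⟨A, hA, hmax⟩ := Finset.exists_max_image U.powerset
    (fun B => ((moddc G (U \ B) : ℤ) - B.card) * (U.card + 1) + B.card)
    ⟨∅, by simp⟩
  rw [mem_powerset] at hA
  have hcA : A.card ≤ U.card := Finset.card_le_card hA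
  have h1 : ∀ B ⊆ U, (moddc G (U \ B) : ℤ) - B.card ≤ (moddc G (U \ A) : ℤ) - A.card := by
    intro B hB
    have h := hmax B (mem_powerset.2 hB)
    by_contra hcon
    push Not at hcon
    have hcon' : (moddc G (U \ A) : ℤ) - A.card + 1 ≤ (moddc G (U \ B) : ℤ) - B.card := by
      omega
    have hc' : (A.card : ℤ) ≤ U.card := by exact_mod_cast hcA
    nlinarith [mul_le_mul_of_nonneg_right hcon' (by positivity : (0:ℤ) ≤ U.card + 1)]
  have h2 : ∀ B ⊆ U, (moddc G (U \ B) : ℤ) - B.card = (moddc G (U \ A) : ℤ) - A.card →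
      B.card ≤ A.card := by
    intro B hB heq
    have h := hmax B (mem_powerset.2 hB)
    simp only [heq] at h
    omega
  have hodd : ∀ C, MCmp G (U \ A) C → Odd C.card := by
    intro C hC
    by_contra hev
    obtain ⟨v, hv⟩ := hC.2.1
    have hvU := mem_sdiff.1 (hC.1.1 hv)
    have hB : insert v A ⊆ U := Finset.insert_subset hvU.1 hA
    have hsd : U \ insert v A = (U \ A) \ {v} := by
      ext x; simp only [mem_sdiff, mem_insert, mem_singleton]; tauto
    have h3 := moddc_sdiff hC (Finset.singleton_subset_iff.2 hv)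
    rw [if_neg hev, ← hsd] at h3
    have hcard : (C \ {v}).card = C.card - 1 := by
      rw [Finset.sdiff_singleton_eq_erase, Finset.card_erase_of_mem hv]
    have hpos : 0 < C.card := Finset.card_pos.2 hC.2.1
    have h4 : Odd (moddc G (C \ {v})) := by
      rw [← odd_card_iff, hcard]
      rw [Nat.not_odd_iff_even] at hev
      rw [Nat.odd_iff]; rw [Nat.even_iff] at hev; omega
    have h5 : 1 ≤ moddc G (C \ {v}) := h4.pos
    have h6 : (insert v A).card = A.card + 1 := Finset.card_insert_of_notMem hvU.2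
    have h7 := h1 _ hB
    have h8 := h2 _ hB
    omega
  have hall : moddc G (U \ A) = (mcomps G (U \ A)).card := by
    unfold moddc
    rw [Finset.filter_true_of_mem]
    intro C hC
    exact hodd C (mem_mcomps.1 hC)
  refine ⟨A, hA, ?_, ?_⟩
  · intro C hC
    refine ⟨hodd C hC, ?_⟩
    intro v hv
    have hvU := mem_sdiff.1 (hC.1.1 hv)
    have hCU : C ⊆ U := fun x hx => (mem_sdiff.1 (hC.1.1 hx)).1
    have hlt : (C.erase v).card < U.card := by
      rw [Finset.card_erase_of_mem hv]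
      have := Finset.card_le_card hCU
      have hpos : 0 < C.card := Finset.card_pos.2 hC.2.1
      omega
    rcases hT _ hlt with h | ⟨T, hTs, hTc⟩
    · exact h
    · exfalso
      have hvT : v ∉ T := fun h => (Finset.mem_erase.1 (hTs h)).1 rfl
      have hTC : insert v T ⊆ C := Finset.insert_subset hv (hTs.trans (Finset.erase_subset _ _))
      have hTA : Disjoint A (insert v T) := by
        rw [Finset.disjoint_left]
        intro x hx hx'
        exact (mem_sdiff.1 (hC.1.1 (hTC hx'))).2 hx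
      have hB : A ∪ insert v T ⊆ U := Finset.union_subset hA (hTC.trans hCU)
      have hsd : U \ (A ∪ insert v T) = (U \ A) \ insert v T := by
        ext x; simp only [mem_sdiff, mem_union]; tauto
      have hsd2 : C.erase v \ T = C \ insert v T := by
        ext x; simp only [mem_sdiff, mem_erase, mem_insert]; tauto
      have h3 := moddc_sdiff hC hTC
      rw [if_pos (hodd C hC), ← hsd] at h3
      rw [hsd2] at hTc
      have h6 : (A ∪ insert v T).card = A.card + (T.card + 1) := by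
        rw [Finset.card_union_of_disjoint hTA, Finset.card_insert_of_notMem hvT]
      have h9 : (C \ insert v T).card + (T.card + 1) = C.card := by
        have := Finset.card_sdiff_add_card_eq_card hTC
        rwa [Finset.card_insert_of_notMem hvT] at this
      have h10 := odd_card_iff (G := G) (C \ insert v T)
      have h11 := hodd C hC
      have h12 : moddc G (C \ insert v T) % 2 = T.card % 2 := by
        rw [Nat.odd_iff, Nat.odd_iff] at h10
        rw [Nat.odd_iff] at h11
        omega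
      have h7 := h1 _ hB
      have h8 := h2 _ hB
      omega
  · intro T hTU
    have := h1 T hTU
    rw [← hall]
    omega

variable {G}

/-- Hall's condition for a barrier -/
theorem MBarrier.hall {U A : Finset V} (h : MBarrier G U A) (R : Finset (Finset V))
    (hR : R ⊆ mcomps G (U \ A)) (B : Finset V) (hBA : B ⊆ A)
    (hB : ∀ C ∈ R, ∀ x ∈ C, ∀ a ∈ A, G.Adj x a → a ∈ B) :
    R.card + A.card ≤ B.card + (mcomps G (U \ A)).card := by
  have h1 := h.2.2 B (hBA.trans h.1)
  have h2 : R.card ≤ moddc G (U \ B) := by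
    apply Finset.card_le_card
    intro C hC
    rw [mem_filter, mem_mcomps]
    have hCc := mem_mcomps.1 (hR hC)
    exact ⟨hCc.mono hBA (hB C hC), (h.2.1 C hCc).1⟩
  omega

/-- gluing perfect matchings of `C - z C` and a matching of components to `A` -/
theorem MBarrier.glue {U A : Finset V} (h : MBarrier G U A) (z k : Finset V → V)
    (g : V → Finset V) (hz : ∀ C, MCmp G (U \ A) C → z C ∈ C)
    (hk : ∀ C, MCmp G (U \ A) C → k C = z C ∨ (k C ∈ A ∧ G.Adj (z C) (k C) ∧ g (k C) = C))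
    (hg : ∀ a ∈ A, MCmp G (U \ A) (g a) ∧ k (g a) = a) :
    ∃ M : V → V,
      (∀ C, MCmp G (U \ A) C → M (z C) = k C) ∧
      (∀ C, MCmp G (U \ A) C → ∀ v ∈ C, v ≠ z C → M v ∈ C ∧ M v ≠ v) ∧
      (∀ a ∈ A, M a = z (g a)) ∧
      (∀ v ∈ U, M v ∈ U ∧ M (M v) = v) ∧ (∀ v ∈ U, M v ≠ v → G.Adj v (M v)) := by
  classical
  have hc : ∀ v : V, ∃ C, v ∈ U \ A → (MCmp G (U \ A) C ∧ v ∈ C) := by
    intro v
    by_cases hv : v ∈ U \ A
    · obtain ⟨C, hC, hvC⟩ := exists_mcmp (G := G) hv
      exact ⟨C, fun _ => ⟨hC, hvC⟩⟩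
    · exact ⟨∅, fun h => absurd h hv⟩
  choose cm hcm using hc
  have hcm' : ∀ C, MCmp G (U \ A) C → ∀ v ∈ C, cm v = C := by
    intro C hC v hv
    have := hcm v (hC.1.1 hv)
    exact this.1.eq_of_mem hC this.2 hv
  have hm : ∀ C : Finset V, ∃ M : V → V, MCmp G (U \ A) C → MPM G (C.erase (z C)) M := by
    intro C
    by_cases hC : MCmp G (U \ A) C
    · obtain ⟨M, hM⟩ := (h.2.1 C hC).2 (z C) (hz C hC)
      exact ⟨M, fun _ => hM⟩
    · exact ⟨id, fun h => absurd h hC⟩
  choose mm hmm using hm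
  let M : V → V := fun v => if v ∈ A then z (g v) else if v = z (cm v) then k (cm v)
    else mm (cm v) v
  have hCA : ∀ C, MCmp G (U \ A) C → ∀ v ∈ C, v ∉ A := fun C hC v hv =>
    (mem_sdiff.1 (hC.1.1 hv)).2
  have hCU : ∀ C, MCmp G (U \ A) C → ∀ v ∈ C, v ∈ U := fun C hC v hv =>
    (mem_sdiff.1 (hC.1.1 hv)).1
  have M1 : ∀ C, MCmp G (U \ A) C → M (z C) = k C := by
    intro C hC
    have h1 := hcm' C hC (z C) (hz C hC)
    simp only [M]
    rw [if_neg (hCA C hC _ (hz C hC)), h1, if_pos rfl]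
  have M2 : ∀ C, MCmp G (U \ A) C → ∀ v ∈ C, v ≠ z C → M v = mm C v := by
    intro C hC v hv hne
    have h1 := hcm' C hC v hv
    simp only [M]
    rw [if_neg (hCA C hC _ hv), h1, if_neg hne]
  have M3 : ∀ a ∈ A, M a = z (g a) := by
    intro a ha
    simp only [M]
    rw [if_pos ha]
  have M4 : ∀ C, MCmp G (U \ A) C → ∀ v ∈ C, v ≠ z C →
      M v ∈ C ∧ M v ≠ z C ∧ M (M v) = v ∧ G.Adj v (M v) := by
    intro C hC v hv hne
    have h1 := hmm C hC v (mem_erase.2 ⟨hne, hv⟩)
    rw [M2 C hC v hv hne]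
    have h2 := mem_erase.1 h1.1
    refine ⟨h2.2, h2.1, ?_, h1.2.2⟩
    rw [M2 C hC _ h2.2 h2.1]
    exact h1.2.1
  have key : ∀ v ∈ U, (M v ∈ U ∧ M (M v) = v) ∧ (M v ≠ v → G.Adj v (M v)) := by
    intro v hv
    by_cases hvA : v ∈ A
    · have hga := hg v hvA
      rw [M3 v hvA]
      refine ⟨⟨hCU _ hga.1 _ (hz _ hga.1), ?_⟩, fun hne => ?_⟩
      · rw [M1 _ hga.1, hga.2]
      · rcases hk _ hga.1 with h1 | h1
        · exfalso
          rw [hga.2] at h1
          exact hne h1.symm
        · rw [hga.2] at h1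
          exact h1.2.1.symm
    · obtain ⟨hC, hvC⟩ := hcm v (mem_sdiff.2 ⟨hv, hvA⟩)
      by_cases hvz : v = z (cm v)
      · have e1 : M v = k (cm v) := by
          have := M1 (cm v) hC
          rwa [← hvz] at this
        rcases hk _ hC with h1 | h1
        · rw [← hvz] at h1
          rw [h1] at e1
          exact ⟨⟨by rw [e1]; exact hv, by rw [e1, e1]⟩, fun hne => absurd e1 hne⟩
        · rw [e1]
          refine ⟨⟨h.1 h1.1, ?_⟩, fun _ => ?_⟩
          · rw [M3 _ h1.1, h1.2.2, ← hvz]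
          · have := h1.2.1
            rwa [← hvz] at this
      · have := M4 (cm v) hC v hvC hvz
        exact ⟨⟨hCU _ hC _ this.1, this.2.2.1⟩, fun _ => this.2.2.2⟩
  refine ⟨M, M1, ?_, M3, fun v hv => (key v hv).1, fun v hv => (key v hv).2⟩
  intro C hC v hv hne
  have := M4 C hC v hv hne
  exact ⟨this.1, fun h => this.2.2.2.ne h.symm⟩

/-- Tutte's theorem on finsets -/
theorem mtutte (U : Finset V) : (∃ M, MPM G U M) ∨ ∃ T ⊆ U, T.card < moddc G (U \ T) := by
  classical
  rcases isEmpty_or_nonempty V with hV | hV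
  · exact Or.inl ⟨id, fun v => (hV.false v).elim⟩
  obtain ⟨v0⟩ := hV
  induction hn : U.card using Nat.strong_induction_on generalizing U with
  | _ n ih =>
    by_cases hT : ∃ T ⊆ U, T.card < moddc G (U \ T)
    · exact Or.inr hT
    left
    push Not at hT
    obtain ⟨A, hA⟩ := exists_barrier G U (fun U' hU' => ih U'.card (hn ▸ hU') U' rfl)
    -- Hall
    have hall : moddc G (U \ A) = (mcomps G (U \ A)).card := by
      unfold moddc
      rw [Finset.filter_true_of_mem]
      intro C hC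
      exact (hA.2.1 C (mem_mcomps.1 hC)).1
    have hle : (mcomps G (U \ A)).card ≤ A.card := hall ▸ hT A hA.1
    have hge : A.card ≤ (mcomps G (U \ A)).card := by
      have := hA.2.2 ∅ (by simp)
      simp only [Finset.card_empty] at this
      omega
    let ι := {C : Finset V // C ∈ mcomps G (U \ A)}
    let t : ι → Finset V := fun C => A.filter (fun a => ∃ x ∈ C.1, G.Adj x a)
    have hHall : ∀ s : Finset ι, s.card ≤ (s.biUnion t).card := by
      intro s
      have h1 := hA.hall (s.image Subtype.val) (by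
        intro C hC
        obtain ⟨D, _, rfl⟩ := mem_image.1 hC
        exact D.2) (s.biUnion t) (by
          intro a ha
          obtain ⟨C, _, hC⟩ := mem_biUnion.1 ha
          exact (mem_filter.1 hC).1) (by
          intro C hC x hx a ha hxa
          obtain ⟨D, hD, rfl⟩ := mem_image.1 hC
          exact mem_biUnion.2 ⟨D, hD, mem_filter.2 ⟨ha, x, hx, hxa⟩⟩)
      rw [Finset.card_image_of_injective _ Subtype.val_injective] at h1
      omega
    obtain ⟨f, hf, hft⟩ := (Finset.all_card_le_biUnion_card_iff_exists_injective t).1 hHall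
    -- surjectivity on A
    have hsurj : ∀ a ∈ A, ∃ C : ι, f C = a := by
      have himg : (univ : Finset ι).image f = A := by
        apply Finset.eq_of_subset_of_card_le
        · intro a ha
          obtain ⟨C, _, rfl⟩ := mem_image.1 ha
          exact (mem_filter.1 (hft C)).1
        · rw [Finset.card_image_of_injective _ hf, Finset.card_univ]
          simp only [ι, Fintype.card_coe]
          exact hge
      intro a ha
      rw [← himg] at ha
      obtain ⟨C, _, h⟩ := mem_image.1 ha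
      exact ⟨C, h⟩
    -- choose z, k, g
    have hzk : ∀ C : Finset V, ∃ z k : V, ∀ hC : MCmp G (U \ A) C,
        k = f ⟨C, mem_mcomps.2 hC⟩ ∧ z ∈ C ∧ G.Adj z k ∧ k ∈ A := by
      intro C
      by_cases hC : C ∈ mcomps G (U \ A)
      · have h1 := mem_filter.1 (hft ⟨C, hC⟩)
        obtain ⟨x, hx, hxa⟩ := h1.2
        exact ⟨x, f ⟨C, hC⟩, fun _ => ⟨rfl, hx, hxa, h1.1⟩⟩
      · exact ⟨v0, v0, fun h => absurd (mem_mcomps.2 h) hC⟩
    choose z k hzk using hzk
    have hgg : ∀ a : V, ∃ C : Finset V, a ∈ A → MCmp G (U \ A) C ∧ k C = a := by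
      intro a
      by_cases ha : a ∈ A
      · obtain ⟨C, hC⟩ := hsurj a ha
        refine ⟨C.1, fun _ => ⟨mem_mcomps.1 C.2, ?_⟩⟩
        rw [(hzk C.1 (mem_mcomps.1 C.2)).1]
        exact hC
      · exact ⟨∅, fun h => absurd h ha⟩
    choose g hg using hgg
    obtain ⟨M, h1, h2, h3, h4, h5⟩ := hA.glue z k g (fun C hC => (hzk C hC).2.1) (by
      intro C hC
      right
      obtain ⟨e1, e2, e3, e4⟩ := hzk C hC
      refine ⟨e4, e3, ?_⟩
      obtain ⟨e5, e6⟩ := hg _ e4
      have e7 := (hzk _ e5).1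
      exact congrArg Subtype.val (hf (e7.symm.trans (e6.trans e1)))) hg
    refine ⟨M, fun v hv => ⟨(h4 v hv).1, (h4 v hv).2, h5 v hv ?_⟩⟩
    intro hMv
    by_cases hvA : v ∈ A
    · obtain ⟨e5, e6⟩ := hg _ hvA
      have e7 := (hzk _ e5).2.1
      rw [← h3 v hvA, hMv] at e7
      exact (mem_sdiff.1 (e5.1.1 e7)).2 hvA
    · obtain ⟨C, hC, hvC⟩ := exists_mcmp (G := G) (mem_sdiff.2 ⟨hv, hvA⟩)
      by_cases hvz : v = z C
      · have := h1 C hC
        rw [← hvz, hMv] at this
        exact hvA (this ▸ (hzk C hC).2.2.2)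
      · exact (h2 C hC v hvC hvz).2 hMv

end MatchComp

end Pool.Agent.Bis
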