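import Pool.Agent.Bis.MatchComp

/-!
# Edge counts for components of a barrier (auxiliary file for `Match.lean`)
-/

namespace Pool.Agent.Bis
open Finset

set_option linter.unusedSectionVars false

section MatchCount
variable {V : Type} [Fintype V] [DecidableEq V] (G : SimpleGraph V) [DecidableRel G.Adj]

/-- number of edges between `C` and `A` -/
def mec (A C : Finset V) : ℕ := ∑ v ∈ C, degIn G A v

/-- total degree excess in `C` -/
def meps (W : Finset V) (r : ℕ) (C : Finset V) : ℕ := ∑ v ∈ C, (degIn G W v - r)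

variable {G}

theorem degIn_union {A B : Finset V} (h : Disjoint A B) (v : V) :
    degIn G (A ∪ B) v = degIn G A v + degIn G B v := by
  unfold degIn
  rw [Finset.filter_union, Finset.card_union_of_disjoint]
  exact Finset.disjoint_filter_filter h

theorem degIn_mono {A B : Finset V} (h : A ⊆ B) (v : V) : degIn G A v ≤ degIn G B v :=
  Finset.card_le_card (Finset.filter_subset_filter _ h)

theorem degIn_comp {W A C : Finset V} (hA : A ⊆ W) (hC : MCmp G (W \ A) C) {v : V} (hv : v ∈ C) :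
    degIn G W v = degIn G C v + degIn G A v := by
  have hdis : Disjoint C A := by
    rw [Finset.disjoint_left]
    intro x hx
    exact (mem_sdiff.1 (hC.1.1 hx)).2
  rw [← degIn_union hdis]
  unfold degIn
  congr 1
  ext u
  simp only [mem_filter, mem_union]
  constructor
  · rintro ⟨huW, hadj⟩
    by_cases huA : u ∈ A
    · exact ⟨Or.inr huA, hadj⟩
    · exact ⟨Or.inl (hC.1.2 v hv u (mem_sdiff.2 ⟨huW, huA⟩) hadj), hadj⟩
  · rintro ⟨h | h, hadj⟩
    · exact ⟨(mem_sdiff.1 (hC.1.1 h)).1, hadj⟩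
    · exact ⟨hA h, hadj⟩

theorem even_sum_degIn (C : Finset V) : Even (∑ v ∈ C, degIn G C v) := by
  let H : SimpleGraph V :=
    { Adj := fun u v => G.Adj u v ∧ u ∈ C ∧ v ∈ C
      symm := ⟨fun u v h => ⟨h.1.symm, h.2.2, h.2.1⟩⟩
      loopless := ⟨fun u h => G.loopless.irrefl u h.1⟩ }
  have : DecidableRel H.Adj := fun u v => inferInstanceAs (Decidable (G.Adj u v ∧ u ∈ C ∧ v ∈ C))
  have h1 := H.sum_degrees_eq_twice_card_edges
  have h2 : ∑ v ∈ C, degIn G C v = ∑ v, H.degree v := by
    rw [← Finset.sum_subset (Finset.subset_univ C)]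
    · refine Finset.sum_congr rfl fun v hv => ?_
      unfold degIn SimpleGraph.degree
      congr 1
      ext u
      rw [SimpleGraph.mem_neighborFinset, mem_filter]
      exact ⟨fun h => ⟨h.2, hv, h.1⟩, fun h => ⟨h.2.2, h.1⟩⟩
    · intro v _ hv
      rw [SimpleGraph.degree, Finset.card_eq_zero, Finset.eq_empty_iff_forall_notMem]
      intro u hu
      rw [SimpleGraph.mem_neighborFinset] at hu
      exact hv hu.2.1
  rw [h2, h1]
  exact even_two_mul _

theorem mcount {W A C : Finset V} {r : ℕ} (hr : Odd r) (hdeg : ∀ w ∈ W, r ≤ degIn G W w)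
    (hA : A ⊆ W) (hC : MCmp G (W \ A) C) (hodd : Odd C.card)
    (hng : ∀ v ∈ C, degIn G W v = r → ∃ a ∈ A, G.Adj v a) :
    r ≤ mec G A C + meps G W r C ∧ Odd (mec G A C + meps G W r C) ∧
      (mec G A C + meps G W r C = r → meps G W r C = 0) := by
  have hCW : ∀ v ∈ C, v ∈ W := fun v hv => (mem_sdiff.1 (hC.1.1 hv)).1
  have h1 : ∑ v ∈ C, degIn G W v = ∑ v ∈ C, degIn G C v + mec G A C := by
    unfold mec
    rw [← Finset.sum_add_distrib]
    exact Finset.sum_congr rfl fun v hv => degIn_comp hA hC hv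
  have h2 : ∑ v ∈ C, degIn G W v = r * C.card + meps G W r C := by
    unfold meps
    rw [mul_comm, ← smul_eq_mul, ← Finset.sum_const, ← Finset.sum_add_distrib]
    refine Finset.sum_congr rfl fun v hv => ?_
    have := hdeg v (hCW v hv)
    omega
  have h3 : C.card ≤ mec G A C + meps G W r C := by
    unfold mec meps
    rw [← Finset.sum_add_distrib, Finset.card_eq_sum_ones]
    refine Finset.sum_le_sum fun v hv => ?_
    have h := hdeg v (hCW v hv)
    by_cases hv' : degIn G W v = r
    · obtain ⟨a, ha, hadj⟩ := hng v hv hv'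
      have : 0 < degIn G A v := by
        unfold degIn
        exact Finset.card_pos.2 ⟨a, mem_filter.2 ⟨ha, hadj⟩⟩
      omega
    · omega
  have h4 : ∑ v ∈ C, degIn G C v ≤ C.card * (C.card - 1) := by
    rw [← smul_eq_mul, ← Finset.sum_const]
    refine Finset.sum_le_sum fun v hv => ?_
    rw [← Finset.card_erase_of_mem hv]
    apply Finset.card_le_card
    intro u hu
    rw [mem_filter] at hu
    exact mem_erase.2 ⟨fun h => G.loopless.irrefl v (h ▸ hu.2), hu.1⟩
  have h5 := even_sum_degIn (G := G) C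
  have hpos : 0 < C.card := hodd.pos
  obtain ⟨c, hc⟩ : ∃ c, C.card = c + 1 := ⟨C.card - 1, by omega⟩
  have h4' : ∑ v ∈ C, degIn G C v ≤ (c + 1) * c := by
    have := h4; rw [hc] at this; simpa using this
  rw [h2, hc] at h1
  have key : c + 1 ≤ r → r + meps G W r C ≤ mec G A C := by
    intro hle
    obtain ⟨d, hd⟩ : ∃ d, r = c + 1 + d := ⟨r - (c + 1), by omega⟩
    subst hd
    nlinarith [Nat.zero_le (c * d)]
  rw [hc] at h3
  refine ⟨?_, ?_, ?_⟩
  · by_cases hle : c + 1 ≤ r
    · have := key hle; omega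
    · omega
  · have h6 : Odd (r * (c + 1)) := hr.mul (hc ▸ hodd)
    obtain ⟨e, he⟩ := h5
    obtain ⟨o, ho⟩ := h6
    rw [he, ho] at h1
    rw [Nat.odd_iff]
    omega
  · intro heq
    by_cases hle : c + 1 ≤ r
    · have := key hle; omega
    · omega

/-- edges between components in `R` and `A` are counted from the side of `A` -/
theorem sum_mec_le {W A : Finset V} (R : Finset (Finset V))
    (hR : R ⊆ mcomps G (W \ A)) (B : Finset V) (hBA : B ⊆ A)
    (hB : ∀ C ∈ R, ∀ x ∈ C, ∀ a ∈ A, G.Adj x a → a ∈ B) :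
    ∑ C ∈ R, mec G A C ≤ ∑ a ∈ B, degIn G W a := by
  classical
  have h1 : ∀ C ∈ R, mec G A C = ∑ a ∈ B, degIn G C a := by
    intro C hC
    unfold mec degIn
    simp only [Finset.card_filter]
    rw [Finset.sum_comm]
    rw [← Finset.sum_subset hBA]
    · refine Finset.sum_congr rfl fun a _ => Finset.sum_congr rfl fun x _ => ?_
      simp only [G.adj_comm]
    · intro a ha haB
      refine Finset.sum_eq_zero fun x hx => ?_
      rw [if_neg]
      intro hadj
      exact haB (hB C hC x hx a ha hadj)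
  rw [Finset.sum_congr rfl h1, Finset.sum_comm]
  refine Finset.sum_le_sum fun a _ => ?_
  have hdis : (R : Set (Finset V)).PairwiseDisjoint (fun C => C.filter (fun u => G.Adj a u)) := by
    intro C hC D hD hne
    have := pairwiseDisjoint_mcomps (G := G) (W \ A) (hR hC) (hR hD) hne
    exact Finset.disjoint_filter_filter this
  have h2 := Finset.card_biUnion hdis
  have h3 : ∑ C ∈ R, degIn G C a = ∑ C ∈ R, (C.filter (fun u => G.Adj a u)).card := rfl
  rw [h3, ← h2]
  apply Finset.card_le_card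
  intro u hu
  obtain ⟨C, hC, hu'⟩ := mem_biUnion.1 hu
  rw [mem_filter] at hu' ⊢
  exact ⟨(mem_sdiff.1 ((mem_mcomps.1 (hR hC)).1.1 hu'.1)).1, hu'.2⟩

theorem sum_excess_ge {W A : Finset V} (r : ℕ) (hA : A ⊆ W) (R : Finset (Finset V))
    (hR : R ⊆ mcomps G (W \ A)) (B : Finset V) (hBA : B ⊆ A)
    (hdeg : ∀ w ∈ W, r ≤ degIn G W w)
    (hB : ∀ C ∈ R, ∀ x ∈ C, ∀ a ∈ A, G.Adj x a → a ∈ B) :
    ∑ C ∈ R, (mec G A C + meps G W r C) ≤ ∑ w ∈ W, (degIn G W w - r) + r * B.card := by
  classical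
  have h1 := sum_mec_le (G := G) R hR B hBA hB
  have h2 : ∑ a ∈ B, degIn G W a = ∑ a ∈ B, (degIn G W a - r) + r * B.card := by
    rw [mul_comm r, ← smul_eq_mul, ← Finset.sum_const, ← Finset.sum_add_distrib]
    refine Finset.sum_congr rfl fun a ha => ?_
    have := hdeg a (hA (hBA ha))
    omega
  have hdis : (R : Set (Finset V)).PairwiseDisjoint id :=
    (pairwiseDisjoint_mcomps (G := G) (W \ A)).subset (by exact_mod_cast hR)
  have h3 : ∑ C ∈ R, meps G W r C = ∑ w ∈ R.biUnion id, (degIn G W w - r) := by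
    rw [Finset.sum_biUnion hdis]
    rfl
  have hdis2 : Disjoint B (R.biUnion id) := by
    rw [Finset.disjoint_left]
    intro x hx hx'
    obtain ⟨C, hC, hxC⟩ := mem_biUnion.1 hx'
    exact (mem_sdiff.1 ((mem_mcomps.1 (hR hC)).1.1 hxC)).2 (hBA hx)
  have h4 : ∑ a ∈ B, (degIn G W a - r) + ∑ w ∈ R.biUnion id, (degIn G W w - r) ≤
      ∑ w ∈ W, (degIn G W w - r) := by
    rw [← Finset.sum_union hdis2]
    apply Finset.sum_le_sum_of_subset
    apply Finset.union_subset (hBA.trans hA)
    intro x hx'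
    obtain ⟨C, hC, hxC⟩ := mem_biUnion.1 hx'
    exact (mem_sdiff.1 ((mem_mcomps.1 (hR hC)).1.1 hxC)).1
  rw [Finset.sum_add_distrib, h3]
  omega

end MatchCount

end Pool.Agent.Bis
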