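import Pool.Agent.Bis.Defs

/-!
# Judicious bisections: near perfect pairings
-/

namespace Pool.Agent.Bis
open Finset

section
variable {V : Type} [Fintype V] [DecidableEq V] (G : SimpleGraph V) [DecidableRel G.Adj]

omit [Fintype V] in
private lemma npm_exists_pairing : ∀ (n : ℕ) (U : Finset V), U.card = 2 * n →
    ∃ π : V → V, IsPairing U π := by
  intro n
  induction n with
  | zero =>
    intro U hU
    have : U = ∅ := card_eq_zero.1 (by omega)
    exact ⟨id, by subst this; intro v hv; exact absurd hv (notMem_empty v)⟩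
  | succ n ih =>
    intro U hU
    obtain ⟨a, ha⟩ : U.Nonempty := card_pos.1 (by omega)
    obtain ⟨b, hb⟩ : (U.erase a).Nonempty := card_pos.1 (by rw [card_erase_of_mem ha]; omega)
    have hbU : b ∈ U := mem_of_mem_erase hb
    have hba : b ≠ a := ne_of_mem_erase hb
    obtain ⟨π, hπ⟩ := ih ((U.erase a).erase b)
      (by rw [card_erase_of_mem hb, card_erase_of_mem ha]; omega)
    refine ⟨fun x => if x = a then b else if x = b then a else π x, ?_⟩
    intro v hv
    by_cases hva : v = a
    · subst hva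
      simp [hbU, hba]
    · by_cases hvb : v = b
      · subst hvb
        simp [hva, ha, Ne.symm hva]
      · have hv' : v ∈ (U.erase a).erase b := by simp [hva, hvb, hv]
        obtain ⟨h1, h2, h3⟩ := hπ v hv'
        simp only [mem_erase] at h1
        obtain ⟨h1b, h1a, h1U⟩ := h1
        simp [hva, hvb, h1b, h1a, h1U, h2, h3]

omit [Fintype V] [DecidableEq V] in
/-- sum form of `adjc` -/
private lemma npm_adjc (U : Finset V) (π : V → V) :
    adjc G U π = ∑ v ∈ U, if G.Adj v (π v) then 1 else 0 := by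
  unfold adjc
  rw [card_filter]

/-- re-pairing two pairs -/
private lemma npm_swap (U : Finset V) (π : V → V) (hπ : IsPairing U π)
    (hmax : ∀ π' : V → V, IsPairing U π' → adjc G U π' ≤ adjc G U π)
    (a : V) (ha : a ∈ U) (hna : ¬ G.Adj a (π a)) (w : V) (hw : w ∈ U) :
    (if G.Adj a w then 1 else 0) + (if G.Adj (π a) (π w) then 1 else 0) ≤
      if G.Adj w (π w) then 1 else 0 := by
  obtain ⟨ha1, ha2, ha3⟩ := hπ a ha
  obtain ⟨hw1, hw2, hw3⟩ := hπ w hw
  by_cases hwa : w = a
  · subst hwa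
    simp
  by_cases hwa' : w = π a
  · subst hwa'
    rw [ha3]
    simp [hna]
  have hwπa : π w ≠ a := by
    intro h
    apply hwa'
    rw [← h, hw3]
  have hwππ : π w ≠ π a := by
    intro h
    apply hwa
    rw [← hw3, h, ha3]
  set σ : Equiv.Perm V := Equiv.swap (π a) w with hσ
  have hσa' : σ (π a) = w := Equiv.swap_apply_left _ _
  have hσw : σ w = π a := Equiv.swap_apply_right _ _
  have hσo : ∀ x, x ≠ π a → x ≠ w → σ x = x := fun x h1 h2 => Equiv.swap_apply_of_ne_of_ne h1 h2
  have hσσ : ∀ x, σ (σ x) = x := fun x => Equiv.swap_apply_self _ _ _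
  have hσU : ∀ x ∈ U, σ x ∈ U := by
    intro x hx
    by_cases h1 : x = π a
    · subst h1; rw [hσa']; exact hw
    · by_cases h2 : x = w
      · subst h2; rw [hσw]; exact ha1
      · rw [hσo x h1 h2]; exact hx
  have hpair : IsPairing U (fun x => σ (π (σ x))) := by
    intro x hx
    have hx' := hσU x hx
    obtain ⟨h1, h2, h3⟩ := hπ _ hx'
    refine ⟨hσU _ h1, ?_, ?_⟩
    · intro h
      apply h2
      have := congrArg σ h
      rwa [hσσ] at this
    · simp only [hσσ, h3]
  have hle := hmax _ hpair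
  rw [npm_adjc, npm_adjc] at hle
  -- substitute `v = σ x`
  have hre : ∑ v ∈ U, (if G.Adj v (σ (π (σ v))) then 1 else 0 : ℕ) =
      ∑ x ∈ U, if G.Adj (σ x) (σ (π x)) then 1 else 0 := by
    refine sum_nbij' (fun v => σ v) (fun v => σ v) (fun v hv => hσU v hv) (fun v hv => hσU v hv)
      (fun v _ => hσσ v) (fun v _ => hσσ v) ?_
    intro v _
    rw [hσσ]
  rw [hre] at hle
  -- isolate the four vertices
  let T : Finset V := {a, π a, w, π w}
  have hTU : T ⊆ U := by
    intro x hx
    simp only [T, mem_insert, mem_singleton] at hx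
    rcases hx with rfl | rfl | rfl | rfl
    · exact ha
    · exact ha1
    · exact hw
    · exact hw1
  have hrest : ∑ x ∈ U \ T, (if G.Adj (σ x) (σ (π x)) then 1 else 0 : ℕ) =
      ∑ x ∈ U \ T, if G.Adj x (π x) then 1 else 0 := by
    apply sum_congr rfl
    intro x hx
    rw [mem_sdiff] at hx
    obtain ⟨hxU, hxT⟩ := hx
    simp only [T, mem_insert, mem_singleton, not_or] at hxT
    obtain ⟨t1, t2, t3, t4⟩ := hxT
    have hx3 := (hπ x hxU).2.2
    rw [hσo x t2 t3, hσo (π x) ?_ ?_]
    · intro h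
      apply t1
      rw [← hx3, h, ha3]
    · intro h
      apply t4
      rw [← h, hx3]
  rw [← sum_sdiff hTU, ← sum_sdiff (f := fun v => if G.Adj v (π v) then 1 else 0) hTU, hrest] at hle
  have hle' := Nat.le_of_add_le_add_left hle
  have n1 : a ∉ ({π a, w, π w} : Finset V) := by
    simp [Ne.symm ha2, Ne.symm hwa, Ne.symm hwπa]
  have n2 : π a ∉ ({w, π w} : Finset V) := by
    simp [Ne.symm hwa', Ne.symm hwππ]
  have n3 : w ∉ ({π w} : Finset V) := by simp [Ne.symm hw2]
  have e1 : σ a = a := hσo a (Ne.symm ha2) (Ne.symm hwa)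
  have e4 : σ (π w) = π w := hσo _ hwππ hw2
  rw [sum_insert n1, sum_insert n2, sum_insert n3, sum_singleton, sum_insert n1, sum_insert n2,
    sum_insert n3, sum_singleton] at hle'
  simp only [ha3, hw3, hσa', hσw, e1, e4, hna, G.adj_comm w a, G.adj_comm (π w) (π a),
    G.adj_comm (π a) a, G.adj_comm (π w) w, if_false] at hle'
  split_ifs at hle' ⊢ <;> omega

theorem near_perfect (u : V) (hodd : Odd (Fintype.card V)) (δ : ℕ) (hδ : Fintype.card V ≤ 2 * δ + 1)
    (hdeg : ∀ v, δ ≤ G.degree v) :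
    ∃ π : V → V, IsPairing {u}ᶜ π ∧ Fintype.card V ≤ adjc G {u}ᶜ π + 3 := by
  classical
  have hcard : ({u}ᶜ : Finset V).card = Fintype.card V - 1 := by
    rw [card_compl, card_singleton]
  obtain ⟨k, hk⟩ := hodd
  obtain ⟨π₀, hπ₀⟩ := npm_exists_pairing k ({u}ᶜ : Finset V) (by omega)
  let P : Finset (V → V) := univ.filter fun π => IsPairing ({u}ᶜ : Finset V) π
  have hP : P.Nonempty := ⟨π₀, mem_filter.2 ⟨mem_univ _, hπ₀⟩⟩
  obtain ⟨π, hπP, hπmax⟩ := exists_max_image P (fun π => adjc G ({u}ᶜ : Finset V) π) hP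
  have hπ : IsPairing ({u}ᶜ : Finset V) π := (mem_filter.1 hπP).2
  have hmax : ∀ π' : V → V, IsPairing ({u}ᶜ : Finset V) π' →
      adjc G ({u}ᶜ : Finset V) π' ≤ adjc G ({u}ᶜ : Finset V) π :=
    fun π' h => hπmax π' (mem_filter.2 ⟨mem_univ _, h⟩)
  refine ⟨π, hπ, ?_⟩
  by_cases hall : ∀ v ∈ ({u}ᶜ : Finset V), G.Adj v (π v)
  · have : adjc G ({u}ᶜ : Finset V) π = ({u}ᶜ : Finset V).card := by
      unfold adjc
      rw [filter_true_of_mem hall]
    omega
  · push Not at hall
    obtain ⟨a, ha, hna⟩ := hall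
    have hdegsum : ∀ x : V, G.degree x ≤
        (∑ w ∈ ({u}ᶜ : Finset V), if G.Adj x w then 1 else 0) + 1 := by
      intro x
      have h1 : G.degree x = ∑ w, if G.Adj x w then 1 else 0 := by
        rw [← card_filter, ← SimpleGraph.card_neighborFinset_eq_degree]
        congr 1
        ext w
        simp [SimpleGraph.mem_neighborFinset]
      rw [h1, ← sum_add_sum_compl ({u} : Finset V), sum_singleton, add_comm]
      apply Nat.add_le_add_left
      split_ifs <;> omega
    have hs : ∑ w ∈ ({u}ᶜ : Finset V), (if G.Adj (π a) w then 1 else 0 : ℕ) =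
        ∑ w ∈ ({u}ᶜ : Finset V), if G.Adj (π a) (π w) then 1 else 0 := by
      refine (sum_nbij' (fun w => π w) (fun w => π w) (fun w hw => (hπ w hw).1)
        (fun w hw => (hπ w hw).1) (fun w hw => (hπ w hw).2.2) (fun w hw => (hπ w hw).2.2) ?_).symm
      intro w _
      rfl
    have hsum : (∑ w ∈ ({u}ᶜ : Finset V), if G.Adj a w then 1 else 0) +
        (∑ w ∈ ({u}ᶜ : Finset V), if G.Adj (π a) (π w) then 1 else 0) ≤
        adjc G ({u}ᶜ : Finset V) π := by
      rw [← sum_add_distrib, npm_adjc]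
      exact sum_le_sum fun w hw => npm_swap G _ π hπ hmax a ha hna w hw
    have d1 := hdegsum a
    have d2 := hdegsum (π a)
    rw [hs] at d2
    have e1 := hdeg a
    have e2 := hdeg (π a)
    omega

end

end Pool.Agent.Bis
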