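import Pool.Agent.Bis.Defs
import Pool.Agent.Bis.Rad
import Pool.Agent.Bis.Block

/-!
# Judicious bisections: sorted pairs (P1)
-/

namespace Pool.Agent.Bis
open Finset

section
variable {V : Type} [Fintype V] [DecidableEq V] (G : SimpleGraph V) [DecidableRel G.Adj]

omit [DecidableEq V] in
/-- an enumeration of the vertices by decreasing degree -/
private theorem p1_sorted (d : V → ℕ) (n : ℕ) (hn : Fintype.card V = n) :
    ∃ e : V ≃ Fin n, ∀ u v, e u ≤ e v → d v ≤ d u := by
  subst hn
  let e0 := Fintype.equivFin V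
  let g : Fin (Fintype.card V) → ℕᵒᵈ := fun i => OrderDual.toDual (d (e0.symm i))
  refine ⟨e0.trans (Tuple.sort g).symm, fun u v h => ?_⟩
  have := Tuple.monotone_sort g h
  simpa [g] using this

private theorem p1_block_sum (n j : ℕ) (hj : j < n) (F : ℕ → ℝ) (hF : ∀ i, n ≤ i → F i = 0) :
    ∑ i ∈ range n, (if i / 2 = j then F i else 0) = F (2 * j) + F (2 * j + 1) := by
  have h1 : ∑ i ∈ range n, (if i / 2 = j then F i else 0)
      = ∑ i ∈ range (2 * n), (if i / 2 = j then F i else 0) := by
    apply Finset.sum_subset (range_subset_range.2 (by omega))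
    intro i _ hi
    simp only [mem_range, not_lt] at hi
    rw [hF i hi]; simp
  rw [h1, ← Finset.sum_filter]
  have : (range (2 * n)).filter (fun i => i / 2 = j) = {2 * j, 2 * j + 1} := by
    ext i; simp only [mem_filter, mem_range, mem_insert, mem_singleton]; omega
  rw [this, Finset.sum_pair (by omega)]

/-- `K` times the maximum degree is at most the sum of the degrees -/
private theorem p1_max (K : ℕ) (hdeg : ∀ v, K ≤ G.degree v + 1) (v : V) :
    (K : ℝ) * dg G v ≤ ∑ u, dg G u := by
  have h1 : ∑ u ∈ G.neighborFinset v, dg G u + dg G v ≤ ∑ u, dg G u := by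
    have hd : v ∉ G.neighborFinset v := by simp
    rw [add_comm, ← Finset.sum_insert hd]
    exact Finset.sum_le_sum_of_subset_of_nonneg (subset_univ _) fun i _ _ => by
      unfold dg; positivity
  have h2 : (G.degree v : ℝ) * ((K : ℝ) - 1) ≤ ∑ u ∈ G.neighborFinset v, dg G u := by
    rw [← G.card_neighborFinset_eq_degree v, ← nsmul_eq_mul]
    apply Finset.card_nsmul_le_sum
    intro u _
    have := hdeg u
    unfold dg
    have : (K : ℝ) ≤ G.degree u + 1 := by exact_mod_cast this
    linarith
  have h3 : dg G v = (G.degree v : ℝ) := rfl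
  rw [h3] at h1 ⊢
  linarith

theorem P1 (K : ℕ) (hK : 1 ≤ K) (hdeg : ∀ v, K ≤ G.degree v + 1) (hno : ¬ GoodB G K) :
    (∃ (Hb : Finset V) (p w1 : V), Odd Hb.card ∧ p ∈ Hb ∧ w1 ∉ Hb ∧
      (∀ v ∈ Hb, G.degree p ≤ G.degree v) ∧ (∀ w, w ∉ Hb → G.degree w ≤ G.degree w1) ∧
      ∑ v, dg G v < 2 * K * (dg G p - dg G w1)) ∨
    (Odd (Fintype.card V) ∧ ∀ v, ∑ u, dg G u < 2 * K * dg G v) := by
  classical
  have hKpos : (0 : ℝ) < K := by exact_mod_cast hK
  have hdg0 : ∀ v, 0 ≤ dg G v := fun v => by unfold dg; positivity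
  -- the empty graph is fine
  rcases isEmpty_or_nonempty V with hV | hV
  · exact absurd ⟨fun _ => 1, fun v => Or.inl rfl, by simp, by simp [BF, SF]⟩ hno
  have hnpos : 0 < Fintype.card V := Fintype.card_pos
  generalize hn : Fintype.card V = n at hnpos ⊢
  obtain ⟨e, he⟩ := p1_sorted (V := V) (fun v => G.degree v) n hn
  -- the extended sequence
  have key : ∀ f : V → ℝ, ∃ F : ℕ → ℝ, (∀ i (h : i < n), F i = f (e.symm ⟨i, h⟩)) ∧
      (∀ i, n ≤ i → F i = 0) := fun f =>
    ⟨fun i => if h : i < n then f (e.symm ⟨i, h⟩) else 0, fun i h => by simp [h],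
      fun i h => by simp [not_lt.2 h]⟩
  have hsum : ∀ (f : V → ℝ) (F : ℕ → ℝ), (∀ i (h : i < n), F i = f (e.symm ⟨i, h⟩)) →
      (∀ i, n ≤ i → F i = 0) → ∀ j, j < n →
      ∑ v with (e v : ℕ) / 2 = j, f v = F (2 * j) + F (2 * j + 1) := by
    intro f F hF hF0 j hj
    rw [← p1_block_sum n j hj F hF0, Finset.sum_filter, ← Fin.sum_univ_eq_sum_range
      (fun i => if i / 2 = j then F i else 0) n]
    rw [← Equiv.sum_comp e]
    refine Finset.sum_congr rfl fun v _ => ?_
    have : F (e v : ℕ) = f v := by rw [hF _ (e v).2]; simp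
    simp [this]
  obtain ⟨D, hD, hD0⟩ := key (dg G)
  have hDnn : ∀ i, 0 ≤ D i := by
    intro i
    by_cases h : i < n
    · rw [hD i h]; exact hdg0 _
    · rw [hD0 i (not_lt.1 h)]
  have hDanti : ∀ i, D (i + 1) ≤ D i := by
    intro i
    by_cases h : i + 1 < n
    · rw [hD _ h, hD i (by omega)]
      unfold dg
      have := he (e.symm ⟨i, by omega⟩) (e.symm ⟨i + 1, h⟩) (by simp [Fin.le_def])
      exact_mod_cast this
    · rw [hD0 (i + 1) (not_lt.1 h)]; exact hDnn i
  -- signs and blocks
  let c : V → Fin n := fun v => ⟨(e v : ℕ) / 2, by have := (e v).2; omega⟩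
  let s : V → ℝ := fun v => if (e v : ℕ) % 2 = 0 then 1 else -1
  have hs : ∀ v, s v = 1 ∨ s v = -1 := by
    intro v; by_cases h : (e v : ℕ) % 2 = 0 <;> simp [s, h]
  have hcj : ∀ j : Fin n, (univ.filter fun v => c v = j) = univ.filter fun v => (e v : ℕ) / 2 = j := by
    intro j; ext v; simp [c, Fin.ext_iff]
  obtain ⟨S, hS, hS0⟩ := key s
  have hSval : ∀ i, i < n → S i = if i % 2 = 0 then 1 else -1 := by
    intro i h; rw [hS i h]; simp [s]
  -- block sums
  have hb : ∀ j : Fin n, ∑ v with c v = j, dg G v * s v = D (2 * j) - D (2 * j + 1) := by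
    intro j
    rw [hcj j, hsum (fun v => dg G v * s v) (fun i => D i * S i) (fun i h => by
      simp only [hD i h, hS i h]) (fun i h => by simp only [hD0 i h, zero_mul]) j j.2]
    have h1 : D (2 * j) * S (2 * j) = D (2 * j) := by
      by_cases h : 2 * (j : ℕ) < n
      · rw [hSval _ h]; simp
      · rw [hD0 _ (not_lt.1 h)]; simp
    have h2 : D (2 * j + 1) * S (2 * j + 1) = -D (2 * j + 1) := by
      by_cases h : 2 * (j : ℕ) + 1 < n
      · rw [hSval _ h, if_neg (by omega)]; ring
      · rw [hD0 _ (not_lt.1 h)]; simp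
    simp only [h1, h2]; ring
  have hsS : ∀ j : Fin n, ∑ v with c v = j, s v = S (2 * j) + S (2 * j + 1) := by
    intro j
    rw [hcj j, hsum s S hS hS0 j j.2]
  have hbnn : ∀ j : Fin n, 0 ≤ D (2 * j) - D (2 * j + 1) := fun j => sub_nonneg.2 (hDanti _)
  -- the block containing the last vertex
  let i0 : Fin n := ⟨(n - 1) / 2, by omega⟩
  have hblock : (∀ j : Fin n, D (2 * j) - D (2 * j + 1) ≤ (∑ v, dg G v) / (2 * K)) →
      GoodB G K := by
    intro hall
    refine block_lemma G c s hs i0 ?_ ?_ K hKpos.le ?_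
    · intro j hj
      rw [hsS j]
      have hj' : (j : ℕ) ≠ (n - 1) / 2 := fun h => hj (Fin.ext h)
      by_cases h : 2 * (j : ℕ) + 1 < n
      · rw [hSval _ h, hSval _ (by omega), if_pos (by omega), if_neg (by omega)]; ring
      · rw [hS0 (2 * j + 1) (not_lt.1 h), hS0 (2 * j) (by omega)]; ring
    · rw [hsS i0]
      by_cases h : 2 * (i0 : ℕ) + 1 < n
      · rw [hSval _ h, hSval _ (by omega), if_pos (by omega), if_neg (by omega)]; norm_num
      · rw [hS0 (2 * i0 + 1) (not_lt.1 h)]
        by_cases h' : 2 * (i0 : ℕ) < n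
        · rw [hSval _ h', if_pos (by omega)]; norm_num
        · rw [hS0 _ (not_lt.1 h')]; norm_num
    · have hneg : (∑ u, ∑ v, if G.Adj u v ∧ c u = c v then s u * s v else 0) ≤ 0 := by
        refine Finset.sum_nonpos fun u _ => Finset.sum_nonpos fun v _ => ?_
        split_ifs with h
        · obtain ⟨h1, h2⟩ := h
          have h3 : (e u : ℕ) ≠ e v := fun h => h1.ne (e.injective (Fin.ext h))
          have h4 : (e u : ℕ) / 2 = (e v : ℕ) / 2 := by simpa [c, Fin.ext_iff] using h2
          simp only [s]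
          by_cases h5 : (e u : ℕ) % 2 = 0
          · rw [if_pos h5, if_neg (by omega)]; norm_num
          · rw [if_neg h5, if_pos (by omega)]; norm_num
        · exact le_rfl
      have hrad : rad (fun i => ∑ v with c v = i, dg G v * s v) ≤ (∑ v, dg G v) / (2 * K) := by
        apply rad_le_max
        · intro j
          rw [hb j, abs_of_nonneg (hbnn j)]
          exact hall j
        · have h1 : ∀ j : Fin n, |∑ v with c v = j, dg G v * s v|
              ≤ D (2 * j) - D (2 * (j + 1)) := by
            intro j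
            rw [hb j, abs_of_nonneg (hbnn j)]
            have := hDanti (2 * j + 1)
            rw [show 2 * ((j : ℕ) + 1) = 2 * j + 1 + 1 by ring]
            linarith
          calc ∑ j : Fin n, |∑ v with c v = j, dg G v * s v|
              ≤ ∑ j : Fin n, (D (2 * j) - D (2 * (j + 1))) := Finset.sum_le_sum fun j _ => h1 j
            _ = ∑ j ∈ range n, (D (2 * j) - D (2 * (j + 1))) :=
                Fin.sum_univ_eq_sum_range (fun j => D (2 * j) - D (2 * (j + 1))) n
            _ = D (2 * 0) - D (2 * n) := Finset.sum_range_sub' (fun j => D (2 * j)) n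
            _ ≤ D 0 := by simpa using hDnn (2 * n)
            _ ≤ 2 * ((∑ v, dg G v) / (2 * K)) := by
                rw [hD 0 hnpos]
                have := p1_max G K hdeg (e.symm ⟨0, hnpos⟩)
                rw [show 2 * ((∑ v, dg G v) / (2 * (K : ℝ))) = (∑ v, dg G v) / K by
                  field_simp, le_div_iff₀ hKpos]
                linarith
      have h2 : (K : ℝ) * (2 * ((∑ v, dg G v) / (2 * K))) = ∑ v, dg G v := by field_simp
      calc _ ≤ (K : ℝ) * (0 + 2 * ((∑ v, dg G v) / (2 * K))) := by gcongr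
        _ = _ := by rw [zero_add, h2]
  have hex : ∃ j : Fin n, (∑ v, dg G v) / (2 * K) < D (2 * j) - D (2 * j + 1) := by
    by_contra hcon
    push Not at hcon
    exact hno (hblock hcon)
  obtain ⟨j, hj⟩ := hex
  have hsum0 : 0 ≤ ∑ v, dg G v := Finset.sum_nonneg fun v _ => hdg0 v
  have hj2 : ∑ v, dg G v < 2 * K * (D (2 * j) - D (2 * j + 1)) := by
    rw [div_lt_iff₀ (by positivity)] at hj
    linarith
  have h2j : 2 * (j : ℕ) < n := by
    by_contra h
    rw [hD0 _ (not_lt.1 h), hD0 _ (by omega)] at hj2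
    simp at hj2
    linarith
  by_cases h : 2 * (j : ℕ) + 1 < n
  · left
    refine ⟨univ.filter fun v => (e v : ℕ) ≤ 2 * j, e.symm ⟨2 * j, h2j⟩, e.symm ⟨2 * j + 1, h⟩,
      ?_, by simp, by simp, ?_, ?_, ?_⟩
    · have : (univ.filter fun v => (e v : ℕ) ≤ 2 * j).card = 2 * j + 1 := by
        rw [← Finset.card_range (2 * (j : ℕ) + 1)]
        refine Finset.card_bij (fun v _ => (e v : ℕ)) ?_ ?_ ?_
        · intro v hv; simp at hv ⊢; omega
        · intro u _ v _ huv; exact e.injective (Fin.ext huv)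
        · intro i hi
          simp only [mem_range] at hi
          exact ⟨e.symm ⟨i, by omega⟩, by simp; omega, by simp⟩
      rw [this]; exact ⟨j, rfl⟩
    · intro v hv
      simp only [mem_filter, mem_univ, true_and] at hv
      exact he v _ (by simp [Fin.le_def]; omega)
    · intro w hw
      simp only [mem_filter, mem_univ, true_and, not_le] at hw
      exact he _ w (by simp [Fin.le_def]; omega)
    · rw [← hD _ h2j, ← hD _ h]
      exact hj2
  · right
    have hn' : n = 2 * j + 1 := by omega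
    refine ⟨⟨j, hn'⟩, fun v => ?_⟩
    rw [hD0 (2 * j + 1) (by omega), sub_zero, hD _ h2j] at hj2
    refine lt_of_lt_of_le hj2 ?_
    have : dg G (e.symm ⟨2 * j, h2j⟩) ≤ dg G v := by
      unfold dg
      have := he v (e.symm ⟨2 * j, h2j⟩) (by
        simp only [Equiv.apply_symm_apply, Fin.le_def]
        have := (e v).2
        omega)
      exact_mod_cast this
    gcongr

end

end Pool.Agent.Bis
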