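import Mathlib
import Pool.Agent.Bis.Defs
import Pool.Agent.Bis.Rad
import Pool.Agent.Bis.Block

/-!
# Pairings with one special block, and tie pairs
-/

set_option linter.unusedSectionVars false
set_option linter.unusedVariables false

namespace Pool.Agent.Bis
open Finset

section
variable {V : Type} [Fintype V] [DecidableEq V] (G : SimpleGraph V) [DecidableRel G.Adj]

/-- representative of the pair of `v` -/
noncomputable def Pair_rep (π : V → V) (v : V) : V :=
  if Fintype.equivFin V v ≤ Fintype.equivFin V (π v) then v else π v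

lemma Pair_rep_or (π : V → V) (v : V) : Pair_rep π v = v ∨ Pair_rep π v = π v := by
  unfold Pair_rep
  split_ifs
  · exact Or.inl rfl
  · exact Or.inr rfl

lemma Pair_rep_pi {U : Finset V} {π : V → V} (hπ : IsPairing U π) {v : V} (hv : v ∈ U) :
    Pair_rep π (π v) = Pair_rep π v := by
  obtain ⟨h1, h2, h3⟩ := hπ v hv
  unfold Pair_rep
  rw [h3]
  have hne : Fintype.equivFin V v ≠ Fintype.equivFin V (π v) := fun h =>
    h2 ((Fintype.equivFin V).injective h).symm
  split_ifs with h4 h5 h5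
  · exact absurd (le_antisymm h5 h4) hne
  · rfl
  · rfl
  · exact absurd (le_total _ _) (by tauto)

lemma Pair_rep_eq {U : Finset V} {π : V → V} (hπ : IsPairing U π) {u v : V} (hu : u ∈ U)
    (hv : v ∈ U) (h : Pair_rep π u = Pair_rep π v) : v = u ∨ v = π u := by
  obtain ⟨_, _, hu3⟩ := hπ u hu
  obtain ⟨_, _, hv3⟩ := hπ v hv
  rcases Pair_rep_or π u with h1 | h1 <;> rcases Pair_rep_or π v with h2 | h2 <;>
    rw [h1, h2] at h
  · exact Or.inl h.symm
  · right
    rw [h, hv3]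
  · exact Or.inr h.symm
  · left
    have := congrArg π h
    rw [hu3, hv3] at this
    exact this.symm

/-- core sign -/
noncomputable def Pair_s0 (SP : Finset V) (sp : V → ℝ) (π : V → V) (v : V) : ℝ :=
  if v ∈ SP then sp v else if Pair_rep π v = v then 1 else -1

lemma Pair_s0_pi {SP : Finset V} {sp : V → ℝ} {π : V → V} (hπ : IsPairing SPᶜ π) {v : V}
    (hv : v ∈ SPᶜ) : Pair_s0 SP sp π (π v) = - Pair_s0 SP sp π v := by
  obtain ⟨h1, h2, h3⟩ := hπ v hv
  have hv' : v ∉ SP := by simpa using hv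
  have h1' : π v ∉ SP := by simpa using h1
  unfold Pair_s0
  rw [if_neg hv', if_neg h1', Pair_rep_pi hπ hv]
  rcases Pair_rep_or π v with h4 | h4
  · rw [h4, if_pos rfl, if_neg (Ne.symm h2)]
  · rw [h4, if_pos rfl, if_neg h2]; ring

lemma Pair_s0_cases {SP : Finset V} {sp : V → ℝ} {π : V → V}
    (hsp : ∀ v ∈ SP, sp v = 1 ∨ sp v = -1) (v : V) :
    Pair_s0 SP sp π v = 1 ∨ Pair_s0 SP sp π v = -1 := by
  unfold Pair_s0
  split_ifs with h1 h2
  · exact hsp v h1
  · exact Or.inl rfl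
  · exact Or.inr rfl

/-- block map -/
noncomputable def Pair_c (SP Lt : Finset V) (π : V → V) (t : V → Option V) (v : V) : Option V :=
  if v ∈ SP then none else if v ∈ Lt then t (Pair_rep π v) else some (Pair_rep π v)

/-- interaction of `v` with its block -/
noncomputable def Pair_J (SP Lt : Finset V) (sp : V → ℝ) (π : V → V) (t : V → Option V)
    (v : V) : ℝ :=
  ∑ u ∈ Ltᶜ, if G.Adj v u ∧ Pair_c SP Lt π t v = Pair_c SP Lt π t u then Pair_s0 SP sp π u else 0

/-- the final signs -/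
noncomputable def Pair_s (SP Lt : Finset V) (sp : V → ℝ) (π : V → V) (t : V → Option V)
    (v : V) : ℝ :=
  if v ∈ Lt then
    (if 0 < Pair_J G SP Lt sp π t v - Pair_J G SP Lt sp π t (π v) then -1 else 1)
  else Pair_s0 SP sp π v

lemma Pair_anti_sum {F : Finset V} {π : V → V} (hF : ∀ v ∈ F, π v ∈ F ∧ π v ≠ v ∧ π (π v) = v)
    (f : V → ℝ) (hf : ∀ v ∈ F, f (π v) = - f v) : ∑ v ∈ F, f v = 0 := by
  refine Finset.sum_involution (fun v _ => π v) ?_ ?_ ?_ ?_
  · intro v hv; rw [hf v hv]; ring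
  · intro v hv _; exact (hF v hv).2.1
  · intro v hv; exact (hF v hv).1
  · intro v hv; exact (hF v hv).2.2

lemma Pair_reindex {F : Finset V} {π : V → V} (hF : ∀ v ∈ F, π v ∈ F ∧ π v ≠ v ∧ π (π v) = v)
    (f : V → ℝ) : ∑ v ∈ F, f (π v) = ∑ v ∈ F, f v := by
  refine Finset.sum_nbij' π π ?_ ?_ ?_ ?_ ?_
  · intro v hv; exact (hF v hv).1
  · intro v hv; exact (hF v hv).1
  · intro v hv; exact (hF v hv).2.2
  · intro v hv; exact (hF v hv).2.2
  · intro v _; rfl

lemma Pair_J_int (SP Lt : Finset V) (sp : V → ℝ) (π : V → V) (t : V → Option V)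
    (hsp : ∀ v ∈ SP, sp v = 1 ∨ sp v = -1) (v : V) : ∃ k : ℤ, Pair_J G SP Lt sp π t v = k := by
  have h1 : ∀ u, ∃ k : ℤ, (if G.Adj v u ∧ Pair_c SP Lt π t v = Pair_c SP Lt π t u then
      Pair_s0 SP sp π u else 0) = k := by
    intro u
    split_ifs
    · rcases Pair_s0_cases (π := π) hsp u with h | h
      · exact ⟨1, by rw [h]; simp⟩
      · exact ⟨-1, by rw [h]; simp⟩
    · exact ⟨0, by simp⟩
  choose k hk using h1
  refine ⟨∑ u ∈ Ltᶜ, k u, ?_⟩
  unfold Pair_J
  push_cast
  exact Finset.sum_congr rfl fun u _ => hk u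

/-- The general construction: a special block, pairs, and tie pairs merged into other blocks. -/
lemma Pair_general (SP : Finset V) (sp : V → ℝ) (hsp : ∀ v ∈ SP, sp v = 1 ∨ sp v = -1)
    (π : V → V) (hπ : IsPairing SPᶜ π)
    (Lt : Finset V) (hLt : Lt ⊆ SPᶜ) (hLtπ : ∀ v ∈ Lt, π v ∈ Lt)
    (hind : ∀ u ∈ Lt, ∀ v ∈ Lt, ¬ G.Adj u v) (hdeg : ∀ v ∈ Lt, dg G (π v) = dg G v)
    (htie : ∀ v ∈ Lt,
      ((∑ u ∈ SP, if G.Adj v u then sp u else 0) ≠ ∑ u ∈ SP, if G.Adj (π v) u then sp u else 0) ∨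
      ∃ y ∈ SPᶜ \ Lt, ((if G.Adj v y then (1:ℝ) else 0) - (if G.Adj v (π y) then 1 else 0)) ≠
        ((if G.Adj (π v) y then (1:ℝ) else 0) - (if G.Adj (π v) (π y) then 1 else 0))) :
    ∃ (c : V → Option V) (s : V → ℝ), (∀ v, s v = 1 ∨ s v = -1) ∧
      (∀ i, i ≠ none → ∑ v with c v = i, s v = 0) ∧
      (∑ v with c v = none, s v = ∑ v ∈ SP, sp v) ∧
      (∑ v with c v = none, dg G v * s v = ∑ v ∈ SP, dg G v * sp v) ∧
      (∑ i ∈ univ.erase (none : Option V), (∑ v with c v = i, dg G v * s v) ^ 2 = gap2 G SPᶜ π) ∧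
      ((∑ u, ∑ v, if G.Adj u v ∧ c u = c v then s u * s v else 0) ≤
        (∑ u ∈ SP, ∑ v ∈ SP, if G.Adj u v then sp u * sp v else 0) - adjc G SPᶜ π -
          (Lt.card : ℝ)) := by
  -- choose the target blocks
  have hex : ∀ v, ∃ b : Option V, v ∈ Lt →
      (b = none ∧ ((∑ u ∈ SP, if G.Adj v u then sp u else 0) ≠
        ∑ u ∈ SP, if G.Adj (π v) u then sp u else 0)) ∨
      (∃ y ∈ SPᶜ \ Lt, b = some (Pair_rep π y) ∧
        ((if G.Adj v y then (1:ℝ) else 0) - (if G.Adj v (π y) then 1 else 0)) ≠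
        ((if G.Adj (π v) y then (1:ℝ) else 0) - (if G.Adj (π v) (π y) then 1 else 0))) := by
    intro v
    by_cases hv : v ∈ Lt
    · rcases htie v hv with h | ⟨y, hy, h⟩
      · exact ⟨none, fun _ => Or.inl ⟨rfl, h⟩⟩
      · exact ⟨some (Pair_rep π y), fun _ => Or.inr ⟨y, hy, rfl, h⟩⟩
    · exact ⟨none, fun h => absurd h hv⟩
  choose t ht using hex
  set c := Pair_c SP Lt π t with hc
  set s := Pair_s G SP Lt sp π t with hs
  set s0 := Pair_s0 SP sp π with hs0
  set J := Pair_J G SP Lt sp π t with hJ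
  have hnSP : ∀ v ∈ SPᶜ, v ∉ SP := fun v hv => by simpa using hv
  have hLtSP : ∀ v ∈ Lt, v ∉ SP := fun v hv => hnSP v (hLt hv)
  have hLtπ' : ∀ v ∈ SPᶜ, v ∉ Lt → π v ∉ Lt := by
    intro v hv hvL hpL
    have := hLtπ _ hpL
    rw [(hπ v hv).2.2] at this
    exact hvL this
  have cSP : ∀ v ∈ SP, c v = none := by
    intro v hv; rw [hc]; unfold Pair_c; rw [if_pos hv]
  have cLt : ∀ v ∈ Lt, c v = t (Pair_rep π v) := by
    intro v hv; rw [hc]; unfold Pair_c; rw [if_neg (hLtSP v hv), if_pos hv]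
  have cR : ∀ v ∈ SPᶜ \ Lt, c v = some (Pair_rep π v) := by
    intro v hv
    rw [Finset.mem_sdiff] at hv
    rw [hc]; unfold Pair_c; rw [if_neg (hnSP v hv.1), if_neg hv.2]
  have cπ : ∀ v ∈ SPᶜ, c (π v) = c v := by
    intro v hv
    by_cases hvL : v ∈ Lt
    · rw [cLt v hvL, cLt _ (hLtπ v hvL), Pair_rep_pi hπ hv]
    · rw [cR v (Finset.mem_sdiff.mpr ⟨hv, hvL⟩),
        cR _ (Finset.mem_sdiff.mpr ⟨(hπ v hv).1, hLtπ' v hv hvL⟩), Pair_rep_pi hπ hv]
  have s0cases : ∀ v, s0 v = 1 ∨ s0 v = -1 := fun v => Pair_s0_cases hsp v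
  have s0SP : ∀ v ∈ SP, s0 v = sp v := by
    intro v hv; rw [hs0]; unfold Pair_s0; rw [if_pos hv]
  have s0π : ∀ v ∈ SPᶜ, s0 (π v) = - s0 v := fun v hv => Pair_s0_pi hπ hv
  have sN : ∀ v, v ∉ Lt → s v = s0 v := by
    intro v hv; rw [hs]; unfold Pair_s; rw [if_neg hv]
  -- the interactions
  have Jnone : ∀ v ∈ Lt, c v = none → J v = ∑ u ∈ SP, if G.Adj v u then sp u else 0 := by
    intro v hv hcv
    rw [hJ]
    unfold Pair_J
    rw [← hc, ← hs0]
    have hsub : SP ⊆ Ltᶜ := by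
      intro u hu
      rw [Finset.mem_compl]
      exact fun hL => hLtSP u hL hu
    rw [← Finset.sum_subset hsub]
    · refine Finset.sum_congr rfl fun u hu => ?_
      rw [hcv, cSP u hu, s0SP u hu]
      simp
    · intro u hu huSP
      rw [Finset.mem_compl] at hu
      rw [if_neg]
      rintro ⟨_, h2⟩
      rw [hcv, cR u (by simp [huSP, hu])] at h2
      simp at h2
  have Jsome : ∀ v ∈ Lt, ∀ y ∈ SPᶜ \ Lt, c v = some (Pair_rep π y) →
      J v = s0 y * ((if G.Adj v y then (1:ℝ) else 0) - (if G.Adj v (π y) then 1 else 0)) := by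
    intro v hv y hy hcv
    have hy' := Finset.mem_sdiff.mp hy
    have hyU := hy'.1
    have hπy : π y ∈ SPᶜ \ Lt := Finset.mem_sdiff.mpr ⟨(hπ y hyU).1, hLtπ' y hyU hy'.2⟩
    rw [hJ]
    unfold Pair_J
    rw [← hc, ← hs0]
    have hsub : ({y, π y} : Finset V) ⊆ Ltᶜ := by
      intro u hu
      rw [Finset.mem_insert, Finset.mem_singleton] at hu
      rw [Finset.mem_compl]
      rcases hu with rfl | rfl
      · exact hy'.2
      · exact (Finset.mem_sdiff.mp hπy).2
    rw [← Finset.sum_subset hsub]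
    · rw [Finset.sum_pair (Ne.symm (hπ y hyU).2.1), hcv, cR y hy, cR _ hπy, Pair_rep_pi hπ hyU,
        s0π y hyU]
      simp only [and_true]
      split_ifs <;> ring
    · intro u hu huy
      rw [Finset.mem_compl] at hu
      rw [if_neg]
      rintro ⟨_, h2⟩
      rw [hcv] at h2
      by_cases huSP : u ∈ SP
      · rw [cSP u huSP] at h2
        simp at h2
      · rw [cR u (by simp [huSP, hu])] at h2
        have h3 := Option.some_injective _ h2
        have h4 := Pair_rep_eq hπ hyU (show u ∈ SPᶜ by simpa using huSP) h3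
        apply huy
        rw [Finset.mem_insert, Finset.mem_singleton]
        exact h4
  have Jne : ∀ v ∈ Lt, J v ≠ J (π v) := by
    have hr : ∀ r ∈ Lt, Pair_rep π r = r → J r ≠ J (π r) := by
      intro r hr hrr
      have hrU := hLt hr
      have hcr : c r = t r := by rw [cLt r hr, hrr]
      have hcπ : c (π r) = t r := by rw [cπ r hrU, hcr]
      rcases ht r hr with ⟨h1, h2⟩ | ⟨y, hy, h1, h2⟩
      · rw [Jnone r hr (hcr.trans h1), Jnone _ (hLtπ r hr) (hcπ.trans h1)]
        exact h2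
      · rw [Jsome r hr y hy (hcr.trans h1), Jsome _ (hLtπ r hr) y hy (hcπ.trans h1)]
        intro h3
        apply h2
        have hne : s0 y ≠ 0 := by
          rcases s0cases y with h | h <;> rw [h] <;> norm_num
        exact mul_left_cancel₀ hne h3
    intro v hv
    have hvU := hLt hv
    rcases Pair_rep_or π v with h1 | h1
    · exact hr v hv h1
    · have h2 := hr (π v) (hLtπ v hv) (by rw [Pair_rep_pi hπ hvU, h1])
      rw [(hπ v hvU).2.2] at h2
      exact Ne.symm h2
  have sLt : ∀ v ∈ Lt, s v = if 0 < J v - J (π v) then -1 else 1 := by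
    intro v hv; rw [hs]; unfold Pair_s; rw [if_pos hv]
  have sLtπ : ∀ v ∈ Lt, s (π v) = - s v := by
    intro v hv
    rw [sLt v hv, sLt _ (hLtπ v hv), (hπ v (hLt hv)).2.2]
    have h1 := Jne v hv
    rcases lt_or_gt_of_ne h1 with h2 | h2
    · rw [if_pos (by linarith), if_neg (by linarith)]
    · rw [if_neg (by linarith), if_pos (by linarith)]; ring
  have sπ : ∀ v ∈ SPᶜ, s (π v) = - s v := by
    intro v hv
    by_cases hvL : v ∈ Lt
    · exact sLtπ v hvL
    · rw [sN v hvL, sN _ (hLtπ' v hv hvL), s0π v hv]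
  have sJ : ∀ v ∈ Lt, s v * J v + s (π v) * J (π v) ≤ -1 := by
    intro v hv
    rw [sLtπ v hv, sLt v hv]
    obtain ⟨k1, hk1⟩ := Pair_J_int G SP Lt sp π t hsp v
    obtain ⟨k2, hk2⟩ := Pair_J_int G SP Lt sp π t hsp (π v)
    rw [← hJ] at hk1 hk2
    have h1 := Jne v hv
    rw [hk1, hk2] at h1 ⊢
    have h1' : k1 ≠ k2 := fun h => h1 (by rw [h])
    rcases lt_or_gt_of_ne h1' with h2 | h2
    · have h3 : (k1 : ℝ) + 1 ≤ k2 := by exact_mod_cast h2
      rw [if_neg (by linarith)]
      linarith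
    · have h3 : (k2 : ℝ) + 1 ≤ k1 := by exact_mod_cast h2
      rw [if_pos (by linarith)]
      linarith
  have hLt3 : ∀ v ∈ Lt, π v ∈ Lt ∧ π v ≠ v ∧ π (π v) = v := fun v hv =>
    ⟨hLtπ v hv, (hπ v (hLt hv)).2.1, (hπ v (hLt hv)).2.2⟩
  -- anti-invariant sums over blocks vanish
  have hblock : ∀ (i : Option V) (f : V → ℝ), (∀ v ∈ SPᶜ, c v = i → f (π v) = - f v) →
      ∑ v ∈ SPᶜ.filter (fun v => c v = i), f v = 0 := by
    intro i f hf
    refine Pair_anti_sum (π := π) ?_ f ?_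
    · intro v hv
      rw [Finset.mem_filter] at hv
      obtain ⟨h1, h2, h3⟩ := hπ v hv.1
      exact ⟨Finset.mem_filter.mpr ⟨h1, by rw [cπ v hv.1]; exact hv.2⟩, h2, h3⟩
    · intro v hv
      rw [Finset.mem_filter] at hv
      exact hf v hv.1 hv.2
  have hblockLt : ∀ (i : Option V) (f : V → ℝ), (∀ v ∈ Lt, f (π v) = - f v) →
      ∑ v ∈ Lt.filter (fun v => c v = i), f v = 0 := by
    intro i f hf
    refine Pair_anti_sum (π := π) ?_ f ?_
    · intro v hv
      rw [Finset.mem_filter] at hv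
      obtain ⟨h1, h2, h3⟩ := hLt3 v hv.1
      exact ⟨Finset.mem_filter.mpr ⟨h1, by rw [cπ v (hLt hv.1)]; exact hv.2⟩, h2, h3⟩
    · intro v hv
      rw [Finset.mem_filter] at hv
      exact hf v hv.1
  have hsplitU : ∀ (i : Option V) (f : V → ℝ), ∑ v with c v = i, f v =
      ∑ v ∈ SP.filter (fun v => c v = i), f v + ∑ v ∈ SPᶜ.filter (fun v => c v = i), f v := by
    intro i f
    rw [← Finset.sum_union]
    · congr 1
      ext v
      simp only [Finset.mem_filter, Finset.mem_univ, true_and, Finset.mem_union, Finset.mem_compl]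
      tauto
    · rw [Finset.disjoint_left]
      intro v hv hv'
      simp only [Finset.mem_filter, Finset.mem_compl] at hv hv'
      exact hv'.1 hv.1
  have hSPnone : ∀ f : V → ℝ, ∑ v ∈ SP.filter (fun v => c v = none), f v = ∑ v ∈ SP, f v := by
    intro f
    congr 1
    ext v
    simp only [Finset.mem_filter]
    exact ⟨fun h => h.1, fun h => ⟨h, cSP v h⟩⟩
  have hSPsome : ∀ (i : Option V), i ≠ none → ∀ f : V → ℝ,
      ∑ v ∈ SP.filter (fun v => c v = i), f v = 0 := by
    intro i hi f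
    refine Finset.sum_eq_zero fun v hv => ?_
    rw [Finset.mem_filter] at hv
    rw [cSP v hv.1] at hv
    exact absurd hv.2.symm hi
  -- split the complement into tie vertices and the rest
  have hsplitL : ∀ (i : Option V) (f : V → ℝ), (∀ v ∈ Lt, f (π v) = - f v) →
      ∑ v ∈ SPᶜ.filter (fun v => c v = i), f v =
      ∑ v ∈ (SPᶜ \ Lt).filter (fun v => c v = i), f v := by
    intro i f hf
    have h1 : SPᶜ.filter (fun v => c v = i) =
        Lt.filter (fun v => c v = i) ∪ (SPᶜ \ Lt).filter (fun v => c v = i) := by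
      ext v
      simp only [Finset.mem_filter, Finset.mem_union, Finset.mem_sdiff]
      constructor
      · rintro ⟨h1, h2⟩
        by_cases hvL : v ∈ Lt
        · exact Or.inl ⟨hvL, h2⟩
        · exact Or.inr ⟨⟨h1, hvL⟩, h2⟩
      · rintro (⟨h1, h2⟩ | ⟨⟨h1, _⟩, h2⟩)
        · exact ⟨hLt h1, h2⟩
        · exact ⟨h1, h2⟩
    rw [h1, Finset.sum_union, hblockLt i f hf, zero_add]
    rw [Finset.disjoint_left]
    intro v hv hv'
    simp only [Finset.mem_filter, Finset.mem_sdiff] at hv hv'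
    exact hv'.1.2 hv.1
  have dgs : ∀ v ∈ Lt, dg G (π v) * s (π v) = -(dg G v * s v) := by
    intro v hv; rw [hdeg v hv, sLtπ v hv]; ring
  refine ⟨c, s, ?_, ?_, ?_, ?_, ?_, ?_⟩
  · intro v
    by_cases hvL : v ∈ Lt
    · rw [sLt v hvL]
      split_ifs
      · exact Or.inr rfl
      · exact Or.inl rfl
    · rw [sN v hvL]; exact s0cases v
  · intro i hi
    rw [hsplitU, hSPsome i hi, hblock i s (fun v hv _ => sπ v hv), add_zero]
  · rw [hsplitU, hSPnone, hblock none s (fun v hv _ => sπ v hv), add_zero]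
    refine Finset.sum_congr rfl fun v hv => ?_
    rw [sN v (fun h => hLtSP v h hv), s0SP v hv]
  · rw [hsplitU, hSPnone, hsplitL none _ dgs]
    have : (SPᶜ \ Lt).filter (fun v => c v = none) = ∅ := by
      rw [Finset.filter_eq_empty_iff]
      intro v hv
      rw [cR v hv]
      simp
    rw [this, Finset.sum_empty, add_zero]
    refine Finset.sum_congr rfl fun v hv => ?_
    rw [sN v (fun h => hLtSP v h hv), s0SP v hv]
  · -- squares of the block sums
    have h1 : ∀ i ∈ univ.erase (none : Option V), (∑ v with c v = i, dg G v * s v) ^ 2 =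
        (∑ v ∈ (SPᶜ \ Lt).filter (fun v => c v = i), (dg G v - dg G (π v)) ^ 2) / 2 := by
      intro i hi
      rw [Finset.mem_erase] at hi
      rw [hsplitU, hSPsome i hi.1, zero_add, hsplitL i _ dgs]
      rcases Finset.eq_empty_or_nonempty ((SPᶜ \ Lt).filter (fun v => c v = i)) with h2 | ⟨v, hv⟩
      · rw [h2]; simp
      · rw [Finset.mem_filter] at hv
        have hvU := (Finset.mem_sdiff.mp hv.1).1
        have hvL := (Finset.mem_sdiff.mp hv.1).2
        have hπv : π v ∈ SPᶜ \ Lt := Finset.mem_sdiff.mpr ⟨(hπ v hvU).1, hLtπ' v hvU hvL⟩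
        have hfib : (SPᶜ \ Lt).filter (fun v => c v = i) = {v, π v} := by
          ext u
          rw [Finset.mem_filter, Finset.mem_insert, Finset.mem_singleton]
          constructor
          · rintro ⟨h3, h4⟩
            rw [← hv.2, cR u h3, cR v hv.1] at h4
            exact Pair_rep_eq hπ hvU (Finset.mem_sdiff.mp h3).1 (Option.some_injective _ h4).symm
          · rintro (rfl | rfl)
            · exact hv
            · exact ⟨hπv, by rw [cπ v hvU]; exact hv.2⟩
        rw [hfib, Finset.sum_pair (Ne.symm (hπ v hvU).2.1),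
          Finset.sum_pair (Ne.symm (hπ v hvU).2.1), (hπ v hvU).2.2, sπ v hvU]
        have h5 : s v * s v = 1 := by
          rw [sN v hvL]
          rcases s0cases v with h | h <;> rw [h] <;> norm_num
        linear_combination ((dg G v - dg G (π v)) ^ 2) * h5
    rw [Finset.sum_congr rfl h1, ← Finset.sum_div]
    have h2 : ∑ i ∈ univ.erase (none : Option V),
        ∑ v ∈ (SPᶜ \ Lt).filter (fun v => c v = i), (dg G v - dg G (π v)) ^ 2 =
        ∑ v ∈ SPᶜ \ Lt, (dg G v - dg G (π v)) ^ 2 := by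
      rw [← Finset.sum_fiberwise (s := SPᶜ \ Lt) (g := c)
        (f := fun v => (dg G v - dg G (π v)) ^ 2), ← Finset.add_sum_erase _ _
          (Finset.mem_univ (none : Option V))]
      have : (SPᶜ \ Lt).filter (fun v => c v = none) = ∅ := by
        rw [Finset.filter_eq_empty_iff]
        intro v hv
        rw [cR v hv]
        simp
      rw [this, Finset.sum_empty, zero_add]
    have h3 : ∑ v ∈ SPᶜ, (dg G v - dg G (π v)) ^ 2 =
        ∑ v ∈ SPᶜ \ Lt, (dg G v - dg G (π v)) ^ 2 := by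
      rw [← Finset.sum_sdiff hLt]
      have : ∑ v ∈ Lt, (dg G v - dg G (π v)) ^ 2 = 0 :=
        Finset.sum_eq_zero fun v hv => by rw [hdeg v hv]; ring
      rw [this, add_zero]
    rw [h2]
    unfold gap2
    rw [h3]
  · -- the double sum
    set F : V → V → ℝ := fun u v => if G.Adj u v ∧ c u = c v then s u * s v else 0 with hF
    have hFsymm : ∀ u v, F u v = F v u := by
      intro u v
      rw [hF]
      simp only [G.adj_comm u v, eq_comm (a := c u)]
      split_ifs
      · ring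
      · rfl
    have hsplit : ∀ f : V → ℝ, ∑ v, f v = ∑ v ∈ Lt, f v + ∑ v ∈ Ltᶜ, f v := by
      intro f
      exact (Finset.sum_add_sum_compl Lt f).symm
    have e1 : ∑ u, ∑ v, F u v = ∑ u ∈ Lt, ∑ v ∈ Lt, F u v + ∑ u ∈ Lt, ∑ v ∈ Ltᶜ, F u v +
        (∑ u ∈ Ltᶜ, ∑ v ∈ Lt, F u v + ∑ u ∈ Ltᶜ, ∑ v ∈ Ltᶜ, F u v) := by
      rw [hsplit, ← Finset.sum_add_distrib, ← Finset.sum_add_distrib]
      congr 1
      · exact Finset.sum_congr rfl fun u _ => hsplit _
      · exact Finset.sum_congr rfl fun u _ => hsplit _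
    have e2 : ∑ u ∈ Lt, ∑ v ∈ Lt, F u v = 0 := by
      refine Finset.sum_eq_zero fun u hu => Finset.sum_eq_zero fun v hv => ?_
      rw [hF]
      simp only
      rw [if_neg (fun h => hind u hu v hv h.1)]
    have e3 : ∑ u ∈ Ltᶜ, ∑ v ∈ Lt, F u v = ∑ u ∈ Lt, ∑ v ∈ Ltᶜ, F u v := by
      rw [Finset.sum_comm]
      exact Finset.sum_congr rfl fun u _ => Finset.sum_congr rfl fun v _ => hFsymm _ _
    have e4 : ∑ u ∈ Lt, ∑ v ∈ Ltᶜ, F u v = ∑ u ∈ Lt, s u * J u := by
      refine Finset.sum_congr rfl fun u hu => ?_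
      rw [hJ]
      unfold Pair_J
      rw [← hc, ← hs0, Finset.mul_sum]
      refine Finset.sum_congr rfl fun v hv => ?_
      rw [Finset.mem_compl] at hv
      rw [hF]
      simp only
      rw [sN v hv]
      split_ifs
      · rfl
      · rw [mul_zero]
    have e5 : 2 * ∑ u ∈ Lt, s u * J u ≤ -(Lt.card : ℝ) := by
      have h1 := Pair_reindex hLt3 (fun u => s u * J u)
      have h2 : 2 * ∑ u ∈ Lt, s u * J u = ∑ u ∈ Lt, (s u * J u + s (π u) * J (π u)) := by
        rw [Finset.sum_add_distrib, h1]; ring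
      rw [h2]
      calc _ ≤ ∑ u ∈ Lt, (-1 : ℝ) := Finset.sum_le_sum fun u hu => sJ u hu
        _ = _ := by rw [Finset.sum_const, nsmul_eq_mul]; ring
    have e6 : ∑ u ∈ Ltᶜ, ∑ v ∈ Ltᶜ, F u v =
        (∑ u ∈ SP, ∑ v ∈ SP, if G.Adj u v then sp u * sp v else 0) - adjc G SPᶜ π := by
      have hLtc : Ltᶜ = SP ∪ (SPᶜ \ Lt) := by
        ext v
        simp only [Finset.mem_compl, Finset.mem_union, Finset.mem_sdiff]
        constructor
        · intro h; by_cases hv : v ∈ SP
          · exact Or.inl hv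
          · exact Or.inr ⟨hv, h⟩
        · rintro (h | ⟨_, h⟩)
          · exact fun h' => hLtSP v h' h
          · exact h
      have hdis : Disjoint SP (SPᶜ \ Lt) := by
        rw [Finset.disjoint_left]
        intro v hv hv'
        simp only [Finset.mem_sdiff, Finset.mem_compl] at hv'
        exact hv'.1 hv
      have g1 : ∀ u ∈ SP, ∑ v ∈ Ltᶜ, F u v = ∑ v ∈ SP, if G.Adj u v then sp u * sp v else 0 := by
        intro u hu
        rw [hLtc, Finset.sum_union hdis]
        have z1 : ∑ v ∈ SPᶜ \ Lt, F u v = 0 := by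
          refine Finset.sum_eq_zero fun v hv => ?_
          rw [hF]
          simp only
          rw [if_neg]
          rintro ⟨_, h2⟩
          rw [cSP u hu, cR v hv] at h2
          simp at h2
        rw [z1, add_zero]
        refine Finset.sum_congr rfl fun v hv => ?_
        rw [hF]
        simp only
        rw [cSP u hu, cSP v hv, sN u (fun h => hLtSP u h hu), sN v (fun h => hLtSP v h hv),
          s0SP u hu, s0SP v hv]
        simp
      have g2 : ∀ u ∈ SPᶜ \ Lt, ∑ v ∈ Ltᶜ, F u v = if G.Adj u (π u) then -1 else 0 := by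
        intro u hu
        have huU := (Finset.mem_sdiff.mp hu).1
        have huL := (Finset.mem_sdiff.mp hu).2
        have hπL : π u ∉ Lt := hLtπ' u huU huL
        rw [Finset.sum_eq_single (π u)]
        · rw [hF]
          simp only
          rw [cπ u huU, sπ u huU]
          have h5 : s u * s u = 1 := by
            rw [sN u huL]
            rcases s0cases u with h | h <;> rw [h] <;> norm_num
          simp only [and_true]
          split_ifs
          · linarith
          · rfl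
        · intro v hv hvπ
          rw [Finset.mem_compl] at hv
          rw [hF]
          simp only
          rw [if_neg]
          rintro ⟨h1, h2⟩
          by_cases hvSP : v ∈ SP
          · rw [cSP v hvSP, cR u hu] at h2
            simp at h2
          · have hvU : v ∈ SPᶜ := by simpa using hvSP
            rw [cR u hu, cR v (Finset.mem_sdiff.mpr ⟨hvU, hv⟩)] at h2
            rcases Pair_rep_eq hπ huU hvU (Option.some_injective _ h2) with h3 | h3
            · rw [h3] at h1; exact G.irrefl h1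
            · exact hvπ h3
        · intro h; exact absurd (Finset.mem_compl.mpr hπL) h
      have g3 : (adjc G SPᶜ π : ℝ) = ∑ u ∈ SPᶜ \ Lt, if G.Adj u (π u) then (1 : ℝ) else 0 := by
        unfold adjc
        rw [Finset.card_filter]
        push_cast
        rw [← Finset.sum_sdiff hLt]
        have : ∑ u ∈ Lt, (if G.Adj u (π u) then (1 : ℝ) else 0) = 0 := by
          refine Finset.sum_eq_zero fun u hu => ?_
          rw [if_neg (hind u hu _ (hLtπ u hu))]
        rw [this, add_zero]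
      have g0 : ∀ f : V → ℝ, ∑ u ∈ Ltᶜ, f u = ∑ u ∈ SP, f u + ∑ u ∈ SPᶜ \ Lt, f u := by
        intro f; rw [hLtc, Finset.sum_union hdis]
      rw [g0, Finset.sum_congr rfl g1, Finset.sum_congr rfl g2, g3]
      have g4 : ∑ u ∈ SPᶜ \ Lt, (if G.Adj u (π u) then (-1 : ℝ) else 0) =
          - ∑ u ∈ SPᶜ \ Lt, (if G.Adj u (π u) then (1 : ℝ) else 0) := by
        rw [← Finset.sum_neg_distrib]
        refine Finset.sum_congr rfl fun u _ => ?_
        split_ifs <;> ring
      rw [g4]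
      ring
    rw [e1, e2, e3, e4, e6]
    linarith

theorem pair_sqrt (SP : Finset V) (sp : V → ℝ) (hsp : ∀ v ∈ SP, sp v = 1 ∨ sp v = -1)
    (hsum : |∑ v ∈ SP, sp v| ≤ 1) (π : V → V) (hπ : IsPairing SPᶜ π) (K : ℝ) (hK : 0 ≤ K)
    (h : K * ((∑ u ∈ SP, ∑ v ∈ SP, if G.Adj u v then sp u * sp v else 0) - adjc G SPᶜ π +
      2 * √((∑ v ∈ SP, dg G v * sp v) ^ 2 + gap2 G SPᶜ π)) ≤ ∑ v, dg G v) :
    GoodB G K := by
  obtain ⟨c, s, h1, h2, h3, h4, h5, h6⟩ := Pair_general G SP sp hsp π hπ ∅ (by simp)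
    (by intro v hv; simp at hv) (by intro v hv; simp at hv) (by intro v hv; simp at hv)
    (by intro v hv; simp at hv)
  refine block_lemma G c s h1 none h2 (by rw [h3]; exact hsum) K hK (le_trans ?_ h)
  have h7 := rad_le_sqrt (fun i : Option V => ∑ v with c v = i, dg G v * s v)
  rw [← Finset.add_sum_erase _ _ (Finset.mem_univ (none : Option V)), h4, h5] at h7
  simp only [Finset.card_empty, Nat.cast_zero, sub_zero] at h6
  refine mul_le_mul_of_nonneg_left ?_ hK
  linarith

theorem tie_lemma (SP : Finset V) (sp : V → ℝ) (hsp : ∀ v ∈ SP, sp v = 1 ∨ sp v = -1)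
    (hsum : |∑ v ∈ SP, sp v| ≤ 1) (π : V → V) (hπ : IsPairing SPᶜ π)
    (Lt : Finset V) (hLt : Lt ⊆ SPᶜ) (hLtπ : ∀ v ∈ Lt, π v ∈ Lt)
    (hind : ∀ u ∈ Lt, ∀ v ∈ Lt, ¬ G.Adj u v) (hdeg : ∀ v ∈ Lt, dg G (π v) = dg G v)
    (htie : ∀ v ∈ Lt,
      ((∑ u ∈ SP, if G.Adj v u then sp u else 0) ≠ ∑ u ∈ SP, if G.Adj (π v) u then sp u else 0) ∨
      ∃ y ∈ SPᶜ \ Lt, ((if G.Adj v y then (1:ℝ) else 0) - (if G.Adj v (π y) then 1 else 0)) ≠
        ((if G.Adj (π v) y then (1:ℝ) else 0) - (if G.Adj (π v) (π y) then 1 else 0)))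
    (c : ℝ) (hc : 0 < c) (hcD : |∑ v ∈ SP, dg G v * sp v| ≤ c)
    (K : ℝ) (hK : 0 ≤ K)
    (h : K * ((∑ u ∈ SP, ∑ v ∈ SP, if G.Adj u v then sp u * sp v else 0) - adjc G SPᶜ π -
      (Lt.card : ℝ) + 2 * (c + gap2 G SPᶜ π / (4 * c))) ≤ ∑ v, dg G v) :
    GoodB G K := by
  obtain ⟨b, s, h1, h2, h3, h4, h5, h6⟩ := Pair_general G SP sp hsp π hπ Lt hLt hLtπ hind hdeg
    htie
  refine block_lemma G b s h1 none h2 (by rw [h3]; exact hsum) K hK (le_trans ?_ h)
  have h7 := rad_le_center (fun i : Option V => ∑ v with b v = i, dg G v * s v) none c hc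
    (by rw [h4]; exact hcD)
  rw [h5] at h7
  refine mul_le_mul_of_nonneg_left ?_ hK
  linarith

end

end Pool.Agent.Bis
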