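import Pool.Agent.Bis.HubDefs
import Pool.Agent.Bis.Npm
import Pool.Agent.Bis.Pair
import Pool.Agent.Bis.Frac

/-!
# Judicious bisections: large minimum degree, graph part
-/

namespace Pool.Agent.Bis
open Finset

section
variable {V : Type} [Fintype V] [DecidableEq V] (G : SimpleGraph V) [DecidableRel G.Adj]

/-- the number of non-neighbours -/
private lemma p4g_nonadj (v : V) :
    ∑ u, (if u ≠ v ∧ ¬ G.Adj u v then (1 : ℝ) else 0) = (Fintype.card V : ℝ) - 1 - dg G v := by
  have h1 : ∀ u : V, (if u ≠ v ∧ ¬ G.Adj u v then (1 : ℝ) else 0) =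
      1 - (if u = v then 1 else 0) - (if G.Adj v u then 1 else 0) := by
    intro u
    by_cases huv : u = v
    · subst huv; simp
    · by_cases ha : G.Adj u v
      · simp [huv, ha, ha.symm]
      · have ha' : ¬ G.Adj v u := fun h => ha h.symm
        simp [huv, ha, ha']
  rw [Finset.sum_congr rfl fun u _ => h1 u, Finset.sum_sub_distrib, Finset.sum_sub_distrib]
  have h2 : ∑ u, (if G.Adj v u then (1 : ℝ) else 0) = dg G v := by
    rw [Finset.sum_boole]
    unfold dg
    rw [← G.card_neighborFinset_eq_degree]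
    congr 1
    congr 1
    ext u
    simp
  rw [h2]
  simp

/-- the adjacency form through the complement -/
private lemma p4g_BF (y : V → ℝ) :
    BF G y y = (∑ v, y v) ^ 2 - ∑ v, y v ^ 2 -
      ∑ u, ∑ v, (if v ≠ u ∧ ¬ G.Adj v u then (1 : ℝ) else 0) * (y u * y v) := by
  have h1 : (∑ v, y v) ^ 2 = ∑ u, ∑ v, y u * y v := by
    rw [sq, Finset.sum_mul_sum]
  have h2 : ∑ v, y v ^ 2 = ∑ u, ∑ v, (if v = u then y u * y v else 0) := by
    refine Finset.sum_congr rfl fun u _ => ?_
    rw [Finset.sum_ite_eq' univ u]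
    simp [sq]
  rw [h1, h2]
  unfold BF
  rw [← Finset.sum_sub_distrib, ← Finset.sum_sub_distrib]
  refine Finset.sum_congr rfl fun u _ => ?_
  rw [← Finset.sum_sub_distrib, ← Finset.sum_sub_distrib]
  refine Finset.sum_congr rfl fun v _ => ?_
  by_cases huv : v = u
  · subst huv; simp
  · by_cases ha : G.Adj v u
    · simp [huv, ha, ha.symm]
    · have ha' : ¬ G.Adj u v := fun h => ha h.symm
      simp [huv, ha, ha']

/-- the bound for the form: `y = y' - 1_w` with `y' w = 0` -/
private lemma p4g_BF_le (y' : V → ℝ) (w : V) (z b : ℝ) (hw : y' w = 0) (hsum : ∑ v, y' v = 2)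
    (hz : ∀ v, (Fintype.card V : ℝ) - 1 - dg G v ≤ z) (hb : ∀ v, v ≠ w → y' v ≤ b) :
    BF G (fun v => y' v - if v = w then 1 else 0) (fun v => y' v - if v = w then 1 else 0) ≤
      2 * ((Fintype.card V : ℝ) - 1 - dg G w) * b + (z - 1) * ∑ v, y' v ^ 2 := by
  set A : V → V → ℝ := fun u v => if v ≠ u ∧ ¬ G.Adj v u then (1 : ℝ) else 0 with hA
  have hAs : ∀ u v, A u v = A v u := by
    intro u v
    simp only [hA]
    congr 1
    rw [ne_comm, G.adj_comm]
  have hAw : A w w = 0 := by simp [hA]
  have hA0 : ∀ u v, 0 ≤ A u v := by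
    intro u v
    simp only [hA]
    split_ifs <;> norm_num
  have hAsum : ∀ u, ∑ v, A u v = (Fintype.card V : ℝ) - 1 - dg G u := fun u => p4g_nonadj G u
  have hs1 : ∑ v, (y' v - if v = w then (1 : ℝ) else 0) = 1 := by
    rw [Finset.sum_sub_distrib, hsum]
    simp
    norm_num
  have hs2 : ∑ v, (y' v - if v = w then (1 : ℝ) else 0) ^ 2 = ∑ v, y' v ^ 2 + 1 := by
    have : ∀ v, (y' v - if v = w then (1 : ℝ) else 0) ^ 2 = y' v ^ 2 + if v = w then 1 else 0 := by
      intro v
      by_cases hv : v = w
      · subst hv; simp [hw]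
      · simp [hv]
    rw [Finset.sum_congr rfl fun v _ => this v, Finset.sum_add_distrib]
    simp
  have hs3 : ∑ u, ∑ v, A u v * ((y' u - if u = w then (1 : ℝ) else 0) *
      (y' v - if v = w then (1 : ℝ) else 0)) =
      ∑ u, ∑ v, A u v * (y' u * y' v) - 2 * ∑ v, A w v * y' v := by
    have h1 : ∀ u v, A u v * ((y' u - if u = w then (1 : ℝ) else 0) *
      (y' v - if v = w then (1 : ℝ) else 0)) = A u v * (y' u * y' v)
        - (if v = w then A u v * y' u else 0) - (if u = w then A u v * y' v else 0)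
        + (if u = w then (if v = w then A u v else 0) else 0) := by
      intro u v
      split_ifs <;> ring
    simp only [h1, Finset.sum_add_distrib, Finset.sum_sub_distrib, Finset.sum_ite_eq',
      Finset.mem_univ, if_true]
    have h2 : ∀ u, ∑ v, (if u = w then A u v * y' v else 0) =
        if u = w then ∑ v, A u v * y' v else 0 := by
      intro u; split_ifs <;> simp
    have h3 : ∀ u, ∑ v, (if u = w then (if v = w then A u v else 0) else 0) =
        if u = w then A u w else 0 := by
      intro u; split_ifs <;> simp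
    simp only [h2, h3, Finset.sum_ite_eq', Finset.mem_univ, if_true, hAw]
    have h4 : ∑ u, A u w * y' u = ∑ v, A w v * y' v :=
      Finset.sum_congr rfl fun v _ => by rw [hAs]
    rw [h4]
    ring
  have hs4 : -(∑ u, ∑ v, A u v * (y' u * y' v)) ≤ z * ∑ v, y' v ^ 2 := by
    have h1 : -(∑ u, ∑ v, A u v * (y' u * y' v)) ≤
        ∑ u, ∑ v, (A u v * y' u ^ 2 / 2 + A v u * y' v ^ 2 / 2) := by
      rw [← Finset.sum_neg_distrib]
      refine Finset.sum_le_sum fun u _ => ?_
      rw [← Finset.sum_neg_distrib]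
      refine Finset.sum_le_sum fun v _ => ?_
      rw [hAs v u]
      nlinarith [mul_nonneg (hA0 u v) (sq_nonneg (y' u + y' v))]
    have h2 : ∑ u, ∑ v, (A u v * y' u ^ 2 / 2 + A v u * y' v ^ 2 / 2) =
        ∑ u, (∑ v, A u v) * y' u ^ 2 := by
      simp only [Finset.sum_add_distrib]
      rw [Finset.sum_comm (f := fun u v => A v u * y' v ^ 2 / 2), ← Finset.sum_add_distrib]
      refine Finset.sum_congr rfl fun u _ => ?_
      rw [← Finset.sum_add_distrib, Finset.sum_mul]
      refine Finset.sum_congr rfl fun v _ => by ring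
    rw [h2] at h1
    refine h1.trans ?_
    rw [Finset.mul_sum]
    refine Finset.sum_le_sum fun u _ => ?_
    rw [hAsum]
    exact mul_le_mul_of_nonneg_right (hz u) (sq_nonneg _)
  have hs5 : ∑ v, A w v * y' v ≤ ((Fintype.card V : ℝ) - 1 - dg G w) * b := by
    rw [← hAsum, Finset.sum_mul]
    refine Finset.sum_le_sum fun v _ => ?_
    by_cases hv : v = w
    · subst hv; rw [hAw]; simp
    · exact mul_le_mul_of_nonneg_left (hb v hv) (hA0 w v)
  rw [p4g_BF, hs1, hs2]
  have hs3' := hs3
  simp only [hA] at hs3'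
  rw [hs3']
  simp only [hA] at hs4 hs5
  linarith

omit [Fintype V] [DecidableEq V] in
/-- a pairing permutes the set -/
private lemma p4g_sum_pi {U : Finset V} {π : V → V} (hπ : IsPairing U π) (f : V → ℝ) :
    ∑ v ∈ U, f (π v) = ∑ v ∈ U, f v := by
  refine Finset.sum_nbij' π π ?_ ?_ ?_ ?_ ?_
  · intro v hv; exact (hπ v hv).1
  · intro v hv; exact (hπ v hv).1
  · intro v hv; exact (hπ v hv).2.2
  · intro v hv; exact (hπ v hv).2.2
  · intro v _; rfl

/-- P4g: large minimum degree, graph part.
`n` is the order, `δ` the minimum degree, `z = n - 1 - δ`, `δ + x` the maximum degree,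
`Ex` the total excess over `δ`. -/
theorem P4g (K : ℕ) (hK1 : 1 ≤ K) (hodd : Odd (Fintype.card V)) (u w : V)
    (hu : ∀ v, G.degree u ≤ G.degree v) (hw : ∀ v, G.degree v ≤ G.degree w)
    (hn : Fintype.card V ≤ 2 * G.degree u + 1) (hδ : 1 ≤ G.degree u) (hno : ¬ GoodB G K)
    (n δ z x Ex T : ℝ) (hn' : n = Fintype.card V) (hδ' : δ = dg G u) (hz : z = n - 1 - δ)
    (hx : x = dg G w - δ) (hEx : Ex = ∑ v, (dg G v - δ))
    (hT : T = 2 * δ / K * (Ex + n * δ + K * (n - 3) - 2 * K * δ)) :
    T < z * Ex ∧ (1 ≤ z → ∀ V1 S0 eb : ℝ, V1 = (T - x ^ 2) / 2 → eb = (Ex - x) / (n - 1) →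
      S0 = δ - x + 2 * eb → 0 < V1 → 2 / (n - 1) + S0 / V1 * x ≤ 1 →
      n * δ + Ex < K * (2 * (z - x) * (2 / (n - 1) + S0 / V1 * eb) +
        (z - 1) * (4 / (n - 1) + S0 ^ 2 / V1) + 2 * x)) := by
  classical
  have : Nonempty V := ⟨u⟩
  have hKpos : (0 : ℝ) < K := by exact_mod_cast hK1
  have hδ1 : 1 ≤ δ := by rw [hδ']; unfold dg; exact_mod_cast hδ
  have hδpos : 0 < δ := by linarith
  have he0 : ∀ v, 0 ≤ dg G v - δ := by
    intro v
    have : (G.degree u : ℝ) ≤ G.degree v := by exact_mod_cast hu v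
    rw [hδ']; unfold dg; linarith
  have hex : ∀ v, dg G v - δ ≤ x := by
    intro v
    have : (G.degree v : ℝ) ≤ G.degree w := by exact_mod_cast hw v
    rw [hx]; unfold dg; linarith
  have hnz : ∀ v, n - 1 - dg G v ≤ z := by
    intro v
    have := he0 v
    rw [hz]; linarith
  have hdn : ∀ v, dg G v ≤ n - 1 := by
    intro v
    have h := G.degree_lt_card_verts v
    have h' : (G.degree v : ℝ) + 1 ≤ Fintype.card V := by exact_mod_cast h
    rw [hn']; unfold dg; linarith
  have hez : ∀ v, dg G v - δ ≤ z := by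
    intro v
    have := hdn v
    rw [hz]; linarith
  have hsumdg : ∑ v, dg G v = n * δ + Ex := by
    rw [hEx, Finset.sum_sub_distrib, Finset.sum_const, nsmul_eq_mul, hn', Finset.card_univ]
    ring
  have hx0 : 0 ≤ x := by have := he0 w; rw [hx]; exact this
  have hzx : 0 ≤ z - x := by have := hdn w; rw [hz, hx]; linarith
  have hn2 : 2 * δ + 1 ≥ n := by
    rw [hn', hδ']; unfold dg; exact_mod_cast hn
  have hn1 : 2 ≤ n := by have := hdn u; rw [← hδ'] at this; linarith
  -- part one
  obtain ⟨π, hπ, hadj⟩ := near_perfect G u hodd (G.degree u) hn hu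
  have hgap : T < gap2 G {u}ᶜ π := by
    by_contra hcon
    rw [not_lt] at hcon
    apply hno
    refine tie_lemma G {u} (fun _ => 1) (fun v _ => Or.inl rfl) (by simp) π hπ ∅ (by simp)
      (by simp) (by simp) (by simp) (by simp) δ hδpos ?_ K hKpos.le ?_
    · simp only [Finset.sum_singleton, mul_one]
      rw [← hδ', abs_of_pos hδpos]
    · simp only [Finset.sum_singleton, SimpleGraph.irrefl, if_false, Finset.card_empty,
        Nat.cast_zero, sub_zero, zero_sub]
      rw [hsumdg]
      have hadj' : n ≤ adjc G {u}ᶜ π + 3 := by rw [hn']; exact_mod_cast hadj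
      have h1 : gap2 G {u}ᶜ π / (4 * δ) ≤ T / (4 * δ) := by gcongr
      have h2 : T / (4 * δ) = (Ex + n * δ + K * (n - 3) - 2 * K * δ) / (2 * K) := by
        rw [hT]; field_simp; ring
      rw [h2] at h1
      have h3 : K * (2 * (gap2 G {u}ᶜ π / (4 * δ))) ≤
          Ex + n * δ + K * (n - 3) - 2 * K * δ := by
        calc K * (2 * (gap2 G {u}ᶜ π / (4 * δ))) ≤
            K * (2 * ((Ex + n * δ + K * (n - 3) - 2 * K * δ) / (2 * K))) := by gcongr
          _ = Ex + n * δ + K * (n - 3) - 2 * K * δ := by field_simp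
      have h4 : (K : ℝ) * (-(adjc G {u}ᶜ π : ℝ)) ≤ K * (3 - n) := by
        apply mul_le_mul_of_nonneg_left _ hKpos.le
        linarith
      have h5 : (K : ℝ) * (-(adjc G {u}ᶜ π : ℝ) + 2 * (δ + gap2 G {u}ᶜ π / (4 * δ))) =
          K * (-(adjc G {u}ᶜ π : ℝ)) + 2 * K * δ + K * (2 * (gap2 G {u}ᶜ π / (4 * δ))) := by ring
      rw [h5]
      linarith
  refine ⟨?_, ?_⟩
  · refine hgap.trans_le ?_
    have h1 : gap2 G {u}ᶜ π ≤ ∑ v ∈ ({u}ᶜ : Finset V), (dg G v - δ) ^ 2 := by
      unfold gap2
      have h2 : ∑ v ∈ ({u}ᶜ : Finset V), (dg G v - dg G (π v)) ^ 2 ≤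
          ∑ v ∈ ({u}ᶜ : Finset V), ((dg G v - δ) ^ 2 + (dg G (π v) - δ) ^ 2) := by
        refine Finset.sum_le_sum fun v _ => ?_
        nlinarith [mul_nonneg (he0 v) (he0 (π v))]
      rw [Finset.sum_add_distrib, p4g_sum_pi hπ (fun v => (dg G v - δ) ^ 2)] at h2
      linarith
    refine h1.trans ?_
    rw [hEx, Finset.mul_sum]
    refine (Finset.sum_le_univ_sum_of_nonneg fun v => sq_nonneg _).trans ?_
    refine Finset.sum_le_sum fun v _ => ?_
    rw [sq]
    exact mul_le_mul_of_nonneg_right (hez v) (he0 v)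
  · intro hz1 V1 S0 eb hV1 heb hS0 hV1pos hle
    by_contra hcon
    rw [not_lt] at hcon
    apply hno
    set W : Finset V := univ.erase w with hW
    have hn1pos : 0 < n - 1 := by linarith
    have hWcard : (W.card : ℝ) = n - 1 := by
      rw [hW, Finset.card_erase_of_mem (Finset.mem_univ _), Finset.card_univ, hn',
        Nat.cast_sub Fintype.card_pos]
      simp
    have hsplit : ∀ f : V → ℝ, ∑ v, f v = f w + ∑ v ∈ W, f v := fun f =>
      (Finset.add_sum_erase _ _ (Finset.mem_univ w)).symm
    have hWe : ∑ v ∈ W, (dg G v - δ) = Ex - x := by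
      have := hsplit (fun v => dg G v - δ)
      rw [hEx, this, hx]; ring
    have hebn : eb * (n - 1) = Ex - x := by rw [heb]; field_simp
    have heb0 : 0 ≤ eb := by
      rw [heb]
      refine div_nonneg ?_ hn1pos.le
      rw [← hWe]
      exact Finset.sum_nonneg fun v _ => he0 v
    have hebx : eb ≤ x := by
      have h1 : ∑ v ∈ W, (dg G v - δ) ≤ ∑ v ∈ W, x := Finset.sum_le_sum fun v _ => hex v
      rw [Finset.sum_const, nsmul_eq_mul, hWcard, hWe, ← hebn] at h1
      nlinarith
    have hc0 : ∑ v ∈ W, (dg G v - δ - eb) = 0 := by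
      rw [Finset.sum_sub_distrib, hWe, Finset.sum_const, nsmul_eq_mul, hWcard, ← hebn]; ring
    set V2 : ℝ := ∑ v ∈ W, (dg G v - δ - eb) ^ 2 with hV2
    have hcd : ∑ v ∈ W, dg G v * (dg G v - δ - eb) = V2 := by
      have h1 : ∀ v, dg G v * (dg G v - δ - eb) = (dg G v - δ - eb) ^ 2 +
          (δ + eb) * (dg G v - δ - eb) := fun v => by ring
      rw [Finset.sum_congr rfl fun v _ => h1 v, Finset.sum_add_distrib, ← Finset.mul_sum, hc0, hV2]
      ring
    -- the variance is large
    have hV12 : V1 ≤ V2 := by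
      have h1 : gap2 G {u}ᶜ π ≤ 2 * V2 + x ^ 2 := by
        set F : V → ℝ := fun v => if v = w then 0 else (dg G v - δ - eb) ^ 2 with hF
        set I : V → ℝ := fun v => if v = w then x ^ 2 else 0 with hI
        have hF0 : ∀ v, 0 ≤ F v := by
          intro v; simp only [hF]; split_ifs
          · exact le_rfl
          · exact sq_nonneg _
        have hI0 : ∀ v, 0 ≤ I v := by
          intro v; simp only [hI]; split_ifs
          · exact sq_nonneg _
          · exact le_rfl
        have hFs : ∑ v, F v = V2 := by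
          rw [hsplit F]
          simp only [hF, if_true, zero_add, hV2]
          refine Finset.sum_congr rfl fun v hv => ?_
          rw [if_neg (Finset.ne_of_mem_erase hv)]
        have hIs : ∑ v, I v = x ^ 2 := by simp [hI]
        have hb : ∀ v, (dg G v - dg G (π v)) ^ 2 ≤
            (2 * F v + I v) + (2 * F (π v) + I (π v)) := by
          intro v
          have hcase : (dg G v - dg G (π v)) ^ 2 ≤ x ^ 2 := by
            apply sq_le_sq'
            · linarith [he0 v, hex (π v)]
            · linarith [he0 (π v), hex v]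
          by_cases h1 : v = w
          · have hIv : I v = x ^ 2 := by simp [hI, h1]
            linarith [hF0 v, hF0 (π v), hI0 (π v)]
          · by_cases h2 : π v = w
            · have hIv : I (π v) = x ^ 2 := by simp [hI, h2]
              linarith [hF0 v, hF0 (π v), hI0 v]
            · have hFv : F v = (dg G v - δ - eb) ^ 2 := by simp [hF, h1]
              have hFp : F (π v) = (dg G (π v) - δ - eb) ^ 2 := by simp [hF, h2]
              have hid : (dg G v - dg G (π v)) ^ 2 = 2 * (dg G v - δ - eb) ^ 2 +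
                  2 * (dg G (π v) - δ - eb) ^ 2 -
                  (dg G v - δ - eb + (dg G (π v) - δ - eb)) ^ 2 := by ring
              rw [hFv, hFp, hid]
              linarith [hI0 v, hI0 (π v), sq_nonneg (dg G v - δ - eb + (dg G (π v) - δ - eb))]
        have h2 : ∑ v ∈ ({u}ᶜ : Finset V), (dg G v - dg G (π v)) ^ 2 ≤
            ∑ v ∈ ({u}ᶜ : Finset V), ((2 * F v + I v) + (2 * F (π v) + I (π v))) :=
          Finset.sum_le_sum fun v _ => hb v
        rw [Finset.sum_add_distrib, p4g_sum_pi hπ (fun v => 2 * F v + I v)] at h2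
        have h3 : ∑ v ∈ ({u}ᶜ : Finset V), (2 * F v + I v) ≤ ∑ v, (2 * F v + I v) :=
          Finset.sum_le_univ_sum_of_nonneg fun v => by
            have := hF0 v
            have := hI0 v
            positivity
        have h4 : ∑ v, (2 * F v + I v) = 2 * V2 + x ^ 2 := by
          rw [Finset.sum_add_distrib, ← Finset.mul_sum, hFs, hIs]
        unfold gap2
        linarith
      rw [hV1]
      linarith
    have hV2pos : 0 < V2 := lt_of_lt_of_le hV1pos hV12
    have hS0n : 0 ≤ S0 := by
      rw [hS0]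
      have : x ≤ δ := by
        have := hdn w
        rw [hx]; linarith
      linarith
    set lam : ℝ := S0 / V2 with hlam
    have hlam0 : 0 ≤ lam := div_nonneg hS0n hV2pos.le
    have hlamle : lam ≤ S0 / V1 := by
      rw [hlam]
      exact div_le_div_of_nonneg_left hS0n hV1pos hV12
    have hlamV : lam * V2 = S0 := by rw [hlam]; field_simp
    set al : ℝ := 2 / (n - 1) with hal
    have hal0 : 0 ≤ al := by rw [hal]; positivity
    have haln : al * (n - 1) = 2 := by rw [hal]; field_simp
    set y' : V → ℝ := fun v => if v = w then 0 else al - lam * (dg G v - δ - eb) with hy'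
    have hy'w : y' w = 0 := by simp [hy']
    have hy'v : ∀ v, v ≠ w → y' v = al - lam * (dg G v - δ - eb) := by
      intro v hv; simp [hy', hv]
    have hy's : ∑ v, y' v = 2 := by
      rw [hsplit, hy'w, zero_add,
        Finset.sum_congr rfl fun v hv => hy'v v (Finset.ne_of_mem_erase hv),
        Finset.sum_sub_distrib, ← Finset.mul_sum, hc0, Finset.sum_const, nsmul_eq_mul, hWcard]
      linarith
    have hy'2 : ∑ v, y' v ^ 2 = 4 / (n - 1) + lam ^ 2 * V2 := by
      have h1 : ∀ v ∈ W, y' v ^ 2 = al ^ 2 - 2 * al * lam * (dg G v - δ - eb) +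
          lam ^ 2 * (dg G v - δ - eb) ^ 2 := by
        intro v hv
        rw [hy'v v (Finset.ne_of_mem_erase hv)]; ring
      rw [hsplit, hy'w, Finset.sum_congr rfl h1, Finset.sum_add_distrib, Finset.sum_sub_distrib,
        ← Finset.mul_sum, ← Finset.mul_sum, hc0, Finset.sum_const, nsmul_eq_mul, hWcard, ← hV2]
      have h2 : (n - 1) * al ^ 2 = 4 / (n - 1) := by rw [hal]; field_simp; norm_num
      rw [h2]; ring
    have hbound : ∀ v, v ≠ w → |y' v| ≤ 1 := by
      intro v hv
      rw [hy'v v hv]
      have h1 : |dg G v - δ - eb| ≤ x := by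
        rw [abs_le]
        constructor
        · have := he0 v; linarith
        · have := hex v; linarith
      have h2 : |lam * (dg G v - δ - eb)| ≤ S0 / V1 * x := by
        rw [abs_mul, abs_of_nonneg hlam0]
        exact mul_le_mul hlamle h1 (abs_nonneg _) (hlam0.trans hlamle)
      rw [abs_le] at h2 ⊢
      constructor
      · linarith [h2.2]
      · linarith [h2.1]
    set y : V → ℝ := fun v => y' v - if v = w then 1 else 0 with hy
    have hyw : y w = -1 := by simp [hy, hy'w]
    have hyv : ∀ v, v ≠ w → y v = y' v := by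
      intro v hv; simp [hy, hv]
    have hys : ∑ v, y v = 1 := by
      rw [hy, Finset.sum_sub_distrib, hy's]; simp; norm_num
    refine frac_lemma G {w} ∅ (by simp) id (by intro v hv; simp at hv) y ?_ (by simp) ?_ δ (δ + x)
      ?_ ?_ ?_ K hKpos.le ?_
    · intro v hv
      rw [Finset.mem_singleton] at hv
      subst hv
      exact Or.inr hyw
    · intro v
      by_cases hv : v = w
      · subst hv; rw [hyw]; norm_num
      · rw [hyv v hv]; exact hbound v hv
    · intro v _ _
      constructor
      · have := he0 v; linarith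
      · have := hex v; linarith
    · obtain ⟨m, hm⟩ := hodd
      refine ⟨1 - m, ?_⟩
      have h1 : (univ.filter fun v => v ∉ ({w} : Finset V) ∧ v ∉ (∅ : Finset V)) = W := by
        ext v; simp [hW]
      rw [h1, hWcard]
      have h2 : ∑ v ∈ W, y v = 2 := by
        have := hsplit y
        rw [hys, hyw] at this
        linarith
      rw [h2, hn', hm]
      push_cast
      ring
    · rw [hys]; norm_num
    · have hSF : SF G y = 0 := by
        unfold SF
        rw [hsplit, hyw]
        have h1 : ∀ v ∈ W, dg G v * y v = al * (dg G v - δ) + al * δ -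
            lam * (dg G v * (dg G v - δ - eb)) := by
          intro v hv
          rw [hyv v (Finset.ne_of_mem_erase hv), hy'v v (Finset.ne_of_mem_erase hv)]; ring
        rw [Finset.sum_congr rfl h1, Finset.sum_sub_distrib, Finset.sum_add_distrib,
          ← Finset.mul_sum W (fun v => dg G v - δ) al,
          ← Finset.mul_sum W (fun v => dg G v * (dg G v - δ - eb)) lam, hcd, hWe,
          Finset.sum_const, nsmul_eq_mul, hWcard, hlamV, ← hebn, hS0]
        have h2 : al * (eb * (n - 1)) = 2 * eb := by rw [← haln]; ring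
        have h3 : (n - 1) * (al * δ) = 2 * δ := by rw [← haln]; ring
        rw [h2, h3, hx]
        ring
      have hgap0 : gap2 G (∅ : Finset V) id = 0 := by simp [gap2]
      have hsq : √((SF G y) ^ 2 + gap2 G (∅ : Finset V) id + (δ + x - δ) ^ 2) = x := by
        rw [hSF, hgap0]
        have : (0 : ℝ) ^ 2 + 0 + (δ + x - δ) ^ 2 = x ^ 2 := by ring
        rw [this, Real.sqrt_sq hx0]
      rw [hsq, hsumdg]
      refine le_trans ?_ hcon
      apply mul_le_mul_of_nonneg_left _ hKpos.le
      have hBF := p4g_BF_le G y' w z (al + lam * eb) hy'w hy's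
        (fun v => by rw [← hn']; exact hnz v) (fun v hv => by
          rw [hy'v v hv]
          have := mul_nonneg hlam0 (he0 v)
          linarith)
      rw [← hn'] at hBF
      have h1 : n - 1 - dg G w = z - x := by rw [hz, hx]; ring
      rw [h1, hy'2] at hBF
      have h2 : lam ^ 2 * V2 ≤ S0 ^ 2 / V1 := by
        have : lam ^ 2 * V2 = S0 * lam := by rw [← hlamV]; ring
        rw [this, sq, mul_div_assoc]
        exact mul_le_mul_of_nonneg_left hlamle hS0n
      have h3 : lam * eb ≤ S0 / V1 * eb := mul_le_mul_of_nonneg_right hlamle heb0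
      have h4 : 2 * (z - x) * (al + lam * eb) ≤ 2 * (z - x) * (al + S0 / V1 * eb) :=
        mul_le_mul_of_nonneg_left (by linarith) (by linarith)
      have h5 : (z - 1) * (4 / (n - 1) + lam ^ 2 * V2) ≤ (z - 1) * (4 / (n - 1) + S0 ^ 2 / V1) :=
        mul_le_mul_of_nonneg_left (by linarith) (by linarith)
      have hBF' : BF G y y ≤ 2 * (z - x) * (al + lam * eb) +
          (z - 1) * (4 / (n - 1) + lam ^ 2 * V2) := hBF
      linarith

end
end Pool.Agent.Bis
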