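import Pool.Agent.Bis.HubDefs
import Pool.Agent.Bis.Sort
import Pool.Agent.Bis.Pair

/-!
# Judicious bisections: the second sorted strategy and the complete graph
-/

namespace Pool.Agent.Bis
open Finset

section
variable {V : Type} [Fintype V] [DecidableEq V] (G : SimpleGraph V) [DecidableRel G.Adj]

/-- extend a pairing by a sorted pairing of a set of vertices with degrees in `[lo, lo + f]` -/
theorem s2_gap_aux (R Hp : Finset V) (hR : Even R.card) (hdis : Disjoint Hp R) (πh : V → V)
    (hπh : IsPairing Hp πh) (lo f : ℝ) (hf : 0 ≤ f)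
    (hd : ∀ v ∈ R, lo ≤ dg G v ∧ dg G v ≤ lo + f) :
    ∃ π : V → V, IsPairing (Hp ∪ R) π ∧ gap2 G (Hp ∪ R) π ≤ gap2 G Hp πh + f ^ 2 := by
  obtain ⟨π', hπ', hs⟩ := sorted_pairing R hR (dg G) lo (lo + f) hd (by linarith)
  have hnot : ∀ v ∈ R, v ∉ Hp := fun v hv hv' => (Finset.disjoint_left.mp hdis) hv' hv
  refine ⟨fun v => if v ∈ Hp then πh v else π' v, ?_, ?_⟩
  · intro v hv
    rcases Finset.mem_union.mp hv with hv | hv
    · obtain ⟨h1, h2, h3⟩ := hπh v hv
      simp only [hv, if_true, h1]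
      exact ⟨Finset.mem_union_left _ h1, h2, h3⟩
    · obtain ⟨h1, h2, h3⟩ := hπ' v hv
      simp only [hnot v hv, if_false, hnot _ h1]
      exact ⟨Finset.mem_union_right _ h1, h2, h3⟩
  · unfold gap2
    rw [Finset.sum_union hdis]
    have e1 : ∑ v ∈ Hp, (dg G v - dg G (if v ∈ Hp then πh v else π' v)) ^ 2 =
        ∑ v ∈ Hp, (dg G v - dg G (πh v)) ^ 2 := by
      refine Finset.sum_congr rfl fun v hv => ?_
      simp [hv]
    have e2 : ∑ v ∈ R, (dg G v - dg G (if v ∈ Hp then πh v else π' v)) ^ 2 ≤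
        f * ∑ v ∈ R, |dg G v - dg G (π' v)| := by
      rw [Finset.mul_sum]
      refine Finset.sum_le_sum fun v hv => ?_
      simp only [hnot v hv, if_false]
      have h1 := hd v hv
      have h2 := hd _ (hπ' v hv).1
      have h3 : |dg G v - dg G (π' v)| ≤ f := by
        rw [abs_le]; constructor <;> linarith
      rw [← sq_abs, sq]
      exact mul_le_mul_of_nonneg_right h3 (abs_nonneg _)
    have e3 : f * ∑ v ∈ R, |dg G v - dg G (π' v)| ≤ f * (2 * f) := by
      refine mul_le_mul_of_nonneg_left ?_ hf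
      linarith
    rw [e1]
    nlinarith

/-- S2: the second sorted strategy -/
theorem S2 (K : ℕ) (Hb : Finset V) (p w1 : V) (hc : HubCase G K Hb p w1) (πh : V → V)
    (hπh : IsPairing (Hb.erase p) πh) (w2 : V) (hw2 : w2 ∈ Hbᶜ.erase w1)
    (hmax : ∀ w ∈ Hbᶜ.erase w1, G.degree w ≤ G.degree w2) (η : ℝ) (hη0 : 0 ≤ η)
    (hη : EE G K Hb - (dg G w1 - ((K : ℝ) - 1)) - (dg G w2 - ((K : ℝ) - 1)) ≤
      η * ((Hbᶜ.card : ℝ) - 2))
    (hfin : K * (4 + 2 * √((dg G p - dg G w1 - (dg G w2 - ((K : ℝ) - 1)) + η) ^ 2 +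
      gap2 G (Hb.erase p) πh + (dg G w2 - ((K : ℝ) - 1)) ^ 2)) ≤ ∑ v, dg G v) :
    GoodB G K := by
  have hK5 := hc.K5'
  set κ : ℝ := (K : ℝ) - 1 with hκ
  set f : ℝ := dg G w2 - κ with hf
  have hf0 : 0 ≤ f := by
    have := hc.dg_ge w2
    linarith
  have hpH := hc.hp
  have hw1H := hc.hw1
  have hw2' : w2 ≠ w1 ∧ w2 ∉ Hb := by
    rw [Finset.mem_erase, Finset.mem_compl] at hw2
    exact hw2
  obtain ⟨hw21, hw2H⟩ := hw2'
  have hpw1 : p ≠ w1 := fun h => hw1H (h ▸ hpH)
  have hpw2 : p ≠ w2 := fun h => hw2H (h ▸ hpH)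
  have hle21 : dg G w2 ≤ dg G w1 := hc.dg_le_w1 hw2H
  have hDgt := hc.D_gt
  have hrange : ∀ v, v ∉ Hb → v ≠ w1 → κ ≤ dg G v ∧ dg G v ≤ κ + f := by
    intro v hv hv1
    refine ⟨hc.dg_ge v, ?_⟩
    have h1 := hmax v (by rw [Finset.mem_erase, Finset.mem_compl]; exact ⟨hv1, hv⟩)
    have h2 : dg G v ≤ dg G w2 := by unfold dg; exact_mod_cast h1
    rw [hf]; linarith
  have hgh0 : 0 ≤ gap2 G (Hb.erase p) πh := by
    unfold gap2
    have := Finset.sum_nonneg (s := Hb.erase p)
      (f := fun v => (dg G v - dg G (πh v)) ^ 2) (fun v _ => sq_nonneg _)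
    linarith
  -- the final estimate
  have hfinal : ∀ (SP : Finset V) (sp : V → ℝ) (π : V → V),
      (∀ v ∈ SP, sp v = 1 ∨ sp v = -1) → |∑ v ∈ SP, sp v| ≤ 1 → IsPairing SPᶜ π →
      (∑ u ∈ SP, ∑ v ∈ SP, if G.Adj u v then sp u * sp v else 0) ≤ 4 →
      0 ≤ ∑ v ∈ SP, dg G v * sp v → ∑ v ∈ SP, dg G v * sp v ≤ dg G p - dg G w1 - f + η →
      gap2 G SPᶜ π ≤ gap2 G (Hb.erase p) πh + f ^ 2 → GoodB G K := by
    intro SP sp π h1 h2 h3 h4 h5 h6 h7
    refine pair_sqrt G SP sp h1 h2 π h3 K (by linarith) ?_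
    refine le_trans ?_ hfin
    refine mul_le_mul_of_nonneg_left ?_ (by linarith)
    have h8 : √((∑ v ∈ SP, dg G v * sp v) ^ 2 + gap2 G SPᶜ π) ≤
        √((dg G p - dg G w1 - f + η) ^ 2 + gap2 G (Hb.erase p) πh + f ^ 2) := by
      apply Real.sqrt_le_sqrt
      have : (∑ v ∈ SP, dg G v * sp v) ^ 2 ≤ (dg G p - dg G w1 - f + η) ^ 2 :=
        pow_le_pow_left₀ h5 h6 2
      linarith
    have h9 : (0 : ℝ) ≤ adjc G SPᶜ π := Nat.cast_nonneg _
    linarith
  have hpos : ∀ u v, (if G.Adj u v then (1 : ℝ) * 1 else 0) ≤ 1 := by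
    intro u v
    split_ifs <;> norm_num
  have hpos' : ∀ u v, (if G.Adj u v then (-1 : ℝ) * -1 else 0) ≤ 1 := by
    intro u v
    split_ifs <;> norm_num
  have hneg : ∀ u v, (if G.Adj u v then (1 : ℝ) * -1 else 0) ≤ 0 := by
    intro u v
    split_ifs <;> norm_num
  have hneg' : ∀ u v, (if G.Adj u v then (-1 : ℝ) * 1 else 0) ≤ 0 := by
    intro u v
    split_ifs <;> norm_num
  have hNcard : Hbᶜ.card = Fintype.card V - Hb.card := Finset.card_compl _
  have hHle : Hb.card ≤ Fintype.card V := Finset.card_le_univ _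
  set R0 : Finset V := (Hbᶜ.erase w1).erase w2 with hR0
  have hw1c : w1 ∈ Hbᶜ := Finset.mem_compl.mpr hw1H
  have hR0card : R0.card + 2 = Hbᶜ.card := by
    have h1 : (Hbᶜ.erase w1).card + 1 = Hbᶜ.card := Finset.card_erase_add_one hw1c
    have h2 : R0.card + 1 = (Hbᶜ.erase w1).card := Finset.card_erase_add_one hw2
    omega
  have hR0mem : ∀ v, v ∈ R0 ↔ v ≠ w2 ∧ v ≠ w1 ∧ v ∉ Hb := by
    intro v
    rw [hR0, Finset.mem_erase, Finset.mem_erase, Finset.mem_compl]
  have hodd := hc.hodd
  rcases Nat.even_or_odd (Fintype.card V) with hn | hn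
  · -- `n` even
    have hR0odd : Odd R0.card := by
      have h1 : R0.card + 2 + Hb.card = Fintype.card V := by omega
      rw [← h1] at hn
      obtain ⟨a, ha⟩ := hodd
      obtain ⟨b, hb⟩ := hn
      exact ⟨b - a - 2, by omega⟩
    have hR0ne : R0.Nonempty := by
      rw [← Finset.card_pos]
      exact hR0odd.pos
    obtain ⟨u, huR, humin⟩ := Finset.exists_min_image R0 (fun v => dg G v) hR0ne
    obtain ⟨hu2, hu1, huH⟩ := (hR0mem u).mp huR
    have hpu : p ≠ u := fun h => huH (h ▸ hpH)
    -- the excess of `u`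
    have hR0sum : ∑ v ∈ R0, (dg G v - κ) = EE G K Hb - (dg G w1 - κ) - (dg G w2 - κ) := by
      have h1 : ∑ v ∈ Hbᶜ, (dg G v - κ) =
          (dg G w1 - κ) + ∑ v ∈ Hbᶜ.erase w1, (dg G v - κ) := (Finset.add_sum_erase _ _ hw1c).symm
      have h2 : ∑ v ∈ Hbᶜ.erase w1, (dg G v - κ) =
          (dg G w2 - κ) + ∑ v ∈ R0, (dg G v - κ) := (Finset.add_sum_erase _ _ hw2).symm
      unfold EE
      rw [← hκ, h1, h2]; ring
    have hu_le : dg G u - κ ≤ η := by
      have h1 : (R0.card : ℝ) * (dg G u - κ) ≤ ∑ v ∈ R0, (dg G v - κ) := by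
        have := Finset.card_nsmul_le_sum R0 (fun v => dg G v - κ) (dg G u - κ)
          (fun v hv => by have := humin v hv; linarith)
        rwa [nsmul_eq_mul] at this
      have h2 : (R0.card : ℝ) = (Hbᶜ.card : ℝ) - 2 := by
        rw [← hR0card]; push_cast; ring
      rw [← h2] at hη
      have h3 : (R0.card : ℝ) * (dg G u - κ) ≤ R0.card * η := by
        rw [hR0sum] at h1
        linarith
      have h4 : (0 : ℝ) < R0.card := by exact_mod_cast hR0odd.pos
      exact le_of_mul_le_mul_left h3 h4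
    have hu_ge := hc.dg_ge u
    -- the pairing
    have hRe : Even (R0.erase u).card := by
      have h1 : (R0.erase u).card + 1 = R0.card := Finset.card_erase_add_one huR
      obtain ⟨a, ha⟩ := hR0odd
      exact ⟨a, by omega⟩
    have hdis : Disjoint (Hb.erase p) (R0.erase u) := by
      rw [Finset.disjoint_left]
      intro v hv hv'
      exact ((hR0mem v).mp (Finset.mem_of_mem_erase hv')).2.2 (Finset.mem_of_mem_erase hv)
    obtain ⟨π, hπ, hgap⟩ := s2_gap_aux G (R0.erase u) (Hb.erase p) hRe hdis πh hπh κ f hf0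
      (fun v hv => by
        obtain ⟨_, h1, h2⟩ := (hR0mem v).mp (Finset.mem_of_mem_erase hv)
        exact hrange v h2 h1)
    have hSPc : ({p, u, w1, w2} : Finset V)ᶜ = Hb.erase p ∪ R0.erase u := by
      ext v
      simp only [Finset.mem_compl, Finset.mem_insert, Finset.mem_singleton, Finset.mem_union,
        Finset.mem_erase, hR0mem]
      constructor
      · intro h
        push Not at h
        by_cases hv : v ∈ Hb
        · exact Or.inl ⟨h.1, hv⟩
        · exact Or.inr ⟨h.2.1, h.2.2.2, h.2.2.1, hv⟩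
      · rintro (⟨h1, h2⟩ | ⟨h1, h2, h3, h4⟩)
        · rintro (h | h | h | h)
          · exact h1 h
          · exact huH (h ▸ h2)
          · exact hw1H (h ▸ h2)
          · exact hw2H (h ▸ h2)
        · rintro (h | h | h | h)
          · exact h4 (h ▸ hpH)
          · exact h1 h
          · exact h3 h
          · exact h2 h
    rw [← hSPc] at hπ hgap
    have hn1 : p ∉ ({u, w1, w2} : Finset V) := by simp [hpu, hpw1, hpw2]
    have hn2 : u ∉ ({w1, w2} : Finset V) := by simp [hu1, hu2]
    have hn3 : w1 ∉ ({w2} : Finset V) := by simp [hw21.symm]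
    set sp : V → ℝ := fun v => if v = p ∨ v = u then 1 else -1 with hsp
    have s1 : sp p = 1 := by simp [hsp]
    have s2 : sp u = 1 := by simp [hsp]
    have s3 : sp w1 = -1 := by simp [hsp, hpw1.symm, hu1.symm]
    have s4 : sp w2 = -1 := by simp [hsp, hpw2.symm, hu2.symm]
    refine hfinal {p, u, w1, w2} sp π ?_ ?_ hπ ?_ ?_ ?_ hgap
    · intro v _
      by_cases h : v = p ∨ v = u
      · left; simp [hsp, h]
      · right; simp [hsp, h]
    · rw [Finset.sum_insert hn1, Finset.sum_insert hn2, Finset.sum_insert hn3,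
        Finset.sum_singleton, s1, s2, s3, s4]
      norm_num
    · simp only [Finset.sum_insert hn1, Finset.sum_insert hn2, Finset.sum_insert hn3,
        Finset.sum_singleton, s1, s2, s3, s4, SimpleGraph.irrefl, if_false]
      linarith [hpos p u, hpos u p, hpos' w1 w2, hpos' w2 w1, hneg p w1, hneg p w2, hneg u w1,
        hneg u w2, hneg' w1 p, hneg' w2 p, hneg' w1 u, hneg' w2 u]
    · rw [Finset.sum_insert hn1, Finset.sum_insert hn2, Finset.sum_insert hn3,
        Finset.sum_singleton, s1, s2, s3, s4]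
      have := hc.dg_ge u
      linarith
    · rw [Finset.sum_insert hn1, Finset.sum_insert hn2, Finset.sum_insert hn3,
        Finset.sum_singleton, s1, s2, s3, s4]
      rw [hf]
      linarith
  · -- `n` odd
    have hRe : Even R0.card := by
      have h1 : R0.card + 2 + Hb.card = Fintype.card V := by omega
      rw [← h1] at hn
      obtain ⟨a, ha⟩ := hodd
      obtain ⟨b, hb⟩ := hn
      exact ⟨b - a - 1, by omega⟩
    have hdis : Disjoint (Hb.erase p) R0 := by
      rw [Finset.disjoint_left]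
      intro v hv hv'
      exact ((hR0mem v).mp hv').2.2 (Finset.mem_of_mem_erase hv)
    obtain ⟨π, hπ, hgap⟩ := s2_gap_aux G R0 (Hb.erase p) hRe hdis πh hπh κ f hf0
      (fun v hv => by
        obtain ⟨_, h1, h2⟩ := (hR0mem v).mp hv
        exact hrange v h2 h1)
    have hSPc : ({p, w1, w2} : Finset V)ᶜ = Hb.erase p ∪ R0 := by
      ext v
      simp only [Finset.mem_compl, Finset.mem_insert, Finset.mem_singleton, Finset.mem_union,
        Finset.mem_erase, hR0mem]
      constructor
      · intro h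
        push Not at h
        by_cases hv : v ∈ Hb
        · exact Or.inl ⟨h.1, hv⟩
        · exact Or.inr ⟨h.2.2, h.2.1, hv⟩
      · rintro (⟨h1, h2⟩ | ⟨h2, h3, h4⟩)
        · rintro (h | h | h)
          · exact h1 h
          · exact hw1H (h ▸ h2)
          · exact hw2H (h ▸ h2)
        · rintro (h | h | h)
          · exact h4 (h ▸ hpH)
          · exact h3 h
          · exact h2 h
    rw [← hSPc] at hπ hgap
    have hn1 : p ∉ ({w1, w2} : Finset V) := by simp [hpw1, hpw2]
    have hn3 : w1 ∉ ({w2} : Finset V) := by simp [hw21.symm]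
    set sp : V → ℝ := fun v => if v = p then 1 else -1 with hsp
    have s1 : sp p = 1 := by simp [hsp]
    have s3 : sp w1 = -1 := by simp [hsp, hpw1.symm]
    have s4 : sp w2 = -1 := by simp [hsp, hpw2.symm]
    refine hfinal {p, w1, w2} sp π ?_ ?_ hπ ?_ ?_ ?_ hgap
    · intro v _
      by_cases h : v = p
      · left; simp [hsp, h]
      · right; simp [hsp, h]
    · rw [Finset.sum_insert hn1, Finset.sum_insert hn3, Finset.sum_singleton, s1, s3, s4]
      norm_num
    · simp only [Finset.sum_insert hn1, Finset.sum_insert hn3,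
        Finset.sum_singleton, s1, s3, s4, SimpleGraph.irrefl, if_false]
      linarith [hpos' w1 w2, hpos' w2 w1, hneg p w1, hneg p w2, hneg' w1 p, hneg' w2 p]
    · rw [Finset.sum_insert hn1, Finset.sum_insert hn3, Finset.sum_singleton, s1, s3, s4]
      linarith
    · rw [Finset.sum_insert hn1, Finset.sum_insert hn3, Finset.sum_singleton, s1, s3, s4]
      rw [hf]
      have := hc.dg_ge w2
      linarith

/-- P4c: the complete graph on `K` vertices -/
theorem P4c (K : ℕ) (hK : Odd K) (hcard : Fintype.card V = K)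
    (hdeg : ∀ v, K ≤ G.degree v + 1) : GoodB G K := by
  have hd : ∀ v, G.degree v = K - 1 := by
    intro v
    have h1 := hdeg v
    have h2 := G.degree_lt_card_verts v
    omega
  have hK1 : 1 ≤ K := hK.pos
  have hadj : ∀ u v, G.Adj u v ↔ u ≠ v := by
    intro u v
    refine ⟨fun h => h.ne, fun h => ?_⟩
    have h1 : G.neighborFinset u = {u}ᶜ := by
      apply Finset.eq_of_subset_of_card_le
      · intro w hw
        rw [SimpleGraph.mem_neighborFinset] at hw
        rw [Finset.mem_compl, Finset.mem_singleton]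
        exact hw.ne'
      · rw [Finset.card_compl, Finset.card_singleton, SimpleGraph.card_neighborFinset_eq_degree,
          hd, hcard]
    rw [← SimpleGraph.mem_neighborFinset, h1, Finset.mem_compl, Finset.mem_singleton]
    exact h.symm
  obtain ⟨k, hk⟩ := hK
  obtain ⟨S, _, hS⟩ := Finset.exists_subset_card_eq (s := (Finset.univ : Finset V)) (n := k + 1)
    (by rw [Finset.card_univ, hcard]; omega)
  set x : V → ℝ := fun v => if v ∈ S then 1 else -1 with hx
  have hxx : ∀ v, x v = 1 ∨ x v = -1 := by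
    intro v
    by_cases h : v ∈ S
    · left; simp [hx, h]
    · right; simp [hx, h]
  have hsum : ∑ v, x v = 1 := by
    have h1 : ∀ v, x v = 2 * (if v ∈ S then 1 else 0) - 1 := by
      intro v
      by_cases h : v ∈ S
      · simp [hx, h]; norm_num
      · simp [hx, h]
    rw [Finset.sum_congr rfl (fun v _ => h1 v), Finset.sum_sub_distrib, ← Finset.mul_sum]
    simp only [Finset.sum_ite_mem, Finset.univ_inter, Finset.sum_const, Finset.card_univ, hS,
      hcard, hk, nsmul_eq_mul]
    push_cast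
    ring
  have hdg : ∀ v, dg G v = (K : ℝ) - 1 := by
    intro v
    unfold dg
    rw [hd, Nat.cast_sub hK1]
    simp
  have hSF : SF G x = (K : ℝ) - 1 := by
    unfold SF
    rw [Finset.sum_congr rfl (fun v _ => by rw [hdg v]), ← Finset.mul_sum, hsum, mul_one]
  have hBF : BF G x x = 1 - K := by
    unfold BF
    have h1 : ∀ u, (∑ v, if G.Adj u v then x u * x v else 0) = x u * (∑ v, x v) - 1 := by
      intro u
      have h2 : ∀ v, (if G.Adj u v then x u * x v else 0) =
          x u * x v - (if v = u then 1 else 0) := by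
        intro v
        by_cases h : v = u
        · subst h
          have : x v * x v = 1 := by
            rcases hxx v with h | h <;> rw [h] <;> norm_num
          simp [this]
        · have h' : G.Adj u v := (hadj u v).mpr (Ne.symm h)
          simp [h, h']
      rw [Finset.sum_congr rfl (fun v _ => h2 v), Finset.sum_sub_distrib, ← Finset.mul_sum]
      simp
    rw [Finset.sum_congr rfl (fun u _ => h1 u), hsum]
    rw [Finset.sum_sub_distrib]
    simp [hsum, hcard]
  refine ⟨x, hxx, ?_, ?_⟩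
  · rw [hsum]; norm_num
  · rw [hBF, hSF, Finset.sum_congr rfl (fun v _ => hdg v)]
    rw [Finset.sum_const, Finset.card_univ, hcard, nsmul_eq_mul]
    have : (0 : ℝ) ≤ (K : ℝ) - 1 := by
      have : (1 : ℝ) ≤ K := by exact_mod_cast hK1
      linarith
    rw [abs_of_nonneg this]
    ring_nf
    rfl

end

end Pool.Agent.Bis
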